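import Pool.Agent.Lib.H13K.Defs

set_option autoImplicit false

namespace H13K

variable {X : Type} [TopologicalSpace X]

/-- The universal functional with values in the fundamental group.
Proof: choose paths r x from x₀ to x, r x₀ = refl; Φ.val p = class of (r x).trans (p.trans (r y).symm)
(note that in `FundamentalGroup` p * q = q.trans p). -/
theorem exists_univ [PathConnectedSpace X] (x₀ : X) :
    ∃ Φ : PF X (FundamentalGroup X x₀), ∀ p : Path x₀ x₀,
      Φ.val p = FundamentalGroup.fromPath (Path.Homotopic.Quotient.mk p) := by
  classical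
  obtain ⟨r, hr⟩ : ∃ r : ∀ x, Path x₀ x, r x₀ = Path.refl x₀ :=
    ⟨Function.update (fun x => PathConnectedSpace.somePath x₀ x) x₀ (Path.refl x₀),
      Function.update_self _ _ _⟩
  refine ⟨{ val := fun {x y} p => FundamentalGroup.fromPath
              (Path.Homotopic.Quotient.mk ((r x).trans (p.trans (r y).symm)))
            homot := ?_
            trans := ?_ }, ?_⟩
  · intro x y p q h
    have h1 : (Path.Homotopic.Quotient.mk ((r x).trans (p.trans (r y).symm))) =
        Path.Homotopic.Quotient.mk ((r x).trans (q.trans (r y).symm)) :=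
      Path.Homotopic.Quotient.eq.2
        (Path.Homotopic.hcomp (Path.Homotopic.refl _) (Path.Homotopic.hcomp h
          (Path.Homotopic.refl _)))
    exact h1
  · intro x y z p q
    have h1 : (Path.Homotopic.Quotient.mk ((r x).trans ((p.trans q).trans (r z).symm))) =
        (Path.Homotopic.Quotient.mk ((r x).trans (p.trans (r y).symm))).trans
          (Path.Homotopic.Quotient.mk ((r y).trans (q.trans (r z).symm))) := by
      simp only [Path.Homotopic.Quotient.mk_trans, Path.Homotopic.Quotient.mk_symm,
        Path.Homotopic.Quotient.trans_assoc]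
      rw [← Path.Homotopic.Quotient.trans_assoc (Path.Homotopic.Quotient.mk (r y)).symm,
        Path.Homotopic.Quotient.symm_trans, Path.Homotopic.Quotient.refl_trans]
    exact h1
  · intro p
    have h1 : (Path.Homotopic.Quotient.mk ((r x₀).trans (p.trans (r x₀).symm))) =
        Path.Homotopic.Quotient.mk p := by
      rw [hr, Path.refl_symm, Path.Homotopic.Quotient.mk_trans, Path.Homotopic.Quotient.mk_trans,
        Path.Homotopic.Quotient.mk_refl, Path.Homotopic.Quotient.refl_trans,
        Path.Homotopic.Quotient.trans_refl]
    exact h1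

/-- A functional gives a homomorphism on the fundamental group. -/
theorem exists_hom {H : Type} [Group H] (L : PF X H) (x₀ : X) :
    ∃ w : FundamentalGroup X x₀ →* H, ∀ p : Path x₀ x₀,
      w (FundamentalGroup.fromPath (Path.Homotopic.Quotient.mk p)) = L.val p := by
  let f : Path.Homotopic.Quotient x₀ x₀ → H :=
    Quotient.lift (fun p : Path x₀ x₀ => L.val p) (fun p q h => L.homot h)
  have hf : ∀ p : Path x₀ x₀, f (Path.Homotopic.Quotient.mk p) = L.val p := fun p => rfl
  have h1 : f (Path.Homotopic.Quotient.refl x₀) = 1 := by
    rw [← Path.Homotopic.Quotient.mk_refl, hf, L.val_refl]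
  have h2 : ∀ a b : Path.Homotopic.Quotient x₀ x₀, f (b.trans a) = f a * f b := by
    intro a b
    induction a using Path.Homotopic.Quotient.ind with
    | mk a =>
      induction b using Path.Homotopic.Quotient.ind with
      | mk b => rw [← Path.Homotopic.Quotient.mk_trans, hf, hf, hf, L.trans]
  exact ⟨{ toFun := f, map_one' := h1, map_mul' := h2 }, fun p => hf p⟩

/-- For a commutative target the homomorphism and the functional agree on all loops. -/
theorem hom_univ [PathConnectedSpace X] {H : Type} [CommGroup H] (L : PF X H) (x₀ : X)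
    (Φ : PF X (FundamentalGroup X x₀))
    (hΦ : ∀ p : Path x₀ x₀, Φ.val p = FundamentalGroup.fromPath (Path.Homotopic.Quotient.mk p))
    (w : FundamentalGroup X x₀ →* H)
    (hw : ∀ p : Path x₀ x₀, w (FundamentalGroup.fromPath (Path.Homotopic.Quotient.mk p)) = L.val p)
    (x : X) (p : Path x x) : w (Φ.val p) = L.val p := by
  have r : Path x₀ x := PathConnectedSpace.somePath x₀ x
  have h1 := hw (r.trans (p.trans r.symm))
  rw [← hΦ, Φ.trans, Φ.trans, Φ.val_symm, L.trans, L.trans, L.val_symm, map_mul, map_mul,
    map_inv, mul_comm (w (Φ.val r))⁻¹, mul_comm (L.val r)⁻¹, inv_mul_cancel_right,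
    inv_mul_cancel_right] at h1
  exact h1

end H13K
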