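import Pool.Agent.Lib.H13K.Defs2

set_option autoImplicit false

namespace H13K

/-- A nonconstant polynomial has a zero.
Proof: if not, for all z, z' the one variable polynomial t ↦ f (z + t (z' - z)) has no zero, so it
is constant and f z = f z'; then f = C (f 0) by `MvPolynomial.funext`. -/
theorem exists_zero {n : ℕ} (f : MvPolynomial (Fin n) ℂ) (hf : ∀ c : ℂ, f ≠ MvPolynomial.C c) :
    ∃ z, MvPolynomial.eval z f = 0 := by
  by_contra hno
  push Not at hno
  apply hf (MvPolynomial.eval 0 f)
  refine MvPolynomial.funext fun z => ?_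
  rw [MvPolynomial.eval_C]
  have hev : ∀ (t : ℂ) (p : MvPolynomial (Fin n) ℂ),
      Polynomial.eval t (MvPolynomial.eval₂ Polynomial.C (fun i => Polynomial.C (z i) * Polynomial.X) p) =
        MvPolynomial.eval (fun i => z i * t) p := by
    intro t p
    induction p using MvPolynomial.induction_on with
    | C a => simp
    | add p q hp hq => rw [MvPolynomial.eval₂_add, Polynomial.eval_add, hp, hq, map_add]
    | mul_X p i hp =>
      rw [MvPolynomial.eval₂_mul, Polynomial.eval_mul, hp, map_mul, MvPolynomial.eval₂_X, MvPolynomial.eval_X,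
        Polynomial.eval_mul, Polynomial.eval_C, Polynomial.eval_X]
  set q := MvPolynomial.eval₂ Polynomial.C (fun i => Polynomial.C (z i) * Polynomial.X) f with hq
  have hdeg : q.degree = 0 := by
    by_contra hd
    obtain ⟨t, ht⟩ := IsAlgClosed.exists_root q hd
    rw [Polynomial.IsRoot.def, hev] at ht
    exact hno _ ht
  have hqC := Polynomial.eq_C_of_degree_eq_zero hdeg
  have h1 := hev 1 f
  have h0 := hev 0 f
  rw [← hq, hqC, Polynomial.eval_C] at h1 h0
  have e1 : (fun i => z i * 1) = z := by
    funext i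
    ring
  have e0 : (fun i => z i * 0) = 0 := by
    funext i
    simp
  rw [e1] at h1
  rw [e0] at h0
  rw [← h1, ← h0]

/-- The adjacency graph has diameter at most two.
Proof: i ≠ j not adjacent: P i - P j has no zero, so it is a constant.  Let i₀ ≠ j₀ be adjacent.
If P i - P i₀ and P i - P j₀ were both constant, P i₀ - P j₀ would be a constant with a zero, so
P i₀ = P j₀.  So P i - P l is not constant for some l; it has a zero and so has P l - P j. -/
theorem adj_conn {n : ℕ} {ι : Type} (P : ι → MvPolynomial (Fin n) ℂ)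
    (hP : Function.Injective P) (hmeet : ∃ i j, Adj P i j) (i j : ι) (hij : i ≠ j) :
    Adj P i j ∨ ∃ l, Adj P i l ∧ Adj P l j := by
  by_cases hadj : Adj P i j
  · exact Or.inl hadj
  right
  have hmk : ∀ a b, (∀ c : ℂ, P a - P b ≠ MvPolynomial.C c) → Adj P a b := by
    intro a b h
    refine ⟨?_, ?_⟩
    · rintro rfl
      apply h 0
      rw [sub_self, map_zero]
    · obtain ⟨z, hz⟩ := exists_zero _ h
      refine ⟨z, ?_⟩
      rw [map_sub] at hz
      exact sub_eq_zero.1 hz
  have hc : ∃ c : ℂ, P i - P j = MvPolynomial.C c := by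
    by_contra h
    push Not at h
    exact hadj (hmk i j h)
  obtain ⟨c, hc⟩ := hc
  obtain ⟨i₀, j₀, hne, z, hz⟩ := hmeet
  have hl : ∃ l, ∀ c : ℂ, P i - P l ≠ MvPolynomial.C c := by
    by_contra h
    push Not at h
    obtain ⟨a, ha⟩ := h i₀
    obtain ⟨b, hb⟩ := h j₀
    have h1 : P i₀ - P j₀ = MvPolynomial.C (b - a) := by
      rw [map_sub, ← ha, ← hb]
      ring
    have h2 : b - a = 0 := by
      have h3 := congrArg (MvPolynomial.eval z) h1
      rw [map_sub, hz, sub_self, MvPolynomial.eval_C] at h3
      exact h3.symm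
    rw [h2, map_zero] at h1
    exact hne (hP (sub_eq_zero.1 h1))
  obtain ⟨l, hl⟩ := hl
  refine ⟨l, hmk i l hl, hmk l j ?_⟩
  intro d hd
  apply hl (c - d)
  rw [map_sub, ← hc, ← hd]
  ring

end H13K
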