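import Mathlib

set_option autoImplicit false

namespace H13K

private theorem line_finite {n : ℕ} (f : MvPolynomial (Fin n) ℂ) (a b : Fin n → ℂ) {t₀ : ℂ}
    (h : MvPolynomial.eval (fun i => a i + t₀ * (b i - a i)) f ≠ 0) :
    {t : ℂ | MvPolynomial.eval (fun i => a i + t * (b i - a i)) f = 0}.Finite := by
  set g : Polynomial ℂ := MvPolynomial.aeval
    (fun i => Polynomial.C (a i) + Polynomial.X * Polynomial.C (b i - a i)) f with hg
  have hev : ∀ (p : MvPolynomial (Fin n) ℂ) (t : ℂ), (MvPolynomial.aeval
      (fun i => Polynomial.C (a i) + Polynomial.X * Polynomial.C (b i - a i)) p : Polynomial ℂ).eval t =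
      MvPolynomial.eval (fun i => a i + t * (b i - a i)) p := by
    intro p t
    induction p using MvPolynomial.induction_on with
    | C c => simp
    | add p q hp hq => rw [map_add, Polynomial.eval_add, hp, hq, map_add]
    | mul_X p i hp => rw [map_mul, Polynomial.eval_mul, hp, map_mul]; simp
  have hg0 : g ≠ 0 := by
    intro h0
    apply h
    rw [← hev, ← hg, h0, Polynomial.eval_zero]
  refine (Polynomial.finite_setOf_isRoot hg0).subset fun t ht => ?_
  change g.eval t = 0
  rw [hg, hev]
  exact ht

/-- The complement of the zero set of a nonzero polynomial in a convex open set is path connected.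
Proof: nonempty: a nonzero polynomial does not vanish on a nonempty open set (restrict to a real /
complex line through a point where it does not vanish).  Two points a, b off the zero set: the
polynomial t ↦ f (a + t (b - a)) in one complex variable is not zero at t = 0, 1, so it has
finitely many zeros; the arcs t + i r t (1 - t), t in [0,1], r real and small, are disjoint but for their
end points, so one of them avoids the zeros, and for small r it stays in U. -/
theorem pc_compl (n : ℕ) (f : MvPolynomial (Fin n) ℂ) (hf : f ≠ 0) (U : Set (Fin n → ℂ))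
    (hU : Convex ℝ U) (hUo : IsOpen U) (hne : U.Nonempty) :
    IsPathConnected (U \ {z | MvPolynomial.eval z f = 0}) := by
  rw [isPathConnected_iff]
  refine ⟨?_, ?_⟩
  · obtain ⟨u, hu⟩ := hne
    obtain ⟨z₀, hz₀⟩ : ∃ z, MvPolynomial.eval z f ≠ 0 := by
      by_contra hcon
      push Not at hcon
      exact hf (MvPolynomial.funext fun z => by rw [hcon z, map_zero])
    have hfin := line_finite f u z₀ (t₀ := 1) (by
      have : (fun i => u i + 1 * (z₀ i - u i)) = z₀ := by
        funext i
        ring
      rw [this]
      exact hz₀)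
    have hcont : Continuous (fun r : ℝ => (fun i => u i + (r : ℂ) * (z₀ i - u i) : Fin n → ℂ)) := by
      fun_prop
    have hopen : IsOpen {r : ℝ | (fun i => u i + (r : ℂ) * (z₀ i - u i) : Fin n → ℂ) ∈ U} :=
      hUo.preimage hcont
    have h0 : (0 : ℝ) ∈ {r : ℝ | (fun i => u i + (r : ℂ) * (z₀ i - u i) : Fin n → ℂ) ∈ U} := by
      simpa using hu
    have hinf := infinite_of_mem_nhds (0 : ℝ) (hopen.mem_nhds h0)
    have hfin' : {r : ℝ | MvPolynomial.eval (fun i => u i + (r : ℂ) * (z₀ i - u i)) f = 0}.Finite :=
      hfin.preimage (f := fun r : ℝ => (r : ℂ)) Complex.ofReal_injective.injOn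
    obtain ⟨r, hr, hr'⟩ := (hinf.diff hfin').nonempty
    exact ⟨_, hr, hr'⟩
  · rintro a ⟨ha, ha'⟩ b ⟨hb, hb'⟩
    have hfin := line_finite f a b (t₀ := 0) (by simpa using ha')
    set T := {t : ℂ | MvPolynomial.eval (fun i => a i + t * (b i - a i)) f = 0} with hT
    have hT0 : (0 : ℂ) ∉ T := by
      intro h
      apply ha'
      simpa [hT] using h
    have hT1 : (1 : ℂ) ∉ T := by
      intro h
      apply hb'
      simpa [hT] using h
    set R : Set ℝ := {r | ∃ t ∈ Set.Icc (0 : ℝ) 1, (⟨t, r * (t * (1 - t))⟩ : ℂ) ∈ T} with hR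
    have hRf : R.Finite := by
      refine (hfin.image fun τ : ℂ => τ.im / (τ.re * (1 - τ.re))).subset ?_
      rintro r ⟨t, ht, htT⟩
      refine ⟨_, htT, ?_⟩
      have h0 : t ≠ 0 := by
        rintro rfl
        apply hT0
        have : (⟨0, r * (0 * (1 - 0))⟩ : ℂ) = 0 := by
          apply Complex.ext <;> simp
        rwa [this] at htT
      have h1 : 1 - t ≠ 0 := by
        intro h
        have h2 : t = 1 := by linarith
        subst h2
        apply hT1
        have : (⟨1, r * (1 * (1 - 1))⟩ : ℂ) = 1 := by
          apply Complex.ext <;> simp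
        rwa [this] at htT
      change r * (t * (1 - t)) / (t * (1 - t)) = r
      exact mul_div_cancel_right₀ _ (mul_ne_zero h0 h1)
    have hseg : segment ℝ a b ⊆ U := hU.segment_subset ha hb
    have hcomp : IsCompact (segment ℝ a b) := by
      rw [segment_eq_image_lineMap]
      exact isCompact_Icc.image AffineMap.lineMap_continuous
    obtain ⟨ε, hε, hεU⟩ := hcomp.exists_thickening_subset_open hUo hseg
    have hδ : 0 < ε / (‖b - a‖ + 1) := div_pos hε (by positivity)
    obtain ⟨r, hr, hrR⟩ := ((Set.Ioo_infinite hδ).diff hRf).nonempty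
    set γ : ℝ → (Fin n → ℂ) := fun t => fun i => a i + (⟨t, r * (t * (1 - t))⟩ : ℂ) * (b i - a i) with hγ
    refine JoinedIn.ofLine (f := γ) ?_ ?_ ?_ ?_
    · refine Continuous.continuousOn (continuous_pi fun i => ?_)
      have h1 : Continuous (fun t : ℝ => (⟨t, r * (t * (1 - t))⟩ : ℂ)) := by
        have h2 : (fun t : ℝ => (⟨t, r * (t * (1 - t))⟩ : ℂ)) =
            fun t : ℝ => (t : ℂ) + (((r * (t * (1 - t)) : ℝ)) : ℂ) * Complex.I := by
          funext t
          apply Complex.ext <;> simp
        rw [h2]
        fun_prop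
      exact continuous_const.add (h1.mul continuous_const)
    · funext i
      have : (⟨0, r * (0 * (1 - 0))⟩ : ℂ) = 0 := by
        apply Complex.ext <;> simp
      change a i + (⟨0, r * (0 * (1 - 0))⟩ : ℂ) * (b i - a i) = a i
      rw [this, zero_mul, add_zero]
    · funext i
      have : (⟨1, r * (1 * (1 - 1))⟩ : ℂ) = 1 := by
        apply Complex.ext <;> simp
      change a i + (⟨1, r * (1 * (1 - 1))⟩ : ℂ) * (b i - a i) = b i
      rw [this]
      ring
    · rintro _ ⟨t, ht, rfl⟩
      refine ⟨hεU ?_, fun h => hrR ⟨t, ht, h⟩⟩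
      rw [Metric.mem_thickening_iff]
      refine ⟨AffineMap.lineMap a b t, ?_, ?_⟩
      · rw [segment_eq_image_lineMap]
        exact ⟨t, ht, rfl⟩
      · rw [dist_eq_norm]
        have h1 : γ t - AffineMap.lineMap a b t = (((r * (t * (1 - t)) : ℝ) : ℂ) * Complex.I) • (b - a) := by
          funext i
          have h2 : (⟨t, r * (t * (1 - t))⟩ : ℂ) = (t : ℂ) + (((r * (t * (1 - t)) : ℝ)) : ℂ) * Complex.I := by
            apply Complex.ext <;> simp
          rw [hγ]
          simp only [Pi.sub_apply, AffineMap.lineMap_apply, Pi.smul_apply, smul_eq_mul, vsub_eq_sub, vadd_eq_add,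
            Pi.add_apply, Complex.real_smul]
          rw [h2]
          ring
        rw [h1, norm_smul, norm_mul, Complex.norm_I, mul_one, Complex.norm_real, Real.norm_eq_abs]
        have h0 := ht.1
        have h3 := ht.2
        have h4 : |r * (t * (1 - t))| ≤ r := by
          rw [abs_of_nonneg (mul_nonneg hr.1.le (mul_nonneg h0 (by linarith)))]
          have : t * (1 - t) ≤ 1 := by nlinarith
          nlinarith [hr.1]
        have h5 : r * (‖b - a‖ + 1) < ε := by
          rw [← lt_div_iff₀ (by positivity)]
          exact hr.2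
        have h6 : |r * (t * (1 - t))| * ‖b - a‖ ≤ r * ‖b - a‖ := mul_le_mul_of_nonneg_right h4 (norm_nonneg _)
        nlinarith [hr.1]

end H13K
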