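import Pool.Agent.Lib.H13K.Defs2
import Pool.Agent.Lib.H13K.P1

set_option autoImplicit false

namespace H13K

/-- Balls minus the discriminant are path connected: `pc_compl` for the product over i ≠ j of
P i - P j. -/
theorem ball_DD {n : ℕ} {ι : Type} [Finite ι] (P : ι → MvPolynomial (Fin n) ℂ)
    (hP : Function.Injective P) (z : Fin n → ℂ) (r : ℝ) (hr : 0 < r) :
    IsPathConnected (Metric.ball z r \ DD (pg P)) := by
  classical
  haveI := Fintype.ofFinite ι
  set T : Finset (ι × ι) := Finset.univ.filter fun q => q.1 ≠ q.2 with hT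
  have hf : (∏ q ∈ T, (P q.1 - P q.2)) ≠ 0 := by
    rw [Finset.prod_ne_zero_iff]
    intro q hq h
    exact (Finset.mem_filter.1 hq).2 (hP (sub_eq_zero.1 h))
  have h := pc_compl n _ hf (Metric.ball z r) (convex_ball z r) Metric.isOpen_ball
    ⟨z, Metric.mem_ball_self hr⟩
  have hs : {z : Fin n → ℂ | MvPolynomial.eval z (∏ q ∈ T, (P q.1 - P q.2)) = 0} =
      DD (pg P) := by
    ext x
    simp only [Set.mem_setOf_eq, DD, map_prod, Finset.prod_eq_zero_iff, map_sub, sub_eq_zero]
    constructor
    · rintro ⟨q, hq, h⟩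
      exact ⟨q.1, q.2, (Finset.mem_filter.1 hq).2, h⟩
    · rintro ⟨i, j, hij, h⟩
      exact ⟨(i, j), Finset.mem_filter.2 ⟨Finset.mem_univ _, hij⟩, h⟩
  rw [hs] at h
  exact h

/-- The part of the graph i off the other graphs is path connected: `pc_compl` for U = univ and the
product over j ≠ i of P i - P j. -/
theorem pc_i {n : ℕ} {ι : Type} [Finite ι] (P : ι → MvPolynomial (Fin n) ℂ)
    (hP : Function.Injective P) (i : ι) :
    IsPathConnected {z : Fin n → ℂ | ∀ j, j ≠ i → pg P i z ≠ pg P j z} := by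
  classical
  haveI := Fintype.ofFinite ι
  set T : Finset ι := Finset.univ.filter fun j => j ≠ i with hT
  have hf : (∏ j ∈ T, (P i - P j)) ≠ 0 := by
    rw [Finset.prod_ne_zero_iff]
    intro j hj h
    exact (Finset.mem_filter.1 hj).2 (hP (sub_eq_zero.1 h)).symm
  have h := pc_compl n _ hf Set.univ convex_univ isOpen_univ ⟨0, Set.mem_univ _⟩
  have hs : Set.univ \ {z : Fin n → ℂ | MvPolynomial.eval z (∏ j ∈ T, (P i - P j)) = 0} =
      {z : Fin n → ℂ | ∀ j, j ≠ i → pg P i z ≠ pg P j z} := by
    ext x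
    simp only [Set.mem_diff, Set.mem_univ, true_and, Set.mem_setOf_eq, map_prod,
      Finset.prod_eq_zero_iff, map_sub, sub_eq_zero, not_exists, not_and]
    constructor
    · intro h j hj
      exact h j (Finset.mem_filter.2 ⟨Finset.mem_univ _, hj⟩)
    · intro h j hj
      exact h j (Finset.mem_filter.1 hj).2
  rw [hs] at h
  exact h

end H13K
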