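import Pool.Agent.Lib.H13K.Defs

set_option autoImplicit false

open scoped unitInterval

namespace H13K

/-- The exponential map onto the nonzero complex numbers. -/
private theorem t2_cov : IsCoveringMap (fun z : ℂ => (⟨_, z.exp_ne_zero⟩ : {z : ℂ // z ≠ 0})) :=
  Complex.isCoveringMap_exp

/-- two lifts have the same variation -/
private theorem t2_unique (ℓ ℓ' : C(I, ℂ)) (h : ∀ t, Complex.exp (ℓ t) = Complex.exp (ℓ' t)) :
    ℓ 1 - ℓ 0 = ℓ' 1 - ℓ' 0 := by
  have h0 : Complex.exp (ℓ 0 - ℓ' 0) = 1 := by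
    rw [Complex.exp_sub, h 0, div_self (Complex.exp_ne_zero _)]
  have h1 : (fun t => ℓ' t + (ℓ 0 - ℓ' 0)) = (ℓ : I → ℂ) := by
    refine t2_cov.eq_of_comp_eq (by fun_prop) ℓ.continuous ?_ 0 (by ring)
    funext t
    refine Subtype.ext ?_
    simp only [Function.comp_apply]
    rw [Complex.exp_add, h0, mul_one, h t]
  have h2 : ℓ' 1 + (ℓ 0 - ℓ' 0) = ℓ 1 := congrFun h1 1
  rw [← h2]
  ring

/-- the function with values in the nonzero complex numbers -/
private noncomputable def t2_fun {X : Type} [TopologicalSpace X] (f : C(X, ℂ)) (hf : ∀ x, f x ≠ 0) :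
    C(X, {z : ℂ // z ≠ 0}) :=
  ⟨fun x => ⟨f x, hf x⟩, Continuous.subtype_mk f.continuous _⟩

/-- the lift of the image of a path -/
private noncomputable def t2_lift {X : Type} [TopologicalSpace X] (f : C(X, ℂ))
    (hf : ∀ x, f x ≠ 0) {x y : X} (p : Path x y) : C(I, ℂ) :=
  t2_cov.liftPath (p.map (t2_fun f hf).continuous).toContinuousMap (Complex.log (f x)) (by
    refine Subtype.ext ?_
    simp [t2_fun, Complex.exp_log (hf x)])

private theorem t2_lift_exp {X : Type} [TopologicalSpace X] (f : C(X, ℂ))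
    (hf : ∀ x, f x ≠ 0) {x y : X} (p : Path x y) (t : I) :
    Complex.exp (t2_lift f hf p t) = f (p t) := by
  have h := t2_cov.liftPath_lifts (p.map (t2_fun f hf).continuous).toContinuousMap
    (Complex.log (f x)) (by
      refine Subtype.ext ?_
      simp [t2_fun, Complex.exp_log (hf x)])
  have h2 := congrArg Subtype.val (congrFun h t)
  exact h2

private theorem t2_half (t : I) : (t : ℝ) / 2 ∈ I := by
  obtain ⟨h1, h2⟩ := t.2
  constructor <;> linarith

private theorem t2_half' (t : I) : (1 + (t : ℝ)) / 2 ∈ I := by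
  obtain ⟨h1, h2⟩ := t.2
  constructor <;> linarith

/-- The variation of the logarithm of a nowhere vanishing function along paths.
Proof: lift the path through `Complex.isCoveringMap_exp` (liftPath; two lifts differ by a constant
multiple of 2 pi i), homotopy invariance: `liftPath_apply_one_eq_of_homotopicRel`; for trans the
lift of p.trans q is glued. -/
theorem exists_log {X : Type} [TopologicalSpace X] (f : C(X, ℂ)) (hf : ∀ x, f x ≠ 0) :
    ∃ L : PF X (Multiplicative ℂ), ∀ {x y : X} (p : Path x y) (ℓ : C(I, ℂ)),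
      (∀ t, Complex.exp (ℓ t) = f (p t)) → (L.val p).toAdd = ℓ 1 - ℓ 0 := by
  have key : ∀ {x y : X} (p : Path x y) (ℓ : C(I, ℂ)), (∀ t, Complex.exp (ℓ t) = f (p t)) →
      t2_lift f hf p 1 - t2_lift f hf p 0 = ℓ 1 - ℓ 0 := by
    intro x y p ℓ hℓ
    exact t2_unique _ _ fun t => by rw [t2_lift_exp, hℓ]
  refine ⟨⟨fun p => Multiplicative.ofAdd (t2_lift f hf p 1 - t2_lift f hf p 0), ?_, ?_⟩, ?_⟩
  · intro x y p q h
    have h1 := t2_cov.liftPath_apply_one_eq_of_homotopicRel
      (γ₀ := (p.map (t2_fun f hf).continuous).toContinuousMap)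
      (γ₁ := (q.map (t2_fun f hf).continuous).toContinuousMap)
      (h.map (t2_fun f hf)) (Complex.log (f x)) (by
        refine Subtype.ext ?_
        simp [t2_fun, Complex.exp_log (hf x)]) (by
        refine Subtype.ext ?_
        simp [t2_fun, Complex.exp_log (hf x)])
    have h2 : t2_lift f hf p 1 = t2_lift f hf q 1 := h1
    have h3 : t2_lift f hf p 0 = Complex.log (f x) := t2_cov.liftPath_zero _ _ _
    have h4 : t2_lift f hf q 0 = Complex.log (f x) := t2_cov.liftPath_zero _ _ _
    rw [h2, h3, h4]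
  · intro x y z p q
    set ℓ := t2_lift f hf (p.trans q) with hℓ
    have e1 := key p ⟨fun t => ℓ ⟨(t : ℝ) / 2, t2_half t⟩, by fun_prop⟩ (fun t => by
      simp only [ContinuousMap.coe_mk]
      rw [hℓ, t2_lift_exp, Path.trans_apply]
      obtain ⟨t1, t2⟩ := t.2
      rw [dif_pos (by simp only; linarith)]
      congr 2
      refine Subtype.ext ?_
      simp only
      ring)
    have e2 := key q ⟨fun t => ℓ ⟨(1 + (t : ℝ)) / 2, t2_half' t⟩, by fun_prop⟩ (fun t => by
      simp only [ContinuousMap.coe_mk]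
      rw [hℓ, t2_lift_exp, Path.trans_apply]
      obtain ⟨t1, t2⟩ := t.2
      by_cases ht : (1 + (t : ℝ)) / 2 ≤ 1 / 2
      · have ht0 : t = 0 := Subtype.ext (by
          have : (t : ℝ) = 0 := by linarith
          simpa using this)
        subst ht0
        rw [dif_pos (by simp)]
        have : (⟨2 * ((1 + ((0 : I) : ℝ)) / 2), by simp⟩ : I) = 1 := Subtype.ext (by simp)
        simp only at this ⊢
        rw [q.source]
        simp
      · rw [dif_neg (by simpa using ht)]
        congr 2
        refine Subtype.ext ?_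
        simp only
        ring)
    have e3 : t2_lift f hf q 1 - t2_lift f hf q 0 + (t2_lift f hf p 1 - t2_lift f hf p 0)
        = ℓ 1 - ℓ 0 := by
      rw [e1, e2]
      simp only [ContinuousMap.coe_mk]
      have a1 : (⟨(1 + ((1 : I) : ℝ)) / 2, t2_half' 1⟩ : I) = 1 := Subtype.ext (by simp)
      have a2 : (⟨(1 + ((0 : I) : ℝ)) / 2, t2_half' 0⟩ : I) = ⟨((1 : I) : ℝ) / 2, t2_half 1⟩ :=
        Subtype.ext (by simp)
      have a3 : (⟨((0 : I) : ℝ) / 2, t2_half 0⟩ : I) = 0 := Subtype.ext (by simp)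
      rw [a1, a2, a3]
      ring
    rw [← ofAdd_add, e3]
  · intro x y p ℓ hℓ
    exact key p ℓ hℓ

end H13K
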