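import Mathlib

set_option autoImplicit false

open scoped unitInterval

namespace H13K

/-- A closed path can be moved off a thin set by a small uniform perturbation.
Proof: uniform continuity: N with ‖z s - z t‖ < ε/4 for |s - t| ≤ 1/N; points q_j in
ball (z (j/N)) (ε/4) off D, q_N = q_0; join q_j to q_(j+1) in ball (z (j/N)) (ε/2) off D; glue
(induction on the number of pieces, `Continuous.if_le`). -/
theorem approx {E : Type} [NormedAddCommGroup E] [NormedSpace ℝ E] (D : Set E)
    (hD : ∀ (z : E) (r : ℝ), 0 < r → IsPathConnected (Metric.ball z r \ D))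
    (z : C(I, E)) (hz : z 0 = z 1) (ε : ℝ) (hε : 0 < ε) :
    ∃ z' : C(I, E), z' 0 = z' 1 ∧ ∀ t, ‖z' t - z t‖ < ε ∧ z' t ∉ D := by
  classical
  obtain ⟨Z, hZ⟩ : ∃ Z : ℝ → E, Z = fun t => z (Set.projIcc 0 1 zero_le_one t) := ⟨_, rfl⟩
  have hZI : ∀ t : I, Z t = z t := by
    intro t
    rw [hZ]
    simp only [Set.projIcc_val]
  obtain ⟨δ, hδ, hδ'⟩ : ∃ δ > 0, ∀ s t : ℝ, |s - t| < δ → ‖Z s - Z t‖ < ε / 4 := by
    have huc := CompactSpace.uniformContinuous_of_continuous z.continuous
    rw [Metric.uniformContinuous_iff] at huc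
    obtain ⟨δ, hδ, h⟩ := huc (ε / 4) (by positivity)
    refine ⟨δ, hδ, fun s t hst => ?_⟩
    have h1 : dist (Set.projIcc (0 : ℝ) 1 zero_le_one s) (Set.projIcc 0 1 zero_le_one t) < δ := by
      rw [Subtype.dist_eq, Real.dist_eq]
      exact lt_of_le_of_lt (Set.abs_projIcc_sub_projIcc zero_le_one) hst
    have h2 := h h1
    rw [dist_eq_norm] at h2
    rw [hZ]
    exact h2
  obtain ⟨N, hN⟩ := exists_nat_one_div_lt hδ
  obtain ⟨h, hh⟩ : ∃ h : ℝ, h = 1 / ((N : ℝ) + 1) := ⟨_, rfl⟩
  have hpos : 0 < h := by rw [hh]; positivity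
  have hlt : h < δ := by rw [hh]; exact hN
  have hend : ((N + 1 : ℕ) : ℝ) * h = 1 := by
    rw [hh]; push_cast; field_simp
  have hq : ∀ j : ℕ, ∃ q, q ∈ Metric.ball (Z (j * h)) (ε / 4) \ D :=
    fun j => (hD _ _ (by positivity)).nonempty
  choose q0 hq0 using hq
  obtain ⟨q, hqd⟩ : ∃ q : ℕ → E, q = fun j => if j = N + 1 then q0 0 else q0 j := ⟨_, rfl⟩
  have hZ01 : Z 0 = Z 1 := by
    have e0 : Z ((0 : I) : ℝ) = z 0 := hZI 0
    have e1 : Z ((1 : I) : ℝ) = z 1 := hZI 1
    rw [Set.Icc.coe_zero] at e0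
    rw [Set.Icc.coe_one] at e1
    rw [e0, e1, hz]
  have hqm : ∀ j : ℕ, q j ∈ Metric.ball (Z (j * h)) (ε / 4) \ D := by
    intro j
    by_cases hj : j = N + 1
    · have h0 := hq0 0
      rw [hqd]
      simp only [hj, if_true]
      rw [hend, ← hZ01]
      simpa using h0
    · rw [hqd]
      simp only [hj, if_false]
      exact hq0 j
  have hq0N : q 0 = q (N + 1) := by
    rw [hqd]
    simp
  have key : ∀ j : ℕ, ∃ f : ℝ → E, Continuous f ∧ f 0 = q 0 ∧ f (j * h) = q j ∧
      ∀ t ∈ Set.Icc (0 : ℝ) (j * h), ‖f t - Z t‖ < ε ∧ f t ∉ D := by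
    intro j
    induction j with
    | zero =>
      refine ⟨fun _ => q 0, continuous_const, rfl, rfl, ?_⟩
      intro t ht
      have ht0 : t = 0 := by
        have h1 := ht.1
        have h2 := ht.2
        simp only [Nat.cast_zero, zero_mul] at h2
        linarith
      have h0 := hqm 0
      simp only [Nat.cast_zero, zero_mul] at h0
      subst ht0
      refine ⟨?_, h0.2⟩
      have h3 := h0.1
      rw [Metric.mem_ball, dist_eq_norm] at h3
      linarith
    | succ j ih =>
      obtain ⟨f, hf, hf0, hfj, hft⟩ := ih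
      have hstep : ((j + 1 : ℕ) : ℝ) * h - j * h = h := by push_cast; ring
      have m1 : q j ∈ Metric.ball (Z (j * h)) (ε / 2) \ D := by
        refine ⟨?_, (hqm j).2⟩
        have h3 := (hqm j).1
        rw [Metric.mem_ball] at h3 ⊢
        linarith
      have m2 : q (j + 1) ∈ Metric.ball (Z (j * h)) (ε / 2) \ D := by
        refine ⟨?_, (hqm (j + 1)).2⟩
        have h3 := (hqm (j + 1)).1
        rw [Metric.mem_ball] at h3 ⊢
        have h4 : ‖Z (((j + 1 : ℕ) : ℝ) * h) - Z (j * h)‖ < ε / 4 := by
          apply hδ'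
          rw [hstep, abs_of_pos hpos]
          exact hlt
        have h5 := dist_triangle (q (j + 1)) (Z (((j + 1 : ℕ) : ℝ) * h)) (Z (j * h))
        rw [dist_eq_norm (Z (((j + 1 : ℕ) : ℝ) * h))] at h5
        linarith
      have hJ := (hD (Z (j * h)) (ε / 2) (by positivity)).joinedIn _ m1 _ m2
      obtain ⟨γ, hγ⟩ := hJ
      have hcont : Continuous fun t : ℝ => γ.extend ((t - j * h) / h) := by
        have := γ.continuous_extend
        fun_prop
      refine ⟨fun t => if t ≤ j * h then f t else γ.extend ((t - j * h) / h), ?_, ?_, ?_, ?_⟩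
      · apply Continuous.if_le hf hcont continuous_id continuous_const
        intro t ht
        have ht' : t = j * h := ht
        rw [ht', hfj, sub_self, zero_div, γ.extend_zero]
      · have h0 : (0 : ℝ) ≤ j * h := by positivity
        simp only [h0, if_true]
        exact hf0
      · have h1 : ¬ (((j + 1 : ℕ) : ℝ) * h ≤ j * h) := by
          intro h2
          linarith
        simp only [h1, if_false]
        rw [hstep, div_self hpos.ne', γ.extend_one]
      · intro t ht
        by_cases htj : t ≤ j * h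
        · simp only [htj, if_true]
          exact hft t ⟨ht.1, htj⟩
        · simp only [htj, if_false]
          have htj' : (j : ℝ) * h < t := not_le.mp htj
          have hu : (t - j * h) / h ∈ Set.Icc (0 : ℝ) 1 := by
            constructor
            · apply div_nonneg _ hpos.le
              linarith
            · rw [div_le_one hpos]
              have := ht.2
              linarith
          rw [γ.extend_apply hu]
          have hm := hγ ⟨(t - j * h) / h, hu⟩
          refine ⟨?_, hm.2⟩
          have h3 := hm.1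
          rw [Metric.mem_ball, dist_eq_norm] at h3
          have h4 : ‖Z (j * h) - Z t‖ < ε / 4 := by
            apply hδ'
            rw [abs_lt]
            have := ht.2
            constructor <;> linarith
          have h5 := norm_sub_le_norm_sub_add_norm_sub (γ ⟨(t - j * h) / h, hu⟩) (Z (j * h)) (Z t)
          linarith
  obtain ⟨f, hf, hf0, hf1, hft⟩ := key (N + 1)
  rw [hend] at hf1 hft
  refine ⟨⟨fun t => f t, by fun_prop⟩, ?_, ?_⟩
  · show f ((0 : I) : ℝ) = f ((1 : I) : ℝ)
    rw [Set.Icc.coe_zero, Set.Icc.coe_one, hf0, hf1, hq0N]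
  · intro t
    show ‖f t - z t‖ < ε ∧ f t ∉ D
    have := hft t ⟨t.2.1, t.2.2⟩
    rw [hZI] at this
    exact this

end H13K
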