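import Mathlib

set_option autoImplicit false

open scoped unitInterval

namespace H13K

/-- Perturbation: ℓ' t = ℓ t + log (1 + δ t / f t). -/
theorem log_perturb (f δ : C(I, ℂ)) (h : ∀ t, ‖δ t‖ < ‖f t‖) (hf : f 0 = f 1) (hδ : δ 0 = δ 1)
    (ℓ : C(I, ℂ)) (hℓ : ∀ t, Complex.exp (ℓ t) = f t) :
    ∃ ℓ' : C(I, ℂ), (∀ t, Complex.exp (ℓ' t) = f t + δ t) ∧ ℓ' 1 - ℓ' 0 = ℓ 1 - ℓ 0 := by
  have hf0 : ∀ t, f t ≠ 0 := fun t => by rw [← hℓ t]; exact Complex.exp_ne_zero _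
  have hs : ∀ t, 1 + δ t / f t ∈ Complex.slitPlane := fun t => by
    apply Complex.mem_slitPlane_of_norm_lt_one
    rw [norm_div, div_lt_one (norm_pos_iff.2 (hf0 t))]
    exact h t
  have hc : Continuous fun t : I => Complex.log (1 + δ t / f t) := by
    refine Continuous.clog ?_ hs
    exact continuous_const.add (δ.continuous.div f.continuous hf0)
  refine ⟨⟨fun t => ℓ t + Complex.log (1 + δ t / f t), ℓ.continuous.add hc⟩, ?_, ?_⟩
  · intro t
    simp only [ContinuousMap.coe_mk]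
    rw [Complex.exp_add, hℓ, Complex.exp_log (Complex.slitPlane_ne_zero (hs t))]
    field_simp [hf0 t]
  · simp only [ContinuousMap.coe_mk]
    rw [hf, hδ]
    ring

/-- The logarithm of a polynomial on a small circle around the origin.
Proof: Q = X ^ k * u with k = rootMultiplicity 0, u(0) ≠ 0; for small ε, |u(s) - u(0)| < |u(0)| on
|s| ≤ ε; ℓ t = k (log ε + 2 pi i t) + log (u(0)) + log (u(ε e(t)) / u(0)), the last argument lies
in the slit plane (distance < 1 from 1) and is equal at t = 0, 1. -/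
theorem log_poly (Q : Polynomial ℂ) (hQ : Q ≠ 0) : ∃ ε₀ : ℝ, 0 < ε₀ ∧ ∀ ε : ℝ, 0 < ε → ε < ε₀ →
    ∃ ℓ : C(I, ℂ), (∀ t, Complex.exp (ℓ t) =
      Q.eval ((ε : ℂ) * Complex.exp (2 * Real.pi * (t : ℝ) * Complex.I))) ∧
      ℓ 1 - ℓ 0 = 2 * Real.pi * Complex.I * (Q.rootMultiplicity 0 : ℂ) := by
  obtain ⟨u, hu, hnd⟩ := Polynomial.exists_eq_pow_rootMultiplicity_mul_and_not_dvd Q hQ 0
  set k := Q.rootMultiplicity 0 with hk
  have hu0 : u.eval 0 ≠ 0 := fun h => hnd (Polynomial.dvd_iff_isRoot.2 h)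
  have hcont : ContinuousAt (fun s : ℂ => u.eval s) 0 := u.continuous.continuousAt
  obtain ⟨ε₀, hε₀, hball⟩ := Metric.continuousAt_iff.1 hcont ‖u.eval 0‖ (norm_pos_iff.2 hu0)
  refine ⟨ε₀, hε₀, fun ε hε hlt => ?_⟩
  have hε0 : (ε : ℂ) ≠ 0 := by exact_mod_cast hε.ne'
  have hnorm : ∀ t : I, ‖(ε : ℂ) * Complex.exp (2 * Real.pi * (t : ℝ) * Complex.I)‖ = ε := by
    intro t
    rw [norm_mul, Complex.norm_real, Real.norm_of_nonneg hε.le]
    have : (2 * Real.pi * (t : ℝ) * Complex.I : ℂ) = ((2 * Real.pi * (t : ℝ) : ℝ) : ℂ) * Complex.I := by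
      push_cast; ring
    rw [this, Complex.norm_exp_ofReal_mul_I, mul_one]
  have he1 : Complex.exp (2 * Real.pi * ((1 : I) : ℝ) * Complex.I) =
      Complex.exp (2 * Real.pi * ((0 : I) : ℝ) * Complex.I) := by
    simp [Complex.exp_two_pi_mul_I]
  have hev : ∀ s : ℂ, Q.eval s = s ^ k * u.eval s := fun s => by
    conv_lhs => rw [hu]
    simp
  let s : C(I, ℂ) := ⟨fun t => (ε : ℂ) * Complex.exp (2 * Real.pi * (t : ℝ) * Complex.I), by fun_prop⟩
  have hst : ∀ t, s t = (ε : ℂ) * Complex.exp (2 * Real.pi * (t : ℝ) * Complex.I) := fun t => rfl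
  have hs01 : s 0 = s 1 := by rw [hst, hst, he1]
  have hs0 : ∀ t, s t ≠ 0 := fun t => mul_ne_zero hε0 (Complex.exp_ne_zero _)
  let f : C(I, ℂ) := ⟨fun t => s t ^ k * u.eval 0, by fun_prop⟩
  let δ : C(I, ℂ) := ⟨fun t => s t ^ k * (u.eval (s t) - u.eval 0),
    (s.continuous.pow k).mul ((u.continuous.comp s.continuous).sub continuous_const)⟩
  let ℓ : C(I, ℂ) := ⟨fun t => (k : ℂ) * (Complex.log ε + 2 * Real.pi * (t : ℝ) * Complex.I) +
    Complex.log (u.eval 0), by fun_prop⟩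
  have hf : f 0 = f 1 := by
    show s 0 ^ k * u.eval 0 = s 1 ^ k * u.eval 0
    rw [hs01]
  have hδ : δ 0 = δ 1 := by
    show s 0 ^ k * (u.eval (s 0) - u.eval 0) = s 1 ^ k * (u.eval (s 1) - u.eval 0)
    rw [hs01]
  have hℓ : ∀ t, Complex.exp (ℓ t) = f t := by
    intro t
    show Complex.exp ((k : ℂ) * (Complex.log ε + 2 * Real.pi * (t : ℝ) * Complex.I) +
      Complex.log (u.eval 0)) = s t ^ k * u.eval 0
    rw [Complex.exp_add, Complex.exp_log hu0, Complex.exp_nat_mul, Complex.exp_add,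
      Complex.exp_log hε0, hst]
  have hlt' : ∀ t, ‖δ t‖ < ‖f t‖ := by
    intro t
    show ‖s t ^ k * (u.eval (s t) - u.eval 0)‖ < ‖s t ^ k * u.eval 0‖
    rw [norm_mul, norm_mul]
    apply mul_lt_mul_of_pos_left _ (norm_pos_iff.2 (pow_ne_zero k (hs0 t)))
    have := @hball (s t) (by rw [dist_zero_right, hst, hnorm]; exact hlt)
    rwa [dist_eq_norm] at this
  obtain ⟨ℓ', h1, h2⟩ := log_perturb f δ hlt' hf hδ ℓ hℓ
  refine ⟨ℓ', ?_, ?_⟩
  · intro t
    rw [h1, ← hst, hev]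
    show s t ^ k * u.eval 0 + s t ^ k * (u.eval (s t) - u.eval 0) = s t ^ k * u.eval (s t)
    ring
  · rw [h2]
    show ((k : ℂ) * (Complex.log ε + 2 * Real.pi * ((1 : I) : ℝ) * Complex.I) +
      Complex.log (u.eval 0)) - ((k : ℂ) * (Complex.log ε + 2 * Real.pi * ((0 : I) : ℝ) * Complex.I) +
      Complex.log (u.eval 0)) = 2 * Real.pi * Complex.I * (k : ℂ)
    simp
    ring

end H13K
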