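import Pool.Agent.Lib.H13K.Defs2
import Pool.Agent.Lib.H13K.T6a

set_option autoImplicit false

open scoped unitInterval

namespace H13K

/-- Winding numbers of a meridian.
Proof: l = i: ℓ t = log a + 2 pi i t.  l ≠ i: `log_perturb` with f constant g i z - g l z (ℓ
constant), δ t = a e(t). -/
theorem mer_log {E : Type} [NormedAddCommGroup E] [NormedSpace ℝ E] {ι : Type} [DecidableEq ι]
    (g : ι → C(E, ℂ)) (i : ι) (z : E) (a : ℂ) (h : Adm g i z a) (l : ι) :
    ∃ ℓ : C(I, ℂ), (∀ t, Complex.exp (ℓ t) =
      (mer g i z a h t).1.2 - g l (mer g i z a h t).1.1) ∧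
      ℓ 1 - ℓ 0 = if l = i then 2 * Real.pi * Complex.I else 0 := by
  have hm1 : ∀ t : I, (mer g i z a h t).1.1 = z := fun t => rfl
  have hm2 : ∀ t : I, (mer g i z a h t).1.2 =
      g i z + a * Complex.exp (2 * Real.pi * (t : ℝ) * Complex.I) := fun t => rfl
  by_cases hl : l = i
  · subst hl
    refine ⟨⟨fun t => Complex.log a + 2 * Real.pi * (t : ℝ) * Complex.I, by fun_prop⟩, ?_, ?_⟩
    · intro t
      rw [hm1, hm2]
      simp only [ContinuousMap.coe_mk]
      rw [Complex.exp_add, Complex.exp_log h.1]
      ring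
    · simp
  · have hc : (0 : ℝ) < ‖g i z - g l z‖ := lt_of_le_of_lt (norm_nonneg a) (h.2 l hl)
    have hc0 : g i z - g l z ≠ 0 := norm_pos_iff.1 hc
    obtain ⟨ℓ', h1, h2⟩ := log_perturb (ContinuousMap.const I (g i z - g l z))
      ⟨fun t : I => a * Complex.exp (2 * Real.pi * (t : ℝ) * Complex.I), by fun_prop⟩
      (by
        intro t
        simp only [ContinuousMap.coe_mk, ContinuousMap.const_apply]
        rw [norm_mul, norm_circ, mul_one]
        exact h.2 l hl)
      rfl
      (by
        simp [Complex.exp_two_pi_mul_I])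
      (ContinuousMap.const I (Complex.log (g i z - g l z)))
      (by
        intro t
        simp only [ContinuousMap.const_apply]
        exact Complex.exp_log hc0)
    refine ⟨ℓ', ?_, ?_⟩
    · intro t
      rw [h1, hm1, hm2]
      simp only [ContinuousMap.coe_mk, ContinuousMap.const_apply]
      ring
    · rw [h2, if_neg hl]
      simp

end H13K
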