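import Pool.Agent.Lib.H13K.Defs2
import Pool.Agent.Lib.H13K.T6a

set_option autoImplicit false

open scoped unitInterval

namespace H13K

private theorem t6c_cast {X : Type} [TopologicalSpace X] {x y x' y' : X} {p q : Path x y} (h : p.Homotopic q)
    (hx : x' = x) (hy : y' = y) : (p.cast hx hy).Homotopic (q.cast hx hy) := by
  subst hx hy
  exact h

private theorem t6c_trans {X : Type} [TopologicalSpace X] {x y z x' y' z' : X} (p : Path x y) (q : Path y z)
    (p' : Path x' y') (q' : Path y' z') (hx : x' = x) (hz : z' = z) (hp : ∀ t, p' t = p t) (hq : ∀ t, q' t = q t) :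
    p'.trans q' = (p.trans q).cast hx hz := by
  ext t
  rw [Path.cast_coe, Path.trans_apply, Path.trans_apply]
  split_ifs
  · exact hp _
  · exact hq _

/-- the one variable polynomial on the line -/
private theorem t6c_line {n : ℕ} (R : MvPolynomial (Fin n) ℂ) (z₀ v : Fin n → ℂ) :
    ∃ Q : Polynomial ℂ, ∀ s : ℂ, Q.eval s = MvPolynomial.eval (z₀ + s • v) R := by
  refine ⟨MvPolynomial.aeval (fun k => Polynomial.C (z₀ k) + Polynomial.X * Polynomial.C (v k)) R, fun s => ?_⟩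
  have h : (Polynomial.aeval s).comp
      (MvPolynomial.aeval (R := ℂ) (fun k => Polynomial.C (z₀ k) + Polynomial.X * Polynomial.C (v k))) =
      MvPolynomial.aeval (R := ℂ) (z₀ + s • v) := by
    apply MvPolynomial.algHom_ext
    intro k
    simp
    exact mul_comm _ _
  have h1 := congrArg (fun φ => φ R) h
  simp only [AlgHom.comp_apply] at h1
  rw [Polynomial.coe_aeval_eq_eval] at h1
  rw [h1]
  rw [MvPolynomial.aeval_eq_eval]

private theorem t6c_small {ι : Type} [Finite ι] (f : ι → ℝ) (hf : ∀ l, 0 < f l) : ∃ ε : ℝ, 0 < ε ∧ ∀ l, ε < f l := by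
  classical
  have := Fintype.ofFinite ι
  rcases isEmpty_or_nonempty ι with h | h
  · exact ⟨1, one_pos, fun l => (h.false l).elim⟩
  · obtain ⟨l₀, -, hl₀⟩ := Finset.exists_min_image Finset.univ f Finset.univ_nonempty
    refine ⟨f l₀ / 2, half_pos (hf l₀), fun l => ?_⟩
    have h1 := hl₀ l (Finset.mem_univ l)
    have h2 := hf l₀
    linarith

/-- The torus over a small circle around a common zero.
Proof: z₁ with P l (z₁) ≠ P i (z₁) for all l ≠ i (product of nonzero polynomials; `hP`),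
v = z₁ - z₀, Q l = one variable polynomial s ↦ P i (z₀ + s v) - P l (z₀ + s v), not 0 (value at 1),
Q j (0) = 0.  ε from `log_poly` for all l ≠ i; δ > 0 real, smaller than |Q l (ε e(t))| for all t and
l ≠ i (compactness).  Torus F (s, t) = (z₀ + ε e(s) v, P i (z₀ + ε e(s) v) + δ e(t)) ∈ XX;
z = z₀ + ε v, a = δ, mer = side s = 0, c = side t = 0; `square_homotopic` (equal opposite sides).
Logs along c: l = i constant log δ, k i = 0; l ≠ i: `log_perturb` of the log of Q l from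
`log_poly`, k l = rootMultiplicity 0 (Q l), positive for l = j. -/
theorem torus {n : ℕ} {ι : Type} [Finite ι] (P : ι → MvPolynomial (Fin n) ℂ)
    (hP : Function.Injective P) (i j : ι) (hij : i ≠ j) (z₀ : Fin n → ℂ)
    (h0 : MvPolynomial.eval z₀ (P i) = MvPolynomial.eval z₀ (P j)) :
    ∃ (z : Fin n → ℂ) (a : ℂ) (h : Adm (pg P) i z a)
      (c : Path (mbase (pg P) i z a h) (mbase (pg P) i z a h)),
      ((mer (pg P) i z a h).trans c).Homotopic (c.trans (mer (pg P) i z a h)) ∧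
      ∃ k : ι → ℕ, k i = 0 ∧ 0 < k j ∧ ∀ l, ∃ ℓ : C(I, ℂ),
        (∀ t, Complex.exp (ℓ t) = (c t).1.2 - pg P l (c t).1.1) ∧
        ℓ 1 - ℓ 0 = 2 * Real.pi * Complex.I * (k l : ℂ) := by
  classical
  have := Fintype.ofFinite ι
  -- a generic point
  obtain ⟨z₁, hz₁⟩ : ∃ z₁ : Fin n → ℂ, ∀ l, l ≠ i → MvPolynomial.eval z₁ (P i - P l) ≠ 0 := by
    by_contra hcon
    push Not at hcon
    have h1 : ∏ l ∈ Finset.univ.filter (fun l => l ≠ i), (P i - P l) = 0 := by
      apply MvPolynomial.funext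
      intro x
      obtain ⟨l, hl, h2⟩ := hcon x
      rw [map_prod, map_zero]
      exact Finset.prod_eq_zero (Finset.mem_filter.2 ⟨Finset.mem_univ l, hl⟩) h2
    rw [Finset.prod_eq_zero_iff] at h1
    obtain ⟨l, hl, h2⟩ := h1
    exact (Finset.mem_filter.1 hl).2 (hP (sub_eq_zero.1 h2).symm)
  set v : Fin n → ℂ := z₁ - z₀ with hv
  choose Q hQ using fun l => t6c_line (P i - P l) z₀ v
  have hQ0 : ∀ l, l ≠ i → Q l ≠ 0 := by
    intro l hl h1
    have h2 := hQ l 1
    rw [h1, Polynomial.eval_zero, one_smul, hv, add_sub_cancel] at h2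
    exact hz₁ l hl h2.symm
  have hQj : (Q j).eval 0 = 0 := by
    rw [hQ, zero_smul, add_zero, map_sub, h0, sub_self]
  -- the radius
  have hex : ∀ l, ∃ ε₀ : ℝ, 0 < ε₀ ∧ (l ≠ i → ∀ ε : ℝ, 0 < ε → ε < ε₀ → ∃ ℓ : C(I, ℂ),
      (∀ t, Complex.exp (ℓ t) = (Q l).eval ((ε : ℂ) * Complex.exp (2 * Real.pi * (t : ℝ) * Complex.I))) ∧
      ℓ 1 - ℓ 0 = 2 * Real.pi * Complex.I * ((Q l).rootMultiplicity 0 : ℂ)) := by
    intro l
    by_cases hl : l = i
    · exact ⟨1, one_pos, fun h => absurd hl h⟩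
    · obtain ⟨ε₀, h1, h2⟩ := log_poly (Q l) (hQ0 l hl)
      exact ⟨ε₀, h1, fun _ => h2⟩
  choose ε₀ hε₀ hlog using hex
  obtain ⟨ε, hε, hεl⟩ := t6c_small ε₀ hε₀
  have hlog' : ∀ l, l ≠ i → ∃ ℓ : C(I, ℂ),
      (∀ t, Complex.exp (ℓ t) = (Q l).eval ((ε : ℂ) * Complex.exp (2 * Real.pi * (t : ℝ) * Complex.I))) ∧
      ℓ 1 - ℓ 0 = 2 * Real.pi * Complex.I * ((Q l).rootMultiplicity 0 : ℂ) :=
    fun l hl => hlog l hl ε hε (hεl l)
  -- the circle
  let e : C(I, ℂ) := ⟨fun t => Complex.exp (2 * Real.pi * (t : ℝ) * Complex.I), by fun_prop⟩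
  have he : ∀ t, e t = Complex.exp (2 * Real.pi * (t : ℝ) * Complex.I) := fun t => rfl
  have he0 : e 0 = 1 := by rw [he]; simp
  have he1 : e 1 = 1 := by rw [he]; simp [Complex.exp_two_pi_mul_I]
  let f : ι → C(I, ℂ) := fun l => ⟨fun t => (Q l).eval ((ε : ℂ) * e t),
    (Q l).continuous.comp (continuous_const.mul e.continuous)⟩
  have hf : ∀ l t, f l t = (Q l).eval ((ε : ℂ) * e t) := fun l t => rfl
  have hf0 : ∀ l, l ≠ i → ∀ t, f l t ≠ 0 := by
    intro l hl t
    obtain ⟨ℓ, h1, _⟩ := hlog' l hl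
    rw [hf, he, ← h1 t]
    exact Complex.exp_ne_zero _
  -- the distance
  have hex2 : ∀ l, ∃ m : ℝ, 0 < m ∧ (l ≠ i → ∀ t, m ≤ ‖f l t‖) := by
    intro l
    by_cases hl : l = i
    · exact ⟨1, one_pos, fun h => absurd hl h⟩
    · obtain ⟨t₀, -, h1⟩ := isCompact_univ.exists_isMinOn (Set.univ_nonempty (α := I))
        (f l).continuous.norm.continuousOn
      exact ⟨‖f l t₀‖, norm_pos_iff.2 (hf0 l hl t₀), fun _ t => h1 (Set.mem_univ t)⟩
  choose mm hmm hmf using hex2
  obtain ⟨δ, hδ, hδl⟩ := t6c_small mm hmm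
  have hδf : ∀ l, l ≠ i → ∀ t, ‖(δ : ℂ)‖ < ‖f l t‖ := by
    intro l hl t
    rw [Complex.norm_real, Real.norm_of_nonneg hδ.le]
    exact lt_of_lt_of_le (hδl l) (hmf l hl t)
  have hδ0 : (δ : ℂ) ≠ 0 := by exact_mod_cast hδ.ne'
  let w : C(I, Fin n → ℂ) := ⟨fun s => z₀ + ((ε : ℂ) * e s) • v, by
    have : Continuous fun s : I => (ε : ℂ) * e s := continuous_const.mul e.continuous
    exact continuous_const.add (this.smul continuous_const)⟩
  have hw : ∀ s, w s = z₀ + ((ε : ℂ) * e s) • v := fun s => rfl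
  have hdiff : ∀ l s, pg P i (w s) - pg P l (w s) = f l s := by
    intro l s
    rw [hf, hQ, map_sub]
    rfl
  have hadm : ∀ s, Adm (pg P) i (w s) (δ : ℂ) := by
    intro s
    refine ⟨hδ0, fun l hl => ?_⟩
    rw [hdiff]
    exact hδf l hl s
  have hw01 : w 1 = w 0 := by rw [hw, hw, he0, he1]
  have hne : ∀ t : I, ‖e t‖ = 1 := fun t => norm_circ t
  let F : C(I × I, XX (pg P)) := ⟨fun q => ⟨(w q.1, pg P i (w q.1) + (δ : ℂ) * e q.2), (hadm q.1).mem _ (hne q.2)⟩, by
    apply Continuous.subtype_mk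
    have h1 : Continuous fun q : I × I => w q.1 := w.continuous.comp continuous_fst
    have h2 : Continuous fun q : I × I => e q.2 := e.continuous.comp continuous_snd
    exact h1.prodMk (((pg P i).continuous.comp h1).add (continuous_const.mul h2))⟩
  have hF : ∀ s t, (F (s, t)).1 = (w s, pg P i (w s) + (δ : ℂ) * e t) := fun s t => rfl
  have hbase : ∀ s t : I, w s = w 0 → e t = 1 → F (s, t) = mbase (pg P) i (w 0) (δ : ℂ) (hadm 0) := by
    intro s t h1 h2
    apply Subtype.ext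
    rw [hF, h1, h2, mul_one]
    rfl
  have b00 := hbase 0 0 rfl he0
  have b01 := hbase 0 1 rfl he1
  have b10 := hbase 1 0 hw01 he0
  have b11 := hbase 1 1 hw01 he1
  let c : Path (mbase (pg P) i (w 0) (δ : ℂ) (hadm 0)) (mbase (pg P) i (w 0) (δ : ℂ) (hadm 0)) :=
    (sideB F).cast b00.symm b10.symm
  have hc : ∀ t, c t = F (t, 0) := fun t => rfl
  have hmer : ∀ t, mer (pg P) i (w 0) (δ : ℂ) (hadm 0) t = F (0, t) := fun t => rfl
  have hFT : ∀ s, F (s, 1) = F (s, 0) := by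
    intro s
    apply Subtype.ext
    rw [hF, hF, he0, he1]
  have hFR : ∀ t, F (1, t) = F (0, t) := by
    intro t
    apply Subtype.ext
    rw [hF, hF, hw01]
  refine ⟨w 0, δ, hadm 0, c, ?_, fun l => if l = i then 0 else (Q l).rootMultiplicity 0, if_pos rfl, ?_, ?_⟩
  · have h1 := t6c_cast (square_homotopic F) b00.symm b11.symm
    have e1 := t6c_trans (sideL F) (sideT F) (mer (pg P) i (w 0) (δ : ℂ) (hadm 0)) c b00.symm b11.symm
      (fun t => hmer t) (fun t => (hc t).trans (hFT t).symm)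
    have e2 := t6c_trans (sideB F) (sideR F) c (mer (pg P) i (w 0) (δ : ℂ) (hadm 0)) b00.symm b11.symm
      (fun t => hc t) (fun t => (hmer t).trans (hFR t).symm)
    rw [e1, e2]
    exact h1
  · show 0 < (if j = i then 0 else (Q j).rootMultiplicity 0)
    rw [if_neg hij.symm, Polynomial.rootMultiplicity_pos (hQ0 j hij.symm)]
    exact hQj
  · intro l
    have hval : ∀ t, (c t).1.2 - pg P l (c t).1.1 = f l t + (δ : ℂ) := by
      intro t
      rw [hc, hF]
      simp only [he0, mul_one]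
      rw [← hdiff]
      ring
    by_cases hl : l = i
    · refine ⟨ContinuousMap.const I (Complex.log (δ : ℂ)), ?_, ?_⟩
      · intro t
        rw [hval]
        have h1 : f l t = 0 := by rw [← hdiff, hl, sub_self]
        rw [h1, zero_add]
        exact Complex.exp_log hδ0
      · simp only [if_pos hl]
        simp
    · obtain ⟨ℓ, h1, h2⟩ := hlog' l hl
      obtain ⟨ℓ', h3, h4⟩ := log_perturb (f l) (ContinuousMap.const I (δ : ℂ)) (fun t => hδf l hl t)
        (by rw [hf, hf, he0, he1]) rfl ℓ (fun t => by rw [hf, he]; exact h1 t)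
      refine ⟨ℓ', ?_, ?_⟩
      · intro t
        rw [hval]
        exact h3 t
      · rw [h4, h2]
        simp only [if_neg hl]

end H13K
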