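import Pool.Agent.Lib.H13K.Defs2

set_option autoImplicit false

open scoped unitInterval

namespace H13K

private theorem trans_cast' {X : Type} [TopologicalSpace X] {x y z x' y' z' : X} (p : Path x y)
    (q : Path y z) (hx : x' = x) (hy : y' = y) (hz : z' = z) :
    (p.cast hx hy).trans (q.cast hy hz) = (p.trans q).cast hx hz := by
  subst hx hy hz
  rfl

private theorem homotopic_cast' {X : Type} [TopologicalSpace X] {x y x' y' : X} {p q : Path x y}
    (h : p.Homotopic q) (hx : x' = x) (hy : y' = y) :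
    (p.cast hx hy).Homotopic (q.cast hx hy) := by
  subst hx hy
  exact h

private theorem conj_trans {X : Type} [TopologicalSpace X] {x y z : X} {p : Path x x}
    {p' : Path y y} {p'' : Path z z} {q : Path x y} {q' : Path y z}
    (h1 : (p.trans q).Homotopic (q.trans p')) (h2 : (p'.trans q').Homotopic (q'.trans p'')) :
    (p.trans (q.trans q')).Homotopic ((q.trans q').trans p'') := by
  have a1 : (p.trans (q.trans q')).Homotopic ((p.trans q).trans q') :=
    ⟨(Path.Homotopy.transAssoc p q q').symm⟩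
  have a2 : ((p.trans q).trans q').Homotopic ((q.trans p').trans q') :=
    h1.hcomp (Path.Homotopic.refl q')
  have a3 : ((q.trans p').trans q').Homotopic (q.trans (p'.trans q')) :=
    ⟨Path.Homotopy.transAssoc q p' q'⟩
  have a4 : (q.trans (p'.trans q')).Homotopic (q.trans (q'.trans p'')) :=
    (Path.Homotopic.refl q).hcomp h2
  have a5 : (q.trans (q'.trans p'')).Homotopic ((q.trans q').trans p'') :=
    ⟨(Path.Homotopy.transAssoc q q' p'').symm⟩
  exact (((a1.trans a2).trans a3).trans a4).trans a5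

variable {E : Type} [NormedAddCommGroup E] [NormedSpace ℝ E] {ι : Type}

/-- A path of admissible data gives a conjugation of the meridians.
Proof: the square F (s, t) = (z s, g i (z s) + a s * e(t)) in XX g; `square_homotopic`. -/
theorem mer_conj_path (g : ι → C(E, ℂ)) (i : ι) (z : C(I, E)) (a : C(I, ℂ))
    (h : ∀ s, Adm g i (z s) (a s)) :
    ∃ q : Path (mbase g i (z 0) (a 0) (h 0)) (mbase g i (z 1) (a 1) (h 1)),
      ((mer g i (z 0) (a 0) (h 0)).trans q).Homotopic
        (q.trans (mer g i (z 1) (a 1) (h 1))) := by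
  let F : C(I × I, XX g) :=
    { toFun := fun p => ⟨(z p.1, g i (z p.1) +
          a p.1 * Complex.exp (2 * Real.pi * ((p.2 : I) : ℝ) * Complex.I)),
          (h p.1).mem _ (norm_circ p.2)⟩
      continuous_toFun := by
        apply Continuous.subtype_mk
        fun_prop }
  have h00 : mbase g i (z 0) (a 0) (h 0) = F (0, 0) := by
    apply Subtype.ext
    simp [mbase, F]
  have h01 : mbase g i (z 0) (a 0) (h 0) = F (0, 1) := by
    apply Subtype.ext
    simp [mbase, F, Complex.exp_two_pi_mul_I]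
  have h10 : mbase g i (z 1) (a 1) (h 1) = F (1, 0) := by
    apply Subtype.ext
    simp [mbase, F]
  have h11 : mbase g i (z 1) (a 1) (h 1) = F (1, 1) := by
    apply Subtype.ext
    simp [mbase, F, Complex.exp_two_pi_mul_I]
  have e1 : mer g i (z 0) (a 0) (h 0) = (sideL F).cast h00 h01 := by
    apply Path.ext
    funext t
    rfl
  have e2 : mer g i (z 1) (a 1) (h 1) = (sideR F).cast h10 h11 := by
    apply Path.ext
    funext t
    rfl
  have e3 : (sideT F).cast h01 h11 = (sideB F).cast h00 h10 := by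
    apply Path.ext
    funext s
    apply Subtype.ext
    simp [F, sideT, sideB, Complex.exp_two_pi_mul_I]
  refine ⟨(sideB F).cast h00 h10, ?_⟩
  have hs := homotopic_cast' (square_homotopic F) h00 h11
  rw [← trans_cast' (sideL F) (sideT F) h00 h01 h11,
    ← trans_cast' (sideB F) (sideR F) h00 h10 h11, e3, ← e1, ← e2] at hs
  exact hs

private theorem conj_path' (g : ι → C(E, ℂ)) (i : ι) (z : C(I, E)) (a : C(I, ℂ))
    (h : ∀ s, Adm g i (z s) (a s)) {z0 z1 : E} {a0 a1 : ℂ} (h0 : Adm g i z0 a0)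
    (h1 : Adm g i z1 a1) (e0 : z 0 = z0) (e1 : z 1 = z1) (f0 : a 0 = a0) (f1 : a 1 = a1) :
    ∃ q : Path (mbase g i z0 a0 h0) (mbase g i z1 a1 h1),
      ((mer g i z0 a0 h0).trans q).Homotopic (q.trans (mer g i z1 a1 h1)) := by
  subst e0 e1 f0 f1
  exact mer_conj_path g i z a h

private theorem exp_path {a b : ℂ} (ha : a ≠ 0) (hb : b ≠ 0) :
    ∃ c : C(I, ℂ), c 0 = a ∧ c 1 = b ∧ ∀ s, c s ≠ 0 ∧ ‖c s‖ ≤ max ‖a‖ ‖b‖ := by
  refine ⟨⟨fun s => Complex.exp ((1 - ((s : ℝ) : ℂ)) * Complex.log a +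
    ((s : ℝ) : ℂ) * Complex.log b), by fun_prop⟩, ?_, ?_, ?_⟩
  · simp [Complex.exp_log ha]
  · simp [Complex.exp_log hb]
  · intro s
    refine ⟨Complex.exp_ne_zero _, ?_⟩
    have hs0 : 0 ≤ (s : ℝ) := s.2.1
    have hs1 : (s : ℝ) ≤ 1 := s.2.2
    have hre : ((1 - ((s : ℝ) : ℂ)) * Complex.log a + ((s : ℝ) : ℂ) * Complex.log b).re =
        (1 - (s : ℝ)) * Real.log ‖a‖ + (s : ℝ) * Real.log ‖b‖ := by
      simp [Complex.log_re]
    change ‖Complex.exp _‖ ≤ _
    rw [Complex.norm_exp, hre]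
    have hpa : 0 < ‖a‖ := norm_pos_iff.2 ha
    have hpb : 0 < ‖b‖ := norm_pos_iff.2 hb
    have hm : 0 < max ‖a‖ ‖b‖ := lt_max_of_lt_left hpa
    rw [← Real.le_log_iff_exp_le hm]
    have l1 : Real.log ‖a‖ ≤ Real.log (max ‖a‖ ‖b‖) := Real.log_le_log hpa (le_max_left _ _)
    have l2 : Real.log ‖b‖ ≤ Real.log (max ‖a‖ ‖b‖) := Real.log_le_log hpb (le_max_right _ _)
    nlinarith

private theorem conj_fix (g : ι → C(E, ℂ)) (i : ι) {z : E} {a b : ℂ} (ha : Adm g i z a)
    (hb : Adm g i z b) :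
    ∃ q : Path (mbase g i z a ha) (mbase g i z b hb),
      ((mer g i z a ha).trans q).Homotopic (q.trans (mer g i z b hb)) := by
  obtain ⟨c, hc0, hc1, hc⟩ := exp_path ha.1 hb.1
  refine conj_path' g i (ContinuousMap.const I z) c ?_ ha hb rfl rfl hc0 hc1
  intro s
  refine ⟨(hc s).1, fun j hj => ?_⟩
  exact lt_of_le_of_lt (hc s).2 (max_lt (ha.2 j hj) (hb.2 j hj))

/-- All meridians of one graph are conjugate.
Proof: `mer_conj_path` three times: shrink a to τ a at z (0 < τ ≤ 1 so small that ‖τ a‖ is less than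
all ‖g i - g j‖, j ≠ i, on the compact path from z to z'); move z along the path; at z' move τ a to
a' inside {b ≠ 0, ‖b‖ < ‖g i z' - g j z'‖ for j ≠ i} (path connected: first the modulus, then the
argument). -/
theorem mer_conj [Finite ι] (g : ι → C(E, ℂ)) (i : ι)
    (hpc : IsPathConnected {z : E | ∀ j, j ≠ i → g i z ≠ g j z}) {z : E} {a : ℂ}
    (h : Adm g i z a) {z' : E} {a' : ℂ} (h' : Adm g i z' a') :
    ∃ q : Path (mbase g i z a h) (mbase g i z' a' h'),
      ((mer g i z a h).trans q).Homotopic (q.trans (mer g i z' a' h')) := by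
  have key : ∀ {w : E} {b : ℂ}, Adm g i w b → w ∈ {z : E | ∀ j, j ≠ i → g i z ≠ g j z} := by
    intro w b hw j hj he
    have h1 := hw.2 j hj
    rw [he, sub_self, norm_zero] at h1
    exact absurd h1 (not_lt.2 (norm_nonneg _))
  obtain ⟨γ, hγ⟩ := hpc.joinedIn z (key h) z' (key h')
  have hm : ∀ j, ∃ m : ℝ, 0 < m ∧ (j ≠ i → ∀ s : I, m ≤ ‖g i (γ s) - g j (γ s)‖) := by
    intro j
    by_cases hj : j = i
    · exact ⟨1, one_pos, fun h => absurd hj h⟩
    · have hc : Continuous fun s : I => ‖g i (γ s) - g j (γ s)‖ := by fun_prop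
      obtain ⟨s0, -, hs0⟩ := isCompact_univ.exists_isMinOn (Set.univ_nonempty) hc.continuousOn
      refine ⟨‖g i (γ s0) - g j (γ s0)‖, ?_, fun _ s => hs0 (Set.mem_univ s)⟩
      exact norm_pos_iff.2 (sub_ne_zero.2 (hγ s0 j hj))
  choose m hm0 hm1 using hm
  have : Nonempty ι := ⟨i⟩
  obtain ⟨j0, hj0⟩ := Finite.exists_min m
  have hb : ∀ s : I, Adm g i (γ s) ((m j0 / 2 : ℝ) : ℂ) := by
    intro s
    have hp : 0 < m j0 / 2 := by linarith [hm0 j0]
    refine ⟨by exact_mod_cast hp.ne', fun j hj => ?_⟩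
    rw [Complex.norm_real, Real.norm_of_nonneg hp.le]
    have h1 := hm1 j hj s
    have h2 := hj0 j
    have h3 := hm0 j0
    linarith
  have hb0 : Adm g i z ((m j0 / 2 : ℝ) : ℂ) := by simpa using hb 0
  have hb1 : Adm g i z' ((m j0 / 2 : ℝ) : ℂ) := by simpa using hb 1
  obtain ⟨q1, hq1⟩ := conj_fix g i h hb0
  obtain ⟨q2, hq2⟩ := conj_path' g i γ.toContinuousMap (ContinuousMap.const I ((m j0 / 2 : ℝ) : ℂ))
    hb hb0 hb1 γ.source γ.target rfl rfl
  obtain ⟨q3, hq3⟩ := conj_fix g i hb1 h'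
  exact ⟨(q1.trans q2).trans q3, conj_trans (conj_trans hq1 hq2) hq3⟩

end H13K
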