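import Pool.Agent.Lib.H13K.Defs2

set_option autoImplicit false

namespace H13K

/-- The complement of finitely many graphs is path connected.
Proof: inside a fibre ℂ minus a finite set is path connected
(`Set.Countable.isPathConnected_compl_of_one_lt_rank`); join (z, w) to (z, R) in the fibre, (z, R)
to (z', R) along the segment, R larger than all |g i| on the segment [z, z'], and (z', R) to
(z', w') in the fibre. -/
theorem XX_pathConnected {E : Type} [NormedAddCommGroup E] [NormedSpace ℝ E] {ι : Type}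
    [Finite ι] (g : ι → C(E, ℂ)) : PathConnectedSpace (XX g) := by
  have hfib : ∀ z : E, IsPathConnected ((Set.range fun i => g i z)ᶜ : Set ℂ) := fun z =>
    (Set.finite_range _).countable.isPathConnected_compl_of_one_lt_rank
      (by rw [Complex.rank_real_complex]; exact Cardinal.one_lt_two)
  have hmem : ∀ z w, w ∈ ((Set.range fun i => g i z)ᶜ : Set ℂ) → (z, w) ∈ XX g := by
    intro z w hw i h0
    exact hw ⟨i, h0.symm⟩
  have hmem' : ∀ z w, (z, w) ∈ XX g → w ∈ ((Set.range fun i => g i z)ᶜ : Set ℂ) := by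
    rintro z w hw ⟨i, hi⟩
    exact hw i hi.symm
  have hfj : ∀ z w w', (z, w) ∈ XX g → (z, w') ∈ XX g → JoinedIn (XX g) (z, w) (z, w') := by
    intro z w w' h h'
    have h1 := (hfib z).joinedIn w (hmem' z w h) w' (hmem' z w' h')
    have h2 := h1.map (f := fun u : ℂ => (z, u)) (by fun_prop)
    refine h2.mono ?_
    rintro _ ⟨u, hu, rfl⟩
    exact hmem z u hu
  rw [← isPathConnected_iff_pathConnectedSpace]
  obtain ⟨w0, hw0⟩ := (hfib 0).nonempty
  refine isPathConnected_iff.2 ⟨⟨(0, w0), hmem 0 w0 hw0⟩, ?_⟩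
  rintro ⟨z, w⟩ hz ⟨z', w'⟩ hz'
  have hb : ∀ i, ∃ R : ℝ, ∀ t ∈ Set.Icc (0 : ℝ) 1, ‖g i (AffineMap.lineMap z z' t)‖ ≤ R := by
    intro i
    have hc : ContinuousOn (fun t : ℝ => g i (AffineMap.lineMap z z' t)) (Set.Icc 0 1) := by
      apply Continuous.continuousOn
      exact (g i).continuous.comp AffineMap.lineMap_continuous
    obtain ⟨R, hR⟩ := isCompact_Icc.exists_bound_of_continuousOn hc
    exact ⟨R, hR⟩
  choose R hR using hb
  obtain ⟨M, hM⟩ := (Set.finite_range R).bddAbove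
  have hM' : ∀ i, ∀ t ∈ Set.Icc (0 : ℝ) 1, ‖g i (AffineMap.lineMap z z' t)‖ ≤ |M| := fun i t ht =>
    (hR i t ht).trans ((hM ⟨i, rfl⟩).trans (le_abs_self M))
  have hpt : ∀ t ∈ Set.Icc (0 : ℝ) 1,
      (AffineMap.lineMap z z' t, ((|M| + 1 : ℝ) : ℂ)) ∈ XX g := by
    intro t ht i h0
    have h1 := hM' i t ht
    simp only at h0
    rw [← h0, Complex.norm_real, Real.norm_eq_abs, abs_of_pos (by positivity)] at h1
    linarith
  have hseg : JoinedIn (XX g) (z, ((|M| + 1 : ℝ) : ℂ)) (z', ((|M| + 1 : ℝ) : ℂ)) := by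
    refine JoinedIn.ofLine (f := fun t : ℝ => (AffineMap.lineMap z z' t, ((|M| + 1 : ℝ) : ℂ)))
      ?_ (by simp) (by simp) ?_
    · apply Continuous.continuousOn
      exact AffineMap.lineMap_continuous.prodMk continuous_const
    · rintro _ ⟨t, ht, rfl⟩
      exact hpt t ht
  have h0 := hpt 0 (by simp)
  have h1 := hpt 1 (by simp)
  rw [AffineMap.lineMap_apply_zero] at h0
  rw [AffineMap.lineMap_apply_one] at h1
  exact ((hfj z w _ hz h0).trans hseg).trans (hfj z' _ w' h1 hz')

end H13K
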