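import Pool.Agent.Lib.H13K.A5
import Pool.Agent.Lib.H13K.T2
import Pool.Agent.Lib.H13K.T5b
import Pool.Agent.Lib.H13K.T6b
import Pool.Agent.Lib.H13K.T6c
import Pool.Agent.Lib.H13K.T7
import Pool.Agent.Lib.H13K.T8
import Pool.Agent.Lib.H13K.G
import Pool.Agent.Lib.H13K.P2
import Pool.Agent.Lib.H13K.P3

set_option autoImplicit false

open scoped unitInterval

namespace H13K

/-- A point off the other graphs carries admissible data. -/
theorem exists_adm {E : Type} [NormedAddCommGroup E] {ι : Type} [Finite ι]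
    (g : ι → C(E, ℂ)) (i : ι) (z : E) (hz : ∀ j, j ≠ i → g i z ≠ g j z) :
    ∃ a, Adm g i z a := by
  have hfin : (Set.range fun j : {j : ι // j ≠ i} => ‖g i z - g j.1 z‖).Finite :=
    Set.finite_range _
  obtain ⟨r, hr0, hr⟩ : ∃ r : ℝ, 0 < r ∧ ∀ j, j ≠ i → r < ‖g i z - g j z‖ := by
    by_cases hne : (Set.range fun j : {j : ι // j ≠ i} => ‖g i z - g j.1 z‖).Nonempty
    · obtain ⟨m, ⟨j, hj⟩, hm⟩ := Set.exists_min_image _ id hfin hne
      refine ⟨m / 2, ?_, ?_⟩
      · have : 0 < m := by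
          rw [← hj]
          exact norm_pos_iff.2 (sub_ne_zero.2 (hz j.1 j.2))
        linarith
      · intro k hk
        have h1 : m ≤ ‖g i z - g k z‖ := hm _ ⟨⟨k, hk⟩, rfl⟩
        have h2 : 0 < m := by
          rw [← hj]
          exact norm_pos_iff.2 (sub_ne_zero.2 (hz j.1 j.2))
        linarith
    · refine ⟨1, one_pos, ?_⟩
      intro k hk
      exact absurd ⟨_, ⟨⟨k, hk⟩, rfl⟩⟩ hne
  refine ⟨(r : ℂ), ?_, ?_⟩
  · exact_mod_cast hr0.ne'
  · intro j hj
    rw [Complex.norm_real, Real.norm_eq_abs, abs_of_pos hr0]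
    exact hr j hj

/-- The function `w - g l z` on the complement of the graphs. -/
noncomputable def offs {E : Type} [NormedAddCommGroup E] {ι : Type} (g : ι → C(E, ℂ)) (l : ι) :
    C(XX g, ℂ) where
  toFun x := x.1.2 - g l x.1.1
  continuous_toFun := by fun_prop

/-- Winding homomorphisms. -/
theorem exists_wind {E : Type} [NormedAddCommGroup E] {ι : Type} (g : ι → C(E, ℂ))
    [PathConnectedSpace (XX g)] (x₀ : XX g)
    (Φ : PF (XX g) (FundamentalGroup (XX g) x₀))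
    (hΦ : ∀ p : Path x₀ x₀, Φ.val p = FundamentalGroup.fromPath (Path.Homotopic.Quotient.mk p))
    (l : ι) :
    ∃ w : FundamentalGroup (XX g) x₀ →* Multiplicative ℂ, ∀ (x : XX g) (p : Path x x)
      (ℓ : C(I, ℂ)), (∀ t, Complex.exp (ℓ t) = (p t).1.2 - g l (p t).1.1) →
      (w (Φ.val p)).toAdd = (2 * Real.pi * Complex.I)⁻¹ * (ℓ 1 - ℓ 0) := by
  obtain ⟨L, hL⟩ := exists_log (offs g l) (fun x => sub_ne_zero.2 (x.2 l))
  let ψ : Multiplicative ℂ →* Multiplicative ℂ :=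
    AddMonoidHom.toMultiplicative (AddMonoidHom.mulLeft ((2 * Real.pi * Complex.I)⁻¹))
  have hψ : ∀ c : Multiplicative ℂ,
      (ψ c).toAdd = (2 * Real.pi * Complex.I)⁻¹ * c.toAdd := fun c => rfl
  obtain ⟨w, hw⟩ := exists_hom (L.push ψ) x₀
  refine ⟨w, ?_⟩
  intro x p ℓ hℓ
  have h1 := hom_univ (L.push ψ) x₀ Φ hΦ w hw x p
  rw [h1]
  have h2 : (L.push ψ).val p = ψ (L.val p) := rfl
  rw [h2, hψ, hL p ℓ hℓ]

/-- The fundamental group of the complement of finitely many polynomial graphs, two of which meet,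
is not a nontrivial free product.
Proof: `alg` with G the fundamental group, M i the set of all Φ.val (mer ..) (Φ from `exists_univ`),
w l the homomorphism of the functional L l of w - P l (`exists_log`, `exists_hom`) divided by
2 pi i, adj = Adj P; hne and the exact sequence: `torus` / `pc_i`; hconj: `mer_conj`; hw: `mer_log`
and `hom_univ`; hgen: `kills_all` for Φ.push ψ; hadj: `torus`; hconn: `adj_conn`. -/
theorem main {n : ℕ} {ι : Type} [Fintype ι] (P : ι → MvPolynomial (Fin n) ℂ)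
    (hP : Function.Injective P) (hmeet : ∃ i j, Adj P i j) (x₀ : XX (pg P))
    (A B : Type) [Group A] [Group B]
    (e : FundamentalGroup (XX (pg P)) x₀ ≃* Monoid.Coprod A B) :
    Subsingleton A ∨ Subsingleton B := by
  classical
  have : PathConnectedSpace (XX (pg P)) := XX_pathConnected (pg P)
  obtain ⟨Φ, hΦ⟩ := exists_univ x₀
  choose w hw using fun l => exists_wind (pg P) x₀ Φ hΦ l
  have hpi : (2 * Real.pi * Complex.I : ℂ) ≠ 0 := Complex.two_pi_I_ne_zero
  refine alg (G := FundamentalGroup (XX (pg P)) x₀)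
    (fun i => {m | ∃ (z : Fin n → ℂ) (a : ℂ) (h : Adm (pg P) i z a),
      m = Φ.val (mer (pg P) i z a h)}) w ?_ ?_ ?_ ?_ (Adj P) ?_ ?_ hmeet ?_ A B e
  · intro i
    obtain ⟨z, hz⟩ := (pc_i P hP i).nonempty
    obtain ⟨a, ha⟩ := exists_adm (pg P) i z hz
    exact ⟨_, z, a, ha, rfl⟩
  · rintro i m ⟨z, a, h, rfl⟩ m' ⟨z', a', h', rfl⟩
    obtain ⟨q, hq⟩ := mer_conj (pg P) i (pc_i P hP i) h h'
    have h1 := Φ.homot hq
    rw [Φ.trans, Φ.trans] at h1
    rw [isConj_iff]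
    exact ⟨Φ.val q, by rw [h1, mul_inv_cancel_right]⟩
  · rintro i m ⟨z, a, h, rfl⟩ j
    obtain ⟨ℓ, h1, h2⟩ := mer_log (pg P) i z a h j
    rw [hw j _ _ ℓ h1, h2]
    split_ifs
    · exact inv_mul_cancel₀ hpi
    · exact mul_zero _
  · intro H _ ψ hψ x
    have hk : Kills (Φ.push ψ) := by
      intro i z a h
      exact hψ i _ ⟨z, a, h, rfl⟩
    have hall : ∀ p : Path x₀ x₀, ψ (Φ.val p) = 1 := fun p =>
      kills_all (pg P) (ball_DD P hP) (Φ.push ψ) hk x₀ p
    obtain ⟨p, hp⟩ : ∃ p : Path x₀ x₀,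
        FundamentalGroup.fromPath (Path.Homotopic.Quotient.mk p) = x := by
      obtain ⟨p, hp⟩ := Path.Homotopic.Quotient.mk_surjective (FundamentalGroup.toPath x)
      refine ⟨p, ?_⟩
      rw [hp]
    rw [← hp, ← hΦ]
    exact hall p
  · rintro i j ⟨hij, z₀, h0⟩
    obtain ⟨z, a, h, c, hc, k, hki, hkj, hk⟩ := torus P hP i j hij z₀ h0
    refine ⟨_, ⟨z, a, h, rfl⟩, Φ.val c, ?_, k, hki, hkj, ?_⟩
    · have h1 := Φ.homot hc
      rw [Φ.trans, Φ.trans] at h1
      exact h1.symm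
    · intro l
      obtain ⟨ℓ, h1, h2⟩ := hk l
      rw [hw l _ _ ℓ h1, h2, inv_mul_cancel_left₀ hpi]
  · rintro i j ⟨hij, z, hz⟩
    exact ⟨hij.symm, z, hz.symm⟩
  · exact adj_conn P hP hmeet

end H13K
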