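import Pool.Agent.Lib.H13K.Defs2

set_option autoImplicit false

namespace H13K

/-- A homeomorphism induces an isomorphism of fundamental groups. -/
private theorem pi_of_homeo {X Y : Type} [TopologicalSpace X] [TopologicalSpace Y] (e : X ≃ₜ Y) {x : X}
    {y : Y} (h : e x = y) : Nonempty (FundamentalGroup X x ≃* FundamentalGroup Y y) := by
  have h' : e.symm y = x := by rw [← h, e.symm_apply_apply]
  refine ⟨MonoidHom.toMulEquiv
    (FundamentalGroup.mapOfEq (⟨e, e.continuous⟩ : C(X, Y)) (x := x) (y := y) h)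
    (FundamentalGroup.mapOfEq (⟨e.symm, e.symm.continuous⟩ : C(Y, X)) (x := y) (y := x) h') ?_ ?_⟩
  · ext p
    rw [MonoidHom.comp_apply, FundamentalGroup.mapOfEq_apply, FundamentalGroup.mapOfEq_apply]
    induction p using Path.Homotopic.Quotient.ind with | mk γ =>
    change Path.Homotopic.Quotient.mk _ = Path.Homotopic.Quotient.mk γ
    congr 1
    exact Path.ext (funext fun t => e.symm_apply_apply (γ t))
  · ext p
    rw [MonoidHom.comp_apply, FundamentalGroup.mapOfEq_apply, FundamentalGroup.mapOfEq_apply]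
    induction p using Path.Homotopic.Quotient.ind with | mk γ =>
    change Path.Homotopic.Quotient.mk _ = Path.Homotopic.Quotient.mk γ
    congr 1
    exact Path.ext (funext fun t => e.apply_symm_apply (γ t))

section model

variable {n : ℕ} {ι : Type} [Fintype ι] (P : ι → MvPolynomial (Fin n) ℂ)

private def cz (p : Fin (n + 2) → ℂ) : Fin n → ℂ := fun k => p k.castSucc.castSucc

private def cw (p : Fin (n + 2) → ℂ) : ℂ := p (Fin.last n).castSucc

private def cu (p : Fin (n + 2) → ℂ) : ℂ := p (Fin.last (n + 1))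

private def mk3 (z : Fin n → ℂ) (w u : ℂ) : Fin (n + 2) → ℂ :=
  Fin.snoc (α := fun _ => ℂ) (Fin.snoc (α := fun _ => ℂ) z w) u

private theorem cz_mk3 (z : Fin n → ℂ) (w u : ℂ) : cz (mk3 z w u) = z := by
  funext k
  simp [cz, mk3]

private theorem cw_mk3 (z : Fin n → ℂ) (w u : ℂ) : cw (mk3 z w u) = w := by
  simp [cw, mk3]

private theorem cu_mk3 (z : Fin n → ℂ) (w u : ℂ) : cu (mk3 z w u) = u := by
  simp [cu, mk3]

private theorem mk3_eta (p : Fin (n + 2) → ℂ) : mk3 (cz p) (cw p) (cu p) = p := by
  funext k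
  refine Fin.lastCases ?_ (fun k => ?_) k
  · simp [cu, mk3]
  · refine Fin.lastCases ?_ (fun k => ?_) k
    · simp [cw, mk3]
    · simp [cz, mk3]

private noncomputable def pp (z : Fin n → ℂ) (w : ℂ) : ℂ := ∏ i, (w - MvPolynomial.eval z (P i))

private theorem pp_continuous : Continuous fun x : (Fin n → ℂ) × ℂ => pp P x.1 x.2 := by
  unfold pp
  refine continuous_finsetProd _ fun i _ => ?_
  exact continuous_snd.sub ((MvPolynomial.continuous_eval (P i)).comp continuous_fst)

private theorem mem_XX_iff (x : (Fin n → ℂ) × ℂ) : x ∈ XX (pg P) ↔ pp P x.1 x.2 ≠ 0 := by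
  unfold pp
  rw [Finset.prod_ne_zero_iff]
  constructor
  · intro h i _
    exact sub_ne_zero.2 (h i)
  · intro h i
    exact sub_ne_zero.1 (h i (Finset.mem_univ i))

private noncomputable def FF : MvPolynomial (Fin (n + 2)) ℂ :=
  MvPolynomial.X (Fin.last (n + 1)) *
    ∏ i, (MvPolynomial.X (Fin.last n).castSucc -
      MvPolynomial.rename (fun k : Fin n => k.castSucc.castSucc) (P i)) - 1

private theorem eval_FF (p : Fin (n + 2) → ℂ) :
    MvPolynomial.eval p (FF P) = cu p * pp P (cz p) (cw p) - 1 := by
  unfold FF pp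
  rw [map_sub, map_mul, map_prod, map_one, MvPolynomial.eval_X]
  congr 2
  refine Finset.prod_congr rfl fun i _ => ?_
  rw [map_sub, MvPolynomial.eval_X, MvPolynomial.eval_rename]
  rfl

private theorem mk3_continuous : Continuous fun x : ((Fin n → ℂ) × ℂ) × ℂ => mk3 x.1.1 x.1.2 x.2 := by
  unfold mk3
  exact Continuous.finSnoc (A := fun _ => ℂ)
    (Continuous.finSnoc (A := fun _ => ℂ) (continuous_fst.comp continuous_fst) (continuous_snd.comp continuous_fst))
    continuous_snd

private noncomputable def homeo :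
    XX (pg P) ≃ₜ {p : Fin (n + 2) → ℂ | ∀ f ∈ ({FF P} : Set _), MvPolynomial.eval p f = 0} where
  toFun x := ⟨mk3 x.1.1 x.1.2 (pp P x.1.1 x.1.2)⁻¹, by
    rintro f rfl
    rw [eval_FF, cu_mk3, cz_mk3, cw_mk3, inv_mul_cancel₀ ((mem_XX_iff P x.1).1 x.2), sub_self]⟩
  invFun p := ⟨(cz p.1, cw p.1), by
    rw [mem_XX_iff]
    intro h
    have h1 := p.2 (FF P) rfl
    rw [eval_FF] at h1
    change pp P (cz p.1) (cw p.1) = 0 at h
    rw [h] at h1
    norm_num at h1⟩
  left_inv x := by
    apply Subtype.ext
    exact Prod.ext (cz_mk3 _ _ _) (cw_mk3 _ _ _)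
  right_inv p := by
    apply Subtype.ext
    have h1 := p.2 (FF P) rfl
    rw [eval_FF] at h1
    have h2 : cu p.1 = (pp P (cz p.1) (cw p.1))⁻¹ := eq_inv_of_mul_eq_one_left (by linear_combination h1)
    change mk3 (cz p.1) (cw p.1) (pp P (cz p.1) (cw p.1))⁻¹ = p.1
    rw [← h2, mk3_eta]
  continuous_toFun := by
    apply Continuous.subtype_mk
    exact mk3_continuous.comp (continuous_subtype_val.prodMk
      (((pp_continuous P).comp continuous_subtype_val).inv₀ fun x => (mem_XX_iff P x.1).1 x.2))
  continuous_invFun := by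
    apply Continuous.subtype_mk
    refine Continuous.prodMk (continuous_pi fun k => ?_) ?_
    · exact (continuous_apply _).comp continuous_subtype_val
    · exact (continuous_apply _).comp continuous_subtype_val

end model

/-- The complement of the graphs is a smooth affine variety.
Proof: S = {p : Fin (n + 2) → ℂ | p (last) * ∏ i (p n - P i (p 0, .., p (n-1))) = 1}, the zero set
of one polynomial F; on S the derivative of F in the last variable is the product, not zero; the map
p ↦ (first n coordinates, p n) is a homeomorphism S ≃ₜ XX (pg P) with inverse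
(z, w) ↦ (z, w, 1 / ∏ (w - P i z)); a homeomorphism induces an isomorphism of fundamental
groups. -/
theorem qp_graph {n : ℕ} {ι : Type} [Fintype ι] (P : ι → MvPolynomial (Fin n) ℂ)
    (x₀ : XX (pg P)) : IsQP (FundamentalGroup (XX (pg P)) x₀) := by
  refine ⟨n + 2, {p : Fin (n + 2) → ℂ | ∀ f ∈ ({FF P} : Set _), MvPolynomial.eval p f = 0},
    ⟨{FF P}, rfl⟩, ?_, homeo P x₀, pi_of_homeo (homeo P).symm ((homeo P).symm_apply_apply x₀)⟩
  intro p hp
  have hp' : cu p * pp P (cz p) (cw p) - 1 = 0 := by
    rw [← eval_FF]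
    exact hp (FF P) rfl
  have hne : pp P (cz p) (cw p) ≠ 0 := by
    intro h
    rw [h] at hp'
    norm_num at hp'
  have hdiff : Differentiable ℂ (fun z : Fin (n + 2) → ℂ => (fun _ : Fin 1 => MvPolynomial.eval z (FF P))) := by
    rw [differentiable_pi]
    intro _
    have h1 := AnalyticOnNhd.eval_mvPolynomial (𝕜 := ℂ) (FF P)
    exact fun z => (h1 z (Set.mem_univ z)).differentiableAt
  refine ⟨1, fun z _ => MvPolynomial.eval z (FF P), Set.univ, isOpen_univ, Set.mem_univ p, hdiff.differentiableOn,
    ?_, ?_⟩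
  · -- the derivative in the last direction
    set g : (Fin (n + 2) → ℂ) → (Fin 1 → ℂ) := fun z _ => MvPolynomial.eval z (FF P) with hg
    set e : Fin (n + 2) → ℂ := mk3 0 0 1 with he
    have h1 : ∀ t : ℂ, g (p + t • e) = fun _ => (cu p + t) * pp P (cz p) (cw p) - 1 := by
      intro t
      funext _
      change MvPolynomial.eval (p + t • e) (FF P) = _
      rw [eval_FF]
      have e1 : cz (p + t • e) = cz p := by
        funext k
        have := congrFun (cz_mk3 (0 : Fin n → ℂ) 0 1) k
        change p _ + t * cz e k = p _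
        rw [he, this]
        simp
      have e2 : cw (p + t • e) = cw p := by
        change p _ + t * cw e = p _
        rw [he, cw_mk3]
        simp
      have e3 : cu (p + t • e) = cu p + t := by
        change p _ + t * cu e = p _ + t
        rw [he, cu_mk3]
        simp
      rw [e1, e2, e3]
    have h2 : HasFDerivAt g (fderiv ℂ g p) p := (hdiff p).hasFDerivAt
    have h3 : HasDerivAt (fun t : ℂ => p + t • e) e 0 := by
      have h4 := ((hasDerivAt_id (0 : ℂ)).smul_const e).const_add p
      simpa using h4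
    have h5 : HasDerivAt (fun t : ℂ => g (p + t • e)) (fderiv ℂ g p e) 0 := by
      have h6 : HasFDerivAt g (fderiv ℂ g p) (p + (0 : ℂ) • e) := by simpa using h2
      exact h6.comp_hasDerivAt (0 : ℂ) h3
    have h7 : HasDerivAt (fun t : ℂ => (fun _ : Fin 1 => (cu p + t) * pp P (cz p) (cw p) - 1))
        (fun _ => pp P (cz p) (cw p)) 0 := by
      rw [hasDerivAt_pi]
      intro _
      have h8 := (((hasDerivAt_id (0 : ℂ)).const_add (cu p)).mul_const (pp P (cz p) (cw p))).sub_const 1
      simpa using h8
    have h9 : fderiv ℂ g p e = fun _ => pp P (cz p) (cw p) := by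
      have h10 : (fun t : ℂ => g (p + t • e)) = fun t => (fun _ : Fin 1 => (cu p + t) * pp P (cz p) (cw p) - 1) :=
        funext h1
      rw [h10] at h5
      exact h5.unique h7
    intro y
    refine ⟨(y 0 / pp P (cz p) (cw p)) • e, ?_⟩
    rw [map_smul, h9]
    funext i
    rw [Subsingleton.elim i 0]
    change y 0 / pp P (cz p) (cw p) * pp P (cz p) (cw p) = y 0
    exact div_mul_cancel₀ _ hne
  · intro z _
    constructor
    · intro h
      funext _
      exact h (FF P) rfl
    · rintro h f rfl
      exact congrFun h 0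

end H13K
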