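import Pool.Agent.Lib.H13K.K11

set_option autoImplicit false

open scoped unitInterval Polynomial

namespace H13K

private theorem k14_coeff (S : Finset ℂ) : ∀ m : ℕ,
    ‖(∏ u ∈ S, (Polynomial.X - Polynomial.C u)).coeff m‖ ≤ ∏ u ∈ S, (1 + ‖u‖) := by
  classical
  induction S using Finset.induction_on with
  | empty =>
    intro m
    rw [Finset.prod_empty, Finset.prod_empty, Polynomial.coeff_one]
    split_ifs <;> simp
  | insert a S ha ih =>
    intro m
    rw [Finset.prod_insert ha, Finset.prod_insert ha, sub_mul, Polynomial.coeff_sub,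
      Polynomial.coeff_C_mul, add_mul, one_mul]
    refine (norm_sub_le _ _).trans ?_
    rw [norm_mul]
    refine add_le_add ?_ (mul_le_mul_of_nonneg_left (ih m) (norm_nonneg _))
    rcases m with _ | m
    · rw [Polynomial.coeff_X_mul_zero, norm_zero]
      exact Finset.prod_nonneg fun u _ => by positivity
    · rw [Polynomial.coeff_X_mul]
      exact ih m

/-- The coefficients of `qV` grow at most polynomially (elementary symmetric functions of at most
natDegree p roots, `root_bound`). -/
theorem qV_growth (p : ℂ[X][X]) (hp : p.Monic) (V : Set (ℂ × ℂ)) :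
    ∃ (C : ℝ) (K : ℕ), ∀ m z, ‖(qV V p z).coeff m‖ ≤ C * (1 + ‖z‖) ^ K := by
  classical
  obtain ⟨C, K, hC, hroot⟩ := root_bound p hp
  refine ⟨(1 + C) ^ p.natDegree, K * p.natDegree, fun m z => ?_⟩
  unfold qV
  set S := (p.map (Polynomial.evalRingHom z)).roots.toFinset.filter (fun u => (z, u) ∈ V) with hS
  have h1 : (1 : ℝ) ≤ (1 + ‖z‖) ^ K := one_le_pow₀ (by linarith [norm_nonneg z])
  have h2 : ∀ u ∈ S, 1 + ‖u‖ ≤ (1 + C) * (1 + ‖z‖) ^ K := by
    intro u hu
    rw [hS, Finset.mem_filter, Multiset.mem_toFinset] at hu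
    have h3 := Polynomial.isRoot_of_mem_roots hu.1
    rw [Polynomial.IsRoot.def, Polynomial.map_evalRingHom_eval] at h3
    have h4 := hroot z u h3
    linarith
  have h5 : S.card ≤ p.natDegree := by
    calc S.card ≤ (p.map (Polynomial.evalRingHom z)).roots.toFinset.card :=
          Finset.card_filter_le _ _
      _ ≤ Multiset.card (p.map (Polynomial.evalRingHom z)).roots := Multiset.toFinset_card_le _
      _ ≤ (p.map (Polynomial.evalRingHom z)).natDegree := Polynomial.card_roots' _
      _ ≤ p.natDegree := Polynomial.natDegree_map_le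
  have h6 : (1 : ℝ) ≤ (1 + C) * (1 + ‖z‖) ^ K := by nlinarith
  calc ‖(∏ u ∈ S, (Polynomial.X - Polynomial.C u)).coeff m‖ ≤ ∏ u ∈ S, (1 + ‖u‖) :=
        k14_coeff S m
    _ ≤ ∏ _u ∈ S, ((1 + C) * (1 + ‖z‖) ^ K) :=
        Finset.prod_le_prod (fun u _ => by positivity) h2
    _ = ((1 + C) * (1 + ‖z‖) ^ K) ^ S.card := by rw [Finset.prod_const]
    _ ≤ ((1 + C) * (1 + ‖z‖) ^ K) ^ p.natDegree := pow_le_pow_right₀ h6 h5
    _ = (1 + C) ^ p.natDegree * (1 + ‖z‖) ^ (K * p.natDegree) := by rw [mul_pow, ← pow_mul]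

private theorem k14_poly (K : ℕ) : ∀ (F : ℂ → ℂ) (C : ℝ), Differentiable ℂ F →
    (∀ z, ‖F z‖ ≤ C * (1 + ‖z‖) ^ K) → ∃ q : ℂ[X], ∀ z, F z = q.eval z := by
  induction K with
  | zero =>
    intro F C hF hb
    have h1 : Bornology.IsBounded (Set.range F) := by
      rw [isBounded_iff_forall_norm_le]
      refine ⟨C, ?_⟩
      rintro _ ⟨z, rfl⟩
      have := hb z
      rwa [pow_zero, mul_one] at this
    obtain ⟨a, ha⟩ := hF.exists_const_forall_eq_of_bounded h1
    exact ⟨Polynomial.C a, fun z => by rw [ha z, Polynomial.eval_C]⟩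
  | succ K ih =>
    intro F C hF hb
    have hG : Differentiable ℂ (dslope F 0) := by
      rw [← differentiableOn_univ]
      exact (Complex.differentiableOn_dslope Filter.univ_mem).2 hF.differentiableOn
    obtain ⟨M, hM⟩ := (isCompact_closedBall (0 : ℂ) 1).exists_bound_of_continuousOn
      (f := dslope F 0) hG.continuous.continuousOn
    have h0 : ‖F 0‖ ≤ C := by
      have := hb 0
      rwa [norm_zero, add_zero, one_pow, mul_one] at this
    have hC : 0 ≤ C := (norm_nonneg _).trans h0
    have hM0 : 0 ≤ M := (norm_nonneg _).trans (hM 0 (by simp))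
    obtain ⟨q, hq⟩ := ih (dslope F 0) (M + 4 * C) hG (by
      intro z
      have h1 : (1 : ℝ) ≤ (1 + ‖z‖) ^ K := one_le_pow₀ (by linarith [norm_nonneg z])
      by_cases hz : ‖z‖ ≤ 1
      · have := hM z (by simpa using hz)
        nlinarith [mul_nonneg hC (sub_nonneg.2 h1), mul_nonneg hM0 (sub_nonneg.2 h1)]
      · push Not at hz
        have hz0 : z ≠ 0 := by
          rintro rfl
          rw [norm_zero] at hz
          linarith
        rw [dslope_of_ne _ hz0, slope_def_field, norm_div, sub_zero, div_le_iff₀ (by linarith)]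
        have h2 := hb z
        rw [pow_succ] at h2
        have h4 := norm_sub_le (F z) (F 0)
        set A : ℝ := (1 + ‖z‖) ^ K with hA
        have h5 : C * (A * (1 + ‖z‖)) ≤ C * (A * (2 * ‖z‖)) := by
          apply mul_le_mul_of_nonneg_left _ hC
          apply mul_le_mul_of_nonneg_left _ (by linarith)
          linarith
        have h6 : C ≤ C * (A * ‖z‖) := by
          have : (1 : ℝ) ≤ A * ‖z‖ := by nlinarith
          nlinarith
        have h7 : 0 ≤ M * (A * ‖z‖) := by positivity
        have h8 : 0 ≤ C * (A * ‖z‖) := by positivity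
        nlinarith)
    refine ⟨Polynomial.C (F 0) + Polynomial.X * q, fun z => ?_⟩
    have h1 := sub_smul_dslope F 0 z
    rw [sub_zero, smul_eq_mul, hq z] at h1
    rw [Polynomial.eval_add, Polynomial.eval_C, Polynomial.eval_mul, Polynomial.eval_X, h1]
    ring

/-- A holomorphic function off the zeros of r of polynomial growth is a polynomial.
Proof: bounded near the finitely many zeros of r, so they are removable
(`Complex.differentiableOn_update_limUnder_of_bddAbove`); the extension is entire with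
‖f z‖ ≤ C (1 + ‖z‖)^K off a finite set, hence everywhere; Cauchy estimates (or induction on K with
(f z - f 0)/z and Liouville). -/
theorem poly_of_growth (r : ℂ[X]) (hr : r ≠ 0) (c : ℂ → ℂ)
    (hc : DifferentiableOn ℂ c {z | r.eval z ≠ 0}) (C : ℝ) (K : ℕ)
    (hb : ∀ z, r.eval z ≠ 0 → ‖c z‖ ≤ C * (1 + ‖z‖) ^ K) :
    ∃ q : ℂ[X], ∀ z, r.eval z ≠ 0 → c z = q.eval z := by
  classical
  have hfin : {z : ℂ | r.eval z = 0}.Finite := by
    refine (r.roots.toFinset.finite_toSet).subset ?_
    intro z hz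
    rw [Finset.mem_coe, Multiset.mem_toFinset, Polynomial.mem_roots hr]
    exact hz
  have hUo : IsOpen {z : ℂ | r.eval z ≠ 0} := by
    have : {z : ℂ | r.eval z ≠ 0} = {z : ℂ | r.eval z = 0}ᶜ := by
      ext z
      rfl
    rw [this]
    exact hfin.isClosed.isOpen_compl
  set F : ℂ → ℂ := fun z => Filter.limUnder (nhdsWithin z {z}ᶜ) c with hF
  have hF1 : ∀ z, r.eval z ≠ 0 → F z = c z := by
    intro z hz
    have h1 : ContinuousAt c z := (hc.differentiableAt (hUo.mem_nhds hz)).continuousAt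
    exact (h1.tendsto.mono_left nhdsWithin_le_nhds).limUnder_eq
  have hF2 : Differentiable ℂ F := by
    intro z
    by_cases hz : r.eval z ≠ 0
    · have h1 : F =ᶠ[nhds z] c := by
        filter_upwards [hUo.mem_nhds hz] with w hw
        exact hF1 w hw
      exact (h1.differentiableAt_iff).2 (hc.differentiableAt (hUo.mem_nhds hz))
    · have h1 : IsOpen ({w : ℂ | r.eval w = 0} \ {z})ᶜ := (hfin.subset
        Set.sdiff_subset).isClosed.isOpen_compl
      have h2 : z ∈ ({w : ℂ | r.eval w = 0} \ {z})ᶜ := fun h => h.2 rfl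
      obtain ⟨ρ, hρ, hρ2⟩ := Metric.isOpen_iff.1 h1 z h2
      have h3 : ∀ w ∈ Metric.ball z ρ \ {z}, r.eval w ≠ 0 := by
        intro w hw h4
        exact hρ2 hw.1 ⟨h4, hw.2⟩
      have h4 : BddAbove (norm ∘ c '' (Metric.ball z ρ \ {z})) := by
        refine ⟨|C| * (1 + (‖z‖ + ρ)) ^ K, ?_⟩
        rintro _ ⟨w, hw, rfl⟩
        have h5 := hb w (h3 w hw)
        have h6 : ‖w‖ ≤ ‖z‖ + ρ := by
          have h7 := norm_le_norm_add_norm_sub' w z
          have h8 : ‖w - z‖ < ρ := by
            have := hw.1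
            rwa [Metric.mem_ball, dist_eq_norm] at this
          linarith
        have h9 : (1 + ‖w‖) ^ K ≤ (1 + (‖z‖ + ρ)) ^ K :=
          pow_le_pow_left₀ (by positivity) (by linarith) K
        calc (norm ∘ c) w = ‖c w‖ := rfl
          _ ≤ C * (1 + ‖w‖) ^ K := h5
          _ ≤ |C| * (1 + ‖w‖) ^ K :=
              mul_le_mul_of_nonneg_right (le_abs_self C) (by positivity)
          _ ≤ |C| * (1 + (‖z‖ + ρ)) ^ K := mul_le_mul_of_nonneg_left h9 (abs_nonneg C)
      have h5 := Complex.differentiableOn_update_limUnder_of_bddAbove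
        (Metric.ball_mem_nhds z hρ) (hc.mono (fun w hw => h3 w hw)) h4
      have h6 : F =ᶠ[nhds z] Function.update c z (Filter.limUnder (nhdsWithin z {z}ᶜ) c) := by
        filter_upwards [Metric.ball_mem_nhds z hρ] with w hw
        by_cases hwz : w = z
        · rw [hwz, Function.update_self]
        · rw [Function.update_of_ne hwz]
          exact hF1 w (h3 w ⟨hw, hwz⟩)
      exact (h6.differentiableAt_iff).2 (h5.differentiableAt (Metric.ball_mem_nhds z hρ))
  have hF3 : ∀ z, ‖F z‖ ≤ C * (1 + ‖z‖) ^ K := by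
    have h1 : IsClosed {z : ℂ | ‖F z‖ ≤ C * (1 + ‖z‖) ^ K} := by
      have := hF2.continuous
      apply isClosed_le <;> fun_prop
    have h2 : Dense {z : ℂ | r.eval z = 0}ᶜ := hfin.countable.dense_compl ℂ
    have h3 : {z : ℂ | r.eval z = 0}ᶜ ⊆ {z : ℂ | ‖F z‖ ≤ C * (1 + ‖z‖) ^ K} := by
      intro z hz
      show ‖F z‖ ≤ C * (1 + ‖z‖) ^ K
      rw [hF1 z hz]
      exact hb z hz
    intro z
    exact (h1.closure_subset_iff.2 h3) (h2 z)
  obtain ⟨q, hq⟩ := k14_poly K F C hF2 hF3
  exact ⟨q, fun z hz => by rw [← hF1 z hz, hq z]⟩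

end H13K
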