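import Pool.Agent.Lib.H13K.K13
import Pool.Agent.Lib.H13K.K14

set_option autoImplicit false

open scoped unitInterval Polynomial

namespace H13K

private theorem k15_fin (r : ℂ[X]) (hr : r ≠ 0) : {z : ℂ | r.eval z = 0}.Finite := by
  classical
  refine (r.roots.toFinset.finite_toSet).subset ?_
  intro z hz
  rw [Finset.mem_coe, Multiset.mem_toFinset, Polynomial.mem_roots hr]
  exact hz

private theorem k15_compl (r : ℂ[X]) : {z : ℂ | r.eval z ≠ 0} = {z : ℂ | r.eval z = 0}ᶜ := by
  ext z
  rfl

private theorem k15_preconn (r : ℂ[X]) (hr : r ≠ 0) : IsPreconnected {z : ℂ | r.eval z ≠ 0} := by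
  rw [k15_compl]
  have h : 1 < Module.rank ℝ ℂ := by
    rw [Complex.rank_real_complex]
    exact Cardinal.one_lt_two
  exact ((k15_fin r hr).countable.isConnected_compl_of_one_lt_rank h).isPreconnected

private theorem k15_inf (r : ℂ[X]) (hr : r ≠ 0) : {z : ℂ | r.eval z ≠ 0}.Infinite := by
  rw [k15_compl]
  exact (k15_fin r hr).infinite_compl

private theorem k15_nodup (p : ℂ[X][X]) (hp : p.Monic) (r : ℂ[X]) (hs : Simple p r) (z : ℂ)
    (hz : r.eval z ≠ 0) : (p.map (Polynomial.evalRingHom z)).roots.Nodup := by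
  classical
  have hne : p.map (Polynomial.evalRingHom z) ≠ 0 := (hp.map _).ne_zero
  rw [Multiset.nodup_iff_count_le_one]
  intro w
  rw [Polynomial.count_roots]
  by_contra hcon
  rw [not_le, Polynomial.one_lt_rootMultiplicity_iff_isRoot hne] at hcon
  obtain ⟨h1, h2⟩ := hcon
  rw [Polynomial.IsRoot.def, Polynomial.map_evalRingHom_eval] at h1
  rw [Polynomial.IsRoot.def, Polynomial.derivative_map, Polynomial.map_evalRingHom_eval] at h2
  exact hs z w hz h1 h2

private theorem k15_monic (V : Set (ℂ × ℂ)) (p : ℂ[X][X]) (z : ℂ) : (qV V p z).Monic := by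
  classical
  unfold qV
  exact Polynomial.monic_prod_of_monic _ _ fun u _ => Polynomial.monic_X_sub_C u

private theorem k15_dvd (V : Set (ℂ × ℂ)) (p : ℂ[X][X]) (hp : p.Monic) (z : ℂ) :
    qV V p z ∣ p.map (Polynomial.evalRingHom z) := by
  classical
  have hne : p.map (Polynomial.evalRingHom z) ≠ 0 := (hp.map _).ne_zero
  unfold qV
  refine (Multiset.prod_X_sub_C_dvd_iff_le_roots hne _).2 ?_
  exact (Multiset.filter_le _ _).trans (Multiset.dedup_le _)

private theorem k15_deg (V : Set (ℂ × ℂ)) (p : ℂ[X][X]) (z : ℂ) :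
    (qV V p z).natDegree = (open scoped Classical in
      ((p.map (Polynomial.evalRingHom z)).roots.toFinset.filter (fun u => (z, u) ∈ V)).card) := by
  classical
  unfold qV
  rw [Polynomial.natDegree_prod_of_monic _ _ fun u _ => Polynomial.monic_X_sub_C u]
  simp

private theorem k15_zero (r : ℂ[X]) (hr : r ≠ 0) (s : ℂ[X][X])
    (h : ∀ z, r.eval z ≠ 0 → s.map (Polynomial.evalRingHom z) = 0) : s = 0 := by
  ext1 m
  rw [Polynomial.coeff_zero]
  apply Polynomial.eq_zero_of_infinite_isRoot
  refine (k15_inf r hr).mono ?_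
  intro z hz
  have h1 := congrArg (fun t => Polynomial.coeff t m) (h z hz)
  simp only [Polynomial.coeff_map, Polynomial.coeff_zero, Polynomial.coe_evalRingHom] at h1
  exact h1

/-- The curve of a monic irreducible polynomial is path connected over r ≠ 0.
Proof: it is nonempty (natDegree p > 0).  Let V = the set of the points joined to x in CS p r.
`CS_joined_near` gives hV1, hV2 of `qV_local`.  The degree e of qV V p z is locally constant, hence
constant, on the connected set r ≠ 0; e ≥ 1 over x.  The coefficients are holomorphic there and of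
polynomial growth, so by `poly_of_growth` there is q : ℂ[X][X], monic of degree e, with
q.map (evalRingHom z) = qV V p z for all z with r(z) ≠ 0.  It divides p.map (evalRingHom z) (simple
roots).  Division with remainder by the monic q: the remainder of p vanishes at all z with
r(z) ≠ 0, so it is 0 and q divides p; p irreducible and q monic of degree e ≥ 1, so e = natDegree p
and V contains all of CS p r. -/
theorem CS_pathConnected (p : ℂ[X][X]) (hp : p.Monic) (hpi : Irreducible p) (r : ℂ[X])
    (hr : r ≠ 0) (hs : Simple p r) : IsPathConnected (CS p r) := by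
  classical
  -- nonempty
  have hdeg : 0 < p.natDegree := by
    rw [Nat.pos_iff_ne_zero]
    intro h0
    exact hpi.not_isUnit ((hp.isUnit_iff).2 (hp.natDegree_eq_zero.1 h0))
  obtain ⟨z₀, hz₀⟩ := (k15_inf r hr).nonempty
  have hz₀' : r.eval z₀ ≠ 0 := hz₀
  obtain ⟨w₀, hw₀⟩ := IsAlgClosed.exists_root (p.map (Polynomial.evalRingHom z₀)) (by
    intro h1
    rw [Polynomial.degree_eq_natDegree (hp.map _).ne_zero, hp.natDegree_map] at h1
    exact hdeg.ne' (by exact_mod_cast h1))
  rw [Polynomial.IsRoot.def, Polynomial.map_evalRingHom_eval] at hw₀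
  have hx : ((z₀, w₀) : ℂ × ℂ) ∈ CS p r := ⟨hz₀', hw₀⟩
  set V : Set (ℂ × ℂ) := {y | JoinedIn (CS p r) (z₀, w₀) y} with hV
  have hV1 : ∀ x ∈ CS p r, x ∈ V →
      ∃ O : Set (ℂ × ℂ), IsOpen O ∧ x ∈ O ∧ ∀ y ∈ O ∩ CS p r, y ∈ V := by
    intro x hxC hxV
    obtain ⟨O, hO, hxO, h⟩ := CS_joined_near p hp r hr hs x hxC
    exact ⟨O, hO, hxO, fun y hy => JoinedIn.trans hxV (h y hy)⟩
  have hV2 : ∀ x ∈ CS p r, x ∉ V →
      ∃ O : Set (ℂ × ℂ), IsOpen O ∧ x ∈ O ∧ ∀ y ∈ O ∩ CS p r, y ∉ V := by
    intro x hxC hxV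
    obtain ⟨O, hO, hxO, h⟩ := CS_joined_near p hp r hr hs x hxC
    exact ⟨O, hO, hxO, fun y hy hyV => hxV (JoinedIn.trans hyV (h y hy).symm)⟩
  have hloc := qV_local p hp r hs V hV1 hV2
  -- the degree is constant
  set e : ℕ := (qV V p z₀).natDegree with he
  have hconst : ∀ z, r.eval z ≠ 0 → (qV V p z).natDegree = e := by
    intro z hz
    have hcont : ContinuousOn (fun z => (qV V p z).natDegree) {z : ℂ | r.eval z ≠ 0} := by
      intro z₁ hz₁
      obtain ⟨ρ, hρ, h1, -⟩ := hloc z₁ hz₁
      apply ContinuousAt.continuousWithinAt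
      have h2 : (fun z => (qV V p z).natDegree) =ᶠ[nhds z₁] fun _ => (qV V p z₁).natDegree := by
        filter_upwards [Metric.ball_mem_nhds z₁ hρ] with w hw
        exact h1 w hw
      exact (continuousAt_const).congr h2.symm
    exact (k15_preconn r hr).constant hcont hz hz₀'
  have he1 : 1 ≤ e := by
    rw [he, k15_deg]
    apply Finset.card_pos.2
    refine ⟨w₀, ?_⟩
    rw [Finset.mem_filter, Multiset.mem_toFinset, Polynomial.mem_roots (hp.map _).ne_zero,
      Polynomial.IsRoot.def, Polynomial.map_evalRingHom_eval]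
    exact ⟨hw₀, JoinedIn.refl hx⟩
  -- the coefficients are polynomials
  obtain ⟨C, K, hCK⟩ := qV_growth p hp V
  have hcoef : ∀ m : ℕ, ∃ Q : ℂ[X], ∀ z, r.eval z ≠ 0 → (qV V p z).coeff m = Q.eval z := by
    intro m
    refine poly_of_growth r hr (fun z => (qV V p z).coeff m) ?_ C K (fun z _ => hCK m z)
    intro z hz
    obtain ⟨ρ, hρ, -, h2⟩ := hloc z hz
    exact ((h2 m).differentiableAt (Metric.ball_mem_nhds z hρ)).differentiableWithinAt
  choose Q hQ using hcoef
  set q : ℂ[X][X] := Polynomial.X ^ e +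
    ∑ i : Fin e, Polynomial.C (Q (i : ℕ)) * Polynomial.X ^ (i : ℕ) with hq
  have hqm : q.Monic := Polynomial.monic_X_pow_add (Polynomial.degree_sum_fin_lt _)
  have hqd : q.natDegree = e := by
    apply Polynomial.natDegree_eq_of_degree_eq_some
    rw [hq, Polynomial.degree_add_eq_left_of_degree_lt, Polynomial.degree_X_pow]
    rw [Polynomial.degree_X_pow]
    exact Polynomial.degree_sum_fin_lt _
  have hqz : ∀ z, r.eval z ≠ 0 → q.map (Polynomial.evalRingHom z) = qV V p z := by
    intro z hz
    have h1 := (k15_monic V p z).as_sum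
    rw [hconst z hz] at h1
    rw [h1, hq, Polynomial.map_add, Polynomial.map_pow, Polynomial.map_X, Polynomial.map_sum,
      Finset.sum_range]
    congr 1
    apply Finset.sum_congr rfl
    intro i _
    rw [Polynomial.map_mul, Polynomial.map_pow, Polynomial.map_X, Polynomial.map_C,
      Polynomial.coe_evalRingHom, hQ (i : ℕ) z hz]
  -- q divides p
  have hdvd : q ∣ p := by
    rw [← Polynomial.modByMonic_eq_zero_iff_dvd hqm]
    apply k15_zero r hr
    intro z hz
    rw [Polynomial.map_modByMonic _ hqm, hqz z hz,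
      Polynomial.modByMonic_eq_zero_iff_dvd (k15_monic V p z)]
    exact k15_dvd V p hp z
  have hen : e = p.natDegree := by
    obtain ⟨s, hs'⟩ := hdvd
    rcases hpi.isUnit_or_isUnit hs' with h1 | h1
    · rw [hqm.isUnit_iff] at h1
      rw [h1, Polynomial.natDegree_one] at hqd
      omega
    · have h2 := Polynomial.natDegree_eq_zero_of_isUnit h1
      have h3 : s ≠ 0 := h1.ne_zero
      rw [hs', Polynomial.natDegree_mul hqm.ne_zero h3, h2, hqd, add_zero]
  -- conclusion
  refine ⟨(z₀, w₀), hx, ?_⟩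
  intro y hy
  have hy1 : r.eval y.1 ≠ 0 := hy.1
  have h1 : (qV V p y.1).natDegree = e := hconst y.1 hy1
  rw [k15_deg, hen] at h1
  set S : Finset ℂ := (p.map (Polynomial.evalRingHom y.1)).roots.toFinset with hS
  have h2 : S.card ≤ p.natDegree := by
    calc S.card ≤ Multiset.card (p.map (Polynomial.evalRingHom y.1)).roots :=
          Multiset.toFinset_card_le _
      _ ≤ (p.map (Polynomial.evalRingHom y.1)).natDegree := Polynomial.card_roots' _
      _ ≤ p.natDegree := Polynomial.natDegree_map_le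
  have h3 : S.filter (fun u => (y.1, u) ∈ V) = S := by
    apply Finset.eq_of_subset_of_card_le (Finset.filter_subset _ _)
    exact h2.trans (le_of_eq h1.symm)
  have h4 : y.2 ∈ S := by
    rw [hS, Multiset.mem_toFinset, Polynomial.mem_roots (hp.map _).ne_zero,
      Polynomial.IsRoot.def, Polynomial.map_evalRingHom_eval]
    exact hy.2
  rw [← h3, Finset.mem_filter] at h4
  exact h4.2

end H13K
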