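import Pool.Agent.Lib.H13K.KD

set_option autoImplicit false

open scoped unitInterval Polynomial

namespace H13K

private theorem k1_coprime {K : Type} [Field K] {a b : K[X]} (ha : Irreducible a) (h : ¬ a ∣ b) :
    IsCoprime a b := ha.coprime_iff_not_dvd.2 h

private theorem k1_bezout {p q : ℂ[X][X]} (hp : p.Monic) (hirr : Irreducible p)
    (hc : IsCoprime (p.map (algebraMap ℂ[X] (FractionRing ℂ[X])))
      (q.map (algebraMap ℂ[X] (FractionRing ℂ[X])))) :
    ∃ r : ℂ[X], r ≠ 0 ∧ ∀ z w, r.eval z ≠ 0 → p.evalEval z w = 0 → q.evalEval z w ≠ 0 := by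
  have hinj : Function.Injective (algebraMap ℂ[X] (FractionRing ℂ[X])) :=
    IsFractionRing.injective _ _
  have hdeg : p.natDegree ≠ 0 := by
    intro h0
    have h1 := Polynomial.eq_one_of_monic_natDegree_zero hp h0
    exact hirr.not_isUnit (h1 ▸ isUnit_one)
  obtain ⟨a, b, _, _, e⟩ := Polynomial.exists_mul_add_mul_eq_C_resultant p q le_rfl le_rfl
    (Or.inl hdeg)
  refine ⟨p.resultant q, ?_, fun z w hr hpz hqz => hr ?_⟩
  · intro h0
    have h1 := (Polynomial.isUnit_resultant_iff_isCoprime (hp.map _)).2 hc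
    rw [Polynomial.natDegree_map_eq_of_injective hinj, Polynomial.natDegree_map_eq_of_injective hinj,
      Polynomial.resultant_map_map, h0, map_zero] at h1
    exact not_isUnit_zero h1
  · have h1 := congrArg (fun f : ℂ[X][X] => f.evalEval z w) e
    simp only [Polynomial.evalEval_add, Polynomial.evalEval_mul, Polynomial.evalEval_C, hpz, hqz,
      zero_mul, add_zero] at h1
    exact h1.symm

/-- Existence of a discriminant for a finite family of different monic irreducible polynomials.
Proof: over the fraction field K of ℂ[z] the P i are irreducible (Gauss, monic), pairwise coprime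
(different monic irreducibles are not associated) and separable (characteristic 0); clear
denominators in the Bezout identities of (P i, derivative (P i)) and of (P i, P j), i ≠ j
(or use the resultants, `Polynomial.exists_mul_add_mul_eq_C_resultant`); r = product of all the
right sides. -/
theorem exists_disc {ι : Type} [Fintype ι] (P : ι → ℂ[X][X]) (hm : ∀ i, (P i).Monic)
    (hirr : ∀ i, Irreducible (P i)) (hinj : Function.Injective P) : ∃ r : ℂ[X], Disc P r := by
  classical
  have hinj' : Function.Injective (algebraMap ℂ[X] (FractionRing ℂ[X])) :=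
    IsFractionRing.injective _ _
  have hirr' : ∀ i, Irreducible ((P i).map (algebraMap ℂ[X] (FractionRing ℂ[X]))) := fun i =>
    ((hm i).irreducible_iff_irreducible_map_fraction_map).1 (hirr i)
  have h1 : ∀ i, ∃ r : ℂ[X], r ≠ 0 ∧ Simple (P i) r := by
    intro i
    have hs : ((P i).map (algebraMap ℂ[X] (FractionRing ℂ[X]))).Separable := (hirr' i).separable
    have hs' : IsCoprime ((P i).map (algebraMap ℂ[X] (FractionRing ℂ[X])))
        ((Polynomial.derivative (P i)).map (algebraMap ℂ[X] (FractionRing ℂ[X]))) := by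
      rw [← Polynomial.derivative_map]
      exact hs
    obtain ⟨r, hr, h⟩ := k1_bezout (hm i) (hirr i) hs'
    exact ⟨r, hr, h⟩
  have h2 : ∀ i j, ∃ r : ℂ[X], r ≠ 0 ∧ (i ≠ j → ∀ z w, r.eval z ≠ 0 →
      (P i).evalEval z w = 0 → (P j).evalEval z w ≠ 0) := by
    intro i j
    by_cases hij : i = j
    · exact ⟨1, one_ne_zero, fun h => absurd hij h⟩
    · have hc : IsCoprime ((P i).map (algebraMap ℂ[X] (FractionRing ℂ[X])))
          ((P j).map (algebraMap ℂ[X] (FractionRing ℂ[X]))) := by
        refine k1_coprime (hirr' i) fun h => ?_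
        have h3 := (hirr' i).associated_of_dvd (hirr' j) h
        have h4 := Polynomial.eq_of_monic_of_associated ((hm i).map _) ((hm j).map _) h3
        exact hij (hinj (Polynomial.map_injective _ hinj' h4))
      obtain ⟨r, hr, h⟩ := k1_bezout (hm i) (hirr i) hc
      exact ⟨r, hr, fun _ => h⟩
  choose r hr hs using h1
  choose t ht hd using h2
  have hev : ∀ z, ((∏ i, r i) * ∏ i, ∏ j, t i j).eval z ≠ 0 →
      (∀ i, (r i).eval z ≠ 0) ∧ ∀ i j, (t i j).eval z ≠ 0 := by
    intro z hz
    rw [Polynomial.eval_mul, Polynomial.eval_prod, Polynomial.eval_prod] at hz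
    have h3 := mul_ne_zero_iff.1 hz
    refine ⟨fun i => Finset.prod_ne_zero_iff.1 h3.1 i (Finset.mem_univ i), fun i j => ?_⟩
    have h4 := Finset.prod_ne_zero_iff.1 h3.2 i (Finset.mem_univ i)
    rw [Polynomial.eval_prod] at h4
    exact Finset.prod_ne_zero_iff.1 h4 j (Finset.mem_univ j)
  refine ⟨(∏ i, r i) * ∏ i, ∏ j, t i j, ?_, ?_, ?_⟩
  · refine mul_ne_zero (Finset.prod_ne_zero_iff.2 fun i _ => hr i)
      (Finset.prod_ne_zero_iff.2 fun i _ => Finset.prod_ne_zero_iff.2 fun j _ => ht i j)
  · intro i z w hz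
    exact hs i z w ((hev z hz).1 i)
  · intro i j z w hij hz
    exact hd i j hij z w ((hev z hz).2 i j)

end H13K
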