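import Pool.Agent.Lib.H13K.K3

set_option autoImplicit false

open scoped unitInterval Polynomial

namespace H13K

private theorem evenly (p : ℂ[X][X]) (hp : p.Monic) (z : C(ℝ, ℂ)) (t₀ : ℝ)
    (hs : ∀ w, p.evalEval (z t₀) w = 0 → (Polynomial.derivative p).evalEval (z t₀) w ≠ 0) :
    IsEvenlyCovered (fun q : {q : ℝ × ℂ // p.evalEval (z q.1) q.2 = 0} => q.1.1) t₀
      (Fin p.natDegree) := by
  obtain ⟨ρ, hρ, h, hd, hi, hf⟩ := local_roots p hp (z t₀) hs
  set E := {q : ℝ × ℂ // p.evalEval (z q.1) q.2 = 0} with hE
  set U : Set ℝ := z ⁻¹' Metric.ball (z t₀) ρ with hU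
  have hUo : IsOpen U := Metric.isOpen_ball.preimage z.continuous
  have hfc : Continuous (fun q : E => q.1.1) := continuous_fst.comp continuous_subtype_val
  have hroot : ∀ t ∈ U, ∀ w, p.evalEval (z t) w = 0 ↔ ∃ a, h a (z t) = w := by
    intro t ht w
    rw [← Polynomial.map_evalRingHom_eval, hf (z t) ht, Polynomial.eval_prod, Finset.prod_eq_zero_iff]
    constructor
    · rintro ⟨a, -, ha⟩
      refine ⟨a, ?_⟩
      rw [Polynomial.eval_sub, Polynomial.eval_X, Polynomial.eval_C, sub_eq_zero] at ha
      exact ha.symm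
    · rintro ⟨a, ha⟩
      refine ⟨a, Finset.mem_univ _, ?_⟩
      rw [Polynomial.eval_sub, Polynomial.eval_X, Polynomial.eval_C, ha, sub_self]
  have hcont : ∀ a, Continuous (fun t : U => h a (z t.1)) := by
    intro a
    have h1 : ContinuousOn (h a) (Metric.ball (z t₀) ρ) := (hd a).continuousOn
    exact h1.comp_continuous (z.continuous.comp continuous_subtype_val) (fun t => t.2)
  have hex : ∀ q : (fun q : E => q.1.1) ⁻¹' U, ∃ a, h a (z q.1.1.1) = q.1.1.2 := by
    intro q
    exact (hroot q.1.1.1 q.2 q.1.1.2).1 q.1.2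
  choose idx hidx using hex
  have hidx_iff : ∀ q a, idx q = a ↔ h a (z q.1.1.1) = q.1.1.2 := by
    intro q a
    constructor
    · rintro rfl
      exact hidx q
    · intro ha
      exact hi (z q.1.1.1) q.2 (by show h (idx q) _ = h a _; rw [hidx q, ha])
  have hclosed : ∀ a, IsClosed {q : (fun q : E => q.1.1) ⁻¹' U | idx q = a} := by
    intro a
    have h2 : {q : (fun q : E => q.1.1) ⁻¹' U | idx q = a} =
        {q | h a (z q.1.1.1) = q.1.1.2} := by
      ext q
      exact hidx_iff q a
    rw [h2]
    apply isClosed_eq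
    · exact (hcont a).comp (Continuous.subtype_mk (hfc.comp continuous_subtype_val) (fun q => q.2))
    · exact continuous_snd.comp (continuous_subtype_val.comp continuous_subtype_val)
  refine ⟨inferInstance, U, by simp [hU, hρ], hUo, hUo.preimage hfc,
    { toFun := fun q => (⟨q.1.1.1, q.2⟩, idx q)
      invFun := fun y => ⟨⟨(y.1.1, h y.2 (z y.1.1)),
        (hroot y.1.1 y.1.2 _).2 ⟨y.2, rfl⟩⟩, y.1.2⟩
      left_inv := ?_
      right_inv := ?_
      continuous_toFun := ?_
      continuous_invFun := ?_ }, fun _ => rfl⟩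
  · intro q
    apply Subtype.ext
    apply Subtype.ext
    exact Prod.ext rfl (hidx q)
  · intro y
    refine Prod.ext rfl ?_
    exact (hidx_iff _ _).2 rfl
  · refine Continuous.prodMk
      (Continuous.subtype_mk (hfc.comp continuous_subtype_val) (fun q => q.2)) ?_
    rw [continuous_discrete_rng]
    intro a
    have h3 : idx ⁻¹' {a} = (⋃ b ∈ (Finset.univ.erase a : Finset (Fin p.natDegree)),
        {q : (fun q : E => q.1.1) ⁻¹' U | idx q = b})ᶜ := by
      ext q
      simp only [Set.mem_preimage, Set.mem_singleton_iff, Set.mem_compl_iff, Set.mem_iUnion,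
        Finset.mem_erase, Finset.mem_univ, and_true, Set.mem_setOf_eq, exists_prop, not_exists,
        not_and]
      constructor
      · intro h4 b hb h5
        exact hb (h5.symm.trans h4)
      · intro h4
        by_contra h5
        exact h4 (idx q) h5 rfl
    rw [h3, isOpen_compl_iff]
    exact isClosed_biUnion_finset (fun b _ => hclosed b)
  · refine Continuous.subtype_mk (Continuous.subtype_mk ?_ _) _
    refine Continuous.prodMk (continuous_subtype_val.comp continuous_fst) ?_
    rw [continuous_prod_of_discrete_right]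
    intro a
    exact hcont a

/-- Continuous labelling of the roots along a line in the base.
Proof: the projection of {(t, w) : p (z t, w) = 0} to ℝ is a covering map with fibres of d elements
(`local_roots`), ℝ is simply connected and locally path connected, so every root over t = 0 has a
lift (`IsCoveringMap.existsUnique_continuousMap_lifts`); different lifts never meet.  (Or directly:
the set of t such that a labelling exists on [0, t] is open and closed.) -/
theorem roots_along (p : ℂ[X][X]) (hp : p.Monic) (r : ℂ[X]) (hs : Simple p r) (z : C(ℝ, ℂ))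
    (hz : ∀ t, r.eval (z t) ≠ 0) : ∃ u : Fin p.natDegree → C(ℝ, ℂ),
      (∀ t, Function.Injective (fun a => u a t)) ∧
      ∀ t, p.map (Polynomial.evalRingHom (z t)) =
        ∏ a, (Polynomial.X - Polynomial.C (u a t)) := by
  have hs' : ∀ t w, p.evalEval (z t) w = 0 → (Polynomial.derivative p).evalEval (z t) w ≠ 0 :=
    fun t w hw => hs (z t) w (hz t) hw
  have hcov : IsCoveringMap (fun q : {q : ℝ × ℂ // p.evalEval (z q.1) q.2 = 0} => q.1.1) :=
    fun t => (evenly p hp z t (hs' t)).to_isEvenlyCovered_preimage
  obtain ⟨ρ, hρ, h, -, hi, hf⟩ := local_roots p hp (z 0) (hs' 0)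
  have hmem : z 0 ∈ Metric.ball (z 0) ρ := Metric.mem_ball_self hρ
  have hroot : ∀ a, p.evalEval (z 0) (h a (z 0)) = 0 := by
    intro a
    rw [← Polynomial.map_evalRingHom_eval, hf (z 0) hmem, Polynomial.eval_prod]
    apply Finset.prod_eq_zero (Finset.mem_univ a)
    rw [Polynomial.eval_sub, Polynomial.eval_X, Polynomial.eval_C, sub_self]
  have hlift : ∀ a : Fin p.natDegree, ∃ F : C(ℝ, {q : ℝ × ℂ // p.evalEval (z q.1) q.2 = 0}),
      F 0 = ⟨(0, h a (z 0)), hroot a⟩ ∧
      (fun q : {q : ℝ × ℂ // p.evalEval (z q.1) q.2 = 0} => q.1.1) ∘ F = ContinuousMap.id ℝ := by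
    intro a
    exact (hcov.existsUnique_continuousMap_lifts (ContinuousMap.id ℝ) 0
      ⟨(0, h a (z 0)), hroot a⟩ rfl).exists
  choose F hF0 hF using hlift
  have hF1 : ∀ a t, (F a t).1.1 = t := fun a t => congrFun (hF a) t
  refine ⟨fun a => ⟨fun t => (F a t).1.2, by fun_prop⟩, ?_, ?_⟩
  · intro t a b hab
    have h1 : F a t = F b t := by
      apply Subtype.ext
      exact Prod.ext ((hF1 a t).trans (hF1 b t).symm) hab
    have h2 : (F a : ℝ → _) = F b :=
      hcov.eq_of_comp_eq (F a).continuous (F b).continuous ((hF a).trans (hF b).symm) t h1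
    have h3 : F a 0 = F b 0 := congrFun h2 0
    rw [hF0, hF0] at h3
    have h4 : h a (z 0) = h b (z 0) := congrArg (fun q => q.1.2) h3
    exact hi (z 0) hmem h4
  · intro t
    have hinj : Function.Injective (fun a => (F a t).1.2) := by
      intro a b hab
      have h1 : F a t = F b t := by
        apply Subtype.ext
        exact Prod.ext ((hF1 a t).trans (hF1 b t).symm) hab
      have h2 : (F a : ℝ → _) = F b :=
        hcov.eq_of_comp_eq (F a).continuous (F b).continuous ((hF a).trans (hF b).symm) t h1
      have h3 : F a 0 = F b 0 := congrFun h2 0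
      rw [hF0, hF0] at h3
      have h4 : h a (z 0) = h b (z 0) := congrArg (fun q => q.1.2) h3
      exact hi (z 0) hmem h4
    have hmon : (p.map (Polynomial.evalRingHom (z t))).Monic := hp.map _
    have hprod : (∏ a, (Polynomial.X - Polynomial.C ((F a t).1.2))).Monic :=
      Polynomial.monic_prod_of_monic _ _ (fun a _ => Polynomial.monic_X_sub_C _)
    have hdvd : (∏ a, (Polynomial.X - Polynomial.C ((F a t).1.2))) ∣
        p.map (Polynomial.evalRingHom (z t)) := by
      apply Finset.prod_dvd_of_coprime
      · intro a _ b _ hab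
        exact Polynomial.pairwise_coprime_X_sub_C hinj hab
      · intro a _
        rw [Polynomial.dvd_iff_isRoot, Polynomial.IsRoot, Polynomial.map_evalRingHom_eval]
        have h5 := (F a t).2
        rw [hF1 a t] at h5
        exact h5
    have hdeg : (p.map (Polynomial.evalRingHom (z t))).natDegree ≤
        (∏ a, (Polynomial.X - Polynomial.C ((F a t).1.2))).natDegree := by
      rw [Polynomial.natDegree_prod_of_monic _ _ (fun a _ => Polynomial.monic_X_sub_C _),
        hp.natDegree_map]
      simp
    exact (Polynomial.eq_of_monic_of_dvd_of_natDegree_le hprod hmon hdvd hdeg).symm ▸ rfl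

end H13K
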