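import Pool.Agent.Lib.H13K.Defs2

set_option autoImplicit false

open scoped unitInterval Polynomial

namespace H13K

/-- The complement of the plane curves `P i = 0`. -/
def CX {ι : Type} (P : ι → ℂ[X][X]) : Set (ℂ × ℂ) := {p | ∀ i, (P i).evalEval p.1 p.2 ≠ 0}

/-- The complement together with all points over `r ≠ 0`. -/
def CY {ι : Type} (P : ι → ℂ[X][X]) (r : ℂ[X]) : Set (ℂ × ℂ) :=
  {p | (∀ i, (P i).evalEval p.1 p.2 ≠ 0) ∨ r.eval p.1 ≠ 0}

/-- `p` has only simple roots over the points where `r` does not vanish. -/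
def Simple (p : ℂ[X][X]) (r : ℂ[X]) : Prop :=
  ∀ z w, r.eval z ≠ 0 → p.evalEval z w = 0 → (Polynomial.derivative p).evalEval z w ≠ 0

/-- `r` is a discriminant of the family `P`. -/
structure Disc {ι : Type} (P : ι → ℂ[X][X]) (r : ℂ[X]) : Prop where
  ne : r ≠ 0
  simple : ∀ i, Simple (P i) r
  disj : ∀ i j z w, i ≠ j → r.eval z ≠ 0 → (P i).evalEval z w = 0 → (P j).evalEval z w ≠ 0

/-- The curve `p = 0` over the points where `r` does not vanish. -/
def CS (p : ℂ[X][X]) (r : ℂ[X]) : Set (ℂ × ℂ) := {q | r.eval q.1 ≠ 0 ∧ p.evalEval q.1 q.2 = 0}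

/-- Admissible data of a meridian around the point `(z, u)` of the curve. -/
def Adm2 {ι : Type} (P : ι → ℂ[X][X]) (z u a : ℂ) : Prop :=
  a ≠ 0 ∧ ∀ b : ℂ, b ≠ 0 → ‖b‖ ≤ ‖a‖ → ∀ i, (P i).evalEval z (u + b) ≠ 0

theorem Adm2.mem {ι : Type} {P : ι → ℂ[X][X]} {z u a : ℂ} (h : Adm2 P z u a) (b : ℂ)
    (hb : ‖b‖ = 1) : (z, u + a * b) ∈ CX P := by
  intro i
  apply h.2 (a * b)
  · intro h0
    rcases mul_eq_zero.1 h0 with h1 | h1
    · exact h.1 h1
    · rw [h1] at hb
      simp at hb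
  · rw [norm_mul, hb, mul_one]

/-- The base point of a meridian. -/
noncomputable def mbase2 {ι : Type} (P : ι → ℂ[X][X]) (z u a : ℂ) (h : Adm2 P z u a) : CX P :=
  ⟨(z, u + a), by simpa using h.mem 1 (by simp)⟩

/-- The meridian around `(z, u)` that starts at `(z, u + a)`. -/
noncomputable def mer2 {ι : Type} (P : ι → ℂ[X][X]) (z u a : ℂ) (h : Adm2 P z u a) :
    Path (mbase2 P z u a h) (mbase2 P z u a h) where
  toFun t := ⟨(z, u + a * Complex.exp (2 * Real.pi * (t : ℝ) * Complex.I)),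
    h.mem _ (norm_circ t)⟩
  continuous_toFun := by
    apply Continuous.subtype_mk
    fun_prop
  source' := by
    apply Subtype.ext
    simp [mbase2]
  target' := by
    apply Subtype.ext
    simp [mbase2, Complex.exp_two_pi_mul_I]

/-- The functional kills all meridians over the points where `r` does not vanish. -/
def Kills2 {ι : Type} {P : ι → ℂ[X][X]} (r : ℂ[X]) {H : Type} [Group H] (Φ : PF (CX P) H) : Prop :=
  ∀ i z u a (h : Adm2 P z u a), r.eval z ≠ 0 → (P i).evalEval z u = 0 →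
    Φ.val (mer2 P z u a h) = 1

/-- The inclusion of the complement into `CY`. -/
def inclC {ι : Type} (P : ι → ℂ[X][X]) (r : ℂ[X]) : C(CX P, CY P r) where
  toFun x := ⟨x.1, Or.inl x.2⟩
  continuous_toFun := by
    apply Continuous.subtype_mk
    fun_prop

/-- The monic polynomial whose roots are the roots `u` of `p (z, .)` with `(z, u)` in `V`. -/
noncomputable def qV (V : Set (ℂ × ℂ)) (p : ℂ[X][X]) (z : ℂ) : ℂ[X] :=
  open scoped Classical in
  ∏ u ∈ (p.map (Polynomial.evalRingHom z)).roots.toFinset.filter (fun u => (z, u) ∈ V),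
    (Polynomial.X - Polynomial.C u)

end H13K
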