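import Mathlib

set_option autoImplicit false

open scoped unitInterval

namespace H13K

/-- A path functional on `X` with values in the group `H`: homotopy invariant and
(anti)multiplicative, in the order of `FundamentalGroup`. -/
structure PF (X : Type) [TopologicalSpace X] (H : Type) [Group H] where
  val : ∀ {x y : X}, Path x y → H
  homot : ∀ {x y : X} {p q : Path x y}, p.Homotopic q → val p = val q
  trans : ∀ {x y z : X} (p : Path x y) (q : Path y z), val (p.trans q) = val q * val p

namespace PF

variable {X K : Type} [TopologicalSpace X] [TopologicalSpace K] {H H' : Type} [Group H] [Group H']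

theorem val_refl (Φ : PF X H) (x : X) : Φ.val (Path.refl x) = 1 := by
  have h := Φ.trans (Path.refl x) (Path.refl x)
  rw [Path.refl_trans_refl] at h
  simpa using h

theorem val_symm (Φ : PF X H) {x y : X} (p : Path x y) : Φ.val p.symm = (Φ.val p)⁻¹ := by
  have h := Φ.trans p p.symm
  have h2 : (p.trans p.symm).Homotopic (Path.refl x) := ⟨(Path.Homotopy.reflTransSymm p).symm⟩
  rw [Φ.homot h2, Φ.val_refl] at h
  exact eq_inv_of_mul_eq_one_left h.symm

/-- Pull back of a functional along a continuous map. -/
def comap (Φ : PF X H) (j : C(K, X)) : PF K H where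
  val p := Φ.val (p.map j.continuous)
  homot h := Φ.homot (h.map j)
  trans p q := by rw [Path.map_trans]; exact Φ.trans _ _

/-- Push forward of a functional along a group homomorphism. -/
def push (Φ : PF X H) (ψ : H →* H') : PF X H' where
  val p := ψ (Φ.val p)
  homot h := by rw [Φ.homot h]
  trans p q := by rw [Φ.trans, map_mul]

theorem val_eq_of_simplyConnected [SimplyConnectedSpace K] (Φ : PF K H) {x y : K}
    (p q : Path x y) : Φ.val p = Φ.val q :=
  Φ.homot (SimplyConnectedSpace.paths_homotopic p q)

/-- casting the end points does not change the value -/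
theorem val_cast (Φ : PF X H) {x y x' y' : X} (p : Path x y) (hx : x' = x) (hy : y' = y) :
    Φ.val (p.cast hx hy) = Φ.val p := by
  subst hx hy
  rfl

end PF

/-- The left side `s = 0` of a square. -/
def sideL {X : Type} [TopologicalSpace X] (F : C(I × I, X)) : Path (F (0, 0)) (F (0, 1)) where
  toFun t := F (0, t)
  continuous_toFun := by fun_prop
  source' := rfl
  target' := rfl

/-- The right side `s = 1` of a square. -/
def sideR {X : Type} [TopologicalSpace X] (F : C(I × I, X)) : Path (F (1, 0)) (F (1, 1)) where
  toFun t := F (1, t)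
  continuous_toFun := by fun_prop
  source' := rfl
  target' := rfl

/-- The bottom side `t = 0` of a square. -/
def sideB {X : Type} [TopologicalSpace X] (F : C(I × I, X)) : Path (F (0, 0)) (F (1, 0)) where
  toFun s := F (s, 0)
  continuous_toFun := by fun_prop
  source' := rfl
  target' := rfl

/-- The top side `t = 1` of a square. -/
def sideT {X : Type} [TopologicalSpace X] (F : C(I × I, X)) : Path (F (0, 1)) (F (1, 1)) where
  toFun s := F (s, 1)
  continuous_toFun := by fun_prop
  source' := rfl
  target' := rfl

instance : ContractibleSpace (I × I) := by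
  have h : ContractibleSpace I := (convex_Icc (0 : ℝ) 1).contractibleSpace ⟨0, by simp⟩
  infer_instance

/-- The boundary relation of a square. -/
theorem square_homotopic {X : Type} [TopologicalSpace X] (F : C(I × I, X)) :
    ((sideL F).trans (sideT F)).Homotopic ((sideB F).trans (sideR F)) := by
  have h : ((sideL (ContinuousMap.id (I × I))).trans (sideT (ContinuousMap.id (I × I)))).Homotopic
      ((sideB (ContinuousMap.id (I × I))).trans (sideR (ContinuousMap.id (I × I)))) :=
    SimplyConnectedSpace.paths_homotopic _ _
  have h2 := h.map F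
  rw [Path.map_trans, Path.map_trans] at h2
  exact h2

theorem PF.square {X : Type} [TopologicalSpace X] {H : Type} [Group H] (Φ : PF X H)
    (F : C(I × I, X)) :
    Φ.val (sideT F) * Φ.val (sideL F) = Φ.val (sideR F) * Φ.val (sideB F) := by
  rw [← Φ.trans, ← Φ.trans]
  exact Φ.homot (square_homotopic F)

section graphs

variable {E : Type} [NormedAddCommGroup E] [NormedSpace ℝ E] {ι : Type}

/-- The complement of the graphs. -/
def XX (g : ι → C(E, ℂ)) : Set (E × ℂ) := {p | ∀ i, p.2 ≠ g i p.1}

/-- The complement of the points that lie on two graphs. -/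
def YY (g : ι → C(E, ℂ)) : Set (E × ℂ) :=
  {p | ∀ i j, i ≠ j → ¬ (p.2 = g i p.1 ∧ p.2 = g j p.1)}

/-- The discriminant. -/
def DD (g : ι → C(E, ℂ)) : Set E := {z | ∃ i j, i ≠ j ∧ g i z = g j z}

/-- Admissible data of a meridian of the graph `i`. -/
def Adm (g : ι → C(E, ℂ)) (i : ι) (z : E) (a : ℂ) : Prop :=
  a ≠ 0 ∧ ∀ j, j ≠ i → ‖a‖ < ‖g i z - g j z‖

omit [NormedSpace ℝ E] in
theorem Adm.mem {g : ι → C(E, ℂ)} {i : ι} {z : E} {a : ℂ} (h : Adm g i z a) (b : ℂ)
    (hb : ‖b‖ = 1) : (z, g i z + a * b) ∈ XX g := by
  intro j
  by_cases hj : j = i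
  · subst hj
    intro h0
    have h1 : a * b = 0 := by simpa using h0
    rcases mul_eq_zero.1 h1 with h2 | h2
    · exact h.1 h2
    · rw [h2] at hb
      simp at hb
  · intro h0
    have h1 := h.2 j hj
    have h2 : g i z - g j z = -(a * b) := by
      simp only at h0
      linear_combination h0
    rw [h2, norm_neg, norm_mul, hb, mul_one] at h1
    exact lt_irrefl _ h1

/-- The base point of a meridian. -/
noncomputable def mbase (g : ι → C(E, ℂ)) (i : ι) (z : E) (a : ℂ) (h : Adm g i z a) : XX g :=
  ⟨(z, g i z + a), by simpa using h.mem 1 (by simp)⟩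

theorem norm_circ (t : I) : ‖Complex.exp (2 * Real.pi * (t : ℝ) * Complex.I)‖ = 1 := by
  have h := Complex.norm_exp_ofReal_mul_I (2 * Real.pi * (t : ℝ))
  push_cast at h
  exact h

/-- The meridian of the graph `i` over the point `z` that starts at `g i z + a`. -/
noncomputable def mer (g : ι → C(E, ℂ)) (i : ι) (z : E) (a : ℂ) (h : Adm g i z a) :
    Path (mbase g i z a h) (mbase g i z a h) where
  toFun t := ⟨(z, g i z + a * Complex.exp (2 * Real.pi * (t : ℝ) * Complex.I)),
    h.mem _ (norm_circ t)⟩
  continuous_toFun := by
    apply Continuous.subtype_mk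
    fun_prop
  source' := by
    apply Subtype.ext
    simp [mbase]
  target' := by
    apply Subtype.ext
    simp [mbase, Complex.exp_two_pi_mul_I]

/-- The functional kills all meridians. -/
def Kills {g : ι → C(E, ℂ)} {H : Type} [Group H] (Φ : PF (XX g) H) : Prop :=
  ∀ i z a (h : Adm g i z a), Φ.val (mer g i z a h) = 1

end graphs

end H13K
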