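import Pool.Agent.Lib.H13K.KD

set_option autoImplicit false

open scoped unitInterval Polynomial

namespace H13K

private theorem k2_evalEval (q : ℂ[X][X]) (z w : ℂ) :
    (q.map (Polynomial.evalRingHom z)).eval w = q.evalEval z w := by
  rw [Polynomial.evalEval, Polynomial.eval_map, Polynomial.eval₂_evalRingHom]

private theorem k2_cop {F : Type*} [Field F] {p q : F[X]} (hp : Irreducible p)
    (h : ¬ IsCoprime p q) : p ∣ q := by
  by_contra h3
  exact h ((hp.coprime_iff_not_dvd).2 h3)

private theorem k2_ne (p q : ℂ[X][X]) (hp : p.Monic) (hq : q.Monic) (hpi : Irreducible p)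
    (hqi : Irreducible q) (hpq : p ≠ q) : Polynomial.resultant p q ≠ 0 := by
  intro h0
  have h1 : Polynomial.resultant (p.map (algebraMap ℂ[X] (FractionRing ℂ[X]))) (q.map (algebraMap ℂ[X] (FractionRing ℂ[X]))) = 0 := by
    rw [hp.natDegree_map, hq.natDegree_map, Polynomial.resultant_map_map, h0, map_zero]
  rw [Polynomial.resultant_eq_zero_iff] at h1
  have hpK : Irreducible (p.map (algebraMap ℂ[X] (FractionRing ℂ[X]))) :=
    (Polynomial.Monic.irreducible_iff_irreducible_map_fraction_map hp).1 hpi
  have hqK : Irreducible (q.map (algebraMap ℂ[X] (FractionRing ℂ[X]))) :=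
    (Polynomial.Monic.irreducible_iff_irreducible_map_fraction_map hq).1 hqi
  have h2 : p.map (algebraMap ℂ[X] (FractionRing ℂ[X])) ∣ q.map (algebraMap ℂ[X] (FractionRing ℂ[X])) := by
    exact k2_cop hpK h1.2
  have h3 : Associated (p.map (algebraMap ℂ[X] (FractionRing ℂ[X]))) (q.map (algebraMap ℂ[X] (FractionRing ℂ[X]))) :=
    hpK.associated_of_dvd hqK h2
  have h4 : p.map (algebraMap ℂ[X] (FractionRing ℂ[X])) = q.map (algebraMap ℂ[X] (FractionRing ℂ[X])) :=
    Polynomial.eq_of_monic_of_associated (hp.map _) (hq.map _) h3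
  exact hpq (Polynomial.map_injective _ (FaithfulSMul.algebraMap_injective ℂ[X] (FractionRing ℂ[X])) h4)

/-- Resultants.  R = resultant (P i) (P j) (`Polynomial.resultant_eq_prod_eval`,
`Polynomial.resultant_map_map`); not 0 since p and q are coprime over the fraction field of
ℂ[z]. -/
theorem exists_res (p q : ℂ[X][X]) (hp : p.Monic) (hq : q.Monic) (hpi : Irreducible p)
    (hqi : Irreducible q) (hpq : p ≠ q) : ∃ R : ℂ[X], R ≠ 0 ∧
      (∀ (z : ℂ) (u : Fin p.natDegree → ℂ),
        p.map (Polynomial.evalRingHom z) = ∏ a, (Polynomial.X - Polynomial.C (u a)) →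
          R.eval z = ∏ a, q.evalEval z (u a)) ∧
      ∀ z w, p.evalEval z w = 0 → q.evalEval z w = 0 → R.eval z = 0 := by
  refine ⟨Polynomial.resultant p q, k2_ne p q hp hq hpi hqi hpq, ?_, ?_⟩
  · intro z u hu
    have h1 : (Polynomial.resultant p q).eval z =
        Polynomial.resultant (p.map (Polynomial.evalRingHom z))
          (q.map (Polynomial.evalRingHom z)) := by
      rw [hp.natDegree_map, hq.natDegree_map, Polynomial.resultant_map_map,
        Polynomial.coe_evalRingHom]
    rw [h1, Polynomial.resultant_eq_prod_eval _ _ _ le_rfl, (hp.map _).leadingCoeff, one_pow,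
      one_mul, hu]
    · have h2 : (∏ a, (Polynomial.X - Polynomial.C (u a))).roots =
          (Finset.univ : Finset (Fin p.natDegree)).val.map u := by
        rw [← Polynomial.roots_multiset_prod_X_sub_C
          ((Finset.univ : Finset (Fin p.natDegree)).val.map u), Multiset.map_map]
        rfl
      rw [h2, Multiset.map_map]
      exact Finset.prod_congr rfl fun a _ => k2_evalEval q z (u a)
    · rw [hu]
      exact Polynomial.Splits.prod fun a _ => Polynomial.Splits.X_sub_C _
  · intro z w h1 h2
    have hd : p.natDegree ≠ 0 := by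
      intro h0
      have := Polynomial.eq_one_of_monic_natDegree_zero hp h0
      exact hpi.not_isUnit (this ▸ isUnit_one)
    obtain ⟨a, b, -, -, e⟩ := Polynomial.exists_mul_add_mul_eq_C_resultant p q le_rfl le_rfl
      (Or.inl hd)
    have h3 := congrArg (Polynomial.evalEval z w) e
    rw [Polynomial.evalEval_add, Polynomial.evalEval_mul, Polynomial.evalEval_mul, h1, h2,
      zero_mul, zero_mul, add_zero, Polynomial.evalEval_C] at h3
    exact h3.symm

end H13K
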