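import Pool.Agent.Lib.H13K.T1a

set_option autoImplicit false

open scoped unitInterval Topology
open Set

namespace H13K

/-- The straight segment in the unit interval. -/
private noncomputable def seg (a b : I) : Path a b where
  toFun s := ⟨(1 - (s : ℝ)) * a + s * b, by
    have h0 := s.2.1
    have h1 := s.2.2
    have ha0 := a.2.1
    have ha1 := a.2.2
    have hb0 := b.2.1
    have hb1 := b.2.2
    constructor
    · nlinarith [mul_nonneg (sub_nonneg.2 h1) ha0, mul_nonneg h0 hb0]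
    · nlinarith [mul_nonneg (sub_nonneg.2 h1) (sub_nonneg.2 ha1), mul_nonneg h0 (sub_nonneg.2 hb1)]⟩
  continuous_toFun := by
    apply Continuous.subtype_mk
    fun_prop
  source' := by
    apply Subtype.ext
    simp
  target' := by
    apply Subtype.ext
    simp

private theorem seg_dist (a b s : I) : dist (seg a b s) a ≤ dist b a := by
  have h0 := s.2.1
  have h1 := s.2.2
  have h : ((seg a b s : I) : ℝ) = (1 - (s : ℝ)) * a + s * b := rfl
  rw [Subtype.dist_eq, Subtype.dist_eq, Real.dist_eq, Real.dist_eq, h]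
  have h2 : (1 - (s : ℝ)) * a + s * b - a = s * (b - a) := by ring
  rw [h2, abs_mul, abs_of_nonneg h0]
  exact mul_le_of_le_one_left (abs_nonneg _) h1

section

variable {X Y : Type} [TopologicalSpace X] [TopologicalSpace Y] {j : C(X, Y)}
  {H : Type} [Group H] {Φ : PF X H} {U : Set (Set Y)}

/-- The transition functions are locally constant. -/
private theorem c_const (hopen : ∀ u ∈ U, IsOpen u)
    (hbasis : ∀ (y : Y) (o : Set Y), IsOpen o → y ∈ o → ∃ u ∈ U, y ∈ u ∧ u ⊆ o)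
    (hne : ∀ u ∈ U, ∃ x : X, j x ∈ u) (C : Core j Φ U) (u v : Set Y) (hu : u ∈ U) (hv : v ∈ U)
    (y : Y) (hyu : y ∈ u) (hyv : y ∈ v) :
    ∃ w ∈ U, y ∈ w ∧ ∀ y' ∈ w, C.c u v y' = C.c u v y := by
  obtain ⟨w, hw, hyw, hsub, hc⟩ := C.c_spec u hu v hv y hyu hyv
  refine ⟨w, hw, hyw, fun y' hy' => ?_⟩
  obtain ⟨w', hw', hyw', -, hc'⟩ := C.c_spec u hu v hv y' (hsub hy').1 (hsub hy').2
  obtain ⟨w2, hw2, -, hsub2⟩ := hbasis y' (w ∩ w') ((hopen w hw).inter (hopen w' hw')) ⟨hy', hyw'⟩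
  obtain ⟨x, hx⟩ := hne w2 hw2
  rw [← hc x (hsub2 hx).1, ← hc' x (hsub2 hx).2]

/-- A point of `X` at which three transition functions have their values. -/
private theorem c_mul (hopen : ∀ u ∈ U, IsOpen u)
    (hbasis : ∀ (y : Y) (o : Set Y), IsOpen o → y ∈ o → ∃ u ∈ U, y ∈ u ∧ u ⊆ o)
    (hne : ∀ u ∈ U, ∃ x : X, j x ∈ u) (C : Core j Φ U) (u v k : Set Y) (hu : u ∈ U) (hv : v ∈ U)
    (hk : k ∈ U) (y : Y) (hyu : y ∈ u) (hyv : y ∈ v) (hyk : y ∈ k) :
    C.c k v y * C.c v u y = C.c k u y := by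
  obtain ⟨w1, hw1, hyw1, -, hc1⟩ := C.c_spec k hk v hv y hyk hyv
  obtain ⟨w2, hw2, hyw2, -, hc2⟩ := C.c_spec v hv u hu y hyv hyu
  obtain ⟨w3, hw3, hyw3, -, hc3⟩ := C.c_spec k hk u hu y hyk hyu
  obtain ⟨w, hw, -, hsub⟩ := hbasis y (w1 ∩ w2 ∩ w3)
    (((hopen w1 hw1).inter (hopen w2 hw2)).inter (hopen w3 hw3)) ⟨⟨hyw1, hyw2⟩, hyw3⟩
  obtain ⟨x, hx⟩ := hne w hw
  rw [← hc1 x (hsub hx).1.1, ← hc2 x (hsub hx).1.2, ← hc3 x (hsub hx).2]
  group

private theorem c_self (hne : ∀ u ∈ U, ∃ x : X, j x ∈ u) (C : Core j Φ U) (u : Set Y)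
    (hu : u ∈ U) (y : Y) (hyu : y ∈ u) : C.c u u y = 1 := by
  obtain ⟨w, hw, -, -, hc⟩ := C.c_spec u hu u hu y hyu hyu
  obtain ⟨x, hx⟩ := hne w hw
  rw [← hc x hx, inv_mul_cancel]

/-- The bundle with fibre `H`. -/
private noncomputable def fbc [TopologicalSpace H] [DiscreteTopology H]
    (hopen : ∀ u ∈ U, IsOpen u)
    (hbasis : ∀ (y : Y) (o : Set Y), IsOpen o → y ∈ o → ∃ u ∈ U, y ∈ u ∧ u ⊆ o)
    (hne : ∀ u ∈ U, ∃ x : X, j x ∈ u) (C : Core j Φ U) : FiberBundleCore U Y H where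
  baseSet u := u.1
  isOpen_baseSet u := hopen u.1 u.2
  indexAt y := ⟨(hbasis y univ isOpen_univ trivial).choose,
    (hbasis y univ isOpen_univ trivial).choose_spec.1⟩
  mem_baseSet_at y := (hbasis y univ isOpen_univ trivial).choose_spec.2.1
  coordChange u v y h := C.c v.1 u.1 y * h
  coordChange_self u y hy h := by rw [c_self hne C u.1 u.2 y hy, one_mul]
  continuousOn_coordChange u v := by
    rintro ⟨y, h⟩ ⟨⟨hu, hv⟩, -⟩
    obtain ⟨w, hw, hyw, hc⟩ := c_const hopen hbasis hne C v.1 u.1 v.2 u.2 y hv hu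
    have h1 : ContinuousAt (fun p : Y × H => C.c v.1 u.1 y * p.2) (y, h) :=
      ((continuous_of_discreteTopology (f := fun g : H => C.c v.1 u.1 y * g)).comp
        continuous_snd).continuousAt
    refine (h1.congr ?_).continuousWithinAt
    filter_upwards [((hopen w hw).prod isOpen_univ).mem_nhds
      (show (y, h) ∈ w ×ˢ (univ : Set H) from ⟨hyw, trivial⟩)] with p hp
    rw [hc p.1 hp.1]
  coordChange_comp u v k y hy h := by
    rw [← mul_assoc, c_mul hopen hbasis hne C u.1 v.1 k.1 u.2 v.2 k.2 y hy.1.1 hy.1.2 hy.2]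

/-- The value of the functional on the part of a path between two parameters. -/
private noncomputable def wv (Φ : PF X H) (P : C(I, X)) (s t : I) : H := (Φ.comap P).val (seg s t)

private theorem scI : SimplyConnectedSpace I := by
  have h : ContractibleSpace I := (convex_Icc (0 : ℝ) 1).contractibleSpace ⟨0, by simp⟩
  infer_instance

private theorem wv_eq (Φ : PF X H) (P : C(I, X)) {s t : I} (r : Path s t) :
    wv Φ P s t = (Φ.comap P).val r := by
  have := scI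
  exact PF.val_eq_of_simplyConnected _ _ _

private theorem wv_mul (Φ : PF X H) (P : C(I, X)) (s t r : I) :
    wv Φ P s r = wv Φ P t r * wv Φ P s t := by
  rw [wv_eq Φ P ((seg s t).trans (seg t r)), PF.trans]
  rfl

/-- In a chart the value is constant. -/
private theorem wv_chart (C : Core j Φ U) (P : C(I, X)) (v : Set Y) (hv : v ∈ U) (hvo : IsOpen v)
    (t0 : I) (ht0 : j (P t0) ∈ v) :
    ∀ᶠ t in 𝓝 t0, (C.lam v (P t))⁻¹ * wv Φ P 0 t = (C.lam v (P t0))⁻¹ * wv Φ P 0 t0 := by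
  have h1 : (fun t => j (P t)) ⁻¹' v ∈ 𝓝 t0 :=
    (hvo.preimage (j.continuous.comp P.continuous)).mem_nhds ht0
  obtain ⟨ε, hε, hball⟩ := Metric.mem_nhds_iff.1 h1
  filter_upwards [Metric.ball_mem_nhds t0 hε] with t ht
  have h2 : ∀ s, j (((seg t0 t).map P.continuous) s) ∈ v := fun s =>
    hball (lt_of_le_of_lt (seg_dist t0 t s) ht)
  have h3 := C.lam_path v hv _ _ _ h2
  have h4 : wv Φ P t0 t = C.lam v (P t) * (C.lam v (P t0))⁻¹ := h3
  rw [wv_mul Φ P 0 t0 t, h4]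
  group

/-- The lift of a path. -/
private theorem lift [TopologicalSpace H] [DiscreteTopology H]
    (hopen : ∀ u ∈ U, IsOpen u)
    (hbasis : ∀ (y : Y) (o : Set Y), IsOpen o → y ∈ o → ∃ u ∈ U, y ∈ u ∧ u ⊆ o)
    (hne : ∀ u ∈ U, ∃ x : X, j x ∈ u) (C : Core j Φ U) (P : C(I, X)) :
    Continuous (fun t : I => (⟨j (P t),
      (C.lam ((fbc hopen hbasis hne C).indexAt (j (P t))).1 (P t))⁻¹ * wv Φ P 0 t⟩ :
        (fbc hopen hbasis hne C).TotalSpace)) := by
  set Z := fbc hopen hbasis hne C with hZ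
  rw [continuous_iff_continuousAt]
  intro t0
  set v := Z.indexAt (j (P t0)) with hv
  have hmem : j (P t0) ∈ v.1 := Z.mem_baseSet_at (j (P t0))
  have hnhds : (fun t => j (P t)) ⁻¹' v.1 ∈ 𝓝 t0 :=
    ((hopen v.1 v.2).preimage (j.continuous.comp P.continuous)).mem_nhds hmem
  rw [(Z.localTriv v).toOpenPartialHomeomorph.continuousAt_iff_continuousAt_comp_left (by
    rw [(Z.localTriv v).source_eq]
    exact hnhds)]
  have h1 : ContinuousAt (fun t : I => ((j (P t), (C.lam v.1 (P t0))⁻¹ * wv Φ P 0 t0) : Y × H))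
      t0 := (Continuous.prodMk (j.continuous.comp P.continuous) continuous_const).continuousAt
  refine h1.congr ?_
  filter_upwards [hnhds, wv_chart C P v.1 v.2 (hopen v.1 v.2) t0 hmem] with t ht ht2
  have h2 : ∀ e : Z.TotalSpace, (Z.localTriv v).toOpenPartialHomeomorph e =
      ⟨e.1, Z.coordChange (Z.indexAt e.1) v e.1 e.2⟩ := fun e => rfl
  simp only [Function.comp_apply]
  rw [h2]
  have h3 : ∀ (a b : U) (y : Y) (h : H), Z.coordChange a b y h = C.c b.1 a.1 y * h :=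
    fun _ _ _ _ => rfl
  rw [h3, ← ht2]
  have hm2 : j (P t) ∈ (Z.indexAt (j (P t))).1 := Z.mem_baseSet_at (j (P t))
  obtain ⟨w, hw, hyw, -, hc⟩ := C.c_spec v.1 v.2 (Z.indexAt (j (P t))).1
    (Z.indexAt (j (P t))).2 (j (P t)) ht hm2
  simp only
  rw [← hc (P t) hyw]
  congr 1
  group

end

/-- A functional on `X` that kills all loops in the members of a basis of `Y` only depends on the
homotopy class of the path in `Y`. -/
theorem extend {X Y : Type} [TopologicalSpace X] [TopologicalSpace Y] (j : C(X, Y))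
    {H : Type} [Group H] (Φ : PF X H) (U : Set (Set Y)) (hopen : ∀ u ∈ U, IsOpen u)
    (hbasis : ∀ (y : Y) (o : Set Y), IsOpen o → y ∈ o → ∃ u ∈ U, y ∈ u ∧ u ⊆ o)
    (hne : ∀ u ∈ U, ∃ x : X, j x ∈ u)
    (hpc : ∀ u ∈ U, ∀ x x' : X, j x ∈ u → j x' ∈ u → ∃ p : Path x x', ∀ t, j (p t) ∈ u)
    (hkill : ∀ u ∈ U, ∀ (x : X) (p : Path x x), (∀ t, j (p t) ∈ u) → Φ.val p = 1)
    {x x' : X} (p q : Path x x')
    (h : (p.map j.continuous).Homotopic (q.map j.continuous)) : Φ.val p = Φ.val q := by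
  obtain ⟨C⟩ := exists_core j Φ U hopen hbasis hne hpc hkill
  let _ : TopologicalSpace H := ⊥
  have _ : DiscreteTopology H := ⟨rfl⟩
  set Z := fbc hopen hbasis hne C with hZ
  have cov : IsCoveringMap (Bundle.TotalSpace.proj : Z.TotalSpace → Y) :=
    FiberBundle.isCoveringMap
  have key : ∀ r : Path x x', ∀ h0,
      cov.liftPath (r.map j.continuous).toContinuousMap
        (⟨j x, ((C.lam (Z.indexAt (j x)).1 x)⁻¹ : H)⟩ : Z.TotalSpace) h0 1 =
      (⟨j x', ((C.lam (Z.indexAt (j x')).1 x')⁻¹ * Φ.val r : H)⟩ : Z.TotalSpace) := by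
    intro r h0
    let G : C(I, Z.TotalSpace) := ⟨_, lift hopen hbasis hne C r.toContinuousMap⟩
    have hw0 : wv Φ r.toContinuousMap 0 0 = 1 := by
      rw [wv_eq Φ r.toContinuousMap (Path.refl 0), PF.val_refl]
    have hw1 : wv Φ r.toContinuousMap 0 1 = Φ.val r := by
      rw [wv_eq Φ r.toContinuousMap (⟨ContinuousMap.id I, rfl, rfl⟩ : Path (0 : I) 1)]
      have h5 := Φ.val_cast r r.source r.target
      rw [← h5]
      rfl
    have h1 : G = cov.liftPath (r.map j.continuous).toContinuousMap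
        (⟨j x, ((C.lam (Z.indexAt (j x)).1 x)⁻¹ : H)⟩ : Z.TotalSpace) h0 := by
      rw [cov.eq_liftPath_iff']
      refine ⟨rfl, ?_⟩
      change (⟨j (r 0), ((C.lam (Z.indexAt (j (r 0))).1 (r 0))⁻¹ *
        wv Φ r.toContinuousMap 0 0 : H)⟩ : Z.TotalSpace) = _
      rw [hw0, mul_one, r.source]
    rw [← h1]
    change (⟨j (r 1), ((C.lam (Z.indexAt (j (r 1))).1 (r 1))⁻¹ *
        wv Φ r.toContinuousMap 0 1 : H)⟩ : Z.TotalSpace) = _
    rw [hw1, r.target]
  have e1 := cov.liftPath_apply_one_eq_of_homotopicRel (γ₀ := (p.map j.continuous).toContinuousMap)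
    (γ₁ := (q.map j.continuous).toContinuousMap) h
    (⟨j x, ((C.lam (Z.indexAt (j x)).1 x)⁻¹ : H)⟩ : Z.TotalSpace) (by simp) (by simp)
  rw [key p, key q] at e1
  have e2 : (C.lam (Z.indexAt (j x')).1 x')⁻¹ * Φ.val p =
      (C.lam (Z.indexAt (j x')).1 x')⁻¹ * Φ.val q := by
    have e3 := Bundle.TotalSpace.mk.inj e1
    exact eq_of_heq e3.2
  exact mul_left_cancel e2

end H13K
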