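import Pool.Agent.Lib.H13K.KD

set_option autoImplicit false

open scoped unitInterval Polynomial

namespace H13K

theorem K11_eval_bound (q : ℂ[X]) (z : ℂ) :
    ‖q.eval z‖ ≤ (∑ k ∈ Finset.range (q.natDegree + 1), ‖q.coeff k‖) *
      (1 + ‖z‖) ^ q.natDegree := by
  rw [Polynomial.eval_eq_sum_range, Finset.sum_mul]
  refine (norm_sum_le _ _).trans (Finset.sum_le_sum fun k hk => ?_)
  rw [norm_mul, norm_pow]
  refine mul_le_mul_of_nonneg_left ?_ (norm_nonneg _)
  have h1 : ‖z‖ ^ k ≤ (1 + ‖z‖) ^ k := pow_le_pow_left₀ (norm_nonneg _) (by linarith) k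
  have h2 : (1 + ‖z‖) ^ k ≤ (1 + ‖z‖) ^ q.natDegree :=
    pow_le_pow_right₀ (by linarith [norm_nonneg z]) (Nat.lt_succ_iff.1 (Finset.mem_range.1 hk))
  exact h1.trans h2

theorem K11_map_eval (p : ℂ[X][X]) (z w : ℂ) :
    (p.map (Polynomial.evalRingHom z)).eval w = p.evalEval z w := by
  rw [Polynomial.eval_map, Polynomial.eval₂_evalRingHom]

/-- The roots of a monic polynomial grow at most polynomially (Cauchy bound
‖w‖ ≤ 1 + sum of the norms of the coefficients). -/
theorem root_bound (p : ℂ[X][X]) (hp : p.Monic) : ∃ (C : ℝ) (K : ℕ), 0 < C ∧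
    ∀ z w, p.evalEval z w = 0 → ‖w‖ ≤ C * (1 + ‖z‖) ^ K := by
  classical
  set S : ℕ → ℝ := fun j =>
    ∑ k ∈ Finset.range ((p.coeff j).natDegree + 1), ‖(p.coeff j).coeff k‖ with hS
  set D : ℕ := ∑ j ∈ Finset.range p.natDegree, (p.coeff j).natDegree with hD
  have hS0 : ∀ j, 0 ≤ S j := fun j => Finset.sum_nonneg fun k _ => norm_nonneg _
  refine ⟨1 + ∑ j ∈ Finset.range p.natDegree, S j, D,
    by linarith [Finset.sum_nonneg fun j (_ : j ∈ Finset.range p.natDegree) => hS0 j], ?_⟩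
  intro z w hw
  have hz1 : (1 : ℝ) ≤ 1 + ‖z‖ := by linarith [norm_nonneg z]
  have hpow : (1 : ℝ) ≤ (1 + ‖z‖) ^ D := one_le_pow₀ hz1
  have hSum0 : 0 ≤ ∑ j ∈ Finset.range p.natDegree, S j := Finset.sum_nonneg fun j _ => hS0 j
  have hle1 : (1 : ℝ) ≤ (1 + ∑ j ∈ Finset.range p.natDegree, S j) * (1 + ‖z‖) ^ D := by
    nlinarith
  rcases le_or_gt ‖w‖ 1 with h1 | h1
  · exact h1.trans hle1
  · -- `‖w‖ ^ n ≤ ∑ ‖a j‖ ‖w‖ ^ j`
    have hcoef : ∀ j ∈ Finset.range p.natDegree, ‖(p.coeff j).eval z‖ ≤ S j * (1 + ‖z‖) ^ D := by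
      intro j hj
      refine (K11_eval_bound _ z).trans ?_
      refine mul_le_mul_of_nonneg_left ?_ (hS0 j)
      refine pow_le_pow_right₀ hz1 ?_
      exact Finset.single_le_sum (f := fun j => (p.coeff j).natDegree)
        (fun _ _ => Nat.zero_le _) hj
    have hsum : ∑ j ∈ Finset.range p.natDegree, (p.coeff j).eval z * w ^ j + w ^ p.natDegree
        = 0 := by
      rw [← hw, ← K11_map_eval, Polynomial.eval_eq_sum_range, hp.natDegree_map,
        Finset.sum_range_succ]
      have h2 : (p.map (Polynomial.evalRingHom z)).coeff p.natDegree = 1 := by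
        rw [Polynomial.coeff_map, hp.coeff_natDegree, map_one]
      rw [h2, one_mul]
      refine congrArg (· + w ^ p.natDegree) (Finset.sum_congr rfl fun j _ => ?_)
      rw [Polynomial.coeff_map, Polynomial.coe_evalRingHom]
    have hn : p.natDegree ≠ 0 := by
      intro h0
      rw [h0] at hsum
      simp at hsum
    obtain ⟨m, hm⟩ := Nat.exists_eq_succ_of_ne_zero hn
    have h3 : w ^ p.natDegree = -∑ j ∈ Finset.range p.natDegree, (p.coeff j).eval z * w ^ j := by
      linear_combination hsum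
    have h4 : ‖w‖ ^ p.natDegree ≤
        (∑ j ∈ Finset.range p.natDegree, S j) * (1 + ‖z‖) ^ D * ‖w‖ ^ m := by
      rw [← norm_pow, h3, norm_neg]
      refine (norm_sum_le _ _).trans ?_
      rw [Finset.sum_mul, Finset.sum_mul]
      refine Finset.sum_le_sum fun j hj => ?_
      rw [norm_mul, norm_pow]
      refine mul_le_mul (hcoef j hj) ?_ (by positivity) (by
        have := hS0 j
        positivity)
      refine pow_le_pow_right₀ h1.le ?_
      have := Finset.mem_range.1 hj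
      omega
    have h5 : ‖w‖ ≤ (∑ j ∈ Finset.range p.natDegree, S j) * (1 + ‖z‖) ^ D := by
      have h6 : 0 < ‖w‖ ^ m := by positivity
      have e : ‖w‖ ^ p.natDegree = ‖w‖ * ‖w‖ ^ m := by
        rw [hm, Nat.succ_eq_add_one, pow_succ']
      rw [e] at h4
      exact le_of_mul_le_mul_right h4 h6
    refine h5.trans ?_
    exact mul_le_mul_of_nonneg_right (by linarith) (by positivity)

/-- The complement of finitely many curves that are monic in w is path connected: a fibre is ℂ minus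
a finite set (`Set.Countable.isPathConnected_compl_of_one_lt_rank`), and (z, R), R larger than all
roots over the segment [z, z'] (`root_bound`), can be moved over the segment. -/
theorem CX_pathConnected {ι : Type} [Finite ι] (P : ι → ℂ[X][X]) (hm : ∀ i, (P i).Monic) :
    PathConnectedSpace (CX P) := by
  classical
  have hfin : ∀ z : ℂ, (⋃ i, {w : ℂ | (P i).evalEval z w = 0}).Finite := by
    intro z
    refine Set.finite_iUnion fun i => ?_
    have h0 : (P i).map (Polynomial.evalRingHom z) ≠ 0 := ((hm i).map _).ne_zero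
    refine (((P i).map (Polynomial.evalRingHom z)).roots.toFinset.finite_toSet).subset ?_
    intro w hw
    rw [Finset.mem_coe, Multiset.mem_toFinset, Polynomial.mem_roots h0, Polynomial.IsRoot.def,
      K11_map_eval]
    exact hw
  have hfib : ∀ z : ℂ, IsPathConnected ((⋃ i, {w : ℂ | (P i).evalEval z w = 0})ᶜ : Set ℂ) :=
    fun z => (hfin z).countable.isPathConnected_compl_of_one_lt_rank
      (by rw [Complex.rank_real_complex]; exact Cardinal.one_lt_two)
  have hmem : ∀ z w, w ∈ ((⋃ i, {w : ℂ | (P i).evalEval z w = 0})ᶜ : Set ℂ) → (z, w) ∈ CX P := by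
    intro z w hw i h0
    exact hw (Set.mem_iUnion.2 ⟨i, h0⟩)
  have hmem' : ∀ z w, (z, w) ∈ CX P → w ∈ ((⋃ i, {w : ℂ | (P i).evalEval z w = 0})ᶜ : Set ℂ) := by
    intro z w hw h0
    obtain ⟨i, hi⟩ := Set.mem_iUnion.1 h0
    exact hw i hi
  have hfj : ∀ z w w', (z, w) ∈ CX P → (z, w') ∈ CX P → JoinedIn (CX P) (z, w) (z, w') := by
    intro z w w' h h'
    have h1 := (hfib z).joinedIn w (hmem' z w h) w' (hmem' z w' h')
    have h2 := h1.map (f := fun u : ℂ => (z, u)) (by fun_prop)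
    refine h2.mono ?_
    rintro _ ⟨u, hu, rfl⟩
    exact hmem z u hu
  rw [← isPathConnected_iff_pathConnectedSpace]
  obtain ⟨w0, hw0⟩ := (hfib 0).nonempty
  refine isPathConnected_iff.2 ⟨⟨(0, w0), hmem 0 w0 hw0⟩, ?_⟩
  rintro ⟨z, w⟩ hz ⟨z', w'⟩ hz'
  have hb : ∀ i, ∃ R : ℝ, ∀ t ∈ Set.Icc (0 : ℝ) 1, ∀ u,
      (P i).evalEval (AffineMap.lineMap z z' t) u = 0 → ‖u‖ ≤ R := by
    intro i
    obtain ⟨C, K, hC, hCK⟩ := root_bound (P i) (hm i)
    have hc : ContinuousOn (fun t : ℝ => (AffineMap.lineMap z z' t : ℂ)) (Set.Icc 0 1) :=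
      AffineMap.lineMap_continuous.continuousOn
    obtain ⟨R, hR⟩ := isCompact_Icc.exists_bound_of_continuousOn hc
    refine ⟨C * (1 + R) ^ K, fun t ht u hu => (hCK _ _ hu).trans ?_⟩
    refine mul_le_mul_of_nonneg_left ?_ hC.le
    exact pow_le_pow_left₀ (by positivity) (by linarith [hR t ht]) K
  choose R hR using hb
  obtain ⟨M, hM⟩ := (Set.finite_range R).bddAbove
  have hM' : ∀ i, ∀ t ∈ Set.Icc (0 : ℝ) 1, ∀ u,
      (P i).evalEval (AffineMap.lineMap z z' t) u = 0 → ‖u‖ ≤ |M| := fun i t ht u hu =>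
    (hR i t ht u hu).trans ((hM ⟨i, rfl⟩).trans (le_abs_self M))
  have hpt : ∀ t ∈ Set.Icc (0 : ℝ) 1,
      ((AffineMap.lineMap z z' t : ℂ), ((|M| + 1 : ℝ) : ℂ)) ∈ CX P := by
    intro t ht i h0
    have h1 := hM' i t ht _ h0
    rw [Complex.norm_real, Real.norm_eq_abs, abs_of_pos (by positivity)] at h1
    linarith
  have hseg : JoinedIn (CX P) (z, ((|M| + 1 : ℝ) : ℂ)) (z', ((|M| + 1 : ℝ) : ℂ)) := by
    refine JoinedIn.ofLine (f := fun t : ℝ => ((AffineMap.lineMap z z' t : ℂ), ((|M| + 1 : ℝ) : ℂ)))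
      ?_ (by simp) (by simp) ?_
    · apply Continuous.continuousOn
      exact AffineMap.lineMap_continuous.prodMk continuous_const
    · rintro _ ⟨t, ht, rfl⟩
      exact hpt t ht
  have h0 := hpt 0 (by simp)
  have h1 := hpt 1 (by simp)
  rw [AffineMap.lineMap_apply_zero] at h0
  rw [AffineMap.lineMap_apply_one] at h1
  exact ((hfj z w _ hz h0).trans hseg).trans (hfj z' _ w' h1 hz')

end H13K
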