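import Pool.Agent.Lib.H13K.AD

set_option autoImplicit false

namespace H13K

/-- A finitely supported function invariant under an injection without periodic points is zero. -/
private theorem A1_fix {X : Type} (τ : X → X) (hinj : Function.Injective τ)
    (hper : ∀ n : ℕ, 0 < n → ∀ x, τ^[n] x ≠ x) (W : X →₀ ℤ) (h : W.mapDomain τ = W) : W = 0 := by
  by_contra hW
  obtain ⟨ω, hω⟩ : ∃ ω, W ω ≠ 0 := by
    by_contra hcon
    push Not at hcon
    exact hW (Finsupp.ext hcon)
  have h1 : ∀ a, W (τ a) = W a := by
    intro a
    conv_lhs => rw [← h]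
    exact Finsupp.mapDomain_apply hinj W a
  have h2 : ∀ n : ℕ, W (τ^[n] ω) = W ω := by
    intro n
    induction n with
    | zero => rfl
    | succ n ih => rw [Function.iterate_succ_apply', h1, ih]
  have h3 : Function.Injective fun n : ℕ => τ^[n] ω := by
    have key : ∀ n k : ℕ, τ^[n] ω = τ^[n + (k + 1)] ω → False := by
      intro n k hk
      rw [Function.iterate_add_apply] at hk
      exact hper (k + 1) (Nat.succ_pos k) ω (hinj.iterate n hk).symm
    intro a b hab
    rcases lt_trichotomy a b with hlt | heq | hlt
    · obtain ⟨k, hk⟩ := Nat.exists_eq_add_of_lt hlt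
      exact (key a k (by rw [hk] at hab; exact hab)).elim
    · exact heq
    · obtain ⟨k, hk⟩ := Nat.exists_eq_add_of_lt hlt
      exact (key b k (by rw [hk] at hab; exact hab.symm)).elim
  have h4 : Set.range (fun n : ℕ => τ^[n] ω) ⊆ (W.support : Set X) := by
    rintro _ ⟨n, rfl⟩
    simp only [Finset.mem_coe, Finsupp.mem_support_iff]
    show W (τ^[n] ω) ≠ 0
    rw [h2 n]
    exact hω
  exact (Set.infinite_range_of_injective h3) (W.support.finite_toSet.subset h4)

section

variable {G : Type} [Group G]

/-- orbits of the left translation by `m` -/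
private def A1_setoid (m : G) : Setoid G where
  r s t := ∃ k : ℤ, t = m ^ k * s
  iseqv :=
    { refl := fun s => ⟨0, by simp⟩
      symm := by
        rintro s t ⟨k, rfl⟩
        exact ⟨-k, by rw [← mul_assoc, ← zpow_add]; simp⟩
      trans := by
        rintro s t r ⟨k, rfl⟩ ⟨l, rfl⟩
        exact ⟨l + k, by rw [zpow_add, mul_assoc]⟩ }

private theorem A1_single (m r : G) (n : ℤ) (k : ℤ) :
    ∃ x : G →₀ ℤ, Finsupp.single (m ^ k * r) n - Finsupp.single r n = x - lt m x := by
  induction k using Int.induction_on with
  | zero => exact ⟨0, by simp [lt_zero]⟩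
  | succ k ih =>
    obtain ⟨x, hx⟩ := ih
    refine ⟨x - Finsupp.single (m ^ (k : ℤ) * r) n, ?_⟩
    rw [lt_sub, lt_single]
    have e : m * (m ^ (k : ℤ) * r) = m ^ ((k : ℤ) + 1) * r := by
      rw [add_comm, zpow_add, zpow_one, mul_assoc]
    rw [e]
    have : Finsupp.single (m ^ ((k : ℤ) + 1) * r) n - Finsupp.single r n
        = (Finsupp.single (m ^ (k : ℤ) * r) n - Finsupp.single r n)
          - Finsupp.single (m ^ (k : ℤ) * r) n + Finsupp.single (m ^ ((k : ℤ) + 1) * r) n := by
      abel
    rw [this, hx]
    abel
  | pred k ih =>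
    obtain ⟨x, hx⟩ := ih
    refine ⟨x + Finsupp.single (m ^ (-(k : ℤ) - 1) * r) n, ?_⟩
    rw [lt_add, lt_single]
    have e : m * (m ^ (-(k : ℤ) - 1) * r) = m ^ (-(k : ℤ)) * r := by
      rw [← mul_assoc, ← zpow_one_add]
      congr 2
      ring
    rw [e]
    have : Finsupp.single (m ^ (-(k : ℤ) - 1) * r) n - Finsupp.single r n
        = (Finsupp.single (m ^ (-(k : ℤ)) * r) n - Finsupp.single r n)
          + Finsupp.single (m ^ (-(k : ℤ) - 1) * r) n - Finsupp.single (m ^ (-(k : ℤ)) * r) n := by
      abel
    rw [this, hx]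
    abel

private theorem A1_rep (m : G) (r : G → G) (hr : ∀ g, ∃ k : ℤ, g = m ^ k * r g) (u : G →₀ ℤ) :
    ∃ x : G →₀ ℤ, u - u.mapDomain r = x - lt m x := by
  induction u using Finsupp.induction_linear with
  | zero => exact ⟨0, by simp [lt_zero]⟩
  | add f g hf hg =>
    obtain ⟨x, hx⟩ := hf
    obtain ⟨y, hy⟩ := hg
    refine ⟨x + y, ?_⟩
    rw [lt_add, Finsupp.mapDomain_add]
    have : f + g - (f.mapDomain r + g.mapDomain r)
        = (f - f.mapDomain r) + (g - g.mapDomain r) := by abel
    rw [this, hx, hy]
    abel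
  | single g n =>
    obtain ⟨k, hk⟩ := hr g
    obtain ⟨x, hx⟩ := A1_single m (r g) n k
    refine ⟨x, ?_⟩
    rw [Finsupp.mapDomain_single, ← hx, ← hk]

/-- Koszul exactness for a free abelian group of rank two acting freely (H13K PROOF, step 2b).
Proof: U g = sum over k in Z of u (m^k g) is a finite sum (m has infinite order, finite support);
the hypothesis summed over the m-orbits gives U (c^-1 g) = U g; if U g were nonzero, then for each
j some m^(k_j) c^j g would lie in the finite support of u, distinct for distinct j by `hfree`;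
so U = 0.  Put x g = sum over k >= 0 of u (m^(-k) g).  Then u = x - lt m x, and x has finite
support: x g nonzero and U = 0 give support points m^(-k) g and m^(-k') g with k >= 0 > k'.
Finally (1 - m)(v - (x - c x)) = 0 and a finitely supported m-invariant function is 0. -/
theorem koszul {G : Type} [Group G] (m c : G) (hmc : Commute m c)
    (hfree : ∀ a b : ℤ, m ^ a * c ^ b = 1 → a = 0 ∧ b = 0) (u v : G →₀ ℤ)
    (h : u - lt c u = v - lt m v) : ∃ x : G →₀ ℤ, u = x - lt m x ∧ v = x - lt c x := by
  set S : Setoid G := A1_setoid m with hS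
  set q : G → Quotient S := fun g => Quotient.mk S g with hq
  have hqm : q ∘ (fun g => m * g) = q := by
    funext g
    refine Quotient.sound ?_
    show ∃ k : ℤ, g = m ^ k * (m * g)
    exact ⟨-1, by simp⟩
  set cb : Quotient S → Quotient S := Quotient.map (fun g => c * g) (by
    rintro s t ⟨k, rfl⟩
    exact ⟨k, by rw [← mul_assoc, ← mul_assoc, ((hmc.zpow_left k).eq)]⟩) with hcb
  have hqc : q ∘ (fun g => c * g) = cb ∘ q := by
    funext g
    rfl
  -- the sums over the orbits vanish
  have hW : u.mapDomain q = 0 := by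
    apply A1_fix cb
    · intro a b
      refine Quotient.inductionOn₂ a b ?_
      intro s t hst
      have h1 : (A1_setoid m).r (c * s) (c * t) := Quotient.exact hst
      obtain ⟨k, hk⟩ := h1
      refine Quotient.sound ⟨k, ?_⟩
      have : c * t = c * (m ^ k * s) := by
        rw [hk, ← mul_assoc, ← mul_assoc, ((hmc.zpow_left k).eq)]
      exact mul_left_cancel this
    · intro n hn a
      refine Quotient.inductionOn a ?_
      intro s hs
      have h1 : ∀ j : ℕ, cb^[j] (q s) = q (c ^ j * s) := by
        intro j
        induction j with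
        | zero => simp
        | succ j ih =>
          rw [Function.iterate_succ_apply', ih, pow_succ', mul_assoc]
          rfl
      have h2 : q (c ^ n * s) = q s := by
        rw [← h1 n]
        exact hs
      obtain ⟨k, hk⟩ : (A1_setoid m).r (c ^ n * s) s := Quotient.exact h2
      have h3 : m ^ k * c ^ (n : ℤ) = 1 := by
        rw [← mul_assoc] at hk
        rw [zpow_natCast]
        exact (mul_eq_right.1 hk.symm)
      have := (hfree k n h3).2
      omega
    · have h1 : (u - lt c u).mapDomain q = (v - lt m v).mapDomain q := by rw [h]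
      have e : ∀ a b : G →₀ ℤ, (a - b).mapDomain q = a.mapDomain q - b.mapDomain q :=
        fun a b => map_sub (Finsupp.mapDomain.addMonoidHom (M := ℤ) q) a b
      rw [e, e] at h1
      have h2 : (lt m v).mapDomain q = v.mapDomain q := by
        unfold lt
        rw [← Finsupp.mapDomain_comp, hqm]
      have h3 : (lt c u).mapDomain q = (u.mapDomain q).mapDomain cb := by
        unfold lt
        rw [← Finsupp.mapDomain_comp, ← Finsupp.mapDomain_comp, hqc]
      rw [h2, h3, sub_self, sub_eq_zero] at h1
      exact h1.symm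
  -- divisibility by `1 - m`
  obtain ⟨x, hx⟩ : ∃ x : G →₀ ℤ, u = x - lt m x := by
    obtain ⟨x, hx⟩ := A1_rep m (Quotient.out ∘ q) (by
      intro g
      have h1 : Quotient.mk S (Quotient.out (q g)) = q g := Quotient.out_eq _
      have h2 : (A1_setoid m).r (Quotient.out (q g)) g := Quotient.exact h1
      exact h2) u
    refine ⟨x, ?_⟩
    rw [Finsupp.mapDomain_comp, hW, Finsupp.mapDomain_zero, sub_zero] at hx
    exact hx
  refine ⟨x, hx, ?_⟩
  have hy : v - (x - lt c x) = 0 := by
    apply A1_fix (fun g => m * g) (mul_right_injective m)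
    · intro n hn g hg
      have h1 : ∀ j : ℕ, (fun g => m * g)^[j] g = m ^ j * g := by
        intro j
        induction j with
        | zero => simp
        | succ j ih => rw [Function.iterate_succ_apply', ih, pow_succ', mul_assoc]
      rw [h1 n] at hg
      have h3 : m ^ (n : ℤ) * c ^ (0 : ℤ) = 1 := by
        rw [zpow_natCast, zpow_zero, mul_one]
        exact mul_eq_right.1 hg
      have := (hfree n 0 h3).1
      omega
    · show lt m (v - (x - lt c x)) = v - (x - lt c x)
      rw [lt_sub, lt_sub, ← lt_mul, hmc.eq, lt_mul]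
      have h4 : lt m v = v - (u - lt c u) := by rw [h]; abel
      rw [h4, hx, lt_sub]
      abel
  exact sub_eq_zero.1 hy

end

end H13K
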