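import Pool.Agent.Lib.H13K.AD

set_option autoImplicit false

namespace H13K

open Monoid.Coprod

section

variable (A B : Type) [Group A] [Group B]

private noncomputable def A2_rA : A →* Equiv.Perm (Monoid.Coprod A B →₀ ℤ) where
  toFun a :=
    { toFun := fun u => lt (inl a) u
      invFun := fun u => lt (inl a)⁻¹ u
      left_inv := fun u => by
        show lt (inl a)⁻¹ (lt (inl a) u) = u
        rw [← lt_mul, inv_mul_cancel, lt_one]
      right_inv := fun u => by
        show lt (inl a) (lt (inl a)⁻¹ u) = u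
        rw [← lt_mul, mul_inv_cancel, lt_one] }
  map_one' := by
    refine Equiv.ext fun u => ?_
    show lt (inl (1 : A)) u = u
    rw [map_one, lt_one]
  map_mul' a a' := by
    refine Equiv.ext fun u => ?_
    show lt (inl (a * a')) u = lt (inl a) (lt (inl a') u)
    rw [map_mul, lt_mul]

/-- the affine action of `B` with the fixed point `single 1 1` -/
private noncomputable def A2_f (g : Monoid.Coprod A B) (u : Monoid.Coprod A B →₀ ℤ) : Monoid.Coprod A B →₀ ℤ :=
  lt g (u - Finsupp.single 1 1) + Finsupp.single 1 1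

private theorem A2_f_one (u : Monoid.Coprod A B →₀ ℤ) : A2_f A B 1 u = u := by
  unfold A2_f
  rw [lt_one, sub_add_cancel]

private theorem A2_f_mul (g h : Monoid.Coprod A B) (u : Monoid.Coprod A B →₀ ℤ) :
    A2_f A B (g * h) u = A2_f A B g (A2_f A B h u) := by
  unfold A2_f
  rw [add_sub_cancel_right, lt_mul]

private noncomputable def A2_rB : B →* Equiv.Perm (Monoid.Coprod A B →₀ ℤ) where
  toFun b :=
    { toFun := fun u => A2_f A B (inr b) u
      invFun := fun u => A2_f A B (inr b)⁻¹ u
      left_inv := fun u => by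
        show A2_f A B (inr b)⁻¹ (A2_f A B (inr b) u) = u
        rw [← A2_f_mul, inv_mul_cancel, A2_f_one]
      right_inv := fun u => by
        show A2_f A B (inr b) (A2_f A B (inr b)⁻¹ u) = u
        rw [← A2_f_mul, mul_inv_cancel, A2_f_one] }
  map_one' := by
    refine Equiv.ext fun u => ?_
    show A2_f A B (inr (1 : B)) u = u
    rw [map_one, A2_f_one]
  map_mul' a a' := by
    refine Equiv.ext fun u => ?_
    show A2_f A B (inr (a * a')) u = A2_f A B (inr a) (A2_f A B (inr a') u)
    rw [map_mul, A2_f_mul]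

private noncomputable def A2_r : Monoid.Coprod A B →* Equiv.Perm (Monoid.Coprod A B →₀ ℤ) :=
  Monoid.Coprod.lift (A2_rA A B) (A2_rB A B)

private theorem A2_r_inl (a : A) (u : Monoid.Coprod A B →₀ ℤ) : A2_r A B (inl a) u = lt (inl a) u := by
  unfold A2_r
  rw [Monoid.Coprod.lift_apply_inl]
  rfl

private theorem A2_r_inr (b : B) (u : Monoid.Coprod A B →₀ ℤ) : A2_r A B (inr b) u = A2_f A B (inr b) u := by
  unfold A2_r
  rw [Monoid.Coprod.lift_apply_inr]
  rfl

private theorem A2_r_mul (x y : Monoid.Coprod A B) (u : Monoid.Coprod A B →₀ ℤ) :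
    A2_r A B (x * y) u = A2_r A B x (A2_r A B y u) := by
  rw [map_mul]
  rfl

private theorem A2_key (g : Monoid.Coprod A B) : ∀ u, A2_r A B g u = lt g u + A2_r A B g 0 := by
  induction g using Monoid.Coprod.induction_on with
  | inl a =>
    intro u
    rw [A2_r_inl, A2_r_inl, lt_zero, add_zero]
  | inr b =>
    intro u
    rw [A2_r_inr, A2_r_inr]
    unfold A2_f
    rw [lt_sub, zero_sub]
    have h : lt (inr b : Monoid.Coprod A B) (-Finsupp.single 1 1) =
        - lt (inr b : Monoid.Coprod A B) (Finsupp.single 1 1) := by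
      rw [← zero_sub, lt_sub, lt_zero, zero_sub]
    rw [h]
    abel
  | mul x y hx hy =>
    intro u
    rw [A2_r_mul, A2_r_mul, hx (A2_r A B y u), hy u, hx (A2_r A B y 0), lt_add, lt_mul]
    abel

end

/-- The derivation of the free product that vanishes on the first factor.
Proof: let A act on Z[G] by `lt (inl a)` and B by `u ↦ lt (inr b) (u - single 1 1) + single 1 1`
(homomorphisms to `Equiv.Perm`), lift to rho : G → Perm by `Monoid.Coprod.lift`; put d g = rho g 0;
by induction rho g u = lt g u + rho g 0 for all g. -/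
theorem exists_der (A B : Type) [Group A] [Group B] :
    ∃ d : Monoid.Coprod A B → (Monoid.Coprod A B →₀ ℤ),
      (∀ x y, d (x * y) = d x + lt x (d y)) ∧ (∀ a : A, d (inl a) = 0) ∧
      ∀ b : B, d (inr b) = Finsupp.single 1 1 - Finsupp.single (inr b) 1 := by
  refine ⟨fun g => A2_r A B g 0, fun x y => ?_, fun a => ?_, fun b => ?_⟩
  · show A2_r A B (x * y) 0 = A2_r A B x 0 + lt x (A2_r A B y 0)
    rw [A2_r_mul, A2_key A B x (A2_r A B y 0)]
    abel
  · show A2_r A B (inl a) 0 = 0
    rw [A2_r_inl, lt_zero]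
  · show A2_r A B (inr b) 0 = _
    rw [A2_r_inr]
    unfold A2_f
    rw [lt_sub, lt_zero, lt_single, mul_one]
    abel

end H13K
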