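import Pool.Agent.Lib.H13K.AD

set_option autoImplicit false

namespace H13K

open Monoid.Coprod

variable {A B : Type} [Group A] [Group B]

private theorem a3_prA_lt (x : Monoid.Coprod A B) (u : Monoid.Coprod A B →₀ ℤ) :
    prA (lt x u) = (prA u).mapDomain (fun q => x • q) := by
  unfold prA lt
  rw [← Finsupp.mapDomain_comp, ← Finsupp.mapDomain_comp]
  rfl

private theorem a3_prB_lt (x : Monoid.Coprod A B) (u : Monoid.Coprod A B →₀ ℤ) :
    prB (lt x u) = (prB u).mapDomain (fun q => x • q) := by
  unfold prB lt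
  rw [← Finsupp.mapDomain_comp, ← Finsupp.mapDomain_comp]
  rfl

private theorem a3_prA_add (u v : Monoid.Coprod A B →₀ ℤ) : prA (u + v) = prA u + prA v :=
  Finsupp.mapDomain_add

private theorem a3_prB_add (u v : Monoid.Coprod A B →₀ ℤ) : prB (u + v) = prB u + prB v :=
  Finsupp.mapDomain_add

private theorem a3_prA_zero : prA (0 : Monoid.Coprod A B →₀ ℤ) = 0 := Finsupp.mapDomain_zero

private theorem a3_prB_zero : prB (0 : Monoid.Coprod A B →₀ ℤ) = 0 := Finsupp.mapDomain_zero

private theorem a3_sub {α β : Type} (f : α → β) (u v : α →₀ ℤ) :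
    (u - v).mapDomain f = u.mapDomain f - v.mapDomain f :=
  map_sub (Finsupp.mapDomain.addMonoidHom f) u v

/-- Projection of the derivation to the cosets of the first factor.
Proof: the set of all g with this property contains inl a, inr b and is closed under products
(mapDomain commutes with left translation on the cosets); `Monoid.Coprod.induction_on`. -/
theorem piA (d : Monoid.Coprod A B → (Monoid.Coprod A B →₀ ℤ))
    (hmul : ∀ x y, d (x * y) = d x + lt x (d y)) (hA : ∀ a : A, d (inl a) = 0)
    (hB : ∀ b : B, d (inr b) = Finsupp.single 1 1 - Finsupp.single (inr b) 1)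
    (g : Monoid.Coprod A B) :
    prA (d g) = Finsupp.single (QuotientGroup.mk 1) 1 - Finsupp.single (QuotientGroup.mk g) 1 := by
  induction g using Monoid.Coprod.induction_on with
  | inl a =>
    rw [hA, a3_prA_zero]
    have h : (QuotientGroup.mk (inl a) : Monoid.Coprod A B ⧸ SA A B) = QuotientGroup.mk 1 := by
      rw [QuotientGroup.eq]
      exact ⟨a⁻¹, by simp⟩
    rw [h, sub_self]
  | inr b =>
    rw [hB]
    unfold prA
    rw [a3_sub, Finsupp.mapDomain_single, Finsupp.mapDomain_single]
  | mul x y hx hy =>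
    rw [hmul, a3_prA_add, a3_prA_lt, hx, hy, a3_sub, Finsupp.mapDomain_single, Finsupp.mapDomain_single]
    have h1 : x • (QuotientGroup.mk 1 : Monoid.Coprod A B ⧸ SA A B) = QuotientGroup.mk x := by
      rw [MulAction.Quotient.smul_mk, smul_eq_mul, mul_one]
    have h2 : x • (QuotientGroup.mk y : Monoid.Coprod A B ⧸ SA A B) = QuotientGroup.mk (x * y) := by
      rw [MulAction.Quotient.smul_mk, smul_eq_mul]
    rw [h1, h2]
    abel

/-- Projection of the derivation to the cosets of the second factor. -/
theorem piB (d : Monoid.Coprod A B → (Monoid.Coprod A B →₀ ℤ))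
    (hmul : ∀ x y, d (x * y) = d x + lt x (d y)) (hA : ∀ a : A, d (inl a) = 0)
    (hB : ∀ b : B, d (inr b) = Finsupp.single 1 1 - Finsupp.single (inr b) 1)
    (g : Monoid.Coprod A B) : prB (d g) = 0 := by
  induction g using Monoid.Coprod.induction_on with
  | inl a => rw [hA, a3_prB_zero]
  | inr b =>
    rw [hB]
    unfold prB
    rw [a3_sub, Finsupp.mapDomain_single, Finsupp.mapDomain_single]
    have h : (QuotientGroup.mk (inr b) : Monoid.Coprod A B ⧸ SB A B) = QuotientGroup.mk 1 := by
      rw [QuotientGroup.eq]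
      exact ⟨b⁻¹, by simp⟩
    rw [h, sub_self]
  | mul x y hx hy =>
    rw [hmul, a3_prB_add, a3_prB_lt, hx, hy, Finsupp.mapDomain_zero, add_zero]

end H13K
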