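import Pool.Agent.Lib.H13K.A3

set_option autoImplicit false

namespace H13K

open Monoid.Coprod

variable {A B : Type} [Group A] [Group B]

namespace A3b

/-- A finitely supported function which is invariant under the translation by an element of infinite
order is zero. -/
theorem eq_zero_of_lt {G : Type} [Group G] (a : G) (hinf : ∀ n : ℤ, a ^ n = 1 → n = 0) (u : G →₀ ℤ)
    (hu : lt a u = u) : u = 0 := by
  by_contra hne
  obtain ⟨x, hx⟩ := Finsupp.ne_iff.1 hne
  have hx' : u x ≠ 0 := by simpa using hx
  have hstep : ∀ y, u (a * y) = u y := by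
    intro y
    have h1 : lt a u (a * y) = u (a * y) := by rw [hu]
    rw [lt_apply] at h1
    rw [← h1]
    simp
  have hpow : ∀ n : ℕ, u (a ^ n * x) = u x := by
    intro n
    induction n with
    | zero => simp
    | succ n ih =>
      rw [pow_succ', mul_assoc, hstep, ih]
  have hinj : Function.Injective (fun n : ℕ => a ^ n * x) := by
    intro m n hmn
    have h1 : a ^ m = a ^ n := mul_right_cancel hmn
    have h2 : a ^ ((m : ℤ) - n) = 1 := by
      rw [zpow_sub, zpow_natCast, zpow_natCast, h1, mul_inv_cancel]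
    have h3 := hinf _ h2
    omega
  have hsub : Set.range (fun n : ℕ => a ^ n * x) ⊆ (u.support : Set G) := by
    rintro _ ⟨n, rfl⟩
    simp only [Finset.mem_coe, Finsupp.mem_support_iff]
    rw [hpow n]
    exact hx'
  exact Set.infinite_range_of_injective hinj (u.support.finite_toSet.subset hsub)

theorem single_sub_eq_zero {X : Type} {p q : X}
    (h : (Finsupp.single p (1 : ℤ) - Finsupp.single q 1 : X →₀ ℤ) = 0) : p = q := by
  have h1 : (Finsupp.single p (1 : ℤ) : X →₀ ℤ) = Finsupp.single q 1 := sub_eq_zero.1 h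
  exact (Finsupp.single_left_inj one_ne_zero).1 h1

theorem prB_sub (u v : Monoid.Coprod A B →₀ ℤ) : prB (u - v) = prB u - prB v :=
  map_sub (Finsupp.mapDomain.addMonoidHom (M := ℤ)
    (fun x : Monoid.Coprod A B => (QuotientGroup.mk x : Monoid.Coprod A B ⧸ SB A B))) u v

theorem prB_single (x : Monoid.Coprod A B) : prB (Finsupp.single x 1) =
    Finsupp.single (QuotientGroup.mk x : Monoid.Coprod A B ⧸ SB A B) 1 := by
  unfold prB
  rw [Finsupp.mapDomain_single]

theorem prA_zero : prA (0 : Monoid.Coprod A B →₀ ℤ) = 0 := by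
  unfold prA
  exact Finsupp.mapDomain_zero

end A3b

/-- An element that commutes with an element of infinite order of the first factor lies in the
first factor.  Proof: d (a y) = d (y a) gives lt a (d y) = d y, so d y = 0 (finite support,
a of infinite order), now `piA`: mk y = mk 1. -/
theorem cent_A (d : Monoid.Coprod A B → (Monoid.Coprod A B →₀ ℤ))
    (hmul : ∀ x y, d (x * y) = d x + lt x (d y)) (hA : ∀ a : A, d (inl a) = 0)
    (hB : ∀ b : B, d (inr b) = Finsupp.single 1 1 - Finsupp.single (inr b) 1)
    (a : Monoid.Coprod A B) (ha : a ∈ SA A B) (hinf : ∀ n : ℤ, a ^ n = 1 → n = 0)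
    (y : Monoid.Coprod A B) (hy : Commute a y) : y ∈ SA A B := by
  have hda : d a = 0 := by
    obtain ⟨a', rfl⟩ := ha
    exact hA a'
  have h1 : lt a (d y) = d y := by
    have h2 := hmul a y
    rw [hy.eq, hmul y a, hda, lt_zero, add_zero, zero_add] at h2
    exact h2.symm
  have h3 : d y = 0 := A3b.eq_zero_of_lt a hinf _ h1
  have h4 := piA d hmul hA hB y
  rw [h3, A3b.prA_zero] at h4
  have h5 := A3b.single_sub_eq_zero h4.symm
  rw [QuotientGroup.eq] at h5
  simpa using h5

/-- The same for the second factor.  Proof: e y = d y - single 1 1 + single y 1 satisfies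
e (b y) = lt b (e y), e (y b) = e y; so e y = 0 (finite support); apply `prB` and `piB`. -/
theorem cent_B (d : Monoid.Coprod A B → (Monoid.Coprod A B →₀ ℤ))
    (hmul : ∀ x y, d (x * y) = d x + lt x (d y)) (hA : ∀ a : A, d (inl a) = 0)
    (hB : ∀ b : B, d (inr b) = Finsupp.single 1 1 - Finsupp.single (inr b) 1)
    (b : Monoid.Coprod A B) (hb : b ∈ SB A B) (hinf : ∀ n : ℤ, b ^ n = 1 → n = 0)
    (y : Monoid.Coprod A B) (hy : Commute b y) : y ∈ SB A B := by
  have hdb : d b = Finsupp.single 1 1 - Finsupp.single b 1 := by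
    obtain ⟨b', rfl⟩ := hb
    exact hB b'
  have h1 : lt b (d y - Finsupp.single 1 1 + Finsupp.single y 1)
      = d y - Finsupp.single 1 1 + Finsupp.single y 1 := by
    have h2 := hmul b y
    have h3 := hmul y b
    rw [← hy.eq] at h3
    rw [hdb] at h2 h3
    rw [lt_sub, lt_single, lt_single, mul_one, ← hy.eq] at h3
    rw [lt_add, lt_sub, lt_single, lt_single, mul_one]
    rw [h2] at h3
    have h4 : lt b (d y) = d y + (Finsupp.single y 1 - Finsupp.single (b * y) 1)
        - (Finsupp.single 1 1 - Finsupp.single b 1) := by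
      rw [← h3]
      abel
    rw [h4]
    abel
  have h3 : d y - Finsupp.single 1 1 + Finsupp.single y 1 = 0 := A3b.eq_zero_of_lt b hinf _ h1
  have h4 : d y = Finsupp.single 1 1 - Finsupp.single y 1 := by
    have h5 : d y = (d y - Finsupp.single 1 1 + Finsupp.single y 1)
        + (Finsupp.single 1 1 - Finsupp.single y 1) := by abel
    rw [h5, h3, zero_add]
  have h6 := piB d hmul hA hB y
  rw [h4, A3b.prB_sub, A3b.prB_single, A3b.prB_single] at h6
  have h5 := A3b.single_sub_eq_zero h6
  rw [QuotientGroup.eq] at h5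
  simpa using h5

end H13K
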