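import Pool.Agent.Lib.H13K.A1
import Pool.Agent.Lib.H13K.A2
import Pool.Agent.Lib.H13K.A3b

set_option autoImplicit false

namespace H13K

/-- an invariant finitely supported function which is not zero has a periodic point in its support -/
private theorem a4_period {G Q : Type} [Group G] [MulAction G Q] (m : G) (xi : Q →₀ ℤ) (hne : xi ≠ 0)
    (h : xi.mapDomain (fun q => m • q) = xi) : ∃ (p : Q) (N : ℕ), 1 ≤ N ∧ m ^ N • p = p := by
  obtain ⟨p, hp⟩ := Finsupp.ne_iff.1 hne
  have hp' : xi p ≠ 0 := by simpa using hp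
  have hstep : ∀ q, xi (m • q) = xi q := by
    intro q
    have h1 := Finsupp.mapDomain_apply (f := fun q : Q => m • q) (MulAction.injective m) xi q
    rw [h] at h1
    exact h1
  have hpow : ∀ n : ℕ, xi (m ^ n • p) = xi p := by
    intro n
    induction n with
    | zero => simp
    | succ n ih => rw [pow_succ', mul_smul, hstep, ih]
  have hsub : Set.range (fun n : ℕ => m ^ n • p) ⊆ (xi.support : Set Q) := by
    rintro _ ⟨n, rfl⟩
    simp only [Finset.mem_coe, Finsupp.mem_support_iff]
    rw [hpow n]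
    exact hp'
  have hni : ¬ Function.Injective (fun n : ℕ => m ^ n • p) := fun hi =>
    Set.infinite_range_of_injective hi (xi.support.finite_toSet.subset hsub)
  have key : ∀ i j : ℕ, i < j → m ^ i • p = m ^ j • p → ∃ (p : Q) (N : ℕ), 1 ≤ N ∧ m ^ N • p = p := by
    intro i j hij he
    refine ⟨p, j - i, by omega, ?_⟩
    have h1 : m ^ j = m ^ i * m ^ (j - i) := by
      rw [← pow_add]
      congr 1
      omega
    rw [h1, mul_smul] at he
    exact (MulAction.injective (m ^ i) he).symm
  unfold Function.Injective at hni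
  push Not at hni
  obtain ⟨i, j, he, hij⟩ := hni
  rcases lt_or_gt_of_ne hij with h1 | h1
  · exact key i j h1 he
  · exact key j i h1 he.symm

private theorem a4_prA_lt {A B : Type} [Group A] [Group B] (x : Monoid.Coprod A B)
    (u : Monoid.Coprod A B →₀ ℤ) :
    prA (lt x u) = (prA u).mapDomain (fun q => x • q) := by
  unfold prA lt
  rw [← Finsupp.mapDomain_comp, ← Finsupp.mapDomain_comp]
  rfl

private theorem a4_prB_lt {A B : Type} [Group A] [Group B] (x : Monoid.Coprod A B)
    (u : Monoid.Coprod A B →₀ ℤ) :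
    prB (lt x u) = (prB u).mapDomain (fun q => x • q) := by
  unfold prB lt
  rw [← Finsupp.mapDomain_comp, ← Finsupp.mapDomain_comp]
  rfl

private theorem a4_sub {α β : Type} (f : α → β) (u v : α →₀ ℤ) :
    (u - v).mapDomain f = u.mapDomain f - v.mapDomain f :=
  map_sub (Finsupp.mapDomain.addMonoidHom f) u v

private theorem a4_sum {α β : Type} (f : α → β) (u : α →₀ ℤ) :
    (u.mapDomain f).sum (fun _ n => n) = u.sum (fun _ n => n) :=
  Finsupp.sum_mapDomain_index (fun _ => rfl) (fun _ _ _ => rfl)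

/-- the final step: a periodic coset -/
private theorem a4_fin {G : Type} [Group G] (S : Subgroup G) (m c g : G) (hmc : Commute m c)
    (hfree : ∀ a b : ℤ, m ^ a * c ^ b = 1 → a = 0 ∧ b = 0) (N : ℕ) (hN : 1 ≤ N)
    (hg : m ^ N • (QuotientGroup.mk g : G ⧸ S) = QuotientGroup.mk g)
    (hc : ∀ a ∈ S, (∀ n : ℤ, a ^ n = 1 → n = 0) → ∀ y, Commute a y → y ∈ S) :
    g⁻¹ * m * g ∈ S ∧ g⁻¹ * c * g ∈ S := by
  have h1 : g⁻¹ * m ^ N * g ∈ S := by
    rw [MulAction.Quotient.smul_mk, smul_eq_mul] at hg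
    have h2 := QuotientGroup.eq.1 hg.symm
    rwa [← mul_assoc] at h2
  have hconj : ∀ n : ℕ, (g⁻¹ * m * g) ^ n = g⁻¹ * m ^ n * g := by
    intro n
    induction n with
    | zero => simp
    | succ n ih =>
      rw [pow_succ, ih, pow_succ]
      group
  have h3 : ∀ n : ℤ, (g⁻¹ * m ^ N * g) ^ n = 1 → n = 0 := by
    intro n hn
    have h4 : (g⁻¹ * m ^ N * g) ^ n = g⁻¹ * (m ^ N) ^ n * g := by
      have h5 := conj_zpow (i := n) (a := g⁻¹) (b := m ^ N)
      rw [inv_inv] at h5
      exact h5
    rw [h4] at hn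
    have h6 : (m ^ N) ^ n = 1 := by
      have h7 : g * (g⁻¹ * (m ^ N) ^ n * g) * g⁻¹ = g * 1 * g⁻¹ := by rw [hn]
      have h8 : g * (g⁻¹ * (m ^ N) ^ n * g) * g⁻¹ = (m ^ N) ^ n := by group
      rw [← h8, h7]
      group
    have h9 : m ^ ((N : ℤ) * n) * c ^ (0 : ℤ) = 1 := by
      rw [zpow_mul, zpow_natCast, h6, zpow_zero, mul_one]
    have h10 := (hfree _ _ h9).1
    rcases mul_eq_zero.1 h10 with h | h
    · omega
    · exact h
  have hcm : Commute (g⁻¹ * m ^ N * g) (g⁻¹ * m * g) := by
    rw [← hconj]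
    exact (Commute.refl _).pow_left N
  have hcc : Commute (g⁻¹ * m ^ N * g) (g⁻¹ * c * g) := by
    have h4 : Commute (m ^ N) c := hmc.pow_left N
    show g⁻¹ * m ^ N * g * (g⁻¹ * c * g) = g⁻¹ * c * g * (g⁻¹ * m ^ N * g)
    have h5 : g⁻¹ * m ^ N * g * (g⁻¹ * c * g) = g⁻¹ * (m ^ N * c) * g := by group
    have h6 : g⁻¹ * c * g * (g⁻¹ * m ^ N * g) = g⁻¹ * (c * m ^ N) * g := by group
    rw [h5, h6, h4.eq]
  exact ⟨hc _ h1 h3 _ hcm, hc _ h1 h3 _ hcc⟩

/-- Commuting elements of a free product that generate a free abelian group of rank two lie in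
one conjugate of a factor.
Proof: take d from `exists_der`; d (m c) = d (c m) is the hypothesis of `koszul` for u = d m,
v = d c; so d m = x - lt m x, d c = x - lt c x.  Then xi_A = piA x - single [1] 1 and
xi_B = piB x are invariant under left translation by m; the sums of coefficients are e - 1 and e,
so one of them is not zero; its finite nonempty support is permuted by m, hence some power m^N,
N >= 1, fixes a coset g A (or g B), i.e. a = g⁻¹ m^N g lies in the factor; it has infinite order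
and commutes with g⁻¹ m g and g⁻¹ c g: `cent_A`, `cent_B`. -/
theorem lemmaF {A B : Type} [Group A] [Group B] (m c : Monoid.Coprod A B) (hmc : Commute m c)
    (hfree : ∀ a b : ℤ, m ^ a * c ^ b = 1 → a = 0 ∧ b = 0) :
    ∃ g : Monoid.Coprod A B, (g⁻¹ * m * g ∈ SA A B ∧ g⁻¹ * c * g ∈ SA A B) ∨
      (g⁻¹ * m * g ∈ SB A B ∧ g⁻¹ * c * g ∈ SB A B) := by
  obtain ⟨d, hmul, hA, hB⟩ := exists_der A B
  have h1 : d m - lt c (d m) = d c - lt m (d c) := by
    have h2 := hmul m c
    have h3 := hmul c m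
    rw [hmc.eq, h3] at h2
    have h4 : d m - lt c (d m) = (d m + lt m (d c)) - lt c (d m) - lt m (d c) := by abel
    rw [h4, ← h2]
    abel
  obtain ⟨x, hx, -⟩ := koszul m c hmc hfree (d m) (d c) h1
  have hBinv : (prB x).mapDomain (fun q => m • q) = prB x := by
    have h2 := piB d hmul hA hB m
    rw [hx] at h2
    have h3 : prB (x - lt m x) = prB x - prB (lt m x) := a4_sub _ _ _
    rw [h3, a4_prB_lt] at h2
    exact (sub_eq_zero.1 h2).symm
  have hAinv : (prA x - Finsupp.single (QuotientGroup.mk 1) 1).mapDomain (fun q => m • q) =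
      prA x - Finsupp.single (QuotientGroup.mk 1) 1 := by
    have h2 := piA d hmul hA hB m
    rw [hx] at h2
    have h3 : prA (x - lt m x) = prA x - prA (lt m x) := a4_sub _ _ _
    rw [h3, a4_prA_lt] at h2
    have h4 : m • (QuotientGroup.mk 1 : Monoid.Coprod A B ⧸ SA A B) = QuotientGroup.mk m := by
      rw [MulAction.Quotient.smul_mk, smul_eq_mul, mul_one]
    rw [a4_sub, Finsupp.mapDomain_single, h4]
    have h5 : (prA x).mapDomain (fun q => m • q) = prA x - (Finsupp.single (QuotientGroup.mk 1) 1 -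
        Finsupp.single (QuotientGroup.mk m) 1) := by
      rw [← h2]
      abel
    rw [h5]
    abel
  by_cases hz : prB x = 0
  · have hs : x.sum (fun _ n => n) = 0 := by
      have h2 := a4_sum (fun x : Monoid.Coprod A B => (QuotientGroup.mk x : Monoid.Coprod A B ⧸ SB A B)) x
      have h3 : (prB x).sum (fun _ n => n) = x.sum (fun _ n => n) := h2
      rw [← h3, hz, Finsupp.sum_zero_index]
    have hne : prA x - Finsupp.single (QuotientGroup.mk 1) 1 ≠ 0 := by
      intro h2
      have h3 : prA x = Finsupp.single (QuotientGroup.mk 1) 1 := sub_eq_zero.1 h2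
      have h4 : (prA x).sum (fun _ n => n) = x.sum (fun _ n => n) :=
        a4_sum (fun x : Monoid.Coprod A B => (QuotientGroup.mk x : Monoid.Coprod A B ⧸ SA A B)) x
      rw [hs, h3, Finsupp.sum_single_index rfl] at h4
      exact one_ne_zero h4
    obtain ⟨p, N, hN, hp⟩ := a4_period m _ hne hAinv
    obtain ⟨g, rfl⟩ := QuotientGroup.mk_surjective p
    exact ⟨g, Or.inl (a4_fin (SA A B) m c g hmc hfree N hN hp
      (fun a ha hinf y hy => cent_A d hmul hA hB a ha hinf y hy))⟩
  · obtain ⟨p, N, hN, hp⟩ := a4_period m _ hz hBinv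
    obtain ⟨g, rfl⟩ := QuotientGroup.mk_surjective p
    exact ⟨g, Or.inr (a4_fin (SB A B) m c g hmc hfree N hN hp
      (fun a ha hinf y hy => cent_B d hmul hA hB a ha hinf y hy))⟩

end H13K
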