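import Pool.Agent.Lib.H13K.A4

set_option autoImplicit false

namespace H13K

private theorem snd_of {A B : Type} [Group A] [Group B] {x g : Monoid.Coprod A B} (h : g⁻¹ * x * g ∈ SA A B) :
    Monoid.Coprod.snd x = 1 := by
  obtain ⟨a, ha⟩ := h
  have h1 := congrArg (Monoid.Coprod.snd : Monoid.Coprod A B →* B) ha
  rw [Monoid.Coprod.snd_apply_inl, map_mul, map_mul, map_inv] at h1
  have h2 : Monoid.Coprod.snd x = Monoid.Coprod.snd g *
      ((Monoid.Coprod.snd g)⁻¹ * Monoid.Coprod.snd x * Monoid.Coprod.snd g) * (Monoid.Coprod.snd g)⁻¹ := by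
    group
  rw [← h1, mul_one, mul_inv_cancel] at h2
  exact h2

private theorem fst_of {A B : Type} [Group A] [Group B] {x g : Monoid.Coprod A B} (h : g⁻¹ * x * g ∈ SB A B) :
    Monoid.Coprod.fst x = 1 := by
  obtain ⟨a, ha⟩ := h
  have h1 := congrArg (Monoid.Coprod.fst : Monoid.Coprod A B →* A) ha
  rw [Monoid.Coprod.fst_apply_inr, map_mul, map_mul, map_inv] at h1
  have h2 : Monoid.Coprod.fst x = Monoid.Coprod.fst g *
      ((Monoid.Coprod.fst g)⁻¹ * Monoid.Coprod.fst x * Monoid.Coprod.fst g) * (Monoid.Coprod.fst g)⁻¹ := by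
    group
  rw [← h1, mul_one, mul_inv_cancel] at h2
  exact h2

private theorem comm_inr {A B K : Type} [Group A] [Group B] [CommGroup K] (φ : Monoid.Coprod A B →* K)
    {x g : Monoid.Coprod A B} (h : g⁻¹ * x * g ∈ SB A B) :
    φ (Monoid.Coprod.inr (Monoid.Coprod.snd x)) = φ x := by
  obtain ⟨a, ha⟩ := h
  have h1 : x = g * Monoid.Coprod.inr a * g⁻¹ := by rw [ha]; group
  rw [h1]
  simp only [map_mul, map_inv, Monoid.Coprod.snd_apply_inr]
  rw [mul_comm (φ (Monoid.Coprod.inr (Monoid.Coprod.snd g))), mul_comm (φ g), mul_inv_cancel_right,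
    mul_inv_cancel_right]

private theorem one_of {A B : Type} [Group A] [Group B] {x g k : Monoid.Coprod A B} (h : g⁻¹ * x * g ∈ SA A B)
    (h' : k⁻¹ * x * k ∈ SB A B) : x = 1 := by
  have h2 := fst_of h'
  obtain ⟨a, ha⟩ := h
  have h3 : x = g * Monoid.Coprod.inl a * g⁻¹ := by rw [ha]; group
  rw [h3] at h2
  simp only [map_mul, map_inv, Monoid.Coprod.fst_apply_inl] at h2
  have h4 : a = 1 := by
    have h5 : a = (Monoid.Coprod.fst g)⁻¹ * (Monoid.Coprod.fst g * a * (Monoid.Coprod.fst g)⁻¹) * Monoid.Coprod.fst g := by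
      group
    rw [h5, h2]
    group
  rw [h3, h4, map_one]
  group

/-- The algebraic end of the proof.
Proof: every i is adjacent to some index (`hex`, `hconn`), so by `hadj` and `lemmaF` (the powers
m^a c^b = 1 force a = 0, b = 0 by w i and w j) some m in M i, hence every m in M i, is conjugate
(under e) into SA (i is of type A) or into SB (type B); not both (the two projections of e m would
be trivial, so m = 1, but w i m = 1 as a number).  For adj i j the element c is in the same
conjugate as m.  Suppose i is of type A and j of type B.  Let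
psi = w j ∘ e.symm ∘ inr ∘ snd ∘ e : G →* Multiplicative ℂ.  For m in M l, l of type A: psi m = 1;
l of type B: inr (snd (e m)) is conjugate to e m, so psi m = w j m.  As j is of type B we get
psi m = w j m for all l and all m in M l, so psi / w j kills all meridians and is trivial by
`hgen`: psi = w j.  But c is conjugate into SA, so psi c = 1, while w j c = n j > 0.  The same with
A, B exchanged.  So types agree along adj, hence by `hconn` all indices have the same type, say A.
Then snd ∘ e : G →* B kills all meridians, so it is trivial by `hgen`; it is surjective, so B is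
trivial. -/
theorem alg {G : Type} [Group G] {ι : Type} [Fintype ι] [DecidableEq ι] (M : ι → Set G)
    (w : ι → G →* Multiplicative ℂ)
    (hne : ∀ i, (M i).Nonempty)
    (hconj : ∀ i, ∀ m ∈ M i, ∀ m' ∈ M i, IsConj m m')
    (hw : ∀ i, ∀ m ∈ M i, ∀ j, (w j m).toAdd = if j = i then 1 else 0)
    (hgen : ∀ (H : Type) [Group H] (ψ : G →* H), (∀ i, ∀ m ∈ M i, ψ m = 1) → ∀ x, ψ x = 1)
    (adj : ι → ι → Prop)
    (hadj : ∀ i j, adj i j → ∃ m ∈ M i, ∃ c : G, Commute m c ∧
      ∃ n : ι → ℕ, n i = 0 ∧ 0 < n j ∧ ∀ l, (w l c).toAdd = (n l : ℂ))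
    (hsymm : ∀ i j, adj i j → adj j i)
    (hex : ∃ i j, adj i j)
    (hconn : ∀ i j, i ≠ j → adj i j ∨ ∃ l, adj i l ∧ adj l j)
    (A B : Type) [Group A] [Group B] (e : G ≃* Monoid.Coprod A B) :
    Subsingleton A ∨ Subsingleton B :=
  by
  classical
  -- the two types
  let TA : Monoid.Coprod A B → Prop := fun x => ∃ g, g⁻¹ * x * g ∈ SA A B
  let TB : Monoid.Coprod A B → Prop := fun x => ∃ g, g⁻¹ * x * g ∈ SB A B
  have hTAc : ∀ x y : G, IsConj x y → TA (e x) → TA (e y) := by
    rintro x y hxy ⟨g, hg⟩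
    obtain ⟨k, hk⟩ := isConj_iff.1 hxy
    refine ⟨e k * g, ?_⟩
    have h1 : (e k * g)⁻¹ * e y * (e k * g) = g⁻¹ * e x * g := by
      rw [← hk, map_mul, map_mul, map_inv]
      group
    rw [h1]
    exact hg
  have hTBc : ∀ x y : G, IsConj x y → TB (e x) → TB (e y) := by
    rintro x y hxy ⟨g, hg⟩
    obtain ⟨k, hk⟩ := isConj_iff.1 hxy
    refine ⟨e k * g, ?_⟩
    have h1 : (e k * g)⁻¹ * e y * (e k * g) = g⁻¹ * e x * g := by
      rw [← hk, map_mul, map_mul, map_inv]
      group
    rw [h1]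
    exact hg
  have hexcl : ∀ i, ∀ m ∈ M i, TA (e m) → TB (e m) → False := by
    rintro i m hm ⟨g, hg⟩ ⟨k, hk⟩
    have h1 : e m = 1 := one_of hg hk
    have h2 : m = 1 := (map_eq_one_iff e e.injective).1 h1
    have h3 := hw i m hm i
    rw [h2, map_one, if_pos rfl] at h3
    exact zero_ne_one h3
  -- what an adjacency gives
  have hkey : ∀ i j, adj i j → ∃ c : G, (∃ n : ι → ℕ, n i = 0 ∧ 0 < n j ∧ ∀ l, (w l c).toAdd = (n l : ℂ)) ∧
      (((∀ m ∈ M i, TA (e m)) ∧ TA (e c)) ∨ ((∀ m ∈ M i, TB (e m)) ∧ TB (e c))) := by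
    intro i j hij
    obtain ⟨m, hm, c, hmc, n, hni, hnj, hn⟩ := hadj i j hij
    refine ⟨c, ⟨n, hni, hnj, hn⟩, ?_⟩
    have hji : j ≠ i := by
      intro h
      rw [h, hni] at hnj
      exact lt_irrefl _ hnj
    have h1 : Commute (e m) (e c) := by
      have := congrArg e hmc.eq
      rw [map_mul, map_mul] at this
      exact this
    have h2 : ∀ a b : ℤ, (e m) ^ a * (e c) ^ b = 1 → a = 0 ∧ b = 0 := by
      intro a b hab
      have h3 : e (m ^ a * c ^ b) = 1 := by rw [map_mul, map_zpow, map_zpow, hab]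
      have h4 : m ^ a * c ^ b = 1 := (map_eq_one_iff e e.injective).1 h3
      have h5 : ∀ l, (a : ℂ) * (w l m).toAdd + (b : ℂ) * (w l c).toAdd = 0 := by
        intro l
        have h6 := congrArg (fun x => (w l x).toAdd) h4
        simpa only [map_mul, map_zpow, toAdd_mul, toAdd_zpow, map_one, toAdd_one, zsmul_eq_mul] using h6
      have h7 := h5 i
      rw [hw i m hm i, if_pos rfl, hn i, hni] at h7
      have h8 : (a : ℂ) = 0 := by simpa using h7
      have h9 : a = 0 := by exact_mod_cast h8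
      have h10 := h5 j
      rw [hn j, h9] at h10
      have h11 : (b : ℂ) * (n j : ℂ) = 0 := by simpa using h10
      rcases mul_eq_zero.1 h11 with h12 | h12
      · exact ⟨h9, by exact_mod_cast h12⟩
      · have h13 : n j = 0 := by exact_mod_cast h12
        omega
    obtain ⟨g, hg⟩ := lemmaF (e m) (e c) h1 h2
    rcases hg with ⟨hg1, hg2⟩ | ⟨hg1, hg2⟩
    · exact Or.inl ⟨fun m' hm' => hTAc m m' (hconj i m hm m' hm') ⟨g, hg1⟩, ⟨g, hg2⟩⟩
    · exact Or.inr ⟨fun m' hm' => hTBc m m' (hconj i m hm m' hm') ⟨g, hg1⟩, ⟨g, hg2⟩⟩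
  -- every index has a type
  have htype : ∀ i, (∀ m ∈ M i, TA (e m)) ∨ (∀ m ∈ M i, TB (e m)) := by
    intro i
    have h1 : ∃ j, adj i j := by
      obtain ⟨i0, j0, h0⟩ := hex
      by_cases h : i = i0
      · exact ⟨j0, h ▸ h0⟩
      · rcases hconn i i0 h with h2 | ⟨l, h2, -⟩
        · exact ⟨i0, h2⟩
        · exact ⟨l, h2⟩
    obtain ⟨j, hj⟩ := h1
    obtain ⟨c, -, h2 | h2⟩ := hkey i j hj
    · exact Or.inl h2.1
    · exact Or.inr h2.1
  have hnot : ∀ i, (∀ m ∈ M i, TA (e m)) → (∀ m ∈ M i, TB (e m)) → False := by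
    intro i hA hB
    obtain ⟨m, hm⟩ := hne i
    exact hexcl i m hm (hA m hm) (hB m hm)
  -- the types agree along adjacencies
  have hAB : ∀ i j, adj i j → (∀ m ∈ M i, TA (e m)) → (∀ m ∈ M j, TB (e m)) → False := by
    intro i j hij hi hj
    let ψ : G →* Multiplicative ℂ :=
      (w j).comp ((e.symm.toMonoidHom.comp (Monoid.Coprod.inr.comp Monoid.Coprod.snd)).comp e.toMonoidHom)
    have hψ : ∀ x, ψ x = w j (e.symm (Monoid.Coprod.inr (Monoid.Coprod.snd (e x)))) := fun _ => rfl
    have hkill : ∀ l, ∀ m ∈ M l, (ψ / w j) m = 1 := by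
      intro l m hm
      rw [MonoidHom.div_apply, div_eq_one, hψ]
      rcases htype l with hl | hl
      · obtain ⟨g, hg⟩ := hl m hm
        rw [snd_of hg, map_one, map_one, map_one]
        have hjl : j ≠ l := by
          rintro rfl
          exact hnot _ hl hj
        have h1 := hw l m hm j
        rw [if_neg hjl] at h1
        exact (toAdd_eq_zero.1 h1).symm
      · obtain ⟨g, hg⟩ := hl m hm
        have h1 := comm_inr ((w j).comp e.symm.toMonoidHom) hg
        have h2 : ((w j).comp e.symm.toMonoidHom) (e m) = w j m := by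
          show w j (e.symm (e m)) = w j m
          rw [MulEquiv.symm_apply_apply]
        rw [h2] at h1
        exact h1
    have hall := hgen (Multiplicative ℂ) (ψ / w j) hkill
    obtain ⟨c, ⟨n, hni, hnj, hn⟩, h3⟩ := hkey i j hij
    rcases h3 with h3 | h3
    · obtain ⟨g, hg⟩ := h3.2
      have h4 := hall c
      rw [MonoidHom.div_apply, div_eq_one, hψ, snd_of hg, map_one, map_one, map_one] at h4
      have h5 := hn j
      rw [← h4, toAdd_one] at h5
      have h6 : n j = 0 := by exact_mod_cast h5.symm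
      omega
    · exact hnot i hi h3.1
  have hsameA : ∀ i j, adj i j → (∀ m ∈ M i, TA (e m)) → (∀ m ∈ M j, TA (e m)) := by
    intro i j hij hi
    rcases htype j with h | h
    · exact h
    · exact (hAB i j hij hi h).elim
  have hsameB : ∀ i j, adj i j → (∀ m ∈ M i, TB (e m)) → (∀ m ∈ M j, TB (e m)) := by
    intro i j hij hi
    rcases htype j with h | h
    · exact (hAB j i (hsymm i j hij) h hi).elim
    · exact h
  obtain ⟨i0, -, -⟩ := hex
  rcases htype i0 with h0 | h0
  · right
    have hallA : ∀ j, ∀ m ∈ M j, TA (e m) := by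
      intro j
      by_cases hj : i0 = j
      · exact hj ▸ h0
      · rcases hconn i0 j hj with h1 | ⟨l, h1, h2⟩
        · exact hsameA i0 j h1 h0
        · exact hsameA l j h2 (hsameA i0 l h1 h0)
    have htriv := hgen B ((Monoid.Coprod.snd : Monoid.Coprod A B →* B).comp e.toMonoidHom) (by
      intro l m hm
      obtain ⟨g, hg⟩ := hallA l m hm
      exact snd_of hg)
    refine ⟨fun a b => ?_⟩
    have h1 : ∀ a : B, a = 1 := by
      intro a
      have h2 := htriv (e.symm (Monoid.Coprod.inr a))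
      have h3 : Monoid.Coprod.snd (e (e.symm (Monoid.Coprod.inr a : Monoid.Coprod A B))) = 1 := h2
      rw [MulEquiv.apply_symm_apply, Monoid.Coprod.snd_apply_inr] at h3
      exact h3
    rw [h1 a, h1 b]
  · left
    have hallB : ∀ j, ∀ m ∈ M j, TB (e m) := by
      intro j
      by_cases hj : i0 = j
      · exact hj ▸ h0
      · rcases hconn i0 j hj with h1 | ⟨l, h1, h2⟩
        · exact hsameB i0 j h1 h0
        · exact hsameB l j h2 (hsameB i0 l h1 h0)
    have htriv := hgen A ((Monoid.Coprod.fst : Monoid.Coprod A B →* A).comp e.toMonoidHom) (by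
      intro l m hm
      obtain ⟨g, hg⟩ := hallB l m hm
      exact fst_of hg)
    refine ⟨fun a b => ?_⟩
    have h1 : ∀ a : A, a = 1 := by
      intro a
      have h2 := htriv (e.symm (Monoid.Coprod.inl a))
      have h3 : Monoid.Coprod.fst (e (e.symm (Monoid.Coprod.inl a : Monoid.Coprod A B))) = 1 := h2
      rw [MulEquiv.apply_symm_apply, Monoid.Coprod.fst_apply_inl] at h3
      exact h3
    rw [h1 a, h1 b]

end H13K
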