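import Mathlib

set_option autoImplicit false

namespace H13K

/-- Left translation of a finitely supported function on a group. -/
noncomputable def lt {G : Type} [Group G] (g : G) (u : G →₀ ℤ) : G →₀ ℤ :=
  u.mapDomain (fun x => g * x)

section

variable {G : Type} [Group G]

theorem lt_apply (g : G) (u : G →₀ ℤ) (y : G) : lt g u y = u (g⁻¹ * y) := by
  have h : y = (fun x => g * x) (g⁻¹ * y) := by simp
  conv_lhs => rw [h]
  exact Finsupp.mapDomain_apply (mul_right_injective g) u (g⁻¹ * y)

theorem lt_one (u : G →₀ ℤ) : lt 1 u = u := by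
  ext y
  simp [lt_apply]

theorem lt_mul (g h : G) (u : G →₀ ℤ) : lt (g * h) u = lt g (lt h u) := by
  ext y
  simp [lt_apply, mul_assoc]

theorem lt_zero (g : G) : lt g (0 : G →₀ ℤ) = 0 := by
  ext y
  simp [lt_apply]

theorem lt_add (g : G) (u v : G →₀ ℤ) : lt g (u + v) = lt g u + lt g v := by
  ext y
  simp [lt_apply]

theorem lt_sub (g : G) (u v : G →₀ ℤ) : lt g (u - v) = lt g u - lt g v := by
  ext y
  simp [lt_apply]

theorem lt_single (g x : G) (n : ℤ) : lt g (Finsupp.single x n) = Finsupp.single (g * x) n := by
  simp [lt]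

end

/-- The image of the first factor of a free product. -/
abbrev SA (A B : Type) [Group A] [Group B] : Subgroup (Monoid.Coprod A B) :=
  (Monoid.Coprod.inl : A →* Monoid.Coprod A B).range

/-- The image of the second factor of a free product. -/
abbrev SB (A B : Type) [Group A] [Group B] : Subgroup (Monoid.Coprod A B) :=
  (Monoid.Coprod.inr : B →* Monoid.Coprod A B).range

/-- Projection of a finitely supported function to the cosets of the first factor. -/
noncomputable def prA {A B : Type} [Group A] [Group B] (u : Monoid.Coprod A B →₀ ℤ) :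
    (Monoid.Coprod A B ⧸ SA A B) →₀ ℤ :=
  u.mapDomain (fun x : Monoid.Coprod A B => (QuotientGroup.mk x : Monoid.Coprod A B ⧸ SA A B))

/-- Projection of a finitely supported function to the cosets of the second factor. -/
noncomputable def prB {A B : Type} [Group A] [Group B] (u : Monoid.Coprod A B →₀ ℤ) :
    (Monoid.Coprod A B ⧸ SB A B) →₀ ℤ :=
  u.mapDomain (fun x : Monoid.Coprod A B => (QuotientGroup.mk x : Monoid.Coprod A B ⧸ SB A B))

end H13K
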