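import Pool.Agent.Lib.H13K.Defs

set_option autoImplicit false

open scoped unitInterval

namespace H13K

variable {E : Type} [NormedAddCommGroup E] [NormedSpace ℝ E] {ι : Type}

/-- A tube around a piece of the graph `i`. -/
def tube (g : ι → C(E, ℂ)) (i : ι) (z₀ : E) (r ε : ℝ) : Set (E × ℂ) :=
  {p | ‖p.1 - z₀‖ < r ∧ ‖p.2 - g i p.1‖ < ε}

/-- The convex parameter set of the tube. -/
private def t3K (z₀ : E) (r ε : ℝ) : Set (E × ℂ) :=
  {q | ‖q.1 - z₀‖ < r ∧ q.2.re < Real.log ε}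

private theorem t3K_convex (z₀ : E) (r ε : ℝ) : Convex ℝ (t3K z₀ r ε) := by
  have h1 : t3K z₀ r ε = Metric.ball z₀ r ×ˢ {s : ℂ | s.re < Real.log ε} := by
    ext q
    simp [t3K, dist_eq_norm]
  rw [h1]
  exact (convex_ball z₀ r).prod (convex_halfSpace_re_lt _)

private theorem t3_exp_lt {ε : ℝ} (hε : 0 < ε) {s : ℂ} (h : s.re < Real.log ε) :
    ‖Complex.exp s‖ < ε := by
  rw [Complex.norm_exp]
  exact (Real.lt_log_iff_exp_lt hε).1 h

private theorem t3_log_lt {ε : ℝ} {s c : ℂ} (hs : Complex.exp s = c) (h : ‖c‖ < ε) :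
    s.re < Real.log ε := by
  have h1 : 0 < ‖c‖ := by
    rw [← hs]
    exact norm_pos_iff.2 (Complex.exp_ne_zero s)
  rw [Real.lt_log_iff_exp_lt (lt_trans h1 h), ← Complex.norm_exp, hs]
  exact h

/-- The parametrisation. -/
private noncomputable def t3Theta (g : ι → C(E, ℂ)) (i : ι) (z₀ : E) (r ε : ℝ) (hε : 0 < ε)
    (hsep : ∀ z, ‖z - z₀‖ < r → ∀ j, j ≠ i → ε ≤ ‖g i z - g j z‖) :
    C(t3K z₀ r ε, XX g) where
  toFun q := ⟨(q.1.1, g i q.1.1 + Complex.exp q.1.2), by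
    intro j
    by_cases hj : j = i
    · subst hj
      intro h
      simp at h
    · intro h
      have h1 := hsep q.1.1 q.2.1 j hj
      have h2 : g i q.1.1 - g j q.1.1 = -Complex.exp q.1.2 := by
        simp only at h
        linear_combination h
      rw [h2, norm_neg] at h1
      exact absurd (t3_exp_lt hε q.2.2) (not_lt.2 h1)⟩
  continuous_toFun := by
    apply Continuous.subtype_mk
    fun_prop

private theorem t3_pt (g : ι → C(E, ℂ)) (i : ι) (z₀ : E) (r ε : ℝ) (hε : 0 < ε)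
    (hsep : ∀ z, ‖z - z₀‖ < r → ∀ j, j ≠ i → ε ≤ ‖g i z - g j z‖) (x : XX g)
    (hx : x.1 ∈ tube g i z₀ r ε) : ∃ q : t3K z₀ r ε, t3Theta g i z₀ r ε hε hsep q = x := by
  have hne : x.1.2 - g i x.1.1 ≠ 0 := sub_ne_zero.2 (x.2 i)
  have he : Complex.exp (Complex.log (x.1.2 - g i x.1.1)) = x.1.2 - g i x.1.1 :=
    Complex.exp_log hne
  refine ⟨⟨(x.1.1, Complex.log (x.1.2 - g i x.1.1)), hx.1, t3_log_lt he hx.2⟩, ?_⟩
  apply Subtype.ext
  show (x.1.1, g i x.1.1 + Complex.exp (Complex.log (x.1.2 - g i x.1.1))) = x.1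
  rw [he]
  ext <;> simp

private theorem t3_theta_tube (g : ι → C(E, ℂ)) (i : ι) (z₀ : E) (r ε : ℝ) (hε : 0 < ε)
    (hsep : ∀ z, ‖z - z₀‖ < r → ∀ j, j ≠ i → ε ≤ ‖g i z - g j z‖) (q : t3K z₀ r ε) :
    (t3Theta g i z₀ r ε hε hsep q).1 ∈ tube g i z₀ r ε := by
  refine ⟨q.2.1, ?_⟩
  show ‖g i q.1.1 + Complex.exp q.1.2 - g i q.1.1‖ < ε
  rw [add_sub_cancel_left]
  exact t3_exp_lt hε q.2.2

/-- The parametrised punctured tube.  Theta (z, s) = (z, g i z + exp s) maps the convex set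
(ball z₀ r) × {Re s < log ε} onto tube ∩ XX. -/
theorem tube_pc (g : ι → C(E, ℂ)) (i : ι) (z₀ : E) (r ε : ℝ) (hr : 0 < r) (hε : 0 < ε)
    (hsep : ∀ z, ‖z - z₀‖ < r → ∀ j, j ≠ i → ε ≤ ‖g i z - g j z‖) (x x' : XX g)
    (hx : x.1 ∈ tube g i z₀ r ε) (hx' : x'.1 ∈ tube g i z₀ r ε) :
    ∃ p : Path x x', ∀ t, (p t).1 ∈ tube g i z₀ r ε := by
  obtain ⟨q, hq⟩ := t3_pt g i z₀ r ε hε hsep x hx
  obtain ⟨q', hq'⟩ := t3_pt g i z₀ r ε hε hsep x' hx'
  have : ContractibleSpace (t3K z₀ r ε) := (t3K_convex z₀ r ε).contractibleSpace ⟨q.1, q.2⟩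
  let γ : Path q q' := PathConnectedSpace.somePath q q'
  refine ⟨(γ.map (t3Theta g i z₀ r ε hε hsep).continuous).cast hq.symm hq'.symm, ?_⟩
  intro t
  exact t3_theta_tube g i z₀ r ε hε hsep (γ t)

private theorem t3_step (g : ι → C(E, ℂ)) (i : ι) (z₀ : E) (r ε : ℝ) (hε : 0 < ε)
    (hsep : ∀ z, ‖z - z₀‖ < r → ∀ j, j ≠ i → ε ≤ ‖g i z - g j z‖)
    {H : Type} [Group H] (Φ : PF (XX g) H) (hk : Kills Φ)
    [SimplyConnectedSpace (t3K z₀ r ε)] (a b : t3K z₀ r ε) (h1 : b.1.1 = a.1.1)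
    (h2 : b.1.2 = a.1.2 + 2 * Real.pi * Complex.I) (γ : Path a b) :
    (Φ.comap (t3Theta g i z₀ r ε hε hsep)).val γ = 1 := by
  have hadm : Adm g i a.1.1 (Complex.exp a.1.2) :=
    ⟨Complex.exp_ne_zero _, fun j hj =>
      lt_of_lt_of_le (t3_exp_lt hε a.2.2) (hsep a.1.1 a.2.1 j hj)⟩
  have hre : ∀ t : I, (a.1.2 + 2 * Real.pi * (t : ℝ) * Complex.I).re = a.1.2.re := by
    intro t
    simp
  let δ : Path a b :=
    { toFun := fun t => ⟨(a.1.1, a.1.2 + 2 * Real.pi * (t : ℝ) * Complex.I), a.2.1, by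
        rw [hre]
        exact a.2.2⟩
      continuous_toFun := by
        apply Continuous.subtype_mk
        fun_prop
      source' := by
        apply Subtype.ext
        ext <;> simp
      target' := by
        apply Subtype.ext
        refine Prod.ext h1.symm ?_
        simp only [Set.Icc.coe_one, Complex.ofReal_one, mul_one]
        exact h2.symm }
  rw [PF.val_eq_of_simplyConnected _ γ δ]
  have hs : t3Theta g i z₀ r ε hε hsep a = mbase g i a.1.1 (Complex.exp a.1.2) hadm := rfl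
  have ht : t3Theta g i z₀ r ε hε hsep b = mbase g i a.1.1 (Complex.exp a.1.2) hadm := by
    apply Subtype.ext
    show (b.1.1, g i b.1.1 + Complex.exp b.1.2) = (a.1.1, g i a.1.1 + Complex.exp a.1.2)
    rw [h1, h2, Complex.exp_add, Complex.exp_two_pi_mul_I, mul_one]
  have heq : δ.map (t3Theta g i z₀ r ε hε hsep).continuous
      = (mer g i a.1.1 (Complex.exp a.1.2) hadm).cast hs ht := by
    ext t
    · rfl
    · show g i a.1.1 + Complex.exp (a.1.2 + 2 * Real.pi * (t : ℝ) * Complex.I)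
        = g i a.1.1 + Complex.exp a.1.2 * Complex.exp (2 * Real.pi * (t : ℝ) * Complex.I)
      rw [Complex.exp_add]
  show Φ.val (δ.map (t3Theta g i z₀ r ε hε hsep).continuous) = 1
  rw [heq, PF.val_cast]
  exact hk i a.1.1 _ hadm

private theorem t3_iter (g : ι → C(E, ℂ)) (i : ι) (z₀ : E) (r ε : ℝ) (hε : 0 < ε)
    (hsep : ∀ z, ‖z - z₀‖ < r → ∀ j, j ≠ i → ε ≤ ‖g i z - g j z‖)
    {H : Type} [Group H] (Φ : PF (XX g) H) (hk : Kills Φ)
    [SimplyConnectedSpace (t3K z₀ r ε)] (n : ℕ) : ∀ (a b : t3K z₀ r ε), b.1.1 = a.1.1 →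
    b.1.2 = a.1.2 + n * (2 * Real.pi * Complex.I) → ∀ γ : Path a b,
    (Φ.comap (t3Theta g i z₀ r ε hε hsep)).val γ = 1 := by
  induction n with
  | zero =>
    intro a b h1 h2 γ
    have hab : b = a := by
      apply Subtype.ext
      refine Prod.ext h1 ?_
      rw [h2]
      simp
    subst hab
    rw [PF.val_eq_of_simplyConnected _ γ (Path.refl b), PF.val_refl]
  | succ n ih =>
    intro a b h1 h2 γ
    have hre : (a.1.2 + n * (2 * Real.pi * Complex.I)).re = a.1.2.re := by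
      simp
    let c : t3K z₀ r ε := ⟨(a.1.1, a.1.2 + n * (2 * Real.pi * Complex.I)), a.2.1, by
      rw [hre]
      exact a.2.2⟩
    let γ₁ : Path a c := PathConnectedSpace.somePath a c
    let γ₂ : Path c b := PathConnectedSpace.somePath c b
    rw [PF.val_eq_of_simplyConnected _ γ (γ₁.trans γ₂), PF.trans, ih a c rfl rfl γ₁, mul_one]
    apply t3_step g i z₀ r ε hε hsep Φ hk c b h1
    show b.1.2 = a.1.2 + n * (2 * Real.pi * Complex.I) + 2 * Real.pi * Complex.I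
    rw [h2]
    push_cast
    ring

/-- Loops in the punctured tube are killed if the meridians are.
Proof: lift w t - g i (z t) through exp (`Complex.isCoveringMap_exp`): p = Theta ∘ q with q a path
in the convex set K = (ball z₀ r) × {Re s < log ε} from (z, s) to (z, s + 2 pi i k), k an integer;
Φ.comap Theta depends only on end points (K is simply connected); the straight path from (z, s)
to (z, s + 2 pi i) is mapped to the meridian `mer g i z (exp s)`; induction on k. -/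
theorem tube_kill (g : ι → C(E, ℂ)) (i : ι) (z₀ : E) (r ε : ℝ) (hr : 0 < r) (hε : 0 < ε)
    (hsep : ∀ z, ‖z - z₀‖ < r → ∀ j, j ≠ i → ε ≤ ‖g i z - g j z‖)
    {H : Type} [Group H] (Φ : PF (XX g) H) (hk : Kills Φ) (x : XX g) (p : Path x x)
    (hp : ∀ t, (p t).1 ∈ tube g i z₀ r ε) : Φ.val p = 1 := by
  have hne : ∀ t, (p t).1.2 - g i (p t).1.1 ≠ 0 := fun t => sub_ne_zero.2 ((p t).2 i)
  let c : C(I, {z : ℂ // z ≠ 0}) :=
    ⟨fun t => ⟨(p t).1.2 - g i (p t).1.1, hne t⟩, by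
      apply Continuous.subtype_mk
      fun_prop⟩
  have h0 : c 0 = ⟨_, Complex.exp_ne_zero (Complex.log (x.1.2 - g i x.1.1))⟩ := by
    apply Subtype.ext
    show (p 0).1.2 - g i (p 0).1.1 = Complex.exp (Complex.log (x.1.2 - g i x.1.1))
    rw [p.source, Complex.exp_log (sub_ne_zero.2 (x.2 i))]
  let Γ : C(I, ℂ) := Complex.isCoveringMap_exp.liftPath c _ h0
  have hΓ : ∀ t, Complex.exp (Γ t) = (p t).1.2 - g i (p t).1.1 := by
    intro t
    have h := congrFun (Complex.isCoveringMap_exp.liftPath_lifts c _ h0) t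
    exact congrArg Subtype.val h
  have hmem : ∀ t, (((p t).1.1, Γ t) : E × ℂ) ∈ t3K z₀ r ε := fun t =>
    ⟨(hp t).1, t3_log_lt (hΓ t) (hp t).2⟩
  have : ContractibleSpace (t3K z₀ r ε) :=
    (t3K_convex z₀ r ε).contractibleSpace ⟨_, hmem 0⟩
  let Q : Path (⟨_, hmem 0⟩ : t3K z₀ r ε) ⟨_, hmem 1⟩ :=
    { toFun := fun t => ⟨_, hmem t⟩
      continuous_toFun := by
        apply Continuous.subtype_mk
        fun_prop
      source' := rfl
      target' := rfl }
  have hth : ∀ t, t3Theta g i z₀ r ε hε hsep ⟨_, hmem t⟩ = p t := by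
    intro t
    apply Subtype.ext
    show ((p t).1.1, g i (p t).1.1 + Complex.exp (Γ t)) = (p t).1
    rw [hΓ]
    ext <;> simp
  have hs : x = t3Theta g i z₀ r ε hε hsep ⟨_, hmem 0⟩ := by
    rw [hth 0, p.source]
  have ht : x = t3Theta g i z₀ r ε hε hsep ⟨_, hmem 1⟩ := by
    rw [hth 1, p.target]
  have hpQ : p = (Q.map (t3Theta g i z₀ r ε hε hsep).continuous).cast hs ht := by
    apply Path.ext
    funext t
    exact (hth t).symm
  rw [hpQ, PF.val_cast]
  show (Φ.comap (t3Theta g i z₀ r ε hε hsep)).val Q = 1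
  have hexp : Complex.exp (Γ 1) = Complex.exp (Γ 0) := by
    rw [hΓ, hΓ, p.source, p.target]
  obtain ⟨k, hk1⟩ := Complex.exp_eq_exp_iff_exists_int.1 hexp
  have hz : (p 1).1.1 = (p 0).1.1 := by rw [p.source, p.target]
  rcases Int.eq_nat_or_neg k with ⟨n, hn | hn⟩
  · apply t3_iter g i z₀ r ε hε hsep Φ hk n _ _ hz
    show Γ 1 = Γ 0 + n * (2 * Real.pi * Complex.I)
    rw [hk1, hn]
    push_cast
    ring
  · have h3 : (Φ.comap (t3Theta g i z₀ r ε hε hsep)).val Q.symm = 1 := by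
      apply t3_iter g i z₀ r ε hε hsep Φ hk n _ _ hz.symm
      show Γ 0 = Γ 1 + n * (2 * Real.pi * Complex.I)
      rw [hk1, hn]
      push_cast
      ring
    rw [PF.val_symm] at h3
    exact inv_eq_one.1 h3

end H13K
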