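import Pool.Agent.Lib.H13K.Defs
import Pool.Agent.Lib.H13K.T3

set_option autoImplicit false

open scoped unitInterval

namespace H13K

/-- The inclusion of the complement of the graphs into the complement of the crossings. -/
def inclXY {E : Type} [NormedAddCommGroup E] [NormedSpace ℝ E] {ι : Type} (g : ι → C(E, ℂ)) :
    C(XX g, YY g) where
  toFun x := ⟨x.1, fun i _ _ h => x.2 i h.1⟩
  continuous_toFun := by
    apply Continuous.subtype_mk
    fun_prop

/-- The continuous functions given by polynomials. -/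
noncomputable def pg {n : ℕ} {ι : Type} (P : ι → MvPolynomial (Fin n) ℂ) :
    ι → C(Fin n → ℂ, ℂ) :=
  fun i => ⟨fun z => MvPolynomial.eval z (P i), MvPolynomial.continuous_eval (P i)⟩

/-- Two different graphs meet. -/
def Adj {n : ℕ} {ι : Type} (P : ι → MvPolynomial (Fin n) ℂ) (i j : ι) : Prop :=
  i ≠ j ∧ ∃ z, MvPolynomial.eval z (P i) = MvPolynomial.eval z (P j)

/-- Quasi-projective groups (fundamental groups of smooth complex affine varieties; word for word
the condition of the frozen statement). -/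
def IsQP (G : Type) [Group G] : Prop :=
  ∃ (n : ℕ) (S : Set (Fin n → ℂ)),
    (∃ P : Set (MvPolynomial (Fin n) ℂ),
        S = {z : Fin n → ℂ | ∀ f ∈ P, MvPolynomial.eval z f = 0}) ∧
    (∀ p ∈ S, ∃ (m : ℕ) (g : (Fin n → ℂ) → (Fin m → ℂ)) (U : Set (Fin n → ℂ)),
        IsOpen U ∧ p ∈ U ∧ DifferentiableOn ℂ g U ∧
        Function.Surjective (fderiv ℂ g p) ∧
        ∀ z ∈ U, (z ∈ S ↔ g z = 0)) ∧
    ∃ x : S, Nonempty (FundamentalGroup S x ≃* G)

end H13K
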