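import Pool.Agent.Lib.H13K.Defs

set_option autoImplicit false

open scoped unitInterval

namespace H13K

section general

variable {E : Type} [NormedAddCommGroup E] [NormedSpace ℝ E]

/-- The convex parameter set of the tube. -/
private def k9K (z₀ : E) (r ε : ℝ) : Set (E × ℂ) :=
  {q | ‖q.1 - z₀‖ < r ∧ q.2.re < Real.log ε}

private theorem k9K_convex (z₀ : E) (r ε : ℝ) : Convex ℝ (k9K z₀ r ε) := by
  have h1 : k9K z₀ r ε = Metric.ball z₀ r ×ˢ {s : ℂ | s.re < Real.log ε} := by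
    ext q
    simp [k9K, dist_eq_norm]
  rw [h1]
  exact (convex_ball z₀ r).prod (convex_halfSpace_re_lt _)

private theorem k9_exp_lt {ε : ℝ} (hε : 0 < ε) {s : ℂ} (h : s.re < Real.log ε) :
    ‖Complex.exp s‖ < ε := by
  rw [Complex.norm_exp]
  exact (Real.lt_log_iff_exp_lt hε).1 h

private theorem k9_log_lt {ε : ℝ} {s c : ℂ} (hs : Complex.exp s = c) (h : ‖c‖ < ε) :
    s.re < Real.log ε := by
  have h1 : 0 < ‖c‖ := by
    rw [← hs]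
    exact norm_pos_iff.2 (Complex.exp_ne_zero s)
  rw [Real.lt_log_iff_exp_lt (lt_trans h1 h), ← Complex.norm_exp, hs]
  exact h

private theorem k9_cont {h : E → ℂ} {z₀ : E} {ρ : ℝ} (hc : ContinuousOn h (Metric.ball z₀ ρ))
    {Y : Type} [TopologicalSpace Y] {f : Y → E} (hf : Continuous f) (hm : ∀ y, ‖f y - z₀‖ < ρ) :
    Continuous fun y => h (f y) :=
  hc.comp_continuous hf fun y => by
    rw [Metric.mem_ball, dist_eq_norm]
    exact hm y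

/-- The parametrisation. -/
private noncomputable def k9Theta (S : Set (E × ℂ)) (h : E → ℂ) (z₀ : E) (ρ ε : ℝ) (hε : 0 < ε)
    (hc : ContinuousOn h (Metric.ball z₀ ρ))
    (hS : ∀ z, ‖z - z₀‖ < ρ → ∀ b : ℂ, b ≠ 0 → ‖b‖ < ε → (z, h z + b) ∈ S) :
    C(k9K z₀ ρ ε, S) where
  toFun q := ⟨(q.1.1, h q.1.1 + Complex.exp q.1.2),
    hS q.1.1 q.2.1 _ (Complex.exp_ne_zero _) (k9_exp_lt hε q.2.2)⟩
  continuous_toFun := by
    apply Continuous.subtype_mk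
    have h1 : Continuous fun q : k9K z₀ ρ ε => q.1.1 := by fun_prop
    have h2 : Continuous fun q : k9K z₀ ρ ε => h q.1.1 := k9_cont hc h1 fun q => q.2.1
    have h3 : Continuous fun q : k9K z₀ ρ ε => Complex.exp q.1.2 := by fun_prop
    exact h1.prodMk (h2.add h3)

private theorem k9_ne {S : Set (E × ℂ)} {h : E → ℂ} {z₀ : E} {ρ : ℝ}
    (hS0 : ∀ z, ‖z - z₀‖ < ρ → (z, h z) ∉ S) (x : S) (hx : ‖x.1.1 - z₀‖ < ρ) : x.1.2 - h x.1.1 ≠ 0 := by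
  intro h0
  apply hS0 x.1.1 hx
  have h1 : (x.1.1, h x.1.1) = x.1 := by
    ext
    · rfl
    · exact (sub_eq_zero.1 h0).symm
  rw [h1]
  exact x.2

private theorem k9_pt (S : Set (E × ℂ)) (h : E → ℂ) (z₀ : E) (ρ ε : ℝ) (hε : 0 < ε)
    (hc : ContinuousOn h (Metric.ball z₀ ρ))
    (hS : ∀ z, ‖z - z₀‖ < ρ → ∀ b : ℂ, b ≠ 0 → ‖b‖ < ε → (z, h z + b) ∈ S)
    (hS0 : ∀ z, ‖z - z₀‖ < ρ → (z, h z) ∉ S) (x : S)
    (hx1 : ‖x.1.1 - z₀‖ < ρ) (hx2 : ‖x.1.2 - h x.1.1‖ < ε) :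
    ∃ q : k9K z₀ ρ ε, k9Theta S h z₀ ρ ε hε hc hS q = x := by
  have he : Complex.exp (Complex.log (x.1.2 - h x.1.1)) = x.1.2 - h x.1.1 :=
    Complex.exp_log (k9_ne hS0 x hx1)
  refine ⟨⟨(x.1.1, Complex.log (x.1.2 - h x.1.1)), hx1, k9_log_lt he hx2⟩, ?_⟩
  apply Subtype.ext
  show (x.1.1, h x.1.1 + Complex.exp (Complex.log (x.1.2 - h x.1.1))) = x.1
  rw [he]
  ext <;> simp

private theorem k9_pc (S : Set (E × ℂ)) (h : E → ℂ) (z₀ : E) (ρ ε : ℝ) (hε : 0 < ε)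
    (hc : ContinuousOn h (Metric.ball z₀ ρ))
    (hS : ∀ z, ‖z - z₀‖ < ρ → ∀ b : ℂ, b ≠ 0 → ‖b‖ < ε → (z, h z + b) ∈ S)
    (hS0 : ∀ z, ‖z - z₀‖ < ρ → (z, h z) ∉ S) (x x' : S)
    (hx : ‖x.1.1 - z₀‖ < ρ ∧ ‖x.1.2 - h x.1.1‖ < ε) (hx' : ‖x'.1.1 - z₀‖ < ρ ∧ ‖x'.1.2 - h x'.1.1‖ < ε) :
    ∃ p : Path x x', ∀ t, ‖(p t).1.1 - z₀‖ < ρ ∧ ‖(p t).1.2 - h (p t).1.1‖ < ε := by
  obtain ⟨q, hq⟩ := k9_pt S h z₀ ρ ε hε hc hS hS0 x hx.1 hx.2
  obtain ⟨q', hq'⟩ := k9_pt S h z₀ ρ ε hε hc hS hS0 x' hx'.1 hx'.2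
  have : ContractibleSpace (k9K z₀ ρ ε) := (k9K_convex z₀ ρ ε).contractibleSpace ⟨q.1, q.2⟩
  let γ : Path q q' := PathConnectedSpace.somePath q q'
  refine ⟨(γ.map (k9Theta S h z₀ ρ ε hε hc hS).continuous).cast hq.symm hq'.symm, ?_⟩
  intro t
  refine ⟨(γ t).2.1, ?_⟩
  show ‖h (γ t).1.1 + Complex.exp (γ t).1.2 - h (γ t).1.1‖ < ε
  rw [add_sub_cancel_left]
  exact k9_exp_lt hε (γ t).2.2

private theorem k9_step (S : Set (E × ℂ)) (h : E → ℂ) (z₀ : E) (ρ ε : ℝ) (hε : 0 < ε)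
    (hc : ContinuousOn h (Metric.ball z₀ ρ))
    (hS : ∀ z, ‖z - z₀‖ < ρ → ∀ b : ℂ, b ≠ 0 → ‖b‖ < ε → (z, h z + b) ∈ S)
    {H : Type} [Group H] (Φ : PF S H)
    (hk : ∀ (z : E) (a : ℂ), ‖z - z₀‖ < ρ → a ≠ 0 → ‖a‖ < ε → ∀ (x : S) (p : Path x x),
      (∀ t : I, (p t).1 = (z, h z + a * Complex.exp (2 * Real.pi * (t : ℝ) * Complex.I))) →
        Φ.val p = 1)
    [SimplyConnectedSpace (k9K z₀ ρ ε)] (a b : k9K z₀ ρ ε) (h1 : b.1.1 = a.1.1)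
    (h2 : b.1.2 = a.1.2 + 2 * Real.pi * Complex.I) (γ : Path a b) :
    (Φ.comap (k9Theta S h z₀ ρ ε hε hc hS)).val γ = 1 := by
  have hre : ∀ t : I, (a.1.2 + 2 * Real.pi * (t : ℝ) * Complex.I).re = a.1.2.re := by
    intro t
    simp
  let δ : Path a b :=
    { toFun := fun t => ⟨(a.1.1, a.1.2 + 2 * Real.pi * (t : ℝ) * Complex.I), a.2.1, by
        rw [hre]
        exact a.2.2⟩
      continuous_toFun := by
        apply Continuous.subtype_mk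
        fun_prop
      source' := by
        apply Subtype.ext
        ext <;> simp
      target' := by
        apply Subtype.ext
        refine Prod.ext h1.symm ?_
        simp only [Set.Icc.coe_one, Complex.ofReal_one, mul_one]
        exact h2.symm }
  rw [PF.val_eq_of_simplyConnected _ γ δ]
  have ht : k9Theta S h z₀ ρ ε hε hc hS a = k9Theta S h z₀ ρ ε hε hc hS b := by
    apply Subtype.ext
    show (a.1.1, h a.1.1 + Complex.exp a.1.2) = (b.1.1, h b.1.1 + Complex.exp b.1.2)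
    rw [h1, h2, Complex.exp_add, Complex.exp_two_pi_mul_I, mul_one]
  have hv := hk a.1.1 (Complex.exp a.1.2) a.2.1 (Complex.exp_ne_zero _) (k9_exp_lt hε a.2.2)
    (k9Theta S h z₀ ρ ε hε hc hS a)
    ((δ.map (k9Theta S h z₀ ρ ε hε hc hS).continuous).cast rfl ht) (by
      intro t
      show (a.1.1, h a.1.1 + Complex.exp (a.1.2 + 2 * Real.pi * (t : ℝ) * Complex.I)) =
        (a.1.1, h a.1.1 + Complex.exp a.1.2 * Complex.exp (2 * Real.pi * (t : ℝ) * Complex.I))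
      rw [Complex.exp_add])
  rw [PF.val_cast] at hv
  exact hv

private theorem k9_iter (S : Set (E × ℂ)) (h : E → ℂ) (z₀ : E) (ρ ε : ℝ) (hε : 0 < ε)
    (hc : ContinuousOn h (Metric.ball z₀ ρ))
    (hS : ∀ z, ‖z - z₀‖ < ρ → ∀ b : ℂ, b ≠ 0 → ‖b‖ < ε → (z, h z + b) ∈ S)
    {H : Type} [Group H] (Φ : PF S H)
    (hk : ∀ (z : E) (a : ℂ), ‖z - z₀‖ < ρ → a ≠ 0 → ‖a‖ < ε → ∀ (x : S) (p : Path x x),
      (∀ t : I, (p t).1 = (z, h z + a * Complex.exp (2 * Real.pi * (t : ℝ) * Complex.I))) →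
        Φ.val p = 1)
    [SimplyConnectedSpace (k9K z₀ ρ ε)] (n : ℕ) : ∀ (a b : k9K z₀ ρ ε), b.1.1 = a.1.1 →
    b.1.2 = a.1.2 + n * (2 * Real.pi * Complex.I) → ∀ γ : Path a b,
    (Φ.comap (k9Theta S h z₀ ρ ε hε hc hS)).val γ = 1 := by
  induction n with
  | zero =>
    intro a b h1 h2 γ
    have hab : b = a := by
      apply Subtype.ext
      refine Prod.ext h1 ?_
      rw [h2]
      simp
    subst hab
    rw [PF.val_eq_of_simplyConnected _ γ (Path.refl b), PF.val_refl]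
  | succ n ih =>
    intro a b h1 h2 γ
    have hre : (a.1.2 + n * (2 * Real.pi * Complex.I)).re = a.1.2.re := by
      simp
    let c : k9K z₀ ρ ε := ⟨(a.1.1, a.1.2 + n * (2 * Real.pi * Complex.I)), a.2.1, by
      rw [hre]
      exact a.2.2⟩
    let γ₁ : Path a c := PathConnectedSpace.somePath a c
    let γ₂ : Path c b := PathConnectedSpace.somePath c b
    rw [PF.val_eq_of_simplyConnected _ γ (γ₁.trans γ₂), PF.trans, ih a c rfl rfl γ₁, mul_one]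
    apply k9_step S h z₀ ρ ε hε hc hS Φ hk c b h1
    show b.1.2 = a.1.2 + n * (2 * Real.pi * Complex.I) + 2 * Real.pi * Complex.I
    rw [h2]
    push_cast
    ring

private theorem k9_kill (S : Set (E × ℂ)) (h : E → ℂ) (z₀ : E) (ρ ε : ℝ) (hε : 0 < ε)
    (hc : ContinuousOn h (Metric.ball z₀ ρ))
    (hS : ∀ z, ‖z - z₀‖ < ρ → ∀ b : ℂ, b ≠ 0 → ‖b‖ < ε → (z, h z + b) ∈ S)
    (hS0 : ∀ z, ‖z - z₀‖ < ρ → (z, h z) ∉ S)
    {H : Type} [Group H] (Φ : PF S H)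
    (hk : ∀ (z : E) (a : ℂ), ‖z - z₀‖ < ρ → a ≠ 0 → ‖a‖ < ε → ∀ (x : S) (p : Path x x),
      (∀ t : I, (p t).1 = (z, h z + a * Complex.exp (2 * Real.pi * (t : ℝ) * Complex.I))) →
        Φ.val p = 1)
    (x : S) (p : Path x x) (hp : ∀ t, ‖(p t).1.1 - z₀‖ < ρ ∧ ‖(p t).1.2 - h (p t).1.1‖ < ε) :
    Φ.val p = 1 := by
  have hne : ∀ t, (p t).1.2 - h (p t).1.1 ≠ 0 := fun t => k9_ne hS0 (p t) (hp t).1
  have hcont : Continuous fun t => h (p t).1.1 := by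
    have h1 : Continuous fun t => (p t).1.1 := by fun_prop
    exact k9_cont hc h1 fun t => (hp t).1
  let c : C(I, {z : ℂ // z ≠ 0}) :=
    ⟨fun t => ⟨(p t).1.2 - h (p t).1.1, hne t⟩, by
      apply Continuous.subtype_mk
      have h1 : Continuous fun t => (p t).1.2 := by fun_prop
      exact h1.sub hcont⟩
  have hx0 : x.1.2 - h x.1.1 ≠ 0 := by
    have := hne 0
    rwa [p.source] at this
  have h0 : c 0 = ⟨_, Complex.exp_ne_zero (Complex.log (x.1.2 - h x.1.1))⟩ := by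
    apply Subtype.ext
    show (p 0).1.2 - h (p 0).1.1 = Complex.exp (Complex.log (x.1.2 - h x.1.1))
    rw [p.source, Complex.exp_log hx0]
  let Γ : C(I, ℂ) := Complex.isCoveringMap_exp.liftPath c _ h0
  have hΓ : ∀ t, Complex.exp (Γ t) = (p t).1.2 - h (p t).1.1 := by
    intro t
    have h := congrFun (Complex.isCoveringMap_exp.liftPath_lifts c _ h0) t
    exact congrArg Subtype.val h
  have hmem : ∀ t, (((p t).1.1, Γ t) : E × ℂ) ∈ k9K z₀ ρ ε := fun t =>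
    ⟨(hp t).1, k9_log_lt (hΓ t) (hp t).2⟩
  have : ContractibleSpace (k9K z₀ ρ ε) :=
    (k9K_convex z₀ ρ ε).contractibleSpace ⟨_, hmem 0⟩
  let Q : Path (⟨_, hmem 0⟩ : k9K z₀ ρ ε) ⟨_, hmem 1⟩ :=
    { toFun := fun t => ⟨_, hmem t⟩
      continuous_toFun := by
        apply Continuous.subtype_mk
        fun_prop
      source' := rfl
      target' := rfl }
  have hth : ∀ t, k9Theta S h z₀ ρ ε hε hc hS ⟨_, hmem t⟩ = p t := by
    intro t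
    apply Subtype.ext
    show ((p t).1.1, h (p t).1.1 + Complex.exp (Γ t)) = (p t).1
    rw [hΓ]
    ext <;> simp
  have hs : x = k9Theta S h z₀ ρ ε hε hc hS ⟨_, hmem 0⟩ := by
    rw [hth 0, p.source]
  have ht : x = k9Theta S h z₀ ρ ε hε hc hS ⟨_, hmem 1⟩ := by
    rw [hth 1, p.target]
  have hpQ : p = (Q.map (k9Theta S h z₀ ρ ε hε hc hS).continuous).cast hs ht := by
    apply Path.ext
    funext t
    exact (hth t).symm
  rw [hpQ, PF.val_cast]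
  show (Φ.comap (k9Theta S h z₀ ρ ε hε hc hS)).val Q = 1
  have hexp : Complex.exp (Γ 1) = Complex.exp (Γ 0) := by
    rw [hΓ, hΓ, p.source, p.target]
  obtain ⟨k, hk1⟩ := Complex.exp_eq_exp_iff_exists_int.1 hexp
  have hz : (p 1).1.1 = (p 0).1.1 := by rw [p.source, p.target]
  rcases Int.eq_nat_or_neg k with ⟨n, hn | hn⟩
  · apply k9_iter S h z₀ ρ ε hε hc hS Φ hk n _ _ hz
    show Γ 1 = Γ 0 + n * (2 * Real.pi * Complex.I)
    rw [hk1, hn]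
    push_cast
    ring
  · have h3 : (Φ.comap (k9Theta S h z₀ ρ ε hε hc hS)).val Q.symm = 1 := by
      apply k9_iter S h z₀ ρ ε hε hc hS Φ hk n _ _ hz.symm
      show Γ 0 = Γ 1 + n * (2 * Real.pi * Complex.I)
      rw [hk1, hn]
      push_cast
      ring
    rw [PF.val_symm] at h3
    exact inv_eq_one.1 h3

end general

/-- A local tube around the graph of h. -/
def ltube (h : ℂ → ℂ) (z₀ : ℂ) (ρ ε : ℝ) : Set (ℂ × ℂ) :=
  {p | ‖p.1 - z₀‖ < ρ ∧ ‖p.2 - h p.1‖ < ε}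

/-- Local version of `tube_pc` (T3.lean): the set S contains the punctured tube and no point of the
graph. -/
theorem ltube_pc (S : Set (ℂ × ℂ)) (h : ℂ → ℂ) (z₀ : ℂ) (ρ ε : ℝ) (hρ : 0 < ρ) (hε : 0 < ε)
    (hc : ContinuousOn h (Metric.ball z₀ ρ))
    (hS : ∀ z, ‖z - z₀‖ < ρ → ∀ b, b ≠ 0 → ‖b‖ < ε → (z, h z + b) ∈ S)
    (hS0 : ∀ z, ‖z - z₀‖ < ρ → (z, h z) ∉ S) (x x' : S)
    (hx : x.1 ∈ ltube h z₀ ρ ε) (hx' : x'.1 ∈ ltube h z₀ ρ ε) :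
    ∃ p : Path x x', ∀ t, (p t).1 ∈ ltube h z₀ ρ ε := 
  k9_pc S h z₀ ρ ε hε hc hS hS0 x x' hx hx'

/-- Local version of `tube_kill` (T3.lean); the hypothesis hk: all circles around points of the graph
inside the tube are killed. -/
theorem ltube_kill (S : Set (ℂ × ℂ)) (h : ℂ → ℂ) (z₀ : ℂ) (ρ ε : ℝ) (hρ : 0 < ρ) (hε : 0 < ε)
    (hc : ContinuousOn h (Metric.ball z₀ ρ))
    (hS : ∀ z, ‖z - z₀‖ < ρ → ∀ b, b ≠ 0 → ‖b‖ < ε → (z, h z + b) ∈ S)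
    (hS0 : ∀ z, ‖z - z₀‖ < ρ → (z, h z) ∉ S)
    {H : Type} [Group H] (Φ : PF S H)
    (hk : ∀ z a, ‖z - z₀‖ < ρ → a ≠ 0 → ‖a‖ < ε → ∀ (x : S) (p : Path x x),
      (∀ t : I, (p t).1 = (z, h z + a * Complex.exp (2 * Real.pi * (t : ℝ) * Complex.I))) →
        Φ.val p = 1)
    (x : S) (p : Path x x) (hp : ∀ t, (p t).1 ∈ ltube h z₀ ρ ε) : Φ.val p = 1 := 
  k9_kill S h z₀ ρ ε hε hc hS hS0 Φ hk x p hp

end H13K
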