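import Pool.Agent.Lib.H13K.KD
import Pool.Agent.Lib.H13K.T1b
import Pool.Agent.Lib.H13K.K3
import Pool.Agent.Lib.H13K.K9

set_option autoImplicit false

open scoped unitInterval Polynomial

namespace H13K

private theorem k10_cont (p : ℂ[X][X]) : Continuous (fun q : ℂ × ℂ => p.evalEval q.1 q.2) := by
  have h : (fun q : ℂ × ℂ => p.evalEval q.1 q.2) =
      fun q : ℂ × ℂ => ∑ i ∈ p.support, (p.coeff i).eval q.1 * q.2 ^ i := by
    funext q
    rw [← Polynomial.eval₂_evalRingHom, Polynomial.eval₂_eq_sum, Polynomial.sum_def]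
    rfl
  rw [h]
  exact continuous_finsetSum _ fun i _ =>
    ((p.coeff i).continuous.comp continuous_fst).mul (continuous_snd.pow i)

/-- The family of the small open sets of `CY P r`. -/
private def k10U {ι : Type} (P : ι → ℂ[X][X]) (r : ℂ[X]) : Set (Set (CY P r)) :=
  {u | (∃ (c : ℂ × ℂ) (s : ℝ), 0 < s ∧ Metric.ball c s ⊆ CX P ∧
      u = (Subtype.val : CY P r → ℂ × ℂ) ⁻¹' Metric.ball c s) ∨
    ∃ (i : ι) (h : ℂ → ℂ) (z₀ : ℂ) (ρ ε : ℝ), 0 < ρ ∧ 0 < ε ∧
      ContinuousOn h (Metric.ball z₀ ρ) ∧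
      (∀ z, ‖z - z₀‖ < ρ → r.eval z ≠ 0 ∧ (P i).evalEval z (h z) = 0) ∧
      (∀ z, ‖z - z₀‖ < ρ → ∀ b, b ≠ 0 → ‖b‖ < ε → (z, h z + b) ∈ CX P) ∧
      u = (Subtype.val : CY P r → ℂ × ℂ) ⁻¹' ltube h z₀ ρ ε}

private theorem k10_open_tube (h : ℂ → ℂ) (z₀ : ℂ) (ρ ε : ℝ)
    (hc : ContinuousOn h (Metric.ball z₀ ρ)) : IsOpen (ltube h z₀ ρ ε) := by
  have h1 : IsOpen {p : ℂ × ℂ | p.1 ∈ Metric.ball z₀ ρ} := Metric.isOpen_ball.preimage continuous_fst
  have h2 : ContinuousOn (fun p : ℂ × ℂ => ‖p.2 - h p.1‖) {p : ℂ × ℂ | p.1 ∈ Metric.ball z₀ ρ} :=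
    (continuousOn_snd.sub (hc.comp continuousOn_fst fun p hp => hp)).norm
  have h3 := h2.isOpen_inter_preimage h1 (isOpen_Iio (a := ε))
  have h4 : ltube h z₀ ρ ε =
      {p : ℂ × ℂ | p.1 ∈ Metric.ball z₀ ρ} ∩ (fun p : ℂ × ℂ => ‖p.2 - h p.1‖) ⁻¹' Set.Iio ε := by
    ext p
    simp [ltube, dist_eq_norm]
  rw [h4]
  exact h3

private theorem k10_open_CX {ι : Type} [Finite ι] (P : ι → ℂ[X][X]) : IsOpen (CX P) := by
  have h : CX P = ⋂ i, {p : ℂ × ℂ | (P i).evalEval p.1 p.2 ≠ 0} := by
    ext p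
    simp [CX]
  rw [h]
  exact isOpen_iInter_of_finite fun i => isOpen_ne_fun (k10_cont (P i)) continuous_const

private theorem k10_basis {ι : Type} [Finite ι] (P : ι → ℂ[X][X]) (hm : ∀ i, (P i).Monic)
    (r : ℂ[X]) (hr : Disc P r) (y : CY P r) (o : Set (CY P r)) (ho : IsOpen o)
    (hy : y ∈ o) : ∃ u ∈ k10U P r, y ∈ u ∧ u ⊆ o := by
  obtain ⟨O, hO, rfl⟩ := isOpen_induced_iff.1 ho
  have hyO : y.1 ∈ O := hy
  by_cases hX : y.1 ∈ CX P
  · obtain ⟨s, hs, hb⟩ := Metric.isOpen_iff.1 (hO.inter (k10_open_CX P)) y.1 ⟨hyO, hX⟩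
    exact ⟨_, Or.inl ⟨y.1, s, hs, fun p hp => (hb hp).2, rfl⟩, Metric.mem_ball_self hs,
      fun p hp => (hb hp).1⟩
  · have hX' : ∃ i, (P i).evalEval y.1.1 y.1.2 = 0 := by
      by_contra h
      push Not at h
      exact hX h
    obtain ⟨i, hi⟩ := hX'
    have hry : r.eval y.1.1 ≠ 0 := by
      rcases y.2 with h | h
      · exact absurd h hX
      · exact h
    obtain ⟨ρ₀, hρ₀, h, hd, hinj, hprod⟩ := local_roots (P i) (hm i) y.1.1
      (fun w hw => hr.simple i y.1.1 w hry hw)
    have hz0 : y.1.1 ∈ Metric.ball y.1.1 ρ₀ := Metric.mem_ball_self hρ₀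
    have hev : ∀ z ∈ Metric.ball y.1.1 ρ₀, ∀ w, (P i).evalEval z w = ∏ a, (w - h a z) := by
      intro z hz w
      rw [← Polynomial.map_evalRingHom_eval, hprod z hz, Polynomial.eval_prod]
      simp
    have h0 := hev y.1.1 hz0 y.1.2
    rw [hi] at h0
    obtain ⟨a, -, ha⟩ := Finset.prod_eq_zero_iff.1 h0.symm
    have ha' : h a y.1.1 = y.1.2 := (sub_eq_zero.1 ha).symm
    have hcont : ∀ a', ContinuousOn (h a') (Metric.ball y.1.1 ρ₀) := fun a' => (hd a').continuousOn
    have hcat : ∀ a', ContinuousAt (h a') y.1.1 := fun a' =>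
      (hcont a').continuousAt (Metric.isOpen_ball.mem_nhds hz0)
    have E : ∀ᶠ p in nhds y.1, p ∈ O ∧ p.1 ∈ Metric.ball y.1.1 ρ₀ ∧ r.eval p.1 ≠ 0 ∧
        (∀ j, j ≠ i → (P j).evalEval p.1 p.2 ≠ 0) ∧ ∀ a', a' ≠ a → p.2 ≠ h a' p.1 := by
      refine Filter.Eventually.and (hO.mem_nhds hyO) (Filter.Eventually.and ?_
        (Filter.Eventually.and ?_ (Filter.Eventually.and ?_ ?_)))
      · exact continuous_fst.continuousAt.eventually (Metric.isOpen_ball.mem_nhds hz0)
      · exact (r.continuous.comp continuous_fst).continuousAt.eventually_ne hry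
      · rw [Filter.eventually_all]
        intro j
        by_cases hj : j = i
        · exact Filter.Eventually.of_forall fun p h => absurd hj h
        · exact ((k10_cont (P j)).continuousAt.eventually_ne
            (hr.disj i j y.1.1 y.1.2 (Ne.symm hj) hry hi)).mono fun p hp _ => hp
      · rw [Filter.eventually_all]
        intro a'
        by_cases haa : a' = a
        · exact Filter.Eventually.of_forall fun p h => absurd haa h
        · have hne : y.1.2 - h a' y.1.1 ≠ 0 := by
            rw [← ha', sub_ne_zero]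
            intro hh
            exact haa (hinj y.1.1 hz0 hh).symm
          have hc1 : ContinuousAt (fun p : ℂ × ℂ => p.2 - h a' p.1) y.1 :=
            continuousAt_snd.sub (ContinuousAt.comp (f := Prod.fst) (g := h a') (x := y.1)
              (hcat a') continuousAt_fst)
          exact (hc1.eventually_ne hne).mono fun p hp _ hp2 => hp (sub_eq_zero.2 hp2)
    obtain ⟨δ, hδ, hball⟩ := Metric.eventually_nhds_iff.1 E
    obtain ⟨ρ₁, hρ₁, hb1⟩ := Metric.continuousAt_iff.1 (hcat a) (δ / 2) (half_pos hδ)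
    have hρ : 0 < min ρ₁ δ := lt_min hρ₁ hδ
    have key : ∀ z, ‖z - y.1.1‖ < min ρ₁ δ → ∀ w, ‖w - h a z‖ < δ / 2 →
        (z, w) ∈ O ∧ z ∈ Metric.ball y.1.1 ρ₀ ∧ r.eval z ≠ 0 ∧
        (∀ j, j ≠ i → (P j).evalEval z w ≠ 0) ∧ ∀ a', a' ≠ a → w ≠ h a' z := by
      intro z hz w hw
      have h1 : dist (h a z) (h a y.1.1) < δ / 2 := hb1 (by
        rw [dist_eq_norm]
        exact hz.trans_le (min_le_left _ _))
      have h2 : dist (z, w) y.1 < δ := by
        rw [Prod.dist_eq, max_lt_iff]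
        constructor
        · rw [dist_eq_norm]
          exact hz.trans_le (min_le_right _ _)
        · calc dist w y.1.2 ≤ dist w (h a z) + dist (h a z) y.1.2 := dist_triangle _ _ _
            _ < δ / 2 + δ / 2 := by
                refine add_lt_add ?_ ?_
                · rw [dist_eq_norm]
                  exact hw
                · rw [← ha']
                  exact h1
            _ = δ := add_halves δ
      exact hball h2
    have hself : ∀ z, ‖z - y.1.1‖ < min ρ₁ δ → z ∈ Metric.ball y.1.1 ρ₀ ∧ r.eval z ≠ 0 := by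
      intro z hz
      have h1 := key z hz (h a z) (by simpa using half_pos hδ)
      exact ⟨h1.2.1, h1.2.2.1⟩
    refine ⟨_, Or.inr ⟨i, h a, y.1.1, min ρ₁ δ, δ / 2, hρ, half_pos hδ, ?_, ?_, ?_, rfl⟩, ?_, ?_⟩
    · refine (hcont a).mono fun z hz => (hself z ?_).1
      exact mem_ball_iff_norm.1 hz
    · intro z hz
      refine ⟨(hself z hz).2, ?_⟩
      rw [hev z (hself z hz).1]
      exact Finset.prod_eq_zero (Finset.mem_univ a) (sub_self _)
    · intro z hz b hb0 hb j
      have hk := key z hz (h a z + b) (by simpa using hb)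
      by_cases hj : j = i
      · subst hj
        show (P j).evalEval z (h a z + b) ≠ 0
        rw [hev z hk.2.1, Finset.prod_ne_zero_iff]
        intro a' _
        by_cases haa : a' = a
        · subst haa
          simpa using hb0
        · exact sub_ne_zero.2 (hk.2.2.2.2 a' haa)
      · exact hk.2.2.2.1 j hj
    · refine ⟨?_, ?_⟩
      · simpa using hρ
      · rw [ha']
        simpa using half_pos hδ
    · rintro p ⟨hp1, hp2⟩
      exact (key p.1.1 hp1 p.1.2 hp2).1

/-- A functional that kills the meridians only depends on the homotopy class in `CY P r`.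
Proof: word for word as `eq_of_homotopic_YY` (T5a.lean): `extend` with j = inclC P r; the family of
all preimages in CY P r of (a) nonempty open convex sets inside CX P, (b) local tubes
ltube (h a) z₀ ρ ε, h a a root function of some P i from `local_roots` around z₀ with r(z₀) ≠ 0, ρ
and ε so small that over the ball r ≠ 0 and (z, h a z + b) is off all curves for 0 < ‖b‖ < ε
(simple root of P i, no root of the others; continuity): `ltube_pc`, `ltube_kill`. -/
theorem eq_of_homotopic_CY {ι : Type} [Finite ι] (P : ι → ℂ[X][X]) (hm : ∀ i, (P i).Monic)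
    (r : ℂ[X]) (hr : Disc P r) {H : Type} [Group H] (Φ : PF (CX P) H) (hk : Kills2 r Φ)
    {x x' : CX P} (p q : Path x x')
    (h : (p.map (inclC P r).continuous).Homotopic (q.map (inclC P r).continuous)) :
    Φ.val p = Φ.val q := by
  refine extend (inclC P r) Φ (k10U P r) ?_ (k10_basis P hm r hr) ?_ ?_ ?_ p q h
  · rintro u (⟨c, s, hs, hc, rfl⟩ | ⟨i, f, z₀, ρ, ε, hρ, hε, hf, hroot, hoff, rfl⟩)
    · exact Metric.isOpen_ball.preimage continuous_subtype_val
    · exact (k10_open_tube f z₀ ρ ε hf).preimage continuous_subtype_val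
  · rintro u (⟨c, s, hs, hc, rfl⟩ | ⟨i, f, z₀, ρ, ε, hρ, hε, hf, hroot, hoff, rfl⟩)
    · exact ⟨⟨c, hc (Metric.mem_ball_self hs)⟩, Metric.mem_ball_self hs⟩
    · have hn : ‖((ε / 2 : ℝ) : ℂ)‖ = ε / 2 := by
        rw [Complex.norm_real, Real.norm_eq_abs, abs_of_pos (half_pos hε)]
      refine ⟨⟨(z₀, f z₀ + ((ε / 2 : ℝ) : ℂ)), hoff z₀ (by simpa using hρ) _ ?_ ?_⟩, ?_, ?_⟩
      · intro h0
        rw [h0, norm_zero] at hn
        linarith
      · rw [hn]
        linarith
      · show ‖z₀ - z₀‖ < ρ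
        simpa using hρ
      · show ‖f z₀ + ((ε / 2 : ℝ) : ℂ) - f z₀‖ < ε
        rw [add_sub_cancel_left, hn]
        linarith
  · rintro u (⟨c, s, hs, hc, rfl⟩ | ⟨i, f, z₀, ρ, ε, hρ, hε, hf, hroot, hoff, rfl⟩) x x' hx hx'
    · have hj : JoinedIn (Metric.ball c s) x.1 x'.1 :=
        ((convex_ball c s).isPathConnected ⟨x.1, hx⟩).joinedIn x.1 hx x'.1 hx'
      refine ⟨⟨⟨fun t => ⟨hj.somePath t, hc (hj.somePath_mem t)⟩,
        Continuous.subtype_mk hj.somePath.continuous _⟩, ?_, ?_⟩, fun t => hj.somePath_mem t⟩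
      · apply Subtype.ext
        simp
      · apply Subtype.ext
        simp
    · exact ltube_pc (CX P) f z₀ ρ ε hρ hε hf hoff
        (fun z hz hmem => hmem i (hroot z hz).2) x x' hx hx'
  · rintro u (⟨c, s, hs, hc, rfl⟩ | ⟨i, f, z₀, ρ, ε, hρ, hε, hf, hroot, hoff, rfl⟩) x p hp
    · have hx : x.1 ∈ Metric.ball c s := by
        have h0 := hp 0
        rw [p.source] at h0
        exact h0
      have : ContractibleSpace (Metric.ball c s) :=
        (convex_ball c s).contractibleSpace ⟨c, Metric.mem_ball_self hs⟩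
      let j : C(Metric.ball c s, CX P) :=
        ⟨fun z => ⟨z.1, hc z.2⟩, Continuous.subtype_mk continuous_subtype_val _⟩
      let p' : Path (⟨x.1, hx⟩ : Metric.ball c s) ⟨x.1, hx⟩ :=
        { toFun := fun t => ⟨(p t).1, hp t⟩
          continuous_toFun := Continuous.subtype_mk (continuous_subtype_val.comp p.continuous) _
          source' := by
            apply Subtype.ext
            simp
          target' := by
            apply Subtype.ext
            simp }
      have h1 : (Φ.comap j).val p' = (Φ.comap j).val (Path.refl _) :=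
        PF.val_eq_of_simplyConnected _ _ _
      rw [PF.val_refl] at h1
      have h2 : Φ.val p = (Φ.comap j).val p' := rfl
      rw [h2, h1]
    · refine ltube_kill (CX P) f z₀ ρ ε hρ hε hf hoff
        (fun z hz hmem => hmem i (hroot z hz).2) Φ ?_ x p hp
      intro z a hz ha0 ha x₁ p₁ hp₁
      have hadm : Adm2 P z (f z) a :=
        ⟨ha0, fun b hb0 hb j => hoff z hz b hb0 (hb.trans_lt ha) j⟩
      have hx₁ : x₁ = mbase2 P z (f z) a hadm := by
        apply Subtype.ext
        have h0 := hp₁ 0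
        rw [p₁.source] at h0
        rw [h0]
        simp [mbase2]
      subst hx₁
      have hpe : p₁ = mer2 P z (f z) a hadm := by
        apply Path.ext
        funext t
        apply Subtype.ext
        exact hp₁ t
      rw [hpe]
      exact hk i z (f z) a hadm (hroot z hz).1 (hroot z hz).2

end H13K
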