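import Pool.Agent.Lib.H13K.K10
import Pool.Agent.Lib.H13K.K11
import Pool.Agent.Lib.H13K.T4

set_option autoImplicit false

open scoped unitInterval Polynomial

namespace H13K

private theorem k12_cast_homotopic {X : Type} [TopologicalSpace X] {x y x' y' : X} {p q : Path x y}
    (hx : x' = x) (hy : y' = y) (h : (p.cast hx hy).Homotopic (q.cast hx hy)) :
    p.Homotopic q := by
  subst hx hy
  exact h

/-- The boundary relation of a square with equal bottom and top. -/
private theorem k12_free {Y : Type} [TopologicalSpace Y] (F : C(I × I, Y)) {a b : Y} (L : Path a a)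
    (R : Path b b) (B : Path a b) (hL : ∀ t, F (0, t) = L t) (hR : ∀ t, F (1, t) = R t)
    (hB : ∀ s, F (s, 0) = B s) (hT : ∀ s, F (s, 1) = B s)
    (hnull : R.Homotopic (Path.refl b)) : L.Homotopic (Path.refl a) := by
  have h00 : F (0, 0) = a := by rw [hL, L.source]
  have h01 : F (0, 1) = a := by rw [hL, L.target]
  have h11 : F (1, 1) = b := by rw [hR, R.target]
  have h10 : F (1, 0) = b := by rw [hR, R.source]
  have hsq := square_homotopic F
  have e1 : (sideL F).trans (sideT F) = (L.trans B).cast h00 h11 := by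
    ext t
    simp only [Path.cast_coe, Path.trans_apply]
    split_ifs with h
    · exact hL _
    · exact hT _
  have e2 : (sideB F).trans (sideR F) = (B.trans R).cast h00 h11 := by
    ext t
    simp only [Path.cast_coe, Path.trans_apply]
    split_ifs with h
    · exact hB _
    · exact hR _
  rw [e1, e2] at hsq
  have h := k12_cast_homotopic _ _ hsq
  -- L ~ (L B) B⁻¹ ~ (B R) B⁻¹ ~ B B⁻¹ ~ refl
  have h1 : (B.trans R).Homotopic B :=
    ((Path.Homotopic.refl B).hcomp hnull).trans ⟨Path.Homotopy.transRefl B⟩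
  have h2 : ((L.trans B).trans B.symm).Homotopic (B.trans B.symm) :=
    (h.trans h1).hcomp (Path.Homotopic.refl _)
  have h3 : (B.trans B.symm).Homotopic (Path.refl a) := ⟨(Path.Homotopy.reflTransSymm B).symm⟩
  have h4 : ((L.trans B).trans B.symm).Homotopic (L.trans (B.trans B.symm)) :=
    ⟨Path.Homotopy.transAssoc L B B.symm⟩
  have h5 : (L.trans (B.trans B.symm)).Homotopic L :=
    ((Path.Homotopic.refl L).hcomp h3).trans ⟨Path.Homotopy.transRefl L⟩
  exact (h5.symm.trans h4.symm).trans (h2.trans h3)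

private theorem k12_val_congr {X : Type} [TopologicalSpace X] {H : Type} [Group H] (Φ : PF X H)
    {x y x' y' : X} (p : Path x y) (q : Path x' y') (h : ∀ t, p t = q t) :
    Φ.val p = Φ.val q := by
  have hx : x = x' := by rw [← p.source, h, q.source]
  have hy : y = y' := by rw [← p.target, h, q.target]
  subst hx hy
  congr 1
  ext t
  exact h t


private theorem k12_cont (p : ℂ[X][X]) : Continuous fun q : ℂ × ℂ => p.evalEval q.1 q.2 := by
  induction p using Polynomial.induction_on' with
  | add p q hp hq =>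
    simp only [Polynomial.evalEval_add]
    exact hp.add hq
  | monomial n a =>
    have h : ∀ q : ℂ × ℂ, (Polynomial.monomial n a).evalEval q.1 q.2 = a.eval q.1 * q.2 ^ n := by
      intro q
      rw [← Polynomial.C_mul_X_pow_eq_monomial, Polynomial.evalEval_mul, Polynomial.evalEval_C,
        Polynomial.evalEval_pow, Polynomial.evalEval_X]
    simp only [h]
    exact (a.continuous.comp continuous_fst).mul (continuous_snd.pow n)

private theorem k12_isOpen {ι : Type} [Finite ι] (P : ι → ℂ[X][X]) : IsOpen (CX P) := by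
  have h : CX P = ⋂ i, {p : ℂ × ℂ | (P i).evalEval p.1 p.2 ≠ 0} := by
    ext p
    simp [CX]
  rw [h]
  exact isOpen_iInter_of_finite fun i => isOpen_ne_fun (k12_cont _) continuous_const

private theorem k12_ball (D : Set ℂ) (hD : D.Countable) (z : ℂ) (r : ℝ) (hr : 0 < r) :
    IsPathConnected (Metric.ball z r \ D) := by
  let e := OpenPartialHomeomorph.univBall z r
  have hs : e.source = Set.univ := OpenPartialHomeomorph.univBall_source z r
  have ht : e.target = Metric.ball z r := OpenPartialHomeomorph.univBall_target z hr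
  have hinj : Function.Injective e := by
    intro x y h
    exact e.injOn (by rw [hs]; trivial) (by rw [hs]; trivial) h
  have hc : (e ⁻¹' D).Countable := hD.preimage hinj
  have h1 : IsPathConnected (e ⁻¹' D)ᶜ := by
    apply hc.isPathConnected_compl_of_one_lt_rank
    rw [Complex.rank_real_complex]
    norm_num
  have h2 := h1.image (OpenPartialHomeomorph.continuous_univBall z r)
  have h3 : e '' (e ⁻¹' D)ᶜ = Metric.ball z r \ D := by
    ext x
    constructor
    · rintro ⟨y, hy, rfl⟩
      refine ⟨?_, hy⟩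
      rw [← ht]
      exact e.map_source (by rw [hs]; trivial)
    · rintro ⟨hx, hxD⟩
      rw [← ht] at hx
      refine ⟨e.symm x, ?_, e.right_inv hx⟩
      rw [Set.mem_compl_iff, Set.mem_preimage, e.right_inv hx]
      exact hxD
  rw [← h3]
  exact h2

/-- A functional that kills all meridians kills all loops.
Proof: word for word as `kills_all` (T5b.lean) with E = ℂ and D = {z | r.eval z = 0} (finite, balls
minus a finite set are path connected), Y = CY P r, and R > all roots of all P i over a compact set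
(`root_bound`). -/
theorem kills_all2 {ι : Type} [Finite ι] (P : ι → ℂ[X][X]) (hm : ∀ i, (P i).Monic) (r : ℂ[X])
    (hr : Disc P r) {H : Type} [Group H] (Φ : PF (CX P) H) (hk : Kills2 r Φ) (x : CX P)
    (p : Path x x) : Φ.val p = 1 := by
  have hD : ∀ (z : ℂ) (ρ : ℝ), 0 < ρ → IsPathConnected (Metric.ball z ρ \ {z : ℂ | r.eval z = 0}) := by
    refine fun z ρ hρ => k12_ball _ ?_ z ρ hρ
    exact ((Polynomial.finite_setOfPred_isRoot hr.ne).subset fun z hz => hz).countable
  -- the components
  let z : C(I, ℂ) := ⟨fun t => (p t).1.1, by fun_prop⟩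
  let w : C(I, ℂ) := ⟨fun t => (p t).1.2, by fun_prop⟩
  have hz01 : z 0 = z 1 := by
    show (p 0).1.1 = (p 1).1.1
    rw [p.source, p.target]
  have hw01 : w 0 = w 1 := by
    show (p 0).1.2 = (p 1).1.2
    rw [p.source, p.target]
  -- the epsilon
  have hcomp : IsCompact (Set.range (fun t : I => ((z t, w t) : ℂ × ℂ))) :=
    isCompact_range (by fun_prop)
  obtain ⟨ε, hε, hthick⟩ := hcomp.exists_thickening_subset_open (k12_isOpen P) (by
    rintro _ ⟨t, rfl⟩
    exact (p t).2)
  have hmem : ∀ (t : I) (v : ℂ), ‖v - z t‖ < ε → ((v, w t) : ℂ × ℂ) ∈ CX P := by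
    intro t v hv
    apply hthick
    rw [Metric.mem_thickening_iff]
    refine ⟨(z t, w t), ⟨t, rfl⟩, ?_⟩
    rw [Prod.dist_eq, dist_self, dist_eq_norm]
    exact max_lt hv hε
  obtain ⟨z', hz'01, hz'⟩ := approx {z : ℂ | r.eval z = 0} hD z hz01 ε hε
  -- first square
  let F : C(I × I, CX P) :=
    ⟨fun a => ⟨(z a.2 + (a.1 : ℝ) • (z' a.2 - z a.2), w a.2), hmem _ _ (by
      rw [add_sub_cancel_left, norm_smul, Real.norm_eq_abs, abs_of_nonneg a.1.2.1]
      exact lt_of_le_of_lt (mul_le_of_le_one_left (norm_nonneg _) a.1.2.2) (hz' a.2).1)⟩, by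
      apply Continuous.subtype_mk
      fun_prop⟩
  have hF : ∀ s t, (F (s, t)).1 = (z t + (s : ℝ) • (z' t - z t), w t) := fun s t => rfl
  have hsq := Φ.square F
  have hTB : Φ.val (sideT F) = Φ.val (sideB F) := by
    apply k12_val_congr
    intro s
    show F (s, 1) = F (s, 0)
    apply Subtype.ext
    rw [hF, hF, hz01, hz'01, hw01]
  have hLp : Φ.val (sideL F) = Φ.val p := by
    apply k12_val_congr
    intro t
    show F (0, t) = p t
    apply Subtype.ext
    rw [hF]
    simp [z, w]
  suffices hR : Φ.val (sideR F) = 1 by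
    rw [hTB, hLp, hR, one_mul] at hsq
    simpa using hsq
  have hend : F (1, 1) = F (1, 0) := by
    apply Subtype.ext
    rw [hF, hF, hz01, hz'01, hw01]
  let p' : Path (F (1, 0)) (F (1, 0)) := (sideR F).cast rfl hend.symm
  have hp' : ∀ t, (p' t).1 = (z' t, w t) := by
    intro t
    show (F (1, t)).1 = _
    rw [hF]
    simp
  rw [show Φ.val (sideR F) = Φ.val p' from (k12_val_congr Φ _ _ (fun t => rfl))]
  rw [← Φ.val_refl (F (1, 0))]
  apply eq_of_homotopic_CY P hm r hr Φ hk
  -- membership in YY over a point off the discriminant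
  have hYY : ∀ (t : I) (c : ℂ), ((z' t, c) : ℂ × ℂ) ∈ CY P r := by
    intro t c
    exact Or.inr (hz' t).2
  -- the segment set and the bound R
  let ζ : C(I × I, ℂ) := ⟨fun a => z' 0 + (1 - (a.1 : ℝ)) • (z' a.2 - z' 0), by fun_prop⟩
  choose C K hC0 hCK using fun i => root_bound (P i) (hm i)
  obtain ⟨R, hR⟩ : ∃ R : ℝ, ∀ i a, C i * (1 + ‖ζ a‖) ^ K i < R := by
    have h1 : IsCompact (⋃ i, Set.range (fun a : I × I => C i * (1 + ‖ζ a‖) ^ K i)) :=
      isCompact_iUnion fun i => isCompact_range (by fun_prop)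
    obtain ⟨M, hM⟩ := h1.bddAbove
    refine ⟨M + 1, fun i a => ?_⟩
    have := hM (Set.mem_iUnion.2 ⟨i, ⟨a, rfl⟩⟩)
    linarith
  have hRne : ∀ a, ((ζ a, (R : ℂ)) : ℂ × ℂ) ∈ CX P := by
    intro a i h
    have h1 := hR i a
    have h2 := hCK i (ζ a) (R : ℂ) h
    rw [Complex.norm_real, Real.norm_eq_abs] at h2
    exact absurd h1 (not_lt.2 ((le_abs_self R).trans h2))
  have hXY : ∀ q : ℂ × ℂ, q ∈ CX P → q ∈ CY P r := fun q hq => Or.inl hq
  let b : CY P r := ⟨(z' 0, (R : ℂ)), hYY 0 _⟩
  -- second square, the loop at height R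
  let R1 : Path b b :=
    { toFun := fun t => ⟨(z' t, (R : ℂ)), hYY t _⟩
      continuous_toFun := by
        apply Continuous.subtype_mk
        fun_prop
      source' := rfl
      target' := by
        apply Subtype.ext
        show (z' 1, (R : ℂ)) = (z' 0, (R : ℂ))
        rw [hz'01] }
  have hnull1 : R1.Homotopic (Path.refl b) := by
    let F2 : C(I × I, CY P r) :=
      ⟨fun a => ⟨(ζ a, (R : ℂ)), hXY _ (hRne a)⟩, by
        apply Continuous.subtype_mk
        fun_prop⟩
    have hF2 : ∀ s t, (F2 (s, t)).1 = (z' 0 + (1 - (s : ℝ)) • (z' t - z' 0), (R : ℂ)) :=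
      fun s t => rfl
    refine k12_free F2 R1 (Path.refl b) (Path.refl b) ?_ ?_ ?_ ?_ (Path.Homotopic.refl _)
    · intro t
      apply Subtype.ext
      rw [hF2]
      show _ = (z' t, (R : ℂ))
      simp
    · intro t
      apply Subtype.ext
      rw [hF2]
      show _ = (z' 0, (R : ℂ))
      simp
    · intro s
      apply Subtype.ext
      rw [hF2]
      show _ = (z' 0, (R : ℂ))
      simp
    · intro s
      apply Subtype.ext
      rw [hF2]
      show _ = (z' 0, (R : ℂ))
      simp [hz'01]
  -- third square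
  let F1 : C(I × I, CY P r) :=
    ⟨fun a => ⟨(z' a.2, (1 - ((a.1 : ℝ) : ℂ)) * w a.2 + ((a.1 : ℝ) : ℂ) * (R : ℂ)),
      hYY _ _⟩, by
      apply Continuous.subtype_mk
      fun_prop⟩
  have hF1 : ∀ s t, (F1 (s, t)).1 =
      (z' t, (1 - ((s : ℝ) : ℂ)) * w t + ((s : ℝ) : ℂ) * (R : ℂ)) := fun s t => rfl
  have ha : F1 (0, 0) = inclC P r (F (1, 0)) := by
    apply Subtype.ext
    rw [hF1]
    show _ = (F (1, 0)).1
    rw [hF]
    simp
  let B : Path (inclC P r (F (1, 0))) b :=
    { toFun := fun s => F1 (s, 0)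
      continuous_toFun := by fun_prop
      source' := ha
      target' := by
        apply Subtype.ext
        rw [hF1]
        show _ = (z' 0, (R : ℂ))
        simp }
  refine k12_free F1 _ R1 B ?_ ?_ ?_ ?_ hnull1
  · intro t
    apply Subtype.ext
    rw [hF1]
    show _ = (p' t).1
    rw [hp']
    simp
  · intro t
    apply Subtype.ext
    rw [hF1]
    show _ = (z' t, (R : ℂ))
    simp
  · intro s
    rfl
  · intro s
    show F1 (s, 1) = F1 (s, 0)
    apply Subtype.ext
    rw [hF1, hF1, hz'01, hw01]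

end H13K
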