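import Pool.Agent.Lib.H13K.KD

set_option autoImplicit false

open scoped unitInterval Polynomial

namespace H13K

private theorem k8_trans_cast {X : Type} [TopologicalSpace X] {x y z x' y' z' : X} (p : Path x y)
    (q : Path y z) (hx : x' = x) (hy : y' = y) (hz : z' = z) :
    (p.cast hx hy).trans (q.cast hy hz) = (p.trans q).cast hx hz := by
  subst hx hy hz
  rfl

private theorem k8_homotopic_cast {X : Type} [TopologicalSpace X] {x y x' y' : X} {p q : Path x y}
    (h : p.Homotopic q) (hx : x' = x) (hy : y' = y) :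
    (p.cast hx hy).Homotopic (q.cast hx hy) := by
  subst hx hy
  exact h

private theorem k8_conj_trans {X : Type} [TopologicalSpace X] {x y z : X} {p : Path x x}
    {p' : Path y y} {p'' : Path z z} {q : Path x y} {q' : Path y z}
    (h1 : (p.trans q).Homotopic (q.trans p')) (h2 : (p'.trans q').Homotopic (q'.trans p'')) :
    (p.trans (q.trans q')).Homotopic ((q.trans q').trans p'') := by
  have a1 : (p.trans (q.trans q')).Homotopic ((p.trans q).trans q') :=
    ⟨(Path.Homotopy.transAssoc p q q').symm⟩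
  have a2 : ((p.trans q).trans q').Homotopic ((q.trans p').trans q') :=
    h1.hcomp (Path.Homotopic.refl q')
  have a3 : ((q.trans p').trans q').Homotopic (q.trans (p'.trans q')) :=
    ⟨Path.Homotopy.transAssoc q p' q'⟩
  have a4 : (q.trans (p'.trans q')).Homotopic (q.trans (q'.trans p'')) :=
    (Path.Homotopic.refl q).hcomp h2
  have a5 : (q.trans (q'.trans p'')).Homotopic ((q.trans q').trans p'') :=
    ⟨(Path.Homotopy.transAssoc q q' p'').symm⟩
  exact (((a1.trans a2).trans a3).trans a4).trans a5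

private theorem k8_exp_path {a b : ℂ} (ha : a ≠ 0) (hb : b ≠ 0) :
    ∃ c : C(I, ℂ), c 0 = a ∧ c 1 = b ∧ ∀ s, c s ≠ 0 ∧ ‖c s‖ ≤ max ‖a‖ ‖b‖ := by
  refine ⟨⟨fun s => Complex.exp ((1 - ((s : ℝ) : ℂ)) * Complex.log a +
    ((s : ℝ) : ℂ) * Complex.log b), by fun_prop⟩, ?_, ?_, ?_⟩
  · simp [Complex.exp_log ha]
  · simp [Complex.exp_log hb]
  · intro s
    refine ⟨Complex.exp_ne_zero _, ?_⟩
    have hs0 : 0 ≤ (s : ℝ) := s.2.1
    have hs1 : (s : ℝ) ≤ 1 := s.2.2
    have hre : ((1 - ((s : ℝ) : ℂ)) * Complex.log a + ((s : ℝ) : ℂ) * Complex.log b).re =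
        (1 - (s : ℝ)) * Real.log ‖a‖ + (s : ℝ) * Real.log ‖b‖ := by
      simp [Complex.log_re]
    change ‖Complex.exp _‖ ≤ _
    rw [Complex.norm_exp, hre]
    have hpa : 0 < ‖a‖ := norm_pos_iff.2 ha
    have hpb : 0 < ‖b‖ := norm_pos_iff.2 hb
    have hm : 0 < max ‖a‖ ‖b‖ := lt_max_of_lt_left hpa
    rw [← Real.le_log_iff_exp_le hm]
    have l1 : Real.log ‖a‖ ≤ Real.log (max ‖a‖ ‖b‖) := Real.log_le_log hpa (le_max_left _ _)
    have l2 : Real.log ‖b‖ ≤ Real.log (max ‖a‖ ‖b‖) := Real.log_le_log hpb (le_max_right _ _)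
    nlinarith

private theorem k8_conj_path {ι : Type} (P : ι → ℂ[X][X]) (z u a : C(I, ℂ))
    (h : ∀ s, Adm2 P (z s) (u s) (a s)) :
    ∃ q : Path (mbase2 P (z 0) (u 0) (a 0) (h 0)) (mbase2 P (z 1) (u 1) (a 1) (h 1)),
      ((mer2 P (z 0) (u 0) (a 0) (h 0)).trans q).Homotopic
        (q.trans (mer2 P (z 1) (u 1) (a 1) (h 1))) := by
  let F : C(I × I, CX P) :=
    { toFun := fun p => ⟨(z p.1, u p.1 +
          a p.1 * Complex.exp (2 * Real.pi * ((p.2 : I) : ℝ) * Complex.I)),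
          (h p.1).mem _ (norm_circ p.2)⟩
      continuous_toFun := by
        apply Continuous.subtype_mk
        fun_prop }
  have h00 : mbase2 P (z 0) (u 0) (a 0) (h 0) = F (0, 0) := by
    apply Subtype.ext
    simp [mbase2, F]
  have h01 : mbase2 P (z 0) (u 0) (a 0) (h 0) = F (0, 1) := by
    apply Subtype.ext
    simp [mbase2, F, Complex.exp_two_pi_mul_I]
  have h10 : mbase2 P (z 1) (u 1) (a 1) (h 1) = F (1, 0) := by
    apply Subtype.ext
    simp [mbase2, F]
  have h11 : mbase2 P (z 1) (u 1) (a 1) (h 1) = F (1, 1) := by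
    apply Subtype.ext
    simp [mbase2, F, Complex.exp_two_pi_mul_I]
  have e1 : mer2 P (z 0) (u 0) (a 0) (h 0) = (sideL F).cast h00 h01 := by
    apply Path.ext
    funext t
    rfl
  have e2 : mer2 P (z 1) (u 1) (a 1) (h 1) = (sideR F).cast h10 h11 := by
    apply Path.ext
    funext t
    rfl
  have e3 : (sideT F).cast h01 h11 = (sideB F).cast h00 h10 := by
    apply Path.ext
    funext s
    apply Subtype.ext
    simp [F, sideT, sideB, Complex.exp_two_pi_mul_I]
  refine ⟨(sideB F).cast h00 h10, ?_⟩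
  have hs := k8_homotopic_cast (square_homotopic F) h00 h11
  rw [← k8_trans_cast (sideL F) (sideT F) h00 h01 h11,
    ← k8_trans_cast (sideB F) (sideR F) h00 h10 h11, e3, ← e1, ← e2] at hs
  exact hs

private theorem k8_conj_path' {ι : Type} (P : ι → ℂ[X][X]) (z u a : C(I, ℂ))
    (h : ∀ s, Adm2 P (z s) (u s) (a s)) {z0 z1 u0 u1 a0 a1 : ℂ} (h0 : Adm2 P z0 u0 a0)
    (h1 : Adm2 P z1 u1 a1) (e0 : z 0 = z0) (e1 : z 1 = z1) (g0 : u 0 = u0) (g1 : u 1 = u1)
    (f0 : a 0 = a0) (f1 : a 1 = a1) :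
    ∃ q : Path (mbase2 P z0 u0 a0 h0) (mbase2 P z1 u1 a1 h1),
      ((mer2 P z0 u0 a0 h0).trans q).Homotopic (q.trans (mer2 P z1 u1 a1 h1)) := by
  subst e0 e1 g0 g1 f0 f1
  exact k8_conj_path P z u a h

private theorem k8_conj_fix {ι : Type} (P : ι → ℂ[X][X]) {z u a b : ℂ} (ha : Adm2 P z u a)
    (hb : Adm2 P z u b) :
    ∃ q : Path (mbase2 P z u a ha) (mbase2 P z u b hb),
      ((mer2 P z u a ha).trans q).Homotopic (q.trans (mer2 P z u b hb)) := by
  obtain ⟨c, hc0, hc1, hc⟩ := k8_exp_path ha.1 hb.1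
  refine k8_conj_path' P (ContinuousMap.const I z) (ContinuousMap.const I u) c ?_ ha hb rfl rfl
    rfl rfl hc0 hc1
  intro s
  refine ⟨(hc s).1, fun d hd hdn j => ?_⟩
  rcases le_max_iff.1 (hdn.trans (hc s).2) with h | h
  · exact ha.2 d hd h j
  · exact hb.2 d hd h j

private theorem k8_evalEval_sum (p : ℂ[X][X]) (z w : ℂ) :
    p.evalEval z w = ∑ i ∈ Finset.range (p.natDegree + 1), (p.coeff i).eval z * w ^ i := by
  rw [Polynomial.evalEval, Polynomial.eval_eq_sum_range (p := p), Polynomial.eval_finsetSum]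
  simp

private theorem k8_contDiff (p : ℂ[X][X]) :
    ContDiff ℂ 1 (fun q : ℂ × ℂ => p.evalEval q.1 q.2) := by
  have e : (fun q : ℂ × ℂ => p.evalEval q.1 q.2) = fun q : ℂ × ℂ =>
      ∑ i ∈ Finset.range (p.natDegree + 1), (p.coeff i).eval q.1 * q.2 ^ i := by
    funext q
    exact k8_evalEval_sum p q.1 q.2
  rw [e]
  refine ContDiff.sum fun i _ => ?_
  have h1 : ContDiff ℂ 1 (fun q : ℂ × ℂ => (p.coeff i).eval q.1) :=
    (Polynomial.differentiable (p.coeff i)).contDiff.comp contDiff_fst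
  exact h1.mul (contDiff_snd.pow i)

private theorem k8_local (p : ℂ[X][X]) (r : ℂ[X]) (hp : Simple p r) {z0 u0 : ℂ}
    (hz : r.eval z0 ≠ 0) (hu : p.evalEval z0 u0 = 0) :
    ∀ᶠ x : (ℂ × ℂ) × (ℂ × ℂ) in nhds ((z0, u0), (z0, u0)), x.1.1 = x.2.1 → x.1.2 ≠ x.2.2 →
      p.evalEval x.2.1 x.2.2 = 0 → p.evalEval x.1.1 x.1.2 ≠ 0 := by
  set f : ℂ × ℂ → ℂ := fun q => p.evalEval q.1 q.2 with hf
  have hs : HasStrictFDerivAt f (fderiv ℂ f (z0, u0)) (z0, u0) :=
    (k8_contDiff p).contDiffAt.hasStrictFDerivAt one_ne_zero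
  set f' := fderiv ℂ f (z0, u0) with hf'
  have hd : f' (0, 1) = (Polynomial.derivative p).evalEval z0 u0 := by
    have h1 : HasDerivAt (fun w : ℂ => ((z0, w) : ℂ × ℂ)) (0, 1) u0 :=
      (hasDerivAt_const u0 z0).prodMk (hasDerivAt_id u0)
    have h2 : HasDerivAt (fun w : ℂ => f (z0, w)) (f' (0, 1)) u0 :=
      hs.hasFDerivAt.comp_hasDerivAt u0 h1
    have h3 : HasDerivAt (fun w : ℂ => (p.map (Polynomial.evalRingHom z0)).eval w)
        ((Polynomial.derivative (p.map (Polynomial.evalRingHom z0))).eval u0) u0 :=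
      Polynomial.hasDerivAt _ _
    have e1 : (fun w : ℂ => (p.map (Polynomial.evalRingHom z0)).eval w) = fun w => f (z0, w) := by
      funext w
      exact Polynomial.map_evalRingHom_eval z0 w p
    rw [e1] at h3
    rw [h2.unique h3, Polynomial.derivative_map, Polynomial.map_evalRingHom_eval]
  have hne : f' (0, 1) ≠ 0 := by
    rw [hd]
    exact hp z0 u0 hz hu
  have hc : 0 < ‖f' (0, 1)‖ / 2 := by
    have := norm_pos_iff.2 hne
    linarith
  have h4 := hs.isLittleO.def hc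
  filter_upwards [h4] with x hx h1 h2 h3 h5
  have e2 : x.1 - x.2 = (x.1.2 - x.2.2) • ((0, 1) : ℂ × ℂ) := by
    ext
    · simp [h1]
    · simp
  have e3 : f x.1 = 0 := h5
  have e4 : f x.2 = 0 := h3
  rw [e3, e4, e2, map_smul, sub_zero, zero_sub, norm_neg, norm_smul, norm_smul] at hx
  have h6 : 0 < ‖x.1.2 - x.2.2‖ := norm_pos_iff.2 (sub_ne_zero.2 h2)
  have h7 : ‖((0, 1) : ℂ × ℂ)‖ = 1 := by simp [Prod.norm_def]
  rw [h7] at hx
  have h8 := norm_pos_iff.2 hne
  nlinarith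

/-- All meridians of one component are conjugate, if the component (over r ≠ 0) is path connected.
Proof: like `mer_conj` (T7.lean): a path (z s, u s) in CS (P i) r from (z, u) to (z', u'); δ > 0 so
small that (z s, u s + b) is off all curves for 0 < ‖b‖ ≤ δ and all s (compactness and `Disc`);
three squares: shrink a to a small multiple τ a, move along the path with constant τ a, then move
τ a to a' inside the punctured disc 0 < ‖b‖ ≤ max(‖a'‖, ‖τ a‖) (which is admissible at (z', u');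
take ‖τ a‖ ≤ ‖a'‖); `square_homotopic`. -/
theorem mer2_conj {ι : Type} [Finite ι] (P : ι → ℂ[X][X]) (r : ℂ[X]) (hr : Disc P r) (i : ι)
    (hpc : IsPathConnected (CS (P i) r)) {z u a : ℂ} (h : Adm2 P z u a) (hz : r.eval z ≠ 0)
    (hu : (P i).evalEval z u = 0) {z' u' a' : ℂ} (h' : Adm2 P z' u' a') (hz' : r.eval z' ≠ 0)
    (hu' : (P i).evalEval z' u' = 0) :
    ∃ q : Path (mbase2 P z u a h) (mbase2 P z' u' a' h'),
      ((mer2 P z u a h).trans q).Homotopic (q.trans (mer2 P z' u' a' h')) := by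
  obtain ⟨γ, hγ⟩ := hpc.joinedIn (z, u) ⟨hz, hu⟩ (z', u') ⟨hz', hu'⟩
  have hloc : ∀ s ∈ (Set.univ : Set I), ∀ᶠ x : ℂ × I in nhds (0, s),
      (x.1 ≠ 0 → ∀ j, (P j).evalEval (γ x.2).1 ((γ x.2).2 + x.1) ≠ 0) := by
    intro s _
    have hall : ∀ j, ∀ᶠ x : ℂ × I in nhds (0, s),
        (x.1 ≠ 0 → (P j).evalEval (γ x.2).1 ((γ x.2).2 + x.1) ≠ 0) := by
      intro j
      have hs := hγ s
      by_cases hj : j = i
      · subst hj
        have hl := k8_local (P j) r (hr.simple j) hs.1 hs.2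
        have hc : Filter.Tendsto (fun x : ℂ × I =>
            ((((γ x.2).1, (γ x.2).2 + x.1), ((γ x.2).1, (γ x.2).2)) : (ℂ × ℂ) × (ℂ × ℂ)))
            (nhds (0, s)) (nhds (((γ s).1, (γ s).2), ((γ s).1, (γ s).2))) := by
          have hcc : Continuous (fun x : ℂ × I =>
            ((((γ x.2).1, (γ x.2).2 + x.1), ((γ x.2).1, (γ x.2).2)) : (ℂ × ℂ) × (ℂ × ℂ))) := by
            fun_prop
          have := hcc.tendsto (0, s)
          simpa using this
        filter_upwards [hc.eventually hl] with x hx hx0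
        refine hx rfl ?_ (hγ x.2).2
        simpa using hx0
      · have hne : (P j).evalEval (γ s).1 (γ s).2 ≠ 0 :=
          hr.disj i j _ _ (Ne.symm hj) hs.1 hs.2
        have hcc : Continuous (fun x : ℂ × I =>
            (P j).evalEval (γ x.2).1 ((γ x.2).2 + x.1)) := by
          have h1 := (k8_contDiff (P j)).continuous
          have h2 : Continuous (fun x : ℂ × I => (((γ x.2).1, (γ x.2).2 + x.1) : ℂ × ℂ)) := by
            fun_prop
          exact h1.comp h2
        have h3 : (P j).evalEval (γ ((0, s) : ℂ × I).2).1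
            ((γ ((0, s) : ℂ × I).2).2 + ((0, s) : ℂ × I).1) ≠ 0 := by simpa using hne
        filter_upwards [hcc.continuousAt.eventually_ne h3] with x hx _
        exact hx
    have := Filter.eventually_all.2 hall
    filter_upwards [this] with x hx hx0 j
    exact hx j hx0
  have hev := isCompact_univ.eventually_forall_of_forall_eventually
    (P := fun (b : ℂ) (s : I) => (b ≠ 0 → ∀ j, (P j).evalEval (γ s).1 ((γ s).2 + b) ≠ 0)) hloc
  obtain ⟨ε, hε, hball⟩ := Metric.eventually_nhds_iff.1 hev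
  have hb : ∀ s : I, Adm2 P (γ s).1 (γ s).2 ((ε / 2 : ℝ) : ℂ) := by
    intro s
    have hp : 0 < ε / 2 := by linarith
    refine ⟨by exact_mod_cast hp.ne', fun b hb0 hbn j => ?_⟩
    rw [Complex.norm_real, Real.norm_of_nonneg hp.le] at hbn
    refine hball ?_ s (Set.mem_univ s) hb0 j
    rw [dist_zero_right]
    linarith
  have hb0 : Adm2 P z u ((ε / 2 : ℝ) : ℂ) := by
    have := hb 0
    rw [γ.source] at this
    exact this
  have hb1 : Adm2 P z' u' ((ε / 2 : ℝ) : ℂ) := by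
    have := hb 1
    rw [γ.target] at this
    exact this
  obtain ⟨q1, hq1⟩ := k8_conj_fix P h hb0
  obtain ⟨q2, hq2⟩ := k8_conj_path' P ⟨fun s => (γ s).1, by fun_prop⟩ ⟨fun s => (γ s).2, by fun_prop⟩
    (ContinuousMap.const I ((ε / 2 : ℝ) : ℂ)) hb hb0 hb1
    (by simp) (by simp) (by simp) (by simp) rfl rfl
  obtain ⟨q3, hq3⟩ := k8_conj_fix P hb1 h'
  exact ⟨(q1.trans q2).trans q3, k8_conj_trans (k8_conj_trans hq1 hq2) hq3⟩

end H13K
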