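import Pool.Agent.Lib.H13K.K1
import Pool.Agent.Lib.H13K.K6
import Pool.Agent.Lib.H13K.K7
import Pool.Agent.Lib.H13K.K8
import Pool.Agent.Lib.H13K.K11
import Pool.Agent.Lib.H13K.K12
import Pool.Agent.Lib.H13K.K15
import Pool.Agent.Lib.H13K.K16
import Pool.Agent.Lib.H13K.G
import Pool.Agent.Lib.H13K.T2

set_option autoImplicit false

open scoped unitInterval Polynomial

namespace H13K

private theorem k17_sum (p : ℂ[X][X]) (x y : ℂ) :
    p.evalEval x y = ∑ n ∈ p.support, (p.coeff n).eval x * y ^ n := by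
  have h : p.eval (Polynomial.C y) = ∑ n ∈ p.support, p.coeff n * (Polynomial.C y) ^ n := by
    rw [Polynomial.eval_eq_sum, Polynomial.sum_def]
  rw [Polynomial.evalEval, h, Polynomial.eval_finsetSum]
  simp

private theorem k17_cont (p : ℂ[X][X]) : Continuous fun q : ℂ × ℂ => p.evalEval q.1 q.2 := by
  have h : (fun q : ℂ × ℂ => p.evalEval q.1 q.2) =
      fun q : ℂ × ℂ => ∑ n ∈ p.support, (p.coeff n).eval q.1 * q.2 ^ n :=
    funext fun q => k17_sum p q.1 q.2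
  rw [h]
  exact continuous_finsetSum _ fun n _ =>
    ((p.coeff n).continuous.comp continuous_fst).mul (continuous_snd.pow n)

/-- The curve of a monic irreducible polynomial is nonempty. -/
private theorem k17_root (p : ℂ[X][X]) (hp : p.Monic) (hpi : Irreducible p) :
    ∃ q : ℂ × ℂ, p.evalEval q.1 q.2 = 0 := by
  have hd : (p.map (Polynomial.evalRingHom 0)).degree ≠ 0 := by
    rw [hp.degree_map]
    intro h0
    have h1 : p = 1 := by
      apply Polynomial.eq_one_of_monic_natDegree_zero hp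
      exact Polynomial.natDegree_eq_of_degree_eq_some h0
    rw [h1] at hpi
    exact hpi.not_isUnit isUnit_one
  obtain ⟨w, hw⟩ := IsAlgClosed.exists_root (p.map (Polynomial.evalRingHom 0)) hd
  refine ⟨(0, w), ?_⟩
  rw [← Polynomial.map_evalRingHom_eval]
  exact hw

/-- The function `P l` on the complement. -/
private noncomputable def k17_fun {ι : Type} (P : ι → ℂ[X][X]) (l : ι) : C(CX P, ℂ) :=
  ⟨fun x => (P l).evalEval x.1.1 x.1.2, (k17_cont (P l)).comp continuous_subtype_val⟩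

/-- Winding homomorphisms. -/
private theorem k17_wind {ι : Type} (P : ι → ℂ[X][X]) [PathConnectedSpace (CX P)] (x₀ : CX P)
    (Φ : PF (CX P) (FundamentalGroup (CX P) x₀))
    (hΦ : ∀ p : Path x₀ x₀, Φ.val p = FundamentalGroup.fromPath (Path.Homotopic.Quotient.mk p))
    (l : ι) :
    ∃ w : FundamentalGroup (CX P) x₀ →* Multiplicative ℂ, ∀ (x : CX P) (p : Path x x)
      (ℓ : C(I, ℂ)), (∀ t, Complex.exp (ℓ t) = (P l).evalEval (p t).1.1 (p t).1.2) →
      (w (Φ.val p)).toAdd = (2 * Real.pi * Complex.I)⁻¹ * (ℓ 1 - ℓ 0) := by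
  obtain ⟨L, hL⟩ := exists_log (k17_fun P l) (fun x => x.2 l)
  let ψ : Multiplicative ℂ →* Multiplicative ℂ :=
    AddMonoidHom.toMultiplicative (AddMonoidHom.mulLeft ((2 * Real.pi * Complex.I)⁻¹))
  have hψ : ∀ c : Multiplicative ℂ,
      (ψ c).toAdd = (2 * Real.pi * Complex.I)⁻¹ * c.toAdd := fun c => rfl
  obtain ⟨w, hw⟩ := exists_hom (L.push ψ) x₀
  refine ⟨w, ?_⟩
  intro x p ℓ hℓ
  have h1 := hom_univ (L.push ψ) x₀ Φ hΦ w hw x p
  rw [h1]
  have h2 : (L.push ψ).val p = ψ (L.val p) := rfl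
  rw [h2, hψ, hL p ℓ hℓ]

/-- The complement of a connected reducible curve, components monic in w.
Proof: r from `exists_disc`; `alg2` with G the fundamental group, M i = all Φ.val (mer2 P z u a h)
with r(z) ≠ 0, P i (z, u) = 0 (Φ from `exists_univ`), w l = homomorphism of the functional of
(z, w) ↦ P l (z, w) (`exists_log`, `exists_hom`, `hom_univ`) divided by 2 pi i; adj i j = i ≠ j and
the curves i, j have a common point.  hne: a root of P i over a point with r ≠ 0 and a small a (also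
from `torus2`); hconj: `mer2_conj`, `CS_pathConnected`; hw: `mer2_log`; hgen: `kills_all2` for
Φ.push ψ; hadj: `torus2`; hpart: the unions of the curves in T and outside of T are closed and
disjoint and cover the connected set hconn, every curve is nonempty; hdeg: hpart for T = {i}. -/
theorem main2 {ι : Type} [Fintype ι] (P : ι → ℂ[X][X]) (hm : ∀ i, (P i).Monic)
    (hirr : ∀ i, Irreducible (P i)) (hinj : Function.Injective P) (hcard : ∃ i j : ι, i ≠ j)
    (hconn : IsPreconnected {p : ℂ × ℂ | ∃ i, (P i).evalEval p.1 p.2 = 0}) (x₀ : CX P)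
    (A B : Type) [Group A] [Group B]
    (e : FundamentalGroup (CX P) x₀ ≃* Monoid.Coprod A B) :
    Subsingleton A ∨ Subsingleton B := by
  classical
  have : PathConnectedSpace (CX P) := CX_pathConnected P hm
  obtain ⟨r, hr⟩ := exists_disc P hm hirr hinj
  obtain ⟨Φ, hΦ⟩ := exists_univ x₀
  choose w hw using fun l => k17_wind P x₀ Φ hΦ l
  have hpi : (2 * Real.pi * Complex.I : ℂ) ≠ 0 := Complex.two_pi_I_ne_zero
  have hne : Nonempty ι := ⟨hcard.choose⟩
  -- partitions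
  have hpart : ∀ T : Set ι, (∀ i ∈ T, ∀ j ∉ T, ¬ (i ≠ j ∧ ∃ p : ℂ × ℂ,
      (P i).evalEval p.1 p.2 = 0 ∧ (P j).evalEval p.1 p.2 = 0)) → T = ∅ ∨ T = Set.univ := by
    intro T hT
    have hcl : ∀ T : Set ι, IsClosed {p : ℂ × ℂ | ∃ i ∈ T, (P i).evalEval p.1 p.2 = 0} := by
      intro T
      have h1 : {p : ℂ × ℂ | ∃ i ∈ T, (P i).evalEval p.1 p.2 = 0} =
          ⋃ i ∈ T, {p : ℂ × ℂ | (P i).evalEval p.1 p.2 = 0} := by
        ext p
        simp
      rw [h1]
      exact T.toFinite.isClosed_biUnion fun i _ => isClosed_eq (k17_cont (P i)) continuous_const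
    by_contra hcon
    push Not at hcon
    obtain ⟨hne1, hne2⟩ := hcon
    obtain ⟨i, hi⟩ := hne1
    obtain ⟨j, hj⟩ := (Set.ne_univ_iff_exists_notMem T).1 hne2
    obtain ⟨p, hp⟩ := k17_root (P i) (hm i) (hirr i)
    obtain ⟨q, hq⟩ := k17_root (P j) (hm j) (hirr j)
    obtain ⟨s, -, ⟨i', hi', hs⟩, ⟨j', hj', hs'⟩⟩ :=
      isPreconnected_closed_iff.1 hconn _ _ (hcl T) (hcl Tᶜ) (by
        rintro p ⟨k, hk⟩
        by_cases hkT : k ∈ T
        · exact Or.inl ⟨k, hkT, hk⟩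
        · exact Or.inr ⟨k, hkT, hk⟩) ⟨p, ⟨i, hp⟩, i, hi, hp⟩ ⟨q, ⟨j, hq⟩, j, hj, hq⟩
    refine hT i' hi' j' hj' ⟨?_, s, hs, hs'⟩
    rintro rfl
    exact hj' hi'
  have hdeg : ∀ i, ∃ j, i ≠ j ∧ ∃ p : ℂ × ℂ,
      (P i).evalEval p.1 p.2 = 0 ∧ (P j).evalEval p.1 p.2 = 0 := by
    intro i
    by_contra hcon
    push Not at hcon
    rcases hpart {i} (by
      rintro i' hi' j hj ⟨h1, p, h2, h3⟩
      rw [Set.mem_singleton_iff] at hi'
      subst hi'
      exact hcon j h1 p h2 h3) with h | h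
    · exact Set.singleton_ne_empty i h
    · obtain ⟨i', j', hij⟩ := hcard
      have h1 : i' ∈ ({i} : Set ι) := h ▸ Set.mem_univ i'
      have h2 : j' ∈ ({i} : Set ι) := h ▸ Set.mem_univ j'
      rw [Set.mem_singleton_iff] at h1 h2
      exact hij (h1.trans h2.symm)
  refine alg2 (G := FundamentalGroup (CX P) x₀)
    (fun i => {m | ∃ (z u a : ℂ) (h : Adm2 P z u a), r.eval z ≠ 0 ∧ (P i).evalEval z u = 0 ∧
      m = Φ.val (mer2 P z u a h)}) w ?_ ?_ ?_ ?_
    (fun i j => i ≠ j ∧ ∃ p : ℂ × ℂ, (P i).evalEval p.1 p.2 = 0 ∧ (P j).evalEval p.1 p.2 = 0)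
    ?_ ?_ hdeg hpart A B e
  · intro i
    obtain ⟨j, hij, p, h1, h2⟩ := hdeg i
    obtain ⟨z, u, a, h, c, hz, hu, -⟩ := torus2 P hm hirr hinj r hr i j hij p.1 p.2 h1 h2
    exact ⟨_, z, u, a, h, hz, hu, rfl⟩
  · rintro i m ⟨z, u, a, h, hz, hu, rfl⟩ m' ⟨z', u', a', h', hz', hu', rfl⟩
    obtain ⟨q, hq⟩ := mer2_conj P r hr i
      (CS_pathConnected (P i) (hm i) (hirr i) r hr.ne (hr.simple i)) h hz hu h' hz' hu'
    have h1 := Φ.homot hq
    rw [Φ.trans, Φ.trans] at h1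
    rw [isConj_iff]
    exact ⟨Φ.val q, by rw [h1, mul_inv_cancel_right]⟩
  · rintro i m ⟨z, u, a, h, hz, hu, rfl⟩ j
    obtain ⟨ℓ, h1, h2⟩ := mer2_log P hm r hr i z u a h hz hu j
    rw [hw j _ _ ℓ h1, h2]
    split_ifs
    · exact inv_mul_cancel₀ hpi
    · exact mul_zero _
  · intro H _ ψ hψ x
    have hk : Kills2 r (Φ.push ψ) := by
      intro i z u a h hz hu
      exact hψ i _ ⟨z, u, a, h, hz, hu, rfl⟩
    have hall : ∀ p : Path x₀ x₀, ψ (Φ.val p) = 1 := fun p =>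
      kills_all2 P hm r hr (Φ.push ψ) hk x₀ p
    obtain ⟨p, hp⟩ : ∃ p : Path x₀ x₀,
        FundamentalGroup.fromPath (Path.Homotopic.Quotient.mk p) = x := by
      obtain ⟨p, hp⟩ := Path.Homotopic.Quotient.mk_surjective (FundamentalGroup.toPath x)
      refine ⟨p, ?_⟩
      rw [hp]
    rw [← hp, ← hΦ]
    exact hall p
  · rintro i j ⟨hij, p, h1, h2⟩
    refine ⟨hij, ?_⟩
    obtain ⟨z, u, a, h, c, hz, hu, hc, ℓ, hℓ, hℓ'⟩ :=
      torus2 P hm hirr hinj r hr i j hij p.1 p.2 h1 h2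
    refine ⟨_, ⟨z, u, a, h, hz, hu, rfl⟩, Φ.val c, ?_, ?_⟩
    · have h1 := Φ.homot hc
      rw [Φ.trans, Φ.trans] at h1
      exact h1.symm
    · rw [hw j _ _ ℓ hℓ]
      exact mul_ne_zero (inv_ne_zero hpi) (sub_ne_zero.2 hℓ')
  · rintro i j ⟨hij, p, h1, h2⟩
    exact ⟨hij.symm, p, h2, h1⟩

end H13K
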