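import Mathlib

set_option autoImplicit false

open scoped Polynomial

set_option linter.unusedSimpArgs false

namespace H13K

private noncomputable def k18_fwd (c : ℂ) : MvPolynomial (Fin 2) ℂ →ₐ[ℂ] ℂ[X][X] :=
  MvPolynomial.aeval ![Polynomial.C Polynomial.X + Polynomial.C (Polynomial.C c) * Polynomial.X,
    Polynomial.X]

private noncomputable def k18_bwd (c : ℂ) : ℂ[X][X] →ₐ[ℂ] MvPolynomial (Fin 2) ℂ :=
  Polynomial.eval₂AlgHom (Polynomial.aeval (MvPolynomial.X 0 - MvPolynomial.C c * MvPolynomial.X 1) :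
    ℂ[X] →ₐ[ℂ] MvPolynomial (Fin 2) ℂ) (MvPolynomial.X 1) (fun _ => Commute.all _ _)

private theorem k18_fb (c : ℂ) : (k18_fwd c).comp (k18_bwd c) = AlgHom.id ℂ ℂ[X][X] := by
  apply Polynomial.algHom_ext'
  · apply Polynomial.algHom_ext
    simp [k18_fwd, k18_bwd, MvPolynomial.aeval_C, Polynomial.algebraMap_apply]
  · simp [k18_fwd, k18_bwd]

private theorem k18_bf (c : ℂ) : (k18_bwd c).comp (k18_fwd c) = AlgHom.id ℂ (MvPolynomial (Fin 2) ℂ) := by
  apply MvPolynomial.algHom_ext
  intro i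
  fin_cases i
  · simp [k18_fwd, k18_bwd, MvPolynomial.algebraMap_eq]
  · simp [k18_fwd, k18_bwd]

private noncomputable def k18_phi (c : ℂ) : MvPolynomial (Fin 2) ℂ ≃ₐ[ℂ] ℂ[X][X] :=
  AlgEquiv.ofAlgHom (k18_fwd c) (k18_bwd c) (k18_fb c) (k18_bf c)

private theorem k18_eval (c : ℂ) (g : MvPolynomial (Fin 2) ℂ) (z w : ℂ) :
    (k18_phi c g).evalEval z w = MvPolynomial.eval ![z + c * w, w] g := by
  have h : ((Polynomial.evalEvalRingHom z w).comp ((k18_phi c : MvPolynomial (Fin 2) ℂ ≃ₐ[ℂ] ℂ[X][X]) :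
      MvPolynomial (Fin 2) ℂ →+* ℂ[X][X])) = MvPolynomial.eval ![z + c * w, w] := by
    apply MvPolynomial.ringHom_ext
    · intro r
      simp [k18_phi, k18_fwd, Polynomial.evalEval, MvPolynomial.aeval_C, Polynomial.algebraMap_apply]
    · intro i
      fin_cases i
      · simp [k18_phi, k18_fwd, Polynomial.evalEval]
      · simp [k18_phi, k18_fwd, Polynomial.evalEval]
  exact congrArg (fun F => F g) h

private theorem k18_mono (c : ℂ) (v : Fin 2 →₀ ℕ) (a : ℂ) :
    k18_phi c (MvPolynomial.monomial v a) = Polynomial.C (Polynomial.C a) *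
      ((Polynomial.C Polynomial.X + Polynomial.C (Polynomial.C c) * Polynomial.X) ^ v 0 *
        Polynomial.X ^ v 1) := by
  change k18_fwd c (MvPolynomial.monomial v a) = _
  rw [k18_fwd, MvPolynomial.aeval_monomial, Finsupp.prod_fintype _ _ (fun i => pow_zero _),
    Fin.prod_univ_two]
  rfl

private theorem k18_L (c : ℂ) :
    (Polynomial.C Polynomial.X + Polynomial.C (Polynomial.C c) * Polynomial.X : ℂ[X][X]).natDegree ≤ 1 := by
  refine (Polynomial.natDegree_add_le _ _).trans (max_le ?_ ?_)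
  · rw [Polynomial.natDegree_C]
    exact Nat.zero_le _
  · exact (Polynomial.natDegree_C_mul_le _ _).trans Polynomial.natDegree_X_le

private theorem k18_deg (c : ℂ) (v : Fin 2 →₀ ℕ) (a : ℂ) :
    (k18_phi c (MvPolynomial.monomial v a)).natDegree ≤ v 0 + v 1 := by
  rw [k18_mono]
  refine (Polynomial.natDegree_C_mul_le _ _).trans ((Polynomial.natDegree_mul_le).trans ?_)
  refine Nat.add_le_add ?_ ?_
  · refine (Polynomial.natDegree_pow_le).trans ?_
    calc v 0 * _ ≤ v 0 * 1 := Nat.mul_le_mul_left _ (k18_L c)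
      _ = v 0 := Nat.mul_one _
  · exact Polynomial.natDegree_X_pow_le _

private theorem k18_coeff (c : ℂ) (v : Fin 2 →₀ ℕ) (a : ℂ) :
    (k18_phi c (MvPolynomial.monomial v a)).coeff (v 0 + v 1) = Polynomial.C (a * c ^ v 0) := by
  rw [k18_mono, Polynomial.coeff_C_mul, Polynomial.coeff_mul_X_pow]
  have h := Polynomial.coeff_pow_of_natDegree_le (m := v 0) (k18_L c)
  rw [mul_one] at h
  rw [h]
  simp [Polynomial.coeff_C]

/-- A shear makes f monic in the second variable up to a constant.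
φ = the algebra isomorphism X 0 ↦ C X + C (C c) * X (= z + c w), X 1 ↦ X (= w) from
MvPolynomial (Fin 2) ℂ to ℂ[X][X] (inverse z ↦ X 0 - c X 1, w ↦ X 1).  If d = totalDegree f and f_d is
the homogeneous part of degree d, then the coefficient of w ^ d of φ f is the constant f_d (c, 1) and
higher ones vanish; choose c with f_d (c, 1) ≠ 0. -/
theorem exists_shear (f : MvPolynomial (Fin 2) ℂ) (hf : f ≠ 0) :
    ∃ (c : ℂ) (φ : MvPolynomial (Fin 2) ℂ ≃ₐ[ℂ] ℂ[X][X]),
      (∀ (g : MvPolynomial (Fin 2) ℂ) (z w : ℂ),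
        (φ g).evalEval z w = MvPolynomial.eval ![z + c * w, w] g) ∧
      IsUnit (φ f).leadingCoeff := by
  classical
  obtain ⟨d, hd⟩ : ∃ d, d = f.totalDegree := ⟨_, rfl⟩
  have hle : ∀ v ∈ f.support, v 0 + v 1 ≤ d := by
    intro v hv
    have h := MvPolynomial.le_totalDegree hv
    rw [Finsupp.sum_fintype _ _ (fun _ => rfl), Fin.sum_univ_two] at h
    rw [hd]
    exact h
  obtain ⟨v0, hv0, hv0d⟩ : ∃ v ∈ f.support, v 0 + v 1 = d := by
    have hne : f.support.Nonempty := by
      rw [Finset.nonempty_iff_ne_empty]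
      intro h
      exact hf (MvPolynomial.support_eq_empty.1 h)
    obtain ⟨v, hv, h⟩ := Finset.exists_mem_eq_sup f.support hne (fun s => s.sum fun _ e => e)
    refine ⟨v, hv, ?_⟩
    rw [hd, MvPolynomial.totalDegree, h, Finsupp.sum_fintype _ _ (fun _ => rfl), Fin.sum_univ_two]
  -- the polynomial of the top coefficient
  obtain ⟨P, hP⟩ : ∃ P : ℂ[X], P = ∑ v ∈ f.support.filter (fun v => v 0 + v 1 = d),
      Polynomial.C (MvPolynomial.coeff v f) * Polynomial.X ^ v 0 := ⟨_, rfl⟩
  have hP0 : P ≠ 0 := by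
    intro h0
    have h1 : P.coeff (v0 0) = MvPolynomial.coeff v0 f := by
      rw [hP, Polynomial.finsetSum_coeff, Finset.sum_eq_single v0]
      · rw [Polynomial.coeff_C_mul, Polynomial.coeff_X_pow, if_pos rfl, mul_one]
      · intro v hv hne
        rw [Polynomial.coeff_C_mul, Polynomial.coeff_X_pow, if_neg, mul_zero]
        intro h
        apply hne
        have h2 := (Finset.mem_filter.1 hv).2
        ext i
        fin_cases i
        · exact h.symm
        · change v 1 = v0 1
          omega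
      · intro h
        exact absurd (Finset.mem_filter.2 ⟨hv0, hv0d⟩) h
    rw [h0, Polynomial.coeff_zero] at h1
    exact (MvPolynomial.mem_support_iff.1 hv0) h1.symm
  obtain ⟨c, hc⟩ : ∃ c, P.eval c ≠ 0 := by
    by_contra hcon
    push Not at hcon
    exact hP0 (Polynomial.funext fun r => by rw [hcon r, Polynomial.eval_zero])
  refine ⟨c, k18_phi c, k18_eval c, ?_⟩
  have hsum : k18_phi c f = ∑ v ∈ f.support, k18_phi c (MvPolynomial.monomial v (MvPolynomial.coeff v f)) := by
    conv_lhs => rw [f.as_sum]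
    rw [map_sum]
  have hdeg : (k18_phi c f).natDegree ≤ d := by
    rw [hsum]
    exact Polynomial.natDegree_sum_le_of_forall_le _ _ fun v hv => (k18_deg c v _).trans (hle v hv)
  have hco : (k18_phi c f).coeff d = Polynomial.C (P.eval c) := by
    rw [hsum, Polynomial.finsetSum_coeff, hP, Polynomial.eval_finsetSum, map_sum, Finset.sum_filter]
    refine Finset.sum_congr rfl fun v hv => ?_
    by_cases h : v 0 + v 1 = d
    · rw [if_pos h, ← h, k18_coeff]
      simp
    · rw [if_neg h]
      exact Polynomial.coeff_eq_zero_of_natDegree_lt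
        (lt_of_le_of_lt (k18_deg c v _) (lt_of_le_of_ne (hle v hv) h))
  have hne : (k18_phi c f).coeff d ≠ 0 := by
    rw [hco]
    exact Polynomial.C_ne_zero.2 hc
  have hnd : (k18_phi c f).natDegree = d := le_antisymm hdeg (Polynomial.le_natDegree_of_ne_zero hne)
  rw [Polynomial.leadingCoeff, hnd, hco]
  exact Polynomial.isUnit_C.2 (isUnit_iff_ne_zero.2 hc)

end H13K
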