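import Mathlib

set_option autoImplicit false

open scoped Polynomial

namespace H13K

/-- The family of the monic irreducible factors.
Proof: ι = the monic irreducible divisors of F (a finite set: F ≠ 0, UFD; two associated monic
polynomials are equal).  The leading coefficient of a divisor of F divides a unit, so every
irreducible factor is a unit times a monic one. -/
theorem exists_family (F : ℂ[X][X]) (hF : IsUnit F.leadingCoeff) :
    ∃ (ι : Type) (_ : Fintype ι) (P : ι → ℂ[X][X]), (∀ i, (P i).Monic) ∧
      (∀ i, Irreducible (P i)) ∧ Function.Injective P ∧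
      (∀ z w, F.evalEval z w = 0 ↔ ∃ i, (P i).evalEval z w = 0) ∧
      ∀ p q : ℂ[X][X], Irreducible p → Irreducible q → ¬ Associated p q → p ∣ F → q ∣ F →
        ∃ i j : ι, i ≠ j := by
  classical
  have hF0 : F ≠ 0 := by
    rintro rfl
    rw [Polynomial.leadingCoeff_zero] at hF
    exact not_isUnit_zero hF
  let S : Finset ℂ[X][X] := (UniqueFactorizationMonoid.normalizedFactors F).toFinset
  have hmem : ∀ i : S, (i : ℂ[X][X]) ∈ UniqueFactorizationMonoid.normalizedFactors F := fun i =>
    Multiset.mem_toFinset.mp i.2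
  refine ⟨S, inferInstance, fun i => i.1, ?_, ?_, Subtype.val_injective, ?_, ?_⟩
  · intro i
    have h1 : normalize (i : ℂ[X][X]) = i :=
      UniqueFactorizationMonoid.normalize_normalized_factor _ (hmem i)
    have h2 : (i : ℂ[X][X]) ∣ F := UniqueFactorizationMonoid.dvd_of_mem_normalizedFactors (hmem i)
    have h3 : IsUnit (i : ℂ[X][X]).leadingCoeff := by
      obtain ⟨c, hc⟩ := h2
      rw [hc, Polynomial.leadingCoeff_mul] at hF
      exact isUnit_of_mul_isUnit_left hF
    have h4 : (normalize (i : ℂ[X][X])).leadingCoeff = normalize (i : ℂ[X][X]).leadingCoeff :=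
      Polynomial.leadingCoeff_normalize _
    rw [h1, normalize_eq_one.mpr h3] at h4
    exact h4
  · intro i
    exact UniqueFactorizationMonoid.irreducible_of_normalized_factor _ (hmem i)
  · intro z w
    obtain ⟨u, hu⟩ := UniqueFactorizationMonoid.prod_normalizedFactors hF0
    have hev : F.evalEval z w = (Polynomial.evalEvalRingHom z w)
        (UniqueFactorizationMonoid.normalizedFactors F).prod * (Polynomial.evalEvalRingHom z w) u := by
      rw [← map_mul, hu]
      rfl
    have hu' : (Polynomial.evalEvalRingHom z w) (u : ℂ[X][X]) ≠ 0 :=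
      (u.isUnit.map (Polynomial.evalEvalRingHom z w)).ne_zero
    rw [hev, mul_eq_zero, or_iff_left hu', map_multiset_prod, Multiset.prod_eq_zero_iff,
      Multiset.mem_map]
    constructor
    · rintro ⟨a, ha, h0⟩
      exact ⟨⟨a, Multiset.mem_toFinset.mpr ha⟩, h0⟩
    · rintro ⟨i, h0⟩
      exact ⟨i.1, hmem i, h0⟩
  · intro p q hp hq hpq hpF hqF
    obtain ⟨i, hi, hpi⟩ := UniqueFactorizationMonoid.exists_mem_normalizedFactors_of_dvd hF0 hp hpF
    obtain ⟨j, hj, hqj⟩ := UniqueFactorizationMonoid.exists_mem_normalizedFactors_of_dvd hF0 hq hqF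
    refine ⟨⟨i, Multiset.mem_toFinset.mpr hi⟩, ⟨j, Multiset.mem_toFinset.mpr hj⟩, fun h => ?_⟩
    have h5 : i = j := congrArg Subtype.val h
    subst h5
    exact hpq (hpi.trans hqj.symm)

end H13K
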