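import Pool.Agent.Lib.H13K.K17
import Pool.Agent.Lib.H13K.K18
import Pool.Agent.Lib.H13K.K18b

set_option autoImplicit false

open scoped Polynomial

namespace H13K

/-- A homeomorphism induces an isomorphism of fundamental groups. -/
private theorem k19_pi {X Y : Type} [TopologicalSpace X] [TopologicalSpace Y] (e : X ≃ₜ Y) {x : X}
    {y : Y} (h : e x = y) : Nonempty (FundamentalGroup X x ≃* FundamentalGroup Y y) := by
  have h' : e.symm y = x := by rw [← h, e.symm_apply_apply]
  refine ⟨MonoidHom.toMulEquiv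
    (FundamentalGroup.mapOfEq (⟨e, e.continuous⟩ : C(X, Y)) (x := x) (y := y) h)
    (FundamentalGroup.mapOfEq (⟨e.symm, e.symm.continuous⟩ : C(Y, X)) (x := y) (y := x) h') ?_ ?_⟩
  · ext p
    rw [MonoidHom.comp_apply, FundamentalGroup.mapOfEq_apply, FundamentalGroup.mapOfEq_apply]
    induction p using Path.Homotopic.Quotient.ind with | mk γ =>
    change Path.Homotopic.Quotient.mk _ = Path.Homotopic.Quotient.mk γ
    congr 1
    exact Path.ext (funext fun t => e.symm_apply_apply (γ t))
  · ext p
    rw [MonoidHom.comp_apply, FundamentalGroup.mapOfEq_apply, FundamentalGroup.mapOfEq_apply]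
    induction p using Path.Homotopic.Quotient.ind with | mk γ =>
    change Path.Homotopic.Quotient.mk _ = Path.Homotopic.Quotient.mk γ
    congr 1
    exact Path.ext (funext fun t => e.apply_symm_apply (γ t))

/-- The shear as a homeomorphism. -/
private def k19_L (c : ℂ) : (Fin 2 → ℂ) ≃ₜ ℂ × ℂ where
  toFun v := (v 0 - c * v 1, v 1)
  invFun p := ![p.1 + c * p.2, p.2]
  left_inv v := by
    funext k
    fin_cases k
    · simp
    · simp
  right_inv p := by
    apply Prod.ext
    · simp
    · simp
  continuous_toFun := by fun_prop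
  continuous_invFun := by
    refine continuous_pi fun k => ?_
    fin_cases k
    · change Continuous fun p : ℂ × ℂ => p.1 + c * p.2
      fun_prop
    · change Continuous fun p : ℂ × ℂ => p.2
      fun_prop

/-- The complement of a connected plane curve with at least two components.
Proof: `exists_shear`, `exists_family` for F = φ f; the homeomorphism (z, w) ↦ ![z + c w, w] maps
CX P onto the complement of f = 0 and the union of the curves onto f = 0; it induces an isomorphism
of fundamental groups; irreducible factors of f go to irreducible factors of φ f, not associated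
ones to not associated ones; `main2`. -/
theorem plane_main (f : MvPolynomial (Fin 2) ℂ)
    (hred : ∃ p q : MvPolynomial (Fin 2) ℂ, Irreducible p ∧ Irreducible q ∧ ¬ Associated p q ∧
      p ∣ f ∧ q ∣ f)
    (hconn : IsPreconnected {z : Fin 2 → ℂ | MvPolynomial.eval z f = 0})
    (x₀ : {z : Fin 2 → ℂ // MvPolynomial.eval z f ≠ 0}) (A B : Type) [Group A] [Group B]
    (e : FundamentalGroup {z : Fin 2 → ℂ // MvPolynomial.eval z f ≠ 0} x₀ ≃* Monoid.Coprod A B) :
    Subsingleton A ∨ Subsingleton B := by
  have hf : f ≠ 0 := by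
    obtain ⟨v, hv⟩ : ∃ v : Fin 2 → ℂ, MvPolynomial.eval v f ≠ 0 := ⟨x₀.1, x₀.2⟩
    intro h
    exact hv (by rw [h, map_zero])
  obtain ⟨c, φ, hφ, hu⟩ := exists_shear f hf
  obtain ⟨ι, hι, P, hm, hirr, hinj, hz, hij⟩ := exists_family (φ f) hu
  obtain ⟨p, q, hp, hq, hnot, hpf, hqf⟩ := hred
  have hcard : ∃ i j : ι, i ≠ j := by
    refine hij (φ p) (φ q) ?_ ?_ ?_ (map_dvd φ hpf) (map_dvd φ hqf)
    · exact (MulEquiv.irreducible_iff φ).2 hp
    · exact (MulEquiv.irreducible_iff φ).2 hq
    · intro h
      apply hnot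
      have h1 := h.map φ.symm
      rwa [AlgEquiv.symm_apply_apply, AlgEquiv.symm_apply_apply] at h1
  have key : ∀ v : Fin 2 → ℂ, (∃ i, (P i).evalEval (k19_L c v).1 (k19_L c v).2 = 0) ↔
      MvPolynomial.eval v f = 0 := by
    intro v
    rw [← hz, hφ]
    have h1 : ![(k19_L c v).1 + c * (k19_L c v).2, (k19_L c v).2] = v := (k19_L c).left_inv v
    rw [h1]
  have hconn' : IsPreconnected {p : ℂ × ℂ | ∃ i, (P i).evalEval p.1 p.2 = 0} := by
    have h1 : {p : ℂ × ℂ | ∃ i, (P i).evalEval p.1 p.2 = 0} =
        k19_L c '' {z : Fin 2 → ℂ | MvPolynomial.eval z f = 0} := by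
      ext p
      constructor
      · intro h
        refine ⟨(k19_L c).symm p, ?_, (k19_L c).apply_symm_apply p⟩
        have h2 := key ((k19_L c).symm p)
        rw [(k19_L c).apply_symm_apply] at h2
        exact h2.1 h
      · rintro ⟨v, hv, rfl⟩
        exact (key v).2 hv
    rw [h1]
    exact hconn.image _ (k19_L c).continuous.continuousOn
  have hiff : ∀ v : Fin 2 → ℂ, MvPolynomial.eval v f ≠ 0 ↔ k19_L c v ∈ CX P := by
    intro v
    rw [← not_iff_not, not_not, ← key v]
    change _ ↔ ¬ ∀ i, (P i).evalEval (k19_L c v).1 (k19_L c v).2 ≠ 0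
    push Not
    rfl
  obtain ⟨g⟩ := k19_pi ((k19_L c).subtype hiff) (x := x₀) rfl
  exact main2 P hm hirr hinj hcard hconn' _ A B (g.symm.trans e)

end H13K
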