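import Pool.Agent.Lib.H13K.Defs2

set_option autoImplicit false

namespace H13K

/-- A homeomorphism induces an isomorphism of fundamental groups. -/
private theorem pi_of_homeo {X Y : Type} [TopologicalSpace X] [TopologicalSpace Y] (e : X ≃ₜ Y) {x : X}
    {y : Y} (h : e x = y) : Nonempty (FundamentalGroup X x ≃* FundamentalGroup Y y) := by
  have h' : e.symm y = x := by rw [← h, e.symm_apply_apply]
  refine ⟨MonoidHom.toMulEquiv
    (FundamentalGroup.mapOfEq (⟨e, e.continuous⟩ : C(X, Y)) (x := x) (y := y) h)
    (FundamentalGroup.mapOfEq (⟨e.symm, e.symm.continuous⟩ : C(Y, X)) (x := y) (y := x) h') ?_ ?_⟩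
  · ext p
    rw [MonoidHom.comp_apply, FundamentalGroup.mapOfEq_apply, FundamentalGroup.mapOfEq_apply]
    induction p using Path.Homotopic.Quotient.ind with | mk γ =>
    change Path.Homotopic.Quotient.mk _ = Path.Homotopic.Quotient.mk γ
    congr 1
    exact Path.ext (funext fun t => e.symm_apply_apply (γ t))
  · ext p
    rw [MonoidHom.comp_apply, FundamentalGroup.mapOfEq_apply, FundamentalGroup.mapOfEq_apply]
    induction p using Path.Homotopic.Quotient.ind with | mk γ =>
    change Path.Homotopic.Quotient.mk _ = Path.Homotopic.Quotient.mk γ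
    congr 1
    exact Path.ext (funext fun t => e.apply_symm_apply (γ t))

section model

variable {n : ℕ} (f : MvPolynomial (Fin n) ℂ)

private def cz (p : Fin (n + 1) → ℂ) : Fin n → ℂ := fun k => p k.castSucc

private def cu (p : Fin (n + 1) → ℂ) : ℂ := p (Fin.last n)

private def mk2 (z : Fin n → ℂ) (u : ℂ) : Fin (n + 1) → ℂ :=
  Fin.snoc (α := fun _ => ℂ) z u

private theorem cz_mk2 (z : Fin n → ℂ) (u : ℂ) : cz (mk2 z u) = z := by
  funext k
  simp [cz, mk2]

private theorem cu_mk2 (z : Fin n → ℂ) (u : ℂ) : cu (mk2 z u) = u := by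
  simp [cu, mk2]

private theorem mk2_eta (p : Fin (n + 1) → ℂ) : mk2 (cz p) (cu p) = p := by
  funext k
  refine Fin.lastCases ?_ (fun k => ?_) k
  · simp [cu, mk2]
  · simp [cz, mk2]

private noncomputable def FF : MvPolynomial (Fin (n + 1)) ℂ :=
  MvPolynomial.X (Fin.last n) * MvPolynomial.rename (fun k : Fin n => k.castSucc) f - 1

private theorem eval_FF (p : Fin (n + 1) → ℂ) :
    MvPolynomial.eval p (FF f) = cu p * MvPolynomial.eval (cz p) f - 1 := by
  unfold FF
  rw [map_sub, map_mul, map_one, MvPolynomial.eval_X, MvPolynomial.eval_rename]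
  rfl

private theorem mk2_continuous : Continuous fun x : (Fin n → ℂ) × ℂ => mk2 x.1 x.2 := by
  unfold mk2
  exact Continuous.finSnoc (A := fun _ => ℂ) continuous_fst continuous_snd

private noncomputable def homeo :
    {z : Fin n → ℂ // MvPolynomial.eval z f ≠ 0} ≃ₜ
      {p : Fin (n + 1) → ℂ | ∀ g ∈ ({FF f} : Set _), MvPolynomial.eval p g = 0} where
  toFun x := ⟨mk2 x.1 (MvPolynomial.eval x.1 f)⁻¹, by
    rintro g rfl
    rw [eval_FF, cu_mk2, cz_mk2, inv_mul_cancel₀ x.2, sub_self]⟩
  invFun p := ⟨cz p.1, by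
    intro h
    have h1 := p.2 (FF f) rfl
    rw [eval_FF, h] at h1
    norm_num at h1⟩
  left_inv x := by
    apply Subtype.ext
    exact cz_mk2 _ _
  right_inv p := by
    apply Subtype.ext
    have h1 := p.2 (FF f) rfl
    rw [eval_FF] at h1
    have h2 : cu p.1 = (MvPolynomial.eval (cz p.1) f)⁻¹ := eq_inv_of_mul_eq_one_left (by linear_combination h1)
    change mk2 (cz p.1) (MvPolynomial.eval (cz p.1) f)⁻¹ = p.1
    rw [← h2, mk2_eta]
  continuous_toFun := by
    apply Continuous.subtype_mk
    exact mk2_continuous.comp (continuous_subtype_val.prodMk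
      (((MvPolynomial.continuous_eval f).comp continuous_subtype_val).inv₀ fun x => x.2))
  continuous_invFun := by
    apply Continuous.subtype_mk
    refine continuous_pi fun k => ?_
    exact (continuous_apply _).comp continuous_subtype_val

end model

/-- The complement of a hypersurface is a smooth affine variety.
Proof: as `qp_graph` (Q1.lean): S = {p : Fin (n + 1) → ℂ | p (last) * f (p 0, .., p (n-1)) = 1}. -/
theorem qp_compl {n : ℕ} (f : MvPolynomial (Fin n) ℂ)
    (x₀ : {z : Fin n → ℂ // MvPolynomial.eval z f ≠ 0}) :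
    IsQP (FundamentalGroup {z : Fin n → ℂ // MvPolynomial.eval z f ≠ 0} x₀) := by
  refine ⟨n + 1, {p : Fin (n + 1) → ℂ | ∀ g ∈ ({FF f} : Set _), MvPolynomial.eval p g = 0},
    ⟨{FF f}, rfl⟩, ?_, homeo f x₀, pi_of_homeo (homeo f).symm ((homeo f).symm_apply_apply x₀)⟩
  intro p hp
  have hp' : cu p * MvPolynomial.eval (cz p) f - 1 = 0 := by
    rw [← eval_FF]
    exact hp (FF f) rfl
  have hne : MvPolynomial.eval (cz p) f ≠ 0 := by
    intro h
    rw [h] at hp'
    norm_num at hp'
  have hdiff : Differentiable ℂ (fun z : Fin (n + 1) → ℂ => (fun _ : Fin 1 => MvPolynomial.eval z (FF f))) := by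
    rw [differentiable_pi]
    intro _
    have h1 := AnalyticOnNhd.eval_mvPolynomial (𝕜 := ℂ) (FF f)
    exact fun z => (h1 z (Set.mem_univ z)).differentiableAt
  refine ⟨1, fun z _ => MvPolynomial.eval z (FF f), Set.univ, isOpen_univ, Set.mem_univ p, hdiff.differentiableOn,
    ?_, ?_⟩
  · -- the derivative in the last direction
    set g : (Fin (n + 1) → ℂ) → (Fin 1 → ℂ) := fun z _ => MvPolynomial.eval z (FF f) with hg
    set e : Fin (n + 1) → ℂ := mk2 0 1 with he
    have h1 : ∀ t : ℂ, g (p + t • e) = fun _ => (cu p + t) * MvPolynomial.eval (cz p) f - 1 := by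
      intro t
      funext _
      change MvPolynomial.eval (p + t • e) (FF f) = _
      rw [eval_FF]
      have e1 : cz (p + t • e) = cz p := by
        funext k
        have := congrFun (cz_mk2 (0 : Fin n → ℂ) 1) k
        change p _ + t * cz e k = p _
        rw [he, this]
        simp
      have e3 : cu (p + t • e) = cu p + t := by
        change p _ + t * cu e = p _ + t
        rw [he, cu_mk2]
        simp
      rw [e1, e3]
    have h2 : HasFDerivAt g (fderiv ℂ g p) p := (hdiff p).hasFDerivAt
    have h3 : HasDerivAt (fun t : ℂ => p + t • e) e 0 := by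
      have h4 := ((hasDerivAt_id (0 : ℂ)).smul_const e).const_add p
      simpa using h4
    have h5 : HasDerivAt (fun t : ℂ => g (p + t • e)) (fderiv ℂ g p e) 0 := by
      have h6 : HasFDerivAt g (fderiv ℂ g p) (p + (0 : ℂ) • e) := by simpa using h2
      exact h6.comp_hasDerivAt (0 : ℂ) h3
    have h7 : HasDerivAt (fun t : ℂ => (fun _ : Fin 1 => (cu p + t) * MvPolynomial.eval (cz p) f - 1))
        (fun _ => MvPolynomial.eval (cz p) f) 0 := by
      rw [hasDerivAt_pi]
      intro _
      have h8 := (((hasDerivAt_id (0 : ℂ)).const_add (cu p)).mul_const (MvPolynomial.eval (cz p) f)).sub_const 1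
      simpa using h8
    have h9 : fderiv ℂ g p e = fun _ => MvPolynomial.eval (cz p) f := by
      have h10 : (fun t : ℂ => g (p + t • e)) = fun t => (fun _ : Fin 1 => (cu p + t) * MvPolynomial.eval (cz p) f - 1) :=
        funext h1
      rw [h10] at h5
      exact h5.unique h7
    intro y
    refine ⟨(y 0 / MvPolynomial.eval (cz p) f) • e, ?_⟩
    rw [map_smul, h9]
    funext i
    rw [Subsingleton.elim i 0]
    change y 0 / MvPolynomial.eval (cz p) f * MvPolynomial.eval (cz p) f = y 0
    exact div_mul_cancel₀ _ hne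
  · intro z _
    constructor
    · intro h
      funext _
      exact h (FF f) rfl
    · rintro h g rfl
      exact congrFun h 0

end H13K
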