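import Pool.Agent.Lib.H13K.K4
import Pool.Agent.Lib.H13K.K2
import Pool.Agent.Lib.H13K.T6a

set_option autoImplicit false

open scoped unitInterval Polynomial

namespace H13K

private theorem k5_cont (p : ℂ[X][X]) {T : Type} [TopologicalSpace T] {z u : T → ℂ}
    (hz : Continuous z) (hu : Continuous u) : Continuous fun t => p.evalEval (z t) (u t) := by
  induction p using Polynomial.induction_on' with
  | add p q hp hq =>
    simp only [Polynomial.evalEval_add]
    exact Continuous.add hp hq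
  | monomial n a =>
    have h : ∀ t, (Polynomial.monomial n a).evalEval (z t) (u t) = a.eval (z t) * u t ^ n := by
      intro t
      rw [← Polynomial.C_mul_X_pow_eq_monomial, Polynomial.evalEval_mul, Polynomial.evalEval_C,
        Polynomial.evalEval_pow, Polynomial.evalEval_X]
    simp only [h]
    exact (a.continuous.comp hz).mul (hu.pow n)

private theorem k5_log (f : C(ℝ, ℂ)) (hf : ∀ t, f t ≠ 0) :
    ∃ ℓ : C(ℝ, ℂ), ∀ t, Complex.exp (ℓ t) = f t := by
  have := Complex.isCoveringMapOn_exp.existsUnique_continuousMap_lifts f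
    (a₀ := (0 : ℝ)) (e₀ := Complex.log (f 0)) (Complex.exp_log (hf 0)) (fun t => by simpa using hf t)
  obtain ⟨ℓ, ⟨-, h⟩, -⟩ := this
  exact ⟨ℓ, fun t => congrFun h t⟩

/-- two logarithms of the same function differ by a constant -/
private theorem k5_const {T : Type} [TopologicalSpace T] [PreconnectedSpace T] (ℓ m : C(T, ℂ))
    (h : ∀ t, Complex.exp (ℓ t) = Complex.exp (m t)) (s t : T) : ℓ t - ℓ s = m t - m s := by
  have hc : Continuous fun x => ℓ s - m s + m x := by fun_prop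
  have hs : Complex.exp (ℓ s - m s) = 1 := by
    rw [Complex.exp_sub, h s, div_self (Complex.exp_ne_zero _)]
  have h2 := Complex.isCoveringMap_exp.eq_of_comp_eq (g₁ := ℓ) (g₂ := fun x => ℓ s - m s + m x)
    ℓ.continuous hc (by
      funext x
      apply Subtype.ext
      show Complex.exp (ℓ x) = Complex.exp (ℓ s - m s + m x)
      rw [Complex.exp_add, hs, one_mul, h x]) s (by ring)
  have h3 := congrFun h2 t
  rw [h3]
  ring

private theorem k5_pick {d : ℕ} (u : Fin d → C(ℝ, ℂ))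
    (hinj : ∀ t, Function.Injective (fun a => u a t)) (f : C(ℝ, ℂ)) (hf : ∀ t, ∃ a, f t = u a t) :
    ∃ b, ∀ t, f t = u b t := by
  obtain ⟨b, hb⟩ := hf 0
  refine ⟨b, ?_⟩
  have hcl : ∀ c, IsClosed {t : ℝ | f t = u c t} := fun c =>
    isClosed_eq f.continuous (u c).continuous
  have hop : IsOpen {t : ℝ | f t = u b t} := by
    rw [← isClosed_compl_iff]
    have : {t : ℝ | f t = u b t}ᶜ = ⋃ c ∈ (Finset.univ.erase b : Finset (Fin d)),
        {t : ℝ | f t = u c t} := by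
      ext t
      simp only [Set.mem_compl_iff, Set.mem_ofPred_eq, Set.mem_iUnion, Finset.mem_erase,
        Finset.mem_univ, and_true, exists_prop]
      constructor
      · intro h
        obtain ⟨c, hc⟩ := hf t
        exact ⟨c, fun hcb => h (hcb ▸ hc), hc⟩
      · rintro ⟨c, hcb, hc⟩ h
        exact hcb (hinj t (hc.symm.trans h))
    rw [this]
    exact Set.Finite.isClosed_biUnion (Finset.finite_toSet _) fun c _ => hcl c
  have hcp : IsClopen {t : ℝ | f t = u b t} := ⟨hcl b, hop⟩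
  have huniv := hcp.eq_univ ⟨0, hb⟩
  intro t
  have : t ∈ {t : ℝ | f t = u b t} := by rw [huniv]; trivial
  exact this

/-- A closed loop on the curve p = 0 along which q has non-zero winding number.
Proof: R from `exists_res`, R (z₀) = 0.  Small ε: r and R do not vanish at z₀ + ε e(t)
(`log_poly` for R(X + z₀) gives a logarithm of R(z₀ + ε e(t)) with variation 2 pi i k, k ≥ 1 the
multiplicity).  z t = z₀ + ε exp(2 pi i t) on ℝ, roots u a (`roots_along`); u a (t + 1) = u (σ a) t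
for a permutation σ (the lifts t ↦ u a (t + 1) are continuous roots over the same path, labels are
locally constant), N = orderOf σ > 0, so u a (t + N) = u a t.  q (z t, u a t) ≠ 0 (R ≠ 0 there), let
ℓ a be a continuous logarithm on ℝ.  Sum over a of (ℓ a 1 - ℓ a 0) = variation of the logarithm of
R (z t) = 2 pi i k ≠ 0, and sum over a of (ℓ a N - ℓ a 0) = N times that (ℓ a (t + 1) and ℓ (σ a) t
differ by a constant).  So ℓ a N ≠ ℓ a 0 for some a: the loop t ↦ (z (N t), u a (N t)). -/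
theorem root_loop (p q : ℂ[X][X]) (hp : p.Monic) (hq : q.Monic) (hpi : Irreducible p)
    (hqi : Irreducible q) (hpq : p ≠ q) (r : ℂ[X]) (hr : r ≠ 0) (hs : Simple p r) (z₀ w₀ : ℂ)
    (h1 : p.evalEval z₀ w₀ = 0) (h2 : q.evalEval z₀ w₀ = 0) :
    ∃ z u : C(I, ℂ), z 0 = z 1 ∧ u 0 = u 1 ∧
      (∀ t, r.eval (z t) ≠ 0 ∧ p.evalEval (z t) (u t) = 0) ∧
      ∃ ℓ : C(I, ℂ), (∀ t, Complex.exp (ℓ t) = q.evalEval (z t) (u t)) ∧ ℓ 1 ≠ ℓ 0 := by
  obtain ⟨R, hR0, hR1, hR2⟩ := exists_res p q hp hq hpi hqi hpq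
  have hRz : R.eval z₀ = 0 := hR2 z₀ w₀ h1 h2
  have hne : ∀ A : ℂ[X], A ≠ 0 → A.comp (Polynomial.X + Polynomial.C z₀) ≠ 0 := fun A hA =>
    (Polynomial.comp_X_add_C_ne_zero_iff).2 hA
  have hev : ∀ (A : ℂ[X]) (s : ℂ), (A.comp (Polynomial.X + Polynomial.C z₀)).eval s =
      A.eval (z₀ + s) := by
    intro A s
    rw [Polynomial.eval_comp]
    simp [add_comm]
  obtain ⟨ε₀, hε₀, hlog⟩ := log_poly _ (hne R hR0)
  obtain ⟨ε₁, hε₁, hlog1⟩ := log_poly _ (hne r hr)
  obtain ⟨ε, hε, hεa, hεb⟩ : ∃ ε : ℝ, 0 < ε ∧ ε < ε₀ ∧ ε < ε₁ := by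
    refine ⟨min ε₀ ε₁ / 2, by positivity, ?_, ?_⟩
    · have := min_le_left ε₀ ε₁
      linarith
    · have := min_le_right ε₀ ε₁
      linarith
  obtain ⟨m, hm1, hm2⟩ := hlog ε hε hεa
  obtain ⟨m', hm1', -⟩ := hlog1 ε hε hεb
  have hk : 0 < (R.comp (Polynomial.X + Polynomial.C z₀)).rootMultiplicity 0 := by
    rw [Polynomial.rootMultiplicity_pos (hne R hR0), Polynomial.IsRoot, hev, add_zero]
    exact hRz
  let z : C(ℝ, ℂ) := ⟨fun t => z₀ + (ε : ℂ) * Complex.exp (2 * Real.pi * (t : ℝ) * Complex.I),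
    by fun_prop⟩
  have hzt : ∀ t : ℝ, z t = z₀ + (ε : ℂ) * Complex.exp (2 * Real.pi * (t : ℝ) * Complex.I) :=
    fun t => rfl
  have hper : Function.Periodic z 1 := by
    intro t
    rw [hzt, hzt]
    congr 2
    push_cast
    rw [show (2 * Real.pi * ((t : ℂ) + 1) * Complex.I : ℂ) =
      2 * Real.pi * (t : ℂ) * Complex.I + 2 * Real.pi * Complex.I by ring, Complex.exp_add,
      Complex.exp_two_pi_mul_I, mul_one]
  have hpern : ∀ (n : ℕ) (t : ℝ), z (t + n) = z t := by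
    intro n t
    have := (hper.nat_mul n) t
    rwa [mul_one] at this
  have hnv : ∀ A : ℂ[X], (∀ t : I, (A.comp (Polynomial.X + Polynomial.C z₀)).eval
      ((ε : ℂ) * Complex.exp (2 * Real.pi * (t : ℝ) * Complex.I)) ≠ 0) → ∀ t, A.eval (z t) ≠ 0 := by
    intro A hA t
    obtain ⟨y, hy, hty⟩ := hper.exists_mem_Ico₀ one_pos t
    rw [hty, hzt, ← hev]
    exact hA ⟨y, hy.1, hy.2.le⟩
  have hz : ∀ t, r.eval (z t) ≠ 0 := hnv r fun t => by rw [← hm1']; exact Complex.exp_ne_zero _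
  have hRt : ∀ t, R.eval (z t) ≠ 0 := hnv R fun t => by rw [← hm1]; exact Complex.exp_ne_zero _
  obtain ⟨u, hinj, hprod⟩ := roots_along p hp r hs z hz
  have hpe : ∀ (t : ℝ) (w : ℂ), p.evalEval (z t) w = ∏ a, (w - u a t) := by
    intro t w
    have := congrArg (Polynomial.eval w) (hprod t)
    rw [Polynomial.eval_map, Polynomial.eval₂_evalRingHom, Polynomial.eval_prod] at this
    simpa using this
  have hroot : ∀ a t, p.evalEval (z t) (u a t) = 0 := by
    intro a t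
    rw [hpe]
    exact Finset.prod_eq_zero (Finset.mem_univ a) (sub_self _)
  have hRq : ∀ t, R.eval (z t) = ∏ a, q.evalEval (z t) (u a t) := fun t =>
    hR1 (z t) (fun a => u a t) (hprod t)
  have hq0 : ∀ a t, q.evalEval (z t) (u a t) ≠ 0 := by
    intro a t h
    apply hRt t
    rw [hRq]
    exact Finset.prod_eq_zero (Finset.mem_univ a) h
  -- the permutation
  have hsh : ∀ a, ∃ b, ∀ t, u a (t + 1) = u b t := by
    intro a
    have := k5_pick u hinj ((u a).comp ⟨fun t : ℝ => t + 1, by fun_prop⟩) (by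
      intro t
      have h3 : p.evalEval (z t) (u a (t + 1)) = 0 := by
        rw [← hper t]
        exact hroot a (t + 1)
      rw [hpe] at h3
      obtain ⟨b, -, hb⟩ := Finset.prod_eq_zero_iff.1 h3
      exact ⟨b, sub_eq_zero.1 hb⟩)
    exact this
  choose τ₀ hτ₀ using hsh
  have hτi : Function.Injective τ₀ := by
    intro a b hab
    apply hinj 1
    have ha := hτ₀ a 0
    have hb := hτ₀ b 0
    rw [zero_add] at ha hb
    show u a 1 = u b 1
    rw [ha, hb, hab]
  let τ : Equiv.Perm (Fin p.natDegree) :=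
    Equiv.ofBijective τ₀ (Finite.injective_iff_bijective.1 hτi)
  have hτ : ∀ a t, u a (t + 1) = u (τ a) t := hτ₀
  have hit : ∀ (n : ℕ) (a : Fin p.natDegree) (t : ℝ), u a (t + n) = u ((τ ^ n) a) t := by
    intro n
    induction n with
    | zero => intro a t; simp
    | succ n ih =>
      intro a t
      have : t + ((n + 1 : ℕ) : ℝ) = (t + n) + 1 := by push_cast; ring
      rw [this, hτ, ih, pow_succ, Equiv.Perm.mul_apply]
  -- the logarithms
  let f : Fin p.natDegree → C(ℝ, ℂ) := fun a =>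
    ⟨fun t => q.evalEval (z t) (u a t), k5_cont q z.continuous (u a).continuous⟩
  have hf : ∀ a t, f a t = q.evalEval (z t) (u a t) := fun a t => rfl
  have hlg : ∀ a, ∃ ℓ : C(ℝ, ℂ), ∀ t, Complex.exp (ℓ t) = f a t := fun a =>
    k5_log (f a) (hq0 a)
  choose ℓ hℓ using hlg
  have hstep : ∀ (a : Fin p.natDegree) (n : ℕ), ℓ a ((n + 1 : ℕ) : ℝ) - ℓ a (n : ℝ) =
      ℓ ((τ ^ n) a) 1 - ℓ ((τ ^ n) a) 0 := by
    intro a n
    have := k5_const ((ℓ a).comp ⟨fun t : ℝ => t + n, by fun_prop⟩) (ℓ ((τ ^ n) a)) (by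
      intro t
      show Complex.exp (ℓ a (t + n)) = _
      rw [hℓ, hℓ, hf, hf, hpern, hit]) 0 1
    have h0 : ℓ a ((n + 1 : ℕ) : ℝ) = ((ℓ a).comp ⟨fun t : ℝ => t + n, by fun_prop⟩) 1 := by
      show _ = ℓ a (1 + n)
      congr 1
      push_cast
      ring
    have h00 : ℓ a (n : ℝ) = ((ℓ a).comp ⟨fun t : ℝ => t + n, by fun_prop⟩) 0 := by
      show _ = ℓ a (0 + n)
      rw [zero_add]
    rw [h0, h00, this]
  have htel : ∀ (a : Fin p.natDegree) (n : ℕ), ℓ a (n : ℝ) - ℓ a 0 =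
      ∑ k ∈ Finset.range n, (ℓ ((τ ^ k) a) 1 - ℓ ((τ ^ k) a) 0) := by
    intro a n
    rw [← Finset.sum_congr rfl fun k _ => hstep a k, Finset.sum_range_sub (fun k : ℕ => ℓ a (k : ℝ))]
    simp
  have hsum : ∑ a, (ℓ a 1 - ℓ a 0) = 2 * Real.pi * Complex.I *
      ((R.comp (Polynomial.X + Polynomial.C z₀)).rootMultiplicity 0 : ℂ) := by
    let L : C(I, ℂ) := ⟨fun t => ∑ a, ℓ a (t : ℝ), by fun_prop⟩
    have := k5_const L m (by
      intro t
      rw [hm1, hev, ← hzt]
      show Complex.exp (∑ a, ℓ a (t : ℝ)) = _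
      rw [Complex.exp_sum, hRq]
      exact Finset.prod_congr rfl fun a _ => hℓ a t) 0 1
    rw [hm2] at this
    rw [← this, Finset.sum_sub_distrib]
    rfl
  have htot : ∀ n : ℕ, ∑ a, (ℓ a (n : ℝ) - ℓ a 0) = n * ∑ a, (ℓ a 1 - ℓ a 0) := by
    intro n
    rw [Finset.sum_congr rfl fun a _ => htel a n, Finset.sum_comm]
    have : ∀ k ∈ Finset.range n, ∑ a, (ℓ ((τ ^ k) a) 1 - ℓ ((τ ^ k) a) 0) =
        ∑ a, (ℓ a 1 - ℓ a 0) := fun k _ =>
      Equiv.sum_comp (τ ^ k) (fun a => ℓ a 1 - ℓ a 0)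
    rw [Finset.sum_congr rfl this, Finset.sum_const, Finset.card_range, nsmul_eq_mul]
  have hN : 0 < orderOf τ := orderOf_pos τ
  set N := orderOf τ with hNdef
  have hτN : τ ^ N = 1 := pow_orderOf_eq_one τ
  obtain ⟨a, ha⟩ : ∃ a, ℓ a (N : ℝ) ≠ ℓ a 0 := by
    by_contra hcon0
    have hcon : ∀ a, ℓ a (N : ℝ) = ℓ a 0 := fun a => by_contra fun h => hcon0 ⟨a, h⟩
    have h3 := htot N
    rw [Finset.sum_eq_zero fun a _ => by rw [hcon a, sub_self], hsum] at h3
    have hne1 : (N : ℂ) ≠ 0 := by exact_mod_cast hN.ne'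
    have hne2 : ((R.comp (Polynomial.X + Polynomial.C z₀)).rootMultiplicity 0 : ℂ) ≠ 0 := by
      exact_mod_cast hk.ne'
    have hne3 : (2 * Real.pi * Complex.I : ℂ) ≠ 0 := Complex.two_pi_I_ne_zero
    exact mul_ne_zero hne1 (mul_ne_zero hne3 hne2) h3.symm
  let sc : C(I, ℝ) := ⟨fun t => (N : ℝ) * (t : ℝ), by fun_prop⟩
  have hsc0 : sc 0 = 0 := by
    show (N : ℝ) * ((0 : I) : ℝ) = 0
    simp
  have hsc1 : sc 1 = N := by
    show (N : ℝ) * ((1 : I) : ℝ) = N
    simp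
  refine ⟨z.comp sc, (u a).comp sc, ?_, ?_, fun t => ⟨hz _, hroot a _⟩, (ℓ a).comp sc,
    fun t => hℓ a _, ?_⟩
  · show z (sc 0) = z (sc 1)
    rw [hsc0, hsc1]
    have := hpern N 0
    rw [zero_add] at this
    exact this.symm
  · show u a (sc 0) = u a (sc 1)
    rw [hsc0, hsc1]
    have := hit N a 0
    rw [zero_add, hτN, Equiv.Perm.one_apply] at this
    exact this.symm
  · show ℓ a (sc 1) ≠ ℓ a (sc 0)
    rw [hsc0, hsc1]
    exact ha

end H13K
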