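import Pool.Agent.Lib.H13K.Defs2

set_option autoImplicit false

namespace H13K

private def Q2_eq (A B : Type) [Group A] [Group B] [Subsingleton A] [Subsingleton B] : A ≃* B where
  toFun _ := 1
  invFun _ := 1
  left_inv _ := Subsingleton.elim _ _
  right_inv _ := Subsingleton.elim _ _
  map_mul' _ _ := Subsingleton.elim _ _

private theorem Q2_triv (A : Type) [Group A] [Subsingleton A] : IsQP A := by
  refine ⟨0, Set.univ, ⟨∅, ?_⟩, ?_, ⟨⟨0, trivial⟩, ?_⟩⟩
  · ext z
    simp
  · intro p _
    refine ⟨0, fun _ => 0, Set.univ, isOpen_univ, trivial, differentiableOn_const _, ?_, ?_⟩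
    · intro y
      exact ⟨0, Subsingleton.elim _ _⟩
    · intro z _
      exact ⟨fun _ => Subsingleton.elim _ _, fun _ => trivial⟩
  · haveI : ContractibleSpace (Set.univ : Set (Fin 0 → ℂ)) :=
      (convex_univ (𝕜 := ℝ) (E := Fin 0 → ℂ)).contractibleSpace ⟨0, trivial⟩
    exact ⟨Q2_eq _ _⟩

private theorem Q2_trans {G H : Type} [Group G] [Group H] (e : G ≃* H) (hG : IsQP G) : IsQP H := by
  obtain ⟨n, S, h1, h2, x, ⟨f⟩⟩ := hG
  exact ⟨n, S, h1, h2, x, ⟨f.trans e⟩⟩

/-- If one factor of a free product is trivial and the product is quasi-projective, then both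
factors are quasi-projective: the other factor is isomorphic to the product; the trivial group is
the fundamental group of a point (n = 0, P = ∅). -/
theorem qp_factors (G A B : Type) [Group G] [Group A] [Group B] (e : G ≃* Monoid.Coprod A B)
    (h : Subsingleton A ∨ Subsingleton B) (hG : IsQP G) : IsQP A ∧ IsQP B := by
  rcases h with h | h
  · refine ⟨Q2_triv A, Q2_trans (e.trans ?_) hG⟩
    exact (MulEquiv.coprodCongr (Q2_eq A PUnit.{1}) (MulEquiv.refl B)).trans (MulEquiv.punitCoprod (M := B))
  · refine ⟨Q2_trans (e.trans ?_) hG, Q2_triv B⟩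
    exact (MulEquiv.coprodCongr (MulEquiv.refl A) (Q2_eq B PUnit.{1})).trans (MulEquiv.coprodPUnit (M := A))

end H13K
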