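import Pool.Agent.Lib.H13K.Defs

set_option autoImplicit false

namespace H13K

/-- Data of the covering: `lam u` is the frame over the member `u` of the family, `c u v` the
locally constant transition functions. -/
structure Core {X Y : Type} [TopologicalSpace X] [TopologicalSpace Y] (j : C(X, Y)) {H : Type}
    [Group H] (Φ : PF X H) (U : Set (Set Y)) where
  lam : Set Y → X → H
  lam_path : ∀ u ∈ U, ∀ (x x' : X) (p : Path x x'), (∀ t, j (p t) ∈ u) →
    Φ.val p = lam u x' * (lam u x)⁻¹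
  c : Set Y → Set Y → Y → H
  c_spec : ∀ u ∈ U, ∀ v ∈ U, ∀ y, y ∈ u → y ∈ v → ∃ w ∈ U, y ∈ w ∧ w ⊆ u ∩ v ∧
    ∀ x, j x ∈ w → (lam u x)⁻¹ * lam v x = c u v y

/-- all points of a composed path are points of one of the parts -/
private theorem forall_trans {X Y : Type} [TopologicalSpace X] (j : X → Y) {u : Set Y}
    {x y z : X} (p : Path x y) (q : Path y z) (hp : ∀ t, j (p t) ∈ u) (hq : ∀ t, j (q t) ∈ u) :
    ∀ t, j (p.trans q t) ∈ u := by
  intro t
  have h : p.trans q t ∈ Set.range (p.trans q) := ⟨t, rfl⟩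
  rw [Path.trans_range] at h
  rcases h with ⟨s, hs⟩ | ⟨s, hs⟩
  · rw [← hs]
    exact hp s
  · rw [← hs]
    exact hq s

private theorem forall_symm {X Y : Type} [TopologicalSpace X] (j : X → Y) {u : Set Y}
    {x y : X} (p : Path x y) (hp : ∀ t, j (p t) ∈ u) : ∀ t, j (p.symm t) ∈ u := by
  intro t
  have h : p.symm t ∈ Set.range p.symm := ⟨t, rfl⟩
  rw [Path.symm_range] at h
  rcases h with ⟨s, hs⟩
  rw [← hs]
  exact hp s

/-- Existence of the core.
Proof: choose a point x_u in each u of U; lam u x = Φ.val of a path from x_u to x inside u.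
For a path p from x to x' inside u: the loop (path to x) p (path to x')^-1 is killed.
For y in u ∩ v choose w in U with y in w ⊆ u ∩ v; for x, x' in w joined by p inside w:
lam u x' = Φ p * lam u x, lam v x' = Φ p * lam v x, so (lam u x)⁻¹ * lam v x is constant on w;
for two such w, w' take w'' ⊆ w ∩ w' around y and a point of X in it. -/
theorem exists_core {X Y : Type} [TopologicalSpace X] [TopologicalSpace Y] (j : C(X, Y))
    {H : Type} [Group H] (Φ : PF X H) (U : Set (Set Y)) (hopen : ∀ u ∈ U, IsOpen u)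
    (hbasis : ∀ (y : Y) (o : Set Y), IsOpen o → y ∈ o → ∃ u ∈ U, y ∈ u ∧ u ⊆ o)
    (hne : ∀ u ∈ U, ∃ x : X, j x ∈ u)
    (hpc : ∀ u ∈ U, ∀ x x' : X, j x ∈ u → j x' ∈ u → ∃ p : Path x x', ∀ t, j (p t) ∈ u)
    (hkill : ∀ u ∈ U, ∀ (x : X) (p : Path x x), (∀ t, j (p t) ∈ u) → Φ.val p = 1) :
    Nonempty (Core j Φ U) := by
  classical
  let x0 : ∀ u ∈ U, X := fun u hu => (hne u hu).choose
  have hx0 : ∀ u (hu : u ∈ U), j (x0 u hu) ∈ u := fun u hu => (hne u hu).choose_spec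
  let pt : ∀ u (hu : u ∈ U) (x : X) (_hx : j x ∈ u), Path (x0 u hu) x := fun u hu x hx =>
    (hpc u hu (x0 u hu) x (hx0 u hu) hx).choose
  have hpt : ∀ u (hu : u ∈ U) (x : X) (hx : j x ∈ u), ∀ t, j (pt u hu x hx t) ∈ u :=
    fun u hu x hx => (hpc u hu (x0 u hu) x (hx0 u hu) hx).choose_spec
  let lam : Set Y → X → H := fun u x =>
    if h : u ∈ U ∧ j x ∈ u then Φ.val (pt u h.1 x h.2) else 1
  have hlam : ∀ u (hu : u ∈ U) (x : X) (hx : j x ∈ u), lam u x = Φ.val (pt u hu x hx) := by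
    intro u hu x hx
    exact dif_pos ⟨hu, hx⟩
  have hpath : ∀ u ∈ U, ∀ (x x' : X) (p : Path x x'), (∀ t, j (p t) ∈ u) →
      Φ.val p = lam u x' * (lam u x)⁻¹ := by
    intro u hu x x' p hp
    have hx : j x ∈ u := by
      have h := hp 0
      rwa [p.source] at h
    have hx' : j x' ∈ u := by
      have h := hp 1
      rwa [p.target] at h
    rw [hlam u hu x hx, hlam u hu x' hx']
    have h1 := hkill u hu (x0 u hu) (((pt u hu x hx).trans p).trans (pt u hu x' hx').symm)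
      (forall_trans j _ _ (forall_trans j _ _ (hpt u hu x hx) hp)
        (forall_symm j _ (hpt u hu x' hx')))
    rw [Φ.trans, Φ.trans, Φ.val_symm, inv_mul_eq_one] at h1
    rw [h1, mul_inv_cancel_right]
  have hw : ∀ u ∈ U, ∀ v ∈ U, ∀ y, y ∈ u → y ∈ v → ∃ w ∈ U, y ∈ w ∧ w ⊆ u ∩ v := by
    intro u hu v hv y hyu hyv
    exact hbasis y (u ∩ v) ((hopen u hu).inter (hopen v hv)) ⟨hyu, hyv⟩
  have hc : ∀ u v : Set Y, ∀ y : Y, ∃ c : H, (u ∈ U → v ∈ U → y ∈ u → y ∈ v →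
      ∃ w ∈ U, y ∈ w ∧ w ⊆ u ∩ v ∧ ∀ x, j x ∈ w → (lam u x)⁻¹ * lam v x = c) := by
    intro u v y
    by_cases h : u ∈ U ∧ v ∈ U ∧ y ∈ u ∧ y ∈ v
    · obtain ⟨hu, hv, hyu, hyv⟩ := h
      obtain ⟨w, hwU, hyw, hwsub⟩ := hw u hu v hv y hyu hyv
      refine ⟨(lam u (x0 w hwU))⁻¹ * lam v (x0 w hwU), fun _ _ _ _ => ⟨w, hwU, hyw, hwsub, ?_⟩⟩
      intro x hx
      have h1 := hpath u hu (x0 w hwU) x (pt w hwU x hx) (fun t => (hwsub (hpt w hwU x hx t)).1)
      have h2 := hpath v hv (x0 w hwU) x (pt w hwU x hx) (fun t => (hwsub (hpt w hwU x hx t)).2)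
      have h3 : lam u x = Φ.val (pt w hwU x hx) * lam u (x0 w hwU) := by
        rw [h1, inv_mul_cancel_right]
      have h4 : lam v x = Φ.val (pt w hwU x hx) * lam v (x0 w hwU) := by
        rw [h2, inv_mul_cancel_right]
      rw [h3, h4]
      group
    · exact ⟨1, fun hu hv hyu hyv => absurd ⟨hu, hv, hyu, hyv⟩ h⟩
  choose c hcs using hc
  exact ⟨{ lam := lam, lam_path := hpath, c := c,
           c_spec := fun u hu v hv y hyu hyv => hcs u v y hu hv hyu hyv }⟩

end H13K
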