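import Pool.Agent.Lib.H13K.Defs2
import Pool.Agent.Lib.H13K.T1b
import Pool.Agent.Lib.H13K.T3

set_option autoImplicit false

namespace H13K

variable {E : Type} [NormedAddCommGroup E] [NormedSpace ℝ E] {ι : Type}

/-- The family of the small open sets of `YY g`: balls in `XX g` and separated tubes. -/
def T5a_famU (g : ι → C(E, ℂ)) : Set (Set (YY g)) :=
  {u | (∃ (c : E × ℂ) (r : ℝ), 0 < r ∧ Metric.ball c r ⊆ XX g ∧
      u = (Subtype.val : YY g → E × ℂ) ⁻¹' Metric.ball c r) ∨
    ∃ (i : ι) (z₀ : E) (r ε : ℝ), 0 < r ∧ 0 < ε ∧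
      (∀ z, ‖z - z₀‖ < r → ∀ j, j ≠ i → ε ≤ ‖g i z - g j z‖) ∧
      u = (Subtype.val : YY g → E × ℂ) ⁻¹' tube g i z₀ r ε}

omit [NormedSpace ℝ E] in
theorem T5a_isOpen_tube (g : ι → C(E, ℂ)) (i : ι) (z₀ : E) (r ε : ℝ) : IsOpen (tube g i z₀ r ε) := by
  have h1 : Continuous fun p : E × ℂ => ‖p.1 - z₀‖ := by fun_prop
  have h2 : Continuous fun p : E × ℂ => ‖p.2 - g i p.1‖ := by fun_prop
  exact (isOpen_lt h1 continuous_const).inter (isOpen_lt h2 continuous_const)

omit [NormedSpace ℝ E] in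
theorem T5a_isOpen_XX [Finite ι] (g : ι → C(E, ℂ)) : IsOpen (XX g) := by
  have h : XX g = ⋂ i, {p : E × ℂ | p.2 ≠ g i p.1} := by
    ext p
    simp [XX]
  rw [h]
  refine isOpen_iInter_of_finite fun i => ?_
  exact isOpen_ne_fun continuous_snd ((g i).continuous.comp continuous_fst)

omit [NormedSpace ℝ E] in
theorem T5a_famU_basis [Finite ι] (g : ι → C(E, ℂ)) (y : YY g) (o : Set (YY g)) (ho : IsOpen o)
    (hy : y ∈ o) : ∃ u ∈ T5a_famU g, y ∈ u ∧ u ⊆ o := by
  obtain ⟨O, hO, rfl⟩ := isOpen_induced_iff.1 ho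
  have hyO : y.1 ∈ O := hy
  by_cases hX : y.1 ∈ XX g
  · obtain ⟨r, hr, hb⟩ := Metric.isOpen_iff.1 (hO.inter (T5a_isOpen_XX g)) y.1 ⟨hyO, hX⟩
    refine ⟨_, Or.inl ⟨y.1, r, hr, fun p hp => (hb hp).2, rfl⟩, Metric.mem_ball_self hr,
      fun p hp => (hb hp).1⟩
  · have hX' : ∃ i, y.1.2 = g i y.1.1 := by
      by_contra h
      push Not at h
      exact hX h
    obtain ⟨i, hi⟩ := hX'
    obtain ⟨ρ, hρ, hb⟩ := Metric.isOpen_iff.1 hO y.1 hyO
    have hpos : ∀ j, j ≠ i → 0 < ‖g i y.1.1 - g j y.1.1‖ := by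
      intro j hj
      rw [norm_pos_iff, sub_ne_zero]
      intro h0
      exact y.2 i j hj.symm ⟨hi, hi.trans h0⟩
    have h1 : ∀ᶠ ε in nhdsWithin (0 : ℝ) (Set.Ioi 0), 0 < ε ∧ ε < ρ / 2 ∧
        ∀ j, j ≠ i → ε < ‖g i y.1.1 - g j y.1.1‖ := by
      refine Filter.Eventually.and self_mem_nhdsWithin (Filter.Eventually.and ?_ ?_)
      · exact nhdsWithin_le_nhds (Iio_mem_nhds (half_pos hρ))
      · rw [Filter.eventually_all]
        intro j
        by_cases hj : j = i
        · exact Filter.Eventually.of_forall fun ε h => absurd hj h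
        · have h0 : ∀ᶠ ε in nhdsWithin (0 : ℝ) (Set.Ioi 0), ε < ‖g i y.1.1 - g j y.1.1‖ :=
            nhdsWithin_le_nhds (Iio_mem_nhds (hpos j hj))
          exact h0.mono fun ε h _ => h
    obtain ⟨ε, hε, hερ, hεj⟩ := h1.exists
    have h2 : ∀ᶠ z in nhds y.1.1, ‖g i z - g i y.1.1‖ < ρ / 2 ∧
        ∀ j, j ≠ i → ε < ‖g i z - g j z‖ := by
      refine Filter.Eventually.and ?_ ?_
      · have hc : Continuous fun z => ‖g i z - g i y.1.1‖ := by fun_prop
        refine hc.continuousAt.eventually_lt continuousAt_const ?_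
        simpa using half_pos hρ
      · rw [Filter.eventually_all]
        intro j
        by_cases hj : j = i
        · exact Filter.Eventually.of_forall fun ε h => absurd hj h
        · have hc : Continuous fun z => ‖g i z - g j z‖ := by fun_prop
          exact (continuousAt_const.eventually_lt hc.continuousAt (hεj j hj)).mono fun z h _ => h
    obtain ⟨r, hr, hr2⟩ := Metric.eventually_nhds_iff.1 h2
    refine ⟨_, Or.inr ⟨i, y.1.1, min r ρ, ε, lt_min hr hρ, hε, fun z hz j hj => ?_, rfl⟩, ?_, ?_⟩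
    · refine ((hr2 ?_).2 j hj).le
      rw [dist_eq_norm]
      exact hz.trans_le (min_le_left _ _)
    · refine ⟨?_, ?_⟩
      · simpa using ⟨hr, hρ⟩
      · rw [hi]
        simpa using hε
    · intro p hp
      obtain ⟨hp1, hp2⟩ := hp
      apply hb
      rw [Metric.mem_ball, Prod.dist_eq, max_lt_iff]
      constructor
      · rw [dist_eq_norm]
        exact hp1.trans_le (min_le_right _ _)
      · rw [dist_eq_norm, hi]
        have h3 := (hr2 (y := p.1.1) (by
          rw [dist_eq_norm]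
          exact hp1.trans_le (min_le_left _ _))).1
        calc ‖p.1.2 - g i y.1.1‖ = ‖(p.1.2 - g i p.1.1) + (g i p.1.1 - g i y.1.1)‖ := by
              congr 1
              ring
          _ ≤ ‖p.1.2 - g i p.1.1‖ + ‖g i p.1.1 - g i y.1.1‖ := norm_add_le _ _
          _ < ρ / 2 + ρ / 2 := add_lt_add (hp2.trans hερ) h3
          _ = ρ := add_halves ρ

/-- A functional that kills the meridians only depends on the homotopy class in `YY g`.
Proof: `extend` with j = inclXY g and the family U of all preimages in YY g of (a) nonempty open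
convex sets b ⊆ XX g (path connected, loops inside are null homotopic in b), (b) tubes
tube g i z₀ r ε with 0 < r, 0 < ε and ε ≤ ‖g i z - g j z‖ for ‖z - z₀‖ < r, j ≠ i (`tube_pc`,
`tube_kill`).  Basis: a point of XX g has a small ball inside the open set XX g ∩ O; a point
(z₀, g i z₀) of YY g has g j z₀ ≠ g i z₀ for j ≠ i, so small r, ε work (continuity, ι finite).
Nonempty: (z₀, g i z₀ + ε / 2). -/
theorem eq_of_homotopic_YY [Finite ι] (g : ι → C(E, ℂ)) {H : Type} [Group H]
    (Φ : PF (XX g) H) (hk : Kills Φ) {x x' : XX g} (p q : Path x x')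
    (h : (p.map (inclXY g).continuous).Homotopic (q.map (inclXY g).continuous)) :
    Φ.val p = Φ.val q := by
  refine extend (inclXY g) Φ (T5a_famU g) ?_ (T5a_famU_basis g) ?_ ?_ ?_ p q h
  · rintro u (⟨c, r, hr, hc, rfl⟩ | ⟨i, z₀, r, ε, hr, hε, hsep, rfl⟩)
    · exact Metric.isOpen_ball.preimage continuous_subtype_val
    · exact (T5a_isOpen_tube g i z₀ r ε).preimage continuous_subtype_val
  · rintro u (⟨c, r, hr, hc, rfl⟩ | ⟨i, z₀, r, ε, hr, hε, hsep, rfl⟩)
    · exact ⟨⟨c, hc (Metric.mem_ball_self hr)⟩, Metric.mem_ball_self hr⟩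
    · have hn : ‖((ε / 2 : ℝ) : ℂ)‖ = ε / 2 := by
        rw [Complex.norm_real, Real.norm_eq_abs, abs_of_pos (half_pos hε)]
      refine ⟨⟨(z₀, g i z₀ + ((ε / 2 : ℝ) : ℂ)), fun j hj => ?_⟩, ?_, ?_⟩
      · simp only at hj
        by_cases hji : j = i
        · subst hji
          have h0 : ((ε / 2 : ℝ) : ℂ) = 0 := by simpa using hj
          rw [h0, norm_zero] at hn
          linarith
        · have h1 := hsep z₀ (by simpa using hr) j hji
          have h2 : g i z₀ - g j z₀ = -((ε / 2 : ℝ) : ℂ) := by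
            rw [← hj]
            ring
          rw [h2, norm_neg, hn] at h1
          linarith
      · show ‖z₀ - z₀‖ < r
        simpa using hr
      · show ‖g i z₀ + ((ε / 2 : ℝ) : ℂ) - g i z₀‖ < ε
        rw [add_sub_cancel_left, hn]
        linarith
  · rintro u (⟨c, r, hr, hc, rfl⟩ | ⟨i, z₀, r, ε, hr, hε, hsep, rfl⟩) x x' hx hx'
    · have hj : JoinedIn (Metric.ball c r) x.1 x'.1 :=
        ((convex_ball c r).isPathConnected ⟨x.1, hx⟩).joinedIn x.1 hx x'.1 hx'
      refine ⟨⟨⟨fun t => ⟨hj.somePath t, hc (hj.somePath_mem t)⟩,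
        Continuous.subtype_mk hj.somePath.continuous _⟩, ?_, ?_⟩, fun t => hj.somePath_mem t⟩
      · apply Subtype.ext
        simp
      · apply Subtype.ext
        simp
    · exact tube_pc g i z₀ r ε hr hε hsep x x' hx hx'
  · rintro u (⟨c, r, hr, hc, rfl⟩ | ⟨i, z₀, r, ε, hr, hε, hsep, rfl⟩) x p hp
    · have hx : x.1 ∈ Metric.ball c r := by
        have h0 := hp 0
        rw [p.source] at h0
        exact h0
      have : ContractibleSpace (Metric.ball c r) :=
        (convex_ball c r).contractibleSpace ⟨c, Metric.mem_ball_self hr⟩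
      let j : C(Metric.ball c r, XX g) :=
        ⟨fun z => ⟨z.1, hc z.2⟩, Continuous.subtype_mk continuous_subtype_val _⟩
      let p' : Path (⟨x.1, hx⟩ : Metric.ball c r) ⟨x.1, hx⟩ :=
        { toFun := fun t => ⟨(p t).1, hp t⟩
          continuous_toFun := Continuous.subtype_mk (continuous_subtype_val.comp p.continuous) _
          source' := by
            apply Subtype.ext
            simp
          target' := by
            apply Subtype.ext
            simp }
      have h1 : (Φ.comap j).val p' = (Φ.comap j).val (Path.refl _) :=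
        PF.val_eq_of_simplyConnected _ _ _
      rw [PF.val_refl] at h1
      have h2 : Φ.val p = (Φ.comap j).val p' := rfl
      rw [h2, h1]
    · exact tube_kill g i z₀ r ε hr hε hsep Φ hk x p hp

end H13K
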